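import Pool.Agent.Helper27.BI.H.Calc

/-!
# Project BI, stage 3 (H): the class of a loop of arcs
-/

set_option autoImplicit false

open scoped Manifold ContDiff Topology ComplexConjugate
open Set Filter Pool.Agent.Helper65.Barb Pool.Agent.Helper18.BI
open Pool.Agent.Helper70.BI (I4 LD Eqv NearEq ld_iff)

namespace Pool.Agent.Helper27.H

theorem isCompact_seg (s₀ s₁ : ℝ) : IsCompact (seg s₀ s₁) := by
  have h : seg s₀ s₁ = (fun s : ℝ => ((s, 0) : R4)) '' Icc s₀ s₁ := by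
    ext ⟨s, x⟩
    constructor
    · rintro ⟨h1, h2, h3⟩
      refine ⟨s, ⟨h1, h2⟩, ?_⟩
      simp only at h3
      rw [h3]
    · rintro ⟨t, ⟨h1, h2⟩, h3⟩
      have e1 : t = s := congrArg Prod.fst h3
      have e2 : (0 : ℝ × ℂ) = x := congrArg Prod.snd h3
      subst e1
      exact ⟨h1, h2, e2.symm⟩
  rw [h]
  exact isCompact_Icc.image (by fun_prop)

theorem mem_seg {s₀ s₁ s : ℝ} (h : s ∈ Icc s₀ s₁) : ((s, 0) : R4) ∈ seg s₀ s₁ :=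
  ⟨h.1, h.2, rfl⟩

theorem eq_of_mem_seg {s₀ s₁ : ℝ} {p : R4} (h : p ∈ seg s₀ s₁) :
    p.1 ∈ Icc s₀ s₁ ∧ p = (p.1, 0) := by
  obtain ⟨h1, h2, h3⟩ := h
  refine ⟨⟨h1, h2⟩, ?_⟩
  rw [← h3]

theorem nearEq_refl (F : R4 → R4) (L : Set R4) : NearEq F F L :=
  ⟨univ, isOpen_univ, subset_univ _, fun _ _ => rfl⟩

theorem nearEq_trans {F G H : R4 → R4} {L : Set R4} (h : NearEq F G L) (h' : NearEq G H L) :
    NearEq F H L := by
  obtain ⟨U, h1, h2, h3⟩ := h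
  obtain ⟨U', h1', h2', h3'⟩ := h'
  exact ⟨U ∩ U', h1.inter h1', subset_inter h2 h2', fun p hp => (h3 hp.1).trans (h3' hp.2)⟩

theorem nearEq_eq {F G : R4 → R4} {L : Set R4} (h : NearEq F G L) {p : R4} (hp : p ∈ L) :
    F p = G p := by
  obtain ⟨U, h1, h2, h3⟩ := h
  exact h3 (h2 hp)

/-- a constant family -/
theorem fam2_const {Q : Set (ℝ × ℝ)} {L V U : Set R4} {G : R4 → R4} (hG : EmbOn I4 G L)
    (h : ∀ p ∈ L, p ∉ V → G p ∈ U) : Fam2 Q L V U (fun _ => G) where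
  smooth a _ p hp := by
    have h1 := (ld_iff.1 (hG.1 p hp)).1
    have h3 : ContinuousAt (fun z : (ℝ × ℝ) × R4 => z.2) (a, p) := continuousAt_snd
    filter_upwards [h3.eventually h1] with z e1
    exact e1.comp z contDiffAt_snd
  emb _ _ := hG
  froz _ _ _ _ _ _ := rfl
  inU _ _ p hp hpV := h p hp hpV

namespace ArcD
variable (D : ArcD)

theorem isCompact_L : IsCompact D.L := isCompact_seg _ _

theorem isOpen_V : IsOpen D.V :=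
  (isOpen_lt continuous_fst continuous_const).union (isOpen_lt continuous_const continuous_fst)

theorem le₀₁ : D.s₀ ≤ D.s₁ := (D.h₀.trans (D.h₁.trans D.h₂)).le

theorem mem_V₀ : ((D.s₀, 0) : R4) ∈ D.V := Or.inl D.h₀

theorem mem_V₁ : ((D.s₁, 0) : R4) ∈ D.V := Or.inr D.h₂

theorem mem_L {s : ℝ} (h : s ∈ Icc D.s₀ D.s₁) : ((s, 0) : R4) ∈ D.L := mem_seg h

theorem core_mem {p : R4} (h : p ∈ D.L) (h0 : p ≠ (D.s₀, 0)) (h1 : p ≠ (D.s₁, 0)) :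
    D.J p ∈ D.U := by
  obtain ⟨⟨h2, h3⟩, h4⟩ := eq_of_mem_seg h
  rw [h4] at h0 h1 ⊢
  rw [D.core _ ⟨h2, h3⟩]
  exact D.mem _ ⟨lt_of_le_of_ne h2 (fun e => h0 (by rw [← e])),
    lt_of_le_of_ne h3 (fun e => h1 (by rw [← e]))⟩

/-- shrinking the frozen part of a family which is equal to the base germ on it -/
theorem fam2_shrink {J : ℝ × ℝ → R4 → R4} {V V' : Set R4} (h : Fam2 Q2 D.L V D.U J)
    (hJ : ∀ p ∈ V, J 0 p = D.J p) (hV : V' ⊆ V) (h0 : ((D.s₀, 0) : R4) ∈ V')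
    (h1 : ((D.s₁, 0) : R4) ∈ V') : Fam2 Q2 D.L V' D.U J := by
  have m0 : (0 : ℝ × ℝ) ∈ Q2 := ⟨by simp, by simp⟩
  refine h.mono subset_rfl subset_rfl hV subset_rfl fun a ha p hp hpV hpV' => ?_
  rw [h.froz a ha 0 m0 p hpV, hJ p hpV]
  exact D.core_mem hp (fun e => hpV' (e ▸ h0)) (fun e => hpV' (e ▸ h1))

end ArcD

section
variable (hCh : StCH4) (hFr : StFRAME) (hTh : StTHK) (hPhi : StPhi) (D : ArcD)

/-- the canonical thick family -/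
noncomputable def ArcD.can (c : ℝ × ℝ × ℝ → R4) (u q : ℝ) : R4 → R4 :=
  thk D.J D.c (fun s => c (u, q, s))

include hTh in
theorem can_fam {c : ℝ × ℝ × ℝ → R4} (hc : D.Htpy c) {u u' : ℝ} (h0 : 0 ≤ u) (h1 : u ≤ u')
    (h2 : u' ≤ 1) (he : ∀ v ∈ Icc u u', ∀ q ∈ Icc (0 : ℝ) 1, D.Imm c v q ∧ D.Inj c v q) :
    Fam2 Q2 D.L D.V D.U (fun a => D.can c (u + a.1 * (u' - u)) a.2) ∧
    (∀ v q, ∀ s ∈ Icc D.s₀ D.s₁, D.can c v q (s, 0) = c (v, q, s)) ∧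
    (∀ v ∈ Icc (0 : ℝ) 1, D.can c v 0 = D.J ∧ D.can c v 1 = D.J) := by
  have hv : ∀ a ∈ Q2, u + a.1 * (u' - u) ∈ Icc u u' := by
    rintro ⟨x, q⟩ ⟨⟨hx1, hx2⟩, -⟩
    simp only at hx1 hx2
    constructor <;> simp only <;> nlinarith
  have hv' : ∀ a ∈ Q2, u + a.1 * (u' - u) ∈ Icc (0 : ℝ) 1 := fun a ha =>
    ⟨h0.trans (hv a ha).1, (hv a ha).2.trans h2⟩
  have key := hTh Q2 D.s₀ D.m₀ D.m₁ D.s₁ D.U D.J D.c
    (fun a s => c (u + a.1 * (u' - u), a.2, s)) D.h₀ D.h₁ D.h₂ D.openU D.emb D.smooth D.core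
    (hc.smooth.comp (by fun_prop))
    (fun a ha s hs => hc.froz _ (hv' a ha) _ ha.2 s hs)
    (fun a ha s hs => hc.inU _ (hv' a ha) _ ha.2 s hs)
    (fun a ha => (he _ (hv a ha) _ ha.2).2)
    (fun a ha s hs => (he _ (hv a ha) _ ha.2).1 s hs)
  -- the same statement for arbitrary parameters, for the values
  have hval : ∀ v q, ∀ s ∈ Icc D.s₀ D.s₁, D.can c v q (s, 0) = c (v, q, s) := by
    intro v q s hs
    unfold ArcD.can thk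
    have : fderiv ℝ D.J (s, 0) ((0 : ℝ), (0 : ℝ × ℂ)) = 0 := by
      have : (((0 : ℝ), (0 : ℝ × ℂ)) : R4) = 0 := rfl
      rw [this, map_zero]
    simp only [this, map_zero, add_zero]
    rw [D.core s hs]
    abel
  refine ⟨key.1, hval, fun v hv => ⟨?_, ?_⟩⟩
  · have e : (fun s => c (v, 0, s)) = D.c := funext fun s => hc.start v hv s
    unfold ArcD.can
    rw [e]
    funext p
    unfold thk
    simp
  · have e : (fun s => c (v, 1, s)) = D.c := funext fun s => hc.stop v hv s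
    unfold ArcD.can
    rw [e]
    funext p
    unfold thk
    simp

include hCh hTh hPhi in
/-- existence, with the canonical thickening -/
theorem can_exists {c : ℝ × ℝ × ℝ → R4} (hc : D.Htpy c) {u : ℝ} (hu : u ∈ Icc (0 : ℝ) 1)
    (he : ∀ q ∈ Icc (0 : ℝ) 1, D.Imm c u q ∧ D.Inj c u q) :
    ∃ Θ χ, LPush D.U D.L (D.can c u) Θ ∧ LIso D.U D.L D.J D.J Θ Θ ∧ D.Phi Θ χ := by
  obtain ⟨h1, h2, h3⟩ := can_fam hTh D hc hu.1 le_rfl hu.2 (fun v hv => by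
    rw [Icc_self] at hv
    rw [hv]
    exact he)
  simp only [sub_self, mul_zero, add_zero] at h1
  obtain ⟨Θ, hΘ⟩ := exists_lpush1 hCh D.isCompact_L D.isOpen_V D.openU
    (J := D.can c u) h1
  have h4 := hΘ.lIso
  rw [(h3 u hu).1, (h3 u hu).2] at h4
  obtain ⟨χ, hχ⟩ := (hPhi D).2.1 Θ Θ h4
  exact ⟨Θ, χ, hΘ, h4, hχ⟩

include hTh in
theorem can_cls {c : ℝ × ℝ × ℝ → R4} (hc : D.Htpy c) {u : ℝ} (hu : u ∈ Icc (0 : ℝ) 1)
    (he : ∀ q ∈ Icc (0 : ℝ) 1, D.Imm c u q ∧ D.Inj c u q) {Θ χ : R4 → R4}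
    (hΘ : LPush D.U D.L (D.can c u) Θ) (hχ : D.Phi Θ χ) : D.Cls (fun q s => c (u, q, s)) χ := by
  obtain ⟨h1, h2, h3⟩ := can_fam hTh D hc hu.1 le_rfl hu.2 (fun v hv => by
    rw [Icc_self] at hv
    rw [hv]
    exact he)
  simp only [sub_self, mul_zero, add_zero] at h1
  refine ⟨D.can c u, fun q _ s hs => h2 u q s hs, D.V, D.isOpen_V, D.mem_V₀, D.mem_V₁, h1,
    fun p _ => by rw [(h3 u hu).1], by rw [(h3 u hu).1]; exact nearEq_refl _ _,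
    by rw [(h3 u hu).2]; exact nearEq_refl _ _, Θ, hΘ, hχ⟩

include hFr hPhi in
theorem cls_unique {c : ℝ → ℝ → R4} {χ χ' : R4 → R4} (h : D.Cls c χ) (h' : D.Cls c χ') :
    CIsot I4 χ χ' := by
  obtain ⟨J, hJ, V, hV, hV0, hV1, hfam, hJV, hJ0, hJ1, Θ, hΘ, hχ⟩ := h
  obtain ⟨J', hJ', V', hV', hV0', hV1', hfam', hJV', hJ0', hJ1', Θ', hΘ', hχ'⟩ := h'
  have f1 := D.fam2_shrink (J := fun a => J a.2) hfam hJV (inter_subset_left (t := V'))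
    ⟨hV0, hV0'⟩ ⟨hV1, hV1'⟩
  have f2 := D.fam2_shrink (J := fun a => J' a.2) hfam' hJV' (inter_subset_right (s := V))
    ⟨hV0, hV0'⟩ ⟨hV1, hV1'⟩
  have key := hFr D (V ∩ V') J J' Θ Θ' (hV.inter hV') ⟨hV0, hV0'⟩ ⟨hV1, hV1'⟩ f1 f2
    (fun q hq s hs => (hJ q hq s hs).trans (hJ' q hq s hs).symm)
    (fun p hp => (hJV p hp.1).trans (hJV' p hp.2).symm)
    (fun s hs => by
      rw [nearEq_eq hJ0 (D.mem_L ⟨hs.1.le, hs.2.le⟩), D.core s ⟨hs.1.le, hs.2.le⟩]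
      exact D.mem s hs)
    (nearEq_trans hJ0 (NearEq.symm hJ0')) (nearEq_trans hJ1 (NearEq.symm hJ1')) hΘ hΘ'
  have key' := key.congr hJ0 hJ1
  exact (hPhi D).2.2.1 Θ' χ χ' key'.symm.refl_of ((hPhi D).1 Θ Θ' χ key' hχ) hχ'

include hPhi in
theorem cls_congr {c : ℝ → ℝ → R4} {χ χ' : R4 → R4} (h : D.Cls c χ) (h' : CIsot I4 χ χ') :
    D.Cls c χ' := by
  obtain ⟨J, hJ, V, hV, hV0, hV1, hfam, hJV, hJ0, hJ1, Θ, hΘ, hχ⟩ := h
  exact ⟨J, hJ, V, hV, hV0, hV1, hfam, hJV, hJ0, hJ1, Θ, hΘ, (hPhi D).2.2.2.2.2.1 Θ χ χ' hχ h'⟩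

include hCh hFr hTh hPhi in
theorem m_Cls : StCls := by
  intro D
  refine ⟨fun c χ χ' h h' => cls_unique hFr hPhi D h h',
    fun c χ χ' h h' => cls_congr hPhi D h h', ?_, ?_, ?_, ?_⟩
  · rintro c χ ⟨J, hJ, V, hV, hV0, hV1, hfam, hJV, hJ0, hJ1, Θ, hΘ, hχ⟩
    exact (hPhi D).2.2.2.2.2.2 Θ χ hχ
  · intro c hc u hu he
    obtain ⟨Θ, χ, h1, h2, h3⟩ := can_exists hCh hTh hPhi D hc hu he
    exact ⟨χ, can_cls hTh D hc hu he h1 h3⟩
  · intro c hc u u' h0 h1 h2 he χ hχ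
    have hu : u ∈ Icc (0 : ℝ) 1 := ⟨h0, h1.trans h2⟩
    have hu' : u' ∈ Icc (0 : ℝ) 1 := ⟨h0.trans h1, h2⟩
    obtain ⟨Θ, χ₀, e1, e2, e3⟩ := can_exists hCh hTh hPhi D hc hu (he u ⟨le_rfl, h1⟩)
    obtain ⟨Θ', χ₁, g1, g2, g3⟩ := can_exists hCh hTh hPhi D hc hu' (he u' ⟨h1, le_rfl⟩)
    have c0 := can_cls hTh D hc hu (he u ⟨le_rfl, h1⟩) e1 e3
    have i1 := cls_unique hFr hPhi D c0 hχ
    obtain ⟨f1, f2, f3⟩ := can_fam hTh D hc h0 h1 h2 he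
    have hN : ∀ v ∈ Icc (0 : ℝ) 1, u + v * (u' - u) ∈ Icc (0 : ℝ) 1 := by
      rintro v ⟨hv1, hv2⟩
      constructor <;> nlinarith
    have key := push_htpy hCh D.isCompact_L D.isOpen_V D.openU
      (J := fun v q => D.can c (u + v * (u' - u)) q) f1
      ⟨univ, isOpen_univ, subset_univ _, fun v hv p _ => by
        rw [(f3 _ (hN v hv)).1, (f3 _ (hN 0 (by simp))).1]⟩
      ⟨univ, isOpen_univ, subset_univ _, fun v hv p _ => by
        rw [(f3 _ (hN v hv)).2, (f3 _ (hN 0 (by simp))).2]⟩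
      (e1.congr ⟨univ, isOpen_univ, subset_univ _, fun q _ p _ => by simp⟩)
      (g1.congr ⟨univ, isOpen_univ, subset_univ _, fun q _ p _ => by simp⟩)
    have key' : LIso D.U D.L D.J D.J Θ Θ' := by
      have := (f3 _ (hN 0 (by simp)))
      rw [this.1, this.2] at key
      exact key
    exact cls_congr hPhi D (can_cls hTh D hc hu' (he u' ⟨h1, le_rfl⟩) g1
      ((hPhi D).1 Θ Θ' χ₀ key' e3)) i1
  · refine ⟨fun _ => D.J, fun q _ s hs => D.core s hs, D.V, D.isOpen_V, D.mem_V₀, D.mem_V₁,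
      fam2_const D.emb (fun p hp hpV => D.core_mem hp (fun e => hpV (e ▸ D.mem_V₀))
        (fun e => hpV (e ▸ D.mem_V₁))), fun _ _ => rfl, nearEq_refl _ _, nearEq_refl _ _,
      fun x => x, LPush.const _, (hPhi D).2.2.2.2.1⟩

end

end Pool.Agent.Helper27.H
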