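import Pool.Agent.Helper27.BI.H.StH1

/-!
# Project BI, stage 3 (H): calculus of pushes of thick arcs
-/

set_option autoImplicit false
set_option linter.unusedSectionVars false
set_option linter.unusedVariables false

open scoped Manifold ContDiff Topology ComplexConjugate
open Set Filter Pool.Agent.Helper65.Barb Pool.Agent.Helper18.BI
open Pool.Agent.Helper70.BI (I4 LD Eqv NearEq)

namespace Pool.Agent.Helper27.H

open Pool.Agent.Helper27.BI (step_zero step_one)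

theorem DFam.g_eq {F : DFam 𝓘(ℝ, R4) R4} {t : ℝ} {p q : R4} (h : F.f (t, p) = q) :
    F.g (t, q) = p := by rw [← h, F.gf]

section supp
variable {U : Set R4}

theorem SuppU.inv {F : DFam 𝓘(ℝ, R4) R4} (h : SuppU U F) : SuppU U F.inv := by
  obtain ⟨K, hK, hK2, h⟩ := h
  exact ⟨K, hK, hK2, fun t x hx => F.support_inv h t hx⟩

theorem SuppU.comp {F G : DFam 𝓘(ℝ, R4) R4} (h : SuppU U F) (h' : SuppU U G) :
    SuppU U (F.comp G) := by
  obtain ⟨K, hK, hK2, h⟩ := h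
  obtain ⟨K', hK', hK2', h'⟩ := h'
  refine ⟨K ∪ K', hK.union hK', union_subset hK2 hK2', fun t x hx => ?_⟩
  have h1 : x ∉ K := fun hx' => hx (Or.inl hx')
  have h2 : x ∉ K' := fun hx' => hx (Or.inr hx')
  change F.f (t, G.f (t, x)) = x
  rw [h' t x h2, h t x h1]

theorem SuppU.reparam {F : DFam 𝓘(ℝ, R4) R4} (h : SuppU U F) (τ : ℝ → ℝ)
    (hτ : ContDiff ℝ ∞ τ) : SuppU U (F.reparam τ hτ) := by
  obtain ⟨K, hK, hK2, h⟩ := h
  exact ⟨K, hK, hK2, fun t x hx => h (τ t) x hx⟩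

theorem SuppU.freeze {F : DFam 𝓘(ℝ, R4) R4} (h : SuppU U F) (t₀ : ℝ) : SuppU U (F.freeze t₀) :=
  h.reparam _ _

theorem SuppU.mono {U' : Set R4} {F : DFam 𝓘(ℝ, R4) R4} (h : SuppU U F) (hU : U ⊆ U') :
    SuppU U' F := by
  obtain ⟨K, hK, hK2, h⟩ := h
  exact ⟨K, hK, hK2.trans hU, h⟩

theorem suppU_one : SuppU U DFam.one :=
  ⟨∅, isCompact_empty, empty_subset _, fun _ _ _ => rfl⟩

end supp

section
variable {U L : Set R4} {J₀ J₁ J₂ φ ψ χ φ' ψ' : R4 → R4}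

theorem LIso.mono {U' L' : Set R4} (h : LIso U L J₀ J₁ φ ψ) (hU : U ⊆ U') (hL : L' ⊆ L) :
    LIso U' L' J₀ J₁ φ ψ := by
  obtain ⟨F, h0, h1, hs, N, hN, hLN, ht⟩ := h
  exact ⟨F, h0, h1, hs.mono hU, N, hN, hL.trans hLN, ht⟩

theorem LIso.congr {J₀' J₁' : R4 → R4} (h : LIso U L J₀ J₁ φ ψ) (h0 : NearEq J₀ J₀' L)
    (h1 : NearEq J₁ J₁' L) : LIso U L J₀' J₁' φ ψ := by
  obtain ⟨F, f0, f1, hs, N, hN, hLN, ht⟩ := h
  obtain ⟨N', hN', hL', e'⟩ := h0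
  obtain ⟨N'', hN'', hL'', e''⟩ := h1
  refine ⟨F, f0, f1, hs, N ∩ (N' ∩ N''), hN.inter (hN'.inter hN''),
    subset_inter hLN (subset_inter hL' hL''), fun t p hp => ?_⟩
  rw [← e' hp.2.1, ← e'' hp.2.2]
  exact ht t p hp.1

theorem LIso.refl_of (h : LIso U L J₀ J₁ φ ψ) : LIso U L J₀ J₁ φ φ := by
  obtain ⟨F, h0, h1, hs, N, hN, hLN, ht⟩ := h
  exact ⟨F.freeze 0, fun x => h0 x, fun x => h0 x, hs.freeze 0, N, hN, hLN,
    fun t p hp => ht 0 p hp⟩

theorem LIso.symm (h : LIso U L J₀ J₁ φ ψ) : LIso U L J₀ J₁ ψ φ := by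
  obtain ⟨F, h0, h1, hs, N, hN, hLN, ht⟩ := h
  have hτ : ContDiff ℝ ∞ (fun t : ℝ => 1 - t) := contDiff_const.sub contDiff_id
  refine ⟨F.reparam (fun t => 1 - t) hτ, fun x => ?_, fun x => ?_, hs.reparam _ _, N, hN, hLN,
    fun t p hp => ht _ p hp⟩
  · change F.f (1 - 0, x) = _
    rw [sub_zero, h1]
  · change F.f (1 - 1, x) = _
    rw [sub_self, h0]

theorem LIso.comp (h' : LIso U L J₁ J₂ φ' ψ') (h : LIso U L J₀ J₁ φ ψ) :
    LIso U L J₀ J₂ (fun x => φ' (φ x)) (fun x => ψ' (ψ x)) := by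
  obtain ⟨F, h0, h1, hs, N, hN, hLN, ht⟩ := h
  obtain ⟨F', h0', h1', hs', N', hN', hLN', ht'⟩ := h'
  refine ⟨F'.comp F, fun x => ?_, fun x => ?_, hs'.comp hs, N ∩ N', hN.inter hN',
    subset_inter hLN hLN', fun t p hp => ?_⟩
  · change F'.f (0, F.f (0, x)) = _
    rw [h0, h0']
  · change F'.f (1, F.f (1, x)) = _
    rw [h1, h1']
  · change F'.f (t, F.f (t, _)) = _
    rw [ht t p hp.1, ht' t p hp.2]

theorem LIso.trans (h : LIso U L J₀ J₁ φ ψ) (h' : LIso U L J₀ J₁ ψ χ) :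
    LIso U L J₀ J₁ φ χ := by
  obtain ⟨F, h0, h1, hs, N, hN, hLN, ht⟩ := h
  obtain ⟨G, g0, g1, gs, N', hN', hLN', gt⟩ := h'
  refine ⟨G.comp ((F.freeze 1).inv.comp F), fun x => ?_, fun x => ?_,
    gs.comp (((hs.freeze 1).inv).comp hs), N ∩ N', hN.inter hN', subset_inter hLN hLN',
    fun t p hp => ?_⟩
  · change G.f (0, F.g (1, F.f (0, x))) = _
    rw [g0, ← h1, F.fg, h0]
  · change G.f (1, F.g (1, F.f (1, x))) = _
    rw [F.gf, g1]
  · change G.f (t, F.g (1, F.f (t, _))) = _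
    rw [ht t p hp.1, DFam.g_eq (ht 1 p hp.1), gt t p hp.2]

/-- a member of an isotopy has an inverse of the same kind -/
theorem LIso.exists_inv (h : LIso U L J₀ J₁ φ φ) :
    ∃ φ' : R4 → R4, LIso U L J₁ J₀ φ' φ' ∧ (∀ x, φ (φ' x) = x) ∧ ∀ x, φ' (φ x) = x := by
  obtain ⟨F, h0, h1, hs, N, hN, hLN, ht⟩ := h
  refine ⟨fun x => F.g (0, x), ⟨F.inv.freeze 0, fun x => rfl, fun x => rfl,
    (hs.inv).freeze 0, N, hN, hLN, fun t p hp => DFam.g_eq (ht 0 p hp)⟩, fun x => ?_, fun x => ?_⟩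
  · have := F.fg 0 x
    rwa [h0] at this
  · have := F.gf 0 x
    rwa [h0] at this

theorem LIso.inv (h : LIso U L J₀ J₁ φ ψ) (hφ : ∀ x, φ (φ' x) = x) (hψ : ∀ x, ψ (ψ' x) = x) :
    LIso U L J₁ J₀ φ' ψ' := by
  obtain ⟨F, h0, h1, hs, N, hN, hLN, ht⟩ := h
  refine ⟨F.inv, fun x => ?_, fun x => ?_, hs.inv, N, hN, hLN, fun t p hp => DFam.g_eq (ht t p hp)⟩
  · have := F.gf 0 (φ' x)
    rw [h0, hφ] at this
    exact this
  · have := F.gf 1 (ψ' x)
    rw [h1, hψ] at this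
    exact this

theorem LIso.one (J : R4 → R4) : LIso U L J J (fun x => x) (fun x => x) :=
  ⟨DFam.one, fun _ => rfl, fun _ => rfl, suppU_one, univ, isOpen_univ, subset_univ _,
    fun _ _ _ => rfl⟩

/-- the relation does not depend on the representing functions -/
theorem LIso.congr_fun (h : LIso U L J₀ J₁ φ ψ) (h1 : ∀ x, φ x = φ' x) (h2 : ∀ x, ψ x = ψ' x) :
    LIso U L J₀ J₁ φ' ψ' := by
  rwa [funext h1, funext h2] at h

/-! ### pushes -/

theorem LPush.mono {U' L' : Set R4} {J : ℝ → R4 → R4} {Θ : R4 → R4} (h : LPush U L J Θ)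
    (hU : U ⊆ U') (hL : L' ⊆ L) : LPush U' L' J Θ := by
  obtain ⟨F, h0', h1, hs, N, hN, hLN, ht⟩ := h
  exact ⟨F, h0', h1, hs.mono hU, N, hN, hL.trans hLN, ht⟩

/-- A push carries the initial germ to the final one. -/
theorem LPush.lIso {J : ℝ → R4 → R4} {Θ : R4 → R4} (h : LPush U L J Θ) :
    LIso U L (J 0) (J 1) Θ Θ := by
  obtain ⟨F, h0, h1, hs, N, hN, hLN, ht⟩ := h
  have h01 : (1 : ℝ) ∈ Icc (0 : ℝ) 1 := by simp
  refine ⟨F.freeze 1, fun x => h1 x, fun x => h1 x, hs.freeze 1, N, hN, hLN, fun t p hp => ?_⟩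
  change F.f (1, _) = _
  rw [ht 1 h01 p hp, step_one]

/-- Two pushes along the same path of germs are isotopic. -/
theorem LPush.unique {J : ℝ → R4 → R4} {Θ Θ' : R4 → R4} (h : LPush U L J Θ)
    (h' : LPush U L J Θ') : LIso U L (J 0) (J 1) Θ Θ' := by
  obtain ⟨F, h0, h1, hs, N, hN, hLN, ht⟩ := h
  obtain ⟨G, g0, g1, gs, N', hN', hLN', gt⟩ := h'
  have h01 : (1 : ℝ) ∈ Icc (0 : ℝ) 1 := by simp
  have hst : ∀ t, step t ∈ Icc (0 : ℝ) 1 := step_mem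
  refine ⟨(F.freeze 1).comp ((F.reparam step contDiff_step).inv.comp
    (G.reparam step contDiff_step)), fun x => ?_, fun x => ?_,
    (hs.freeze 1).comp (((hs.reparam _ _).inv).comp (gs.reparam _ _)), N ∩ N', hN.inter hN',
    subset_inter hLN hLN', fun t p hp => ?_⟩
  · change F.f (1, F.g (step 0, G.f (step 0, x))) = _
    rw [step_zero, g0, DFam.g_eq (h0 x), h1]
  · change F.f (1, F.g (step 1, G.f (step 1, x))) = _
    rw [step_one, F.fg, g1]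
  · change F.f (1, F.g (step t, G.f (step t, _))) = _
    rw [gt _ (hst t) p hp.2, DFam.g_eq (ht _ (hst t) p hp.1), ht 1 h01 p hp.1, step_one]

/-- A push along the reversed path. -/
theorem LPush.reverse {J : ℝ → R4 → R4} {Θ Θ' : R4 → R4} (h : LPush U L J Θ)
    (hΘ : ∀ x, Θ (Θ' x) = x) : LPush U L (fun q => J (1 - q)) Θ' := by
  obtain ⟨F, h0, h1, hs, N, hN, hLN, ht⟩ := h
  have h01 : (1 : ℝ) ∈ Icc (0 : ℝ) 1 := by simp
  have hτ : ContDiff ℝ ∞ (fun t : ℝ => 1 - t) := contDiff_const.sub contDiff_id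
  have hΘ' : ∀ x, F.g (1, x) = Θ' x := fun x => DFam.g_eq (by rw [h1, hΘ])
  have hm : ∀ t ∈ Icc (0 : ℝ) 1, 1 - t ∈ Icc (0 : ℝ) 1 := by
    rintro t ⟨h1, h2⟩; constructor <;> linarith
  refine ⟨(F.reparam (fun t => 1 - t) hτ).comp (F.freeze 1).inv, fun x => ?_, fun x => ?_,
    (hs.reparam _ _).comp (hs.freeze 1).inv, N, hN, hLN, fun t ht' p hp => ?_⟩
  · change F.f (1 - 0, F.g (1, x)) = _
    rw [sub_zero, F.fg]
  · change F.f (1 - 1, F.g (1, x)) = _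
    rw [sub_self, h0, hΘ']
  · change F.f (1 - t, F.g (1, J (1 - 0) p)) = J (1 - step t) p
    have e := ht 1 h01 p hp
    rw [step_one] at e
    rw [sub_zero, DFam.g_eq e, ht _ (hm t ht') p hp, step_symm]

/-- The push along a constant path. -/
theorem LPush.const (J : R4 → R4) : LPush U L (fun _ => J) (fun x => x) :=
  ⟨DFam.one, fun _ => rfl, fun _ => rfl, suppU_one, univ, isOpen_univ, subset_univ _,
    fun _ _ _ _ => rfl⟩

theorem LPush.congr {J J' : ℝ → R4 → R4} {Θ : R4 → R4} (h : LPush U L J Θ)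
    (hJ : ∃ N : Set R4, IsOpen N ∧ L ⊆ N ∧ ∀ q ∈ Icc (0 : ℝ) 1, ∀ p ∈ N, J q p = J' q p) :
    LPush U L J' Θ := by
  obtain ⟨F, h0, h1, hs, N, hN, hLN, ht⟩ := h
  obtain ⟨N', hN', hLN', e'⟩ := hJ
  refine ⟨F, h0, h1, hs, N ∩ N', hN.inter hN', subset_inter hLN hLN', fun t ht' p hp => ?_⟩
  have e := ht t ht' p hp.1
  rw [e' 0 (by simp) p hp.2, e' (step t) (step_mem t) p hp.2] at e
  exact e

/-- The push along a path which is constant near `L`. -/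
theorem LPush.const_of {J : ℝ → R4 → R4}
    (hJ : ∃ N : Set R4, IsOpen N ∧ L ⊆ N ∧ ∀ q ∈ Icc (0 : ℝ) 1, ∀ p ∈ N, J q p = J 0 p) :
    LPush U L J (fun x => x) := by
  refine (LPush.const (U := U) (L := L) (J 0)).congr ?_
  obtain ⟨N, hN, hLN, h⟩ := hJ
  exact ⟨N, hN, hLN, fun q hq p hp => (h q hq p hp).symm⟩

/-- Transport of a push by a diffeomorphism of the support. -/
theorem LPush.conj {J : ℝ → R4 → R4} {Θ Ψ Ψ' : R4 → R4} (h : LPush U L J Θ) {A B : R4 → R4}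
    {L' U' : Set R4} (hΨ : LIso U' L' A B Ψ Ψ) (hi : ∀ x, Ψ (Ψ' x) = x) (hU : U ⊆ U') :
    LPush U' L (fun q p => Ψ (J q p)) (fun x => Ψ (Θ (Ψ' x))) := by
  obtain ⟨F, h0, h1, hs, N, hN, hLN, ht⟩ := h
  obtain ⟨G, g0, g1, gs, -⟩ := hΨ
  have gi : ∀ x, G.g (0, x) = Ψ' x := fun x => DFam.g_eq (by rw [g0, hi])
  refine ⟨(G.freeze 0).comp (F.comp (G.freeze 0).inv), fun x => ?_, fun x => ?_,
    (gs.freeze 0).comp ((hs.mono hU).comp (gs.freeze 0).inv), N, hN, hLN, fun t ht' p hp => ?_⟩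
  · change G.f (0, F.f (0, G.g (0, x))) = _
    rw [h0, G.fg]
  · change G.f (0, F.f (1, G.g (0, x))) = _
    rw [h1, gi, g0]
  · change G.f (0, F.f (t, G.g (0, Ψ (J 0 p)))) = Ψ (J (step t) p)
    rw [← g0 (J 0 p), G.gf, ht t ht' p hp, g0]

/-- A push followed by a smooth family of diffeomorphisms `Q q` (given at time `t` by `G.f (t, ·)`). -/
theorem LPush.mul_fam {J : ℝ → R4 → R4} {Θ : R4 → R4} (h : LPush U L J Θ)
    {G : DFam 𝓘(ℝ, R4) R4} (hG : SuppU U G) {Q : ℝ → R4 → R4}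
    (hQ : ∀ t ∈ Icc (0 : ℝ) 1, ∀ x, G.f (t, x) = Q (step t) x) :
    LPush U L (fun q p => Q q (J q p)) (fun x => G.f (1, Θ (G.g (0, x)))) := by
  obtain ⟨F, h0, h1, hs, N, hN, hLN, ht⟩ := h
  refine ⟨G.comp (F.comp (G.freeze 0).inv), fun x => ?_, fun x => ?_,
    hG.comp (hs.comp (hG.freeze 0).inv), N, hN, hLN, fun t ht' p hp => ?_⟩
  · change G.f (0, F.f (0, G.g (0, x))) = _
    rw [h0, G.fg]
  · change G.f (1, F.f (1, G.g (0, x))) = _
    rw [h1]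
  · change G.f (t, F.f (t, G.g (0, Q 0 (J 0 p)))) = Q (step t) (J (step t) p)
    have e0 := hQ 0 (by simp) (J 0 p)
    rw [step_zero] at e0
    rw [← e0, G.gf, ht t ht' p hp, hQ t ht']

/-- precomposition of the germs with a map preserving `L` -/
theorem LPush.precomp {J : ℝ → R4 → R4} {Θ : R4 → R4} (h : LPush U L J Θ) {L' : Set R4}
    {m : R4 → R4} (hm : ∀ p ∈ L', ContinuousAt m p) (hL : ∀ p ∈ L', m p ∈ L) :
    LPush U L' (fun q p => J q (m p)) Θ := by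
  obtain ⟨F, h0, h1, hs, N, hN, hLN, ht⟩ := h
  refine ⟨F, h0, h1, hs, interior (m ⁻¹' N), isOpen_interior, fun p hp => ?_,
    fun t ht' p hp => ht t ht' (m p) ?_⟩
  · exact mem_interior_iff_mem_nhds.2 ((hm p hp).preimage_mem_nhds (hN.mem_nhds (hLN (hL p hp))))
  · have : p ∈ m ⁻¹' N := interior_subset hp
    exact this

theorem LIso.precomp {L' : Set R4} (h : LIso U L J₀ J₁ φ ψ) {m : R4 → R4}
    (hm : ∀ p ∈ L', ContinuousAt m p) (hL : ∀ p ∈ L', m p ∈ L) :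
    LIso U L' (fun p => J₀ (m p)) (fun p => J₁ (m p)) φ ψ := by
  obtain ⟨F, h0, h1, hs, N, hN, hLN, ht⟩ := h
  refine ⟨F, h0, h1, hs, interior (m ⁻¹' N), isOpen_interior, fun p hp => ?_,
    fun t p hp => ht t (m p) ?_⟩
  · exact mem_interior_iff_mem_nhds.2 ((hm p hp).preimage_mem_nhds (hN.mem_nhds (hLN (hL p hp))))
  · have : p ∈ m ⁻¹' N := interior_subset hp
    exact this

/-! ### existence of pushes, the square lemma -/

theorem isCompact_Q2 : IsCompact Q2 := isCompact_Icc.prod isCompact_Icc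

theorem convex_Q2 : Convex ℝ Q2 := (convex_Icc 0 1).prod (convex_Icc 0 1)

theorem Fam2.mono {Q Q' : Set (ℝ × ℝ)} {L L' V V' U U' : Set R4} {J : ℝ × ℝ → R4 → R4}
    (h : Fam2 Q L V U J) (hQ : Q' ⊆ Q) (hL : L' ⊆ L) (hV : V' ⊆ V) (hU : U ⊆ U')
    (hV' : ∀ a ∈ Q', ∀ p ∈ L', p ∈ V → p ∉ V' → J a p ∈ U') : Fam2 Q' L' V' U' J where
  smooth a ha p hp := h.smooth a (hQ ha) p (hL hp)
  emb a ha := ⟨fun p hp => (h.emb a (hQ ha)).1 p (hL hp), (h.emb a (hQ ha)).2.mono hL⟩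
  froz a ha b hb p hp := h.froz a (hQ ha) b (hQ hb) p (hV hp)
  inU a ha p hp hpV := by
    by_cases h1 : p ∈ V
    · exact hV' a ha p hp h1 hpV
    · exact hU (h.inU a (hQ ha) p (hL hp) h1)

/-- reparametrization of a family by a smooth map of the parameters -/
theorem Fam2.comp {Q Q' : Set (ℝ × ℝ)} {L V U : Set R4} {J : ℝ × ℝ → R4 → R4}
    (h : Fam2 Q L V U J) {θ : ℝ × ℝ → ℝ × ℝ} (hθ : ContDiff ℝ ∞ θ)
    (hm : ∀ a ∈ Q', θ a ∈ Q) : Fam2 Q' L V U (fun a => J (θ a)) where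
  smooth a ha p hp := by
    have h1 := h.smooth (θ a) (hm a ha) p hp
    have h3 : Continuous (fun z : (ℝ × ℝ) × R4 => (θ z.1, z.2)) :=
      (hθ.continuous.comp continuous_fst).prodMk continuous_snd
    have h5 : ContDiff ℝ ∞ (fun z : (ℝ × ℝ) × R4 => (θ z.1, z.2)) :=
      (hθ.comp contDiff_fst).prodMk contDiff_snd
    filter_upwards [(h3.continuousAt (x := (a, p))).eventually h1] with z e1
    exact ContDiffAt.comp (g := fun z : (ℝ × ℝ) × R4 => J z.1 z.2)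
      (f := fun z : (ℝ × ℝ) × R4 => (θ z.1, z.2)) z e1 h5.contDiffAt
  emb a ha := h.emb _ (hm a ha)
  froz a ha b hb p hp := h.froz _ (hm a ha) _ (hm b hb) p hp
  inU a ha p hp hpV := h.inU _ (hm a ha) p hp hpV

section ex
variable (hCh : StCH4) {V : Set R4} (hL : IsCompact L) (hV : IsOpen V) (hU : IsOpen U)
include hCh hL hV hU

/-- Existence of pushes along straight segments of parameters. -/
theorem exists_lpush {Q : Set (ℝ × ℝ)} (hQ : IsCompact Q) (hQc : Convex ℝ Q)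
    {J : ℝ × ℝ → R4 → R4} (h : Fam2 Q L V U J) {a b : ℝ × ℝ} (ha : a ∈ Q) (hb : b ∈ Q) :
    ∃ Θ, LPush U L (fun q => J (a + q • (b - a))) Θ := by
  obtain ⟨P, hP, N, hN, hLN, K, hK, hKU, hPF⟩ := hCh Q L V U J hQ hQc hL hV hU h
  have hst : ∀ t, a + step t • (b - a) ∈ Q := fun t =>
    hQc.add_smul_sub_mem ha hb (step_mem t)
  have hcs : ContDiff ℝ ∞ (fun t : ℝ => a + step t • (b - a)) :=
    contDiff_const.add (contDiff_step.smul contDiff_const)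
  obtain ⟨F, hF, hs, ht⟩ := hPF (fun _ => a) (fun t => a + step t • (b - a)) contDiff_const hcs
    (fun _ => ha) hst
  refine ⟨fun x => F.f (1, x), F, fun x => ?_, fun x => rfl, ⟨K, hK, hKU, hs⟩, N, hN, hLN,
    fun t _ p hp => ?_⟩
  · rw [hF, step_zero, zero_smul, add_zero, hP a ha]
  · simp only [zero_smul, add_zero]
    exact ht t p hp

/-- Existence of pushes for one-parameter families. -/
theorem exists_lpush1 {J : ℝ → R4 → R4} (h : Fam2 Q2 L V U (fun a => J a.2)) :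
    ∃ Θ, LPush U L J Θ := by
  obtain ⟨Θ, h1⟩ := exists_lpush hCh hL hV hU isCompact_Q2 convex_Q2 h
    (a := (0, 0)) (b := (0, 1)) (by simp [Q2]) (by simp [Q2])
  refine ⟨Θ, h1.congr ⟨univ, isOpen_univ, subset_univ _, fun q _ p _ => ?_⟩⟩
  simp

/-- The triangle lemma: pushes along the two ways around a triangle of parameters. -/
theorem triangle4 {Q : Set (ℝ × ℝ)} (hQ : IsCompact Q) (hQc : Convex ℝ Q)
    {J : ℝ × ℝ → R4 → R4} (h : Fam2 Q L V U J) {a b c : ℝ × ℝ} (ha : a ∈ Q) (hb : b ∈ Q)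
    (hc : c ∈ Q) {Θ1 Θ2 Θ3 : R4 → R4}
    (h1 : LPush U L (fun q => J (a + q • (b - a))) Θ1)
    (h2 : LPush U L (fun q => J (b + q • (c - b))) Θ2)
    (h3 : LPush U L (fun q => J (a + q • (c - a))) Θ3) :
    LIso U L (J a) (J c) (fun x => Θ2 (Θ1 x)) Θ3 := by
  obtain ⟨P, hP, N, hN, hLN, K, hK, hKU, hPF⟩ := hCh Q L V U J hQ hQc hL hV hU h
  have edge : ∀ a b : ℝ × ℝ, a ∈ Q → b ∈ Q → ∀ Θ : R4 → R4,
      LPush U L (fun q => J (a + q • (b - a))) Θ → LIso U L (J a) (J b) Θ (P a b) := by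
    intro a b ha hb Θ hΘ
    have hst : ∀ t, a + step t • (b - a) ∈ Q := fun t =>
      hQc.add_smul_sub_mem ha hb (step_mem t)
    have hcs : ContDiff ℝ ∞ (fun t : ℝ => a + step t • (b - a)) :=
      contDiff_const.add (contDiff_step.smul contDiff_const)
    obtain ⟨F, hF, hs, ht⟩ := hPF (fun _ => a) (fun t => a + step t • (b - a)) contDiff_const hcs
      (fun _ => ha) hst
    have hpush : LPush U L (fun q => J (a + q • (b - a))) (P a b) := by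
      refine ⟨F, fun x => ?_, fun x => ?_, ⟨K, hK, hKU, hs⟩, N, hN, hLN, fun t _ p hp => ?_⟩
      · rw [hF, step_zero, zero_smul, add_zero, hP a ha]
      · rw [hF, step_one, one_smul, add_sub_cancel]
      · simp only [zero_smul, add_zero]
        exact ht t p hp
    have e := hΘ.unique hpush
    simp only [zero_smul, add_zero, one_smul, add_sub_cancel] at e
    exact e
  have tri : LIso U L (J a) (J c) (fun x => P b c (P a b x)) (P a c) := by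
    have hm : ∀ t, b + step t • (a - b) ∈ Q := fun t => hQc.add_smul_sub_mem hb ha (step_mem t)
    have hms : ContDiff ℝ ∞ (fun t : ℝ => b + step t • (a - b)) :=
      contDiff_const.add (contDiff_step.smul contDiff_const)
    obtain ⟨F, hF, hs, ht⟩ := hPF (fun _ => a) (fun t => b + step t • (a - b)) contDiff_const hms
      (fun _ => ha) hm
    obtain ⟨G, hG, gs, gt⟩ := hPF (fun t => b + step t • (a - b)) (fun _ => c) hms contDiff_const
      hm (fun _ => hc)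
    refine ⟨G.comp F, fun x => ?_, fun x => ?_, SuppU.comp ⟨K, hK, hKU, gs⟩ ⟨K, hK, hKU, hs⟩,
      N, hN, hLN, fun t p hp => ?_⟩
    · change G.f (0, F.f (0, x)) = _
      rw [hF, hG, step_zero, zero_smul, add_zero]
    · change G.f (1, F.f (1, x)) = _
      rw [hF, hG, step_one, one_smul, add_sub_cancel, hP a ha]
    · change G.f (t, F.f (t, _)) = _
      rw [ht t p hp, gt t p hp]
  exact ((edge b c hb hc Θ2 h2).comp (edge a b ha hb Θ1 h1)).trans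
    (tri.trans (edge a c ha hc Θ3 h3).symm)

/-- The square lemma. -/
theorem square4 {J : ℝ → ℝ → R4 → R4} (h : Fam2 Q2 L V U (fun a => J a.1 a.2))
    {Θ1 Θ2 Θ3 Θ4 : R4 → R4} (h1 : LPush U L (fun q => J 0 q) Θ1)
    (h2 : LPush U L (fun u => J u 1) Θ2) (h3 : LPush U L (fun u => J u 0) Θ3)
    (h4 : LPush U L (fun q => J 1 q) Θ4) :
    LIso U L (J 0 0) (J 1 1) (fun x => Θ2 (Θ1 x)) (fun x => Θ4 (Θ3 x)) := by
  have m00 : ((0 : ℝ), (0 : ℝ)) ∈ Q2 := by simp [Q2]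
  have m01 : ((0 : ℝ), (1 : ℝ)) ∈ Q2 := by simp [Q2]
  have m10 : ((1 : ℝ), (0 : ℝ)) ∈ Q2 := by simp [Q2]
  have m11 : ((1 : ℝ), (1 : ℝ)) ∈ Q2 := by simp [Q2]
  obtain ⟨Θ5, h5⟩ := exists_lpush hCh hL hV hU isCompact_Q2 convex_Q2 h m00 m11
  have t1 := triangle4 hCh hL hV hU isCompact_Q2 convex_Q2 h m00 m01 m11
    (h1.congr ⟨univ, isOpen_univ, subset_univ _, fun q _ p _ => by simp⟩)
    (h2.congr ⟨univ, isOpen_univ, subset_univ _, fun q _ p _ => by simp⟩) h5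
  have t2 := triangle4 hCh hL hV hU isCompact_Q2 convex_Q2 h m00 m10 m11
    (h3.congr ⟨univ, isOpen_univ, subset_univ _, fun q _ p _ => by simp⟩)
    (h4.congr ⟨univ, isOpen_univ, subset_univ _, fun q _ p _ => by simp⟩) h5
  exact t1.trans t2.symm

/-- A homotopy of paths of germs with constant ends does not change the push. -/
theorem push_htpy {J : ℝ → ℝ → R4 → R4} (h : Fam2 Q2 L V U (fun a => J a.1 a.2))
    (h0 : ∃ N : Set R4, IsOpen N ∧ L ⊆ N ∧ ∀ u ∈ Icc (0 : ℝ) 1, ∀ p ∈ N, J u 0 p = J 0 0 p)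
    (h1 : ∃ N : Set R4, IsOpen N ∧ L ⊆ N ∧ ∀ u ∈ Icc (0 : ℝ) 1, ∀ p ∈ N, J u 1 p = J 0 1 p)
    {Θ Θ' : R4 → R4} (hΘ : LPush U L (fun q => J 0 q) Θ) (hΘ' : LPush U L (fun q => J 1 q) Θ') :
    LIso U L (J 0 0) (J 0 1) Θ Θ' := by
  have e := square4 hCh hL hV hU h hΘ (LPush.const_of (J := fun u => J u 1) h1)
    (LPush.const_of (J := fun u => J u 0) h0) hΘ'
  obtain ⟨N, hN, hLN, hh⟩ := h1
  exact e.congr ⟨univ, isOpen_univ, subset_univ _, fun _ _ => rfl⟩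
    ⟨N, hN, hLN, fun p hp => hh 1 (by simp) p hp⟩

/-- Reparametrization of the path. -/
theorem push_reparam {J : ℝ → R4 → R4} (h : Fam2 Q2 L V U (fun a => J a.2)) {ϑ : ℝ → ℝ}
    (hϑ : ContDiff ℝ ∞ ϑ) (hm : ∀ q ∈ Icc (0 : ℝ) 1, ϑ q ∈ Icc (0 : ℝ) 1) (h0 : ϑ 0 = 0)
    (h1 : ϑ 1 = 1) {Θ Θ' : R4 → R4} (hΘ : LPush U L J Θ)
    (hΘ' : LPush U L (fun q => J (ϑ q)) Θ') : LIso U L (J 0) (J 1) Θ Θ' := by
  have hfam : Fam2 Q2 L V U (fun a => J ((1 - a.1) * a.2 + a.1 * ϑ a.2)) := by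
    have hsm : ContDiff ℝ ∞ (fun a : ℝ × ℝ => ((0 : ℝ), (1 - a.1) * a.2 + a.1 * ϑ a.2)) := by
      have : ContDiff ℝ ∞ (fun a : ℝ × ℝ => ϑ a.2) := hϑ.comp contDiff_snd
      fun_prop
    refine h.comp (θ := fun a => ((0 : ℝ), (1 - a.1) * a.2 + a.1 * ϑ a.2))
      hsm ?_
    rintro ⟨u, q⟩ ⟨⟨hu1, hu2⟩, hq⟩
    obtain ⟨h3, h4⟩ := hm q hq
    obtain ⟨hq1, hq2⟩ := hq
    simp only at hu1 hu2 hq1 hq2 h3 h4
    refine ⟨by simp, ?_, ?_⟩ <;> simp only <;> nlinarith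
  have e := push_htpy hCh hL hV hU (J := fun u q => J ((1 - u) * q + u * ϑ q)) hfam
    ⟨univ, isOpen_univ, subset_univ _, fun u _ p _ => by simp [h0]⟩
    ⟨univ, isOpen_univ, subset_univ _, fun u _ p _ => by simp [h1]⟩
    (hΘ.congr ⟨univ, isOpen_univ, subset_univ _, fun q _ p _ => by simp⟩)
    (hΘ'.congr ⟨univ, isOpen_univ, subset_univ _, fun q _ p _ => by simp⟩)
  simpa using e

end ex

end

end Pool.Agent.Helper27.H
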