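import Pool.Agent.Helper27.BI.H.Defs

/-!
# Project BI, stage 3 (H), section 1: chains, thick arcs, framings, classes of loops

Statements (as `Prop` definitions) with complete proofs in the docstrings.  A module `M_X` proves
`theorem m_X : StX` (possibly from other statements as hypotheses `(h : StY)`).
-/

set_option autoImplicit false

open scoped Manifold ContDiff Topology ComplexConjugate
open Set Filter Pool.Agent.Helper65.Barb Pool.Agent.Helper18.BI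
open Pool.Agent.Helper70.BI (I4 LD Eqv NearEq StPT)
open Pool.Agent.Helper34.BI (qmul qinv)

namespace Pool.Agent.Helper27.H

/-- MODULE PTJ (perturbation of the identity with parameters).
*Proof.* As `StPT` (`Pool/Agent/Helper70/BI/M_PT.lean`), with an open set `O` of parameters: for fixed `e ∈ O` the map `x ↦ x + g (e, x)` is
a homeomorphism of `E` (`ApproximatesLinearOn` the identity on `univ` with constant `3/4 < 1`).
`(e, x) ↦ (e, x + g (e, x))` is smooth and bijective on `O ×ˢ univ`, its derivative is injective at every point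
(`‖fderiv (g (e, ·))‖ ≤ 3/4`), so its inverse is smooth by the inverse function theorem. -/
def StPTJ : Prop :=
  ∀ (E' : Type) [NormedAddCommGroup E'] [NormedSpace ℝ E'] [FiniteDimensional ℝ E']
    (E : Type) [NormedAddCommGroup E] [NormedSpace ℝ E] [FiniteDimensional ℝ E]
    (O : Set E') (g : E' × E → E), IsOpen O → ContDiffOn ℝ ∞ g (O ×ˢ univ) →
    (∀ e ∈ O, ∀ x y, ‖g (e, x) - g (e, y)‖ ≤ 3 / 4 * ‖x - y‖) →
    ∃ f' : E' × E → E, ContDiffOn ℝ ∞ f' (O ×ˢ univ) ∧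
      ∀ e ∈ O, ∀ x, f' (e, x) + g (e, f' (e, x)) = x ∧ f' (e, x + g (e, x)) = x

/-- MODULE CH4 (chains of displacements for families of germs).  For a smooth family `J a`, `a` in a compact
convex set `Q` of parameters, of germs of embeddings along a compact set `L`, constant on the open set `V` and
with values in the open set `U` on `L \ V`, there are diffeomorphisms `P a b` of `R4` (with inverses `P' a b`), depending
smoothly on `a, b` in a neighbourhood of `Q`, with `P a a = 1`, supported in a fixed compact subset of `U`, with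
`P a b ∘ J a = J b` on a fixed neighbourhood of `L`.

Proof (uses `StPTJ`, and `StA1`, `StA0` (`hA1`, `hA0` of `Helper18/BI/AsmA.lean`, or `Pool.Agent.Helper70.BI.embOn_iff`)).
(0) `Ĵ (a, p) = (a, J a p)` on `(ℝ × ℝ) × R4` is smooth near `Q × L`; its derivative at `(a, p) ∈ Q × L` is
`(α, v) ↦ (α, .. + D(J a)(p) v)`, injective; `Ĵ` is injective on `Q × L`.  `StA1` (with `V = M = (ℝ × ℝ) × R4`)
gives a partial diffeomorphism `δ` with `Q ×ˢ L ⊆ δ.source` and `δ = Ĵ` on `δ.source`.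
The set `{(a, p) | (a, p) ∈ δ.source, Ĵ smooth near (a, p), J a p ∈ U or p ∈ V}` is a neighbourhood of `Q × L` (on `Q ×ˢ L` the map
`Ĵ` is continuous), so by the generalized tube lemma it contains `A₁ × N₁` for compact neighbourhoods `A₁` of `Q` and `N₁` of `L`.
Let `χ : R4 → ℝ` be smooth with values in `[0,1]`, `χ = 1` on an open `N ⊇ L`, with compact support (`tsupport`) in the
interior of `N₁` (`exists_contMDiff..`/`exists_smooth_one_nhds_of_subset_interior` or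
`exists_contDiff_tsupport_subset` + compactness).
(1) The displacement: `D a b y = χ p • (J b p - J a p)` if `(a, y) ∈ δ.target` and `p = (δ.symm (a, y)).2`, and `0` otherwise.  It is
smooth on `int A₁ × int A₁ × R4`: the set `C = δ '' (A₁ ×ˢ tsupport χ)` is compact, hence closed; if `(a, y) ∉ C` then `D a' b' y' = 0` for
`(a', y')` near `(a, y)` (`a' ∈ A₁`); if `(a, y) ∈ C ⊆ δ.target` the formula holds nearby and `J b' p'` is smooth (`p' ∈ N₁`).
`D a a y = 0`; `D a b y = 0` unless `y = J a p` with `p ∈ tsupport χ`; for `a, b ∈ Q`, `D a b y = 0` unless moreover `p ∉ V`; so for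
`a, b ∈ Q` the support is in the compact set `K = (fun z => J z.1 z.2) '' (Q ×ˢ (tsupport χ \ V)) ⊆ U`.
(2) `∃ η > 0`, for `a, b ∈ Q` with `‖a - b‖ ≤ η` the derivative of `D a b` in `y` has norm `≤ 1/2`: it is
continuous in `(a, b, y)`, zero for `a = b` and zero for `y ∉ K'`, `K'` compact (`K' =` image of
`A₁ ×ˢ tsupport χ`, for all `a ∈ A₁`); uniform continuity on the compact `Q × Q × K'`.  By compactness (of `{(a, b) ∈ Q × Q | ‖a - b‖ ≤ η} × K'`, tube lemma) there is an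
open `O₂ ⊆ int A₁ × int A₁`, containing `{(a, b) ∈ Q × Q | ‖a - b‖ ≤ η}`, on which the norm is `≤ 3/4`; so `D a b` is `3/4`-Lipschitz for `(a, b) ∈ O₂`.
(3) Choose `n ≥ 1` with `diam Q / n ≤ η`, `c k = a + (k/n) • (b - a)` (in `Q` for `a, b ∈ Q`),
`O = {(a, b) | ∀ k < n, (c k, c (k+1)) ∈ O₂}` (open, contains `Q ×ˢ Q`), and
`P a b = S (c (n-1)) (c n) ∘ ⋯ ∘ S (c 0) (c 1)`, `S a b y = y + D a b y`, whose inverse is smooth in all variables by `StPTJ`; induction on the number of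
factors; compare `Pool/Agent/Helper27/BI/M_CH.lean` (same argument).  For `p ∈ N`: `S a b (J a p) = J b p` (`χ p = 1`, `(a, p) ∈ δ.source`). -/
def StCH4J : Prop :=
  ∀ (Q : Set (ℝ × ℝ)) (L V U : Set R4) (J : ℝ × ℝ → R4 → R4), IsCompact Q → Convex ℝ Q →
    IsCompact L → IsOpen V → IsOpen U → Fam2 Q L V U J →
    ∃ (P P' : ℝ × ℝ → ℝ × ℝ → R4 → R4) (O : Set ((ℝ × ℝ) × (ℝ × ℝ))), IsOpen O ∧ Q ×ˢ Q ⊆ O ∧
      ContDiffOn ℝ ∞ (fun z : ((ℝ × ℝ) × (ℝ × ℝ)) × R4 => P z.1.1 z.1.2 z.2) (O ×ˢ univ) ∧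
      ContDiffOn ℝ ∞ (fun z : ((ℝ × ℝ) × (ℝ × ℝ)) × R4 => P' z.1.1 z.1.2 z.2) (O ×ˢ univ) ∧
      (∀ a b, (a, b) ∈ O → ∀ x, P a b (P' a b x) = x ∧ P' a b (P a b x) = x) ∧
      (∀ a ∈ Q, ∀ x, P a a x = x) ∧
      ∃ N : Set R4, IsOpen N ∧ L ⊆ N ∧ ∃ K : Set R4, IsCompact K ∧ K ⊆ U ∧
        ∀ a ∈ Q, ∀ b ∈ Q, (∀ x, x ∉ K → P a b x = x) ∧ ∀ p ∈ N, P a b (J a p) = J b p

/-- Chains along smooth paths of parameters (a corollary of `StCH4J`, see `ch4_of_joint` in `Calc.lean`). -/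
def StCH4 : Prop :=
  ∀ (Q : Set (ℝ × ℝ)) (L V U : Set R4) (J : ℝ × ℝ → R4 → R4), IsCompact Q → Convex ℝ Q →
    IsCompact L → IsOpen V → IsOpen U → Fam2 Q L V U J →
    ∃ P : ℝ × ℝ → ℝ × ℝ → R4 → R4, (∀ a ∈ Q, ∀ x, P a a x = x) ∧
      ∃ N : Set R4, IsOpen N ∧ L ⊆ N ∧ ∃ K : Set R4, IsCompact K ∧ K ⊆ U ∧
      ∀ a b : ℝ → ℝ × ℝ, ContDiff ℝ ∞ a → ContDiff ℝ ∞ b → (∀ t, a t ∈ Q) → (∀ t, b t ∈ Q) →
        ∃ F : DFam 𝓘(ℝ, R4) R4, (∀ t x, F.f (t, x) = P (a t) (b t) x) ∧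
          (∀ t x, x ∉ K → F.f (t, x) = x) ∧ ∀ t, ∀ p ∈ N, F.f (t, J (a t) p) = J (b t) p

/-- PI2 (helper18): `π₂` of the group of linear maps of three-space with positive determinant
is trivial, relative form. -/
def StPI2 : Prop :=
  ∀ M : ℝ × ℝ → (R3 →L[ℝ] R3), ContDiff ℝ ∞ M → (∀ x, 0 < (M x).det) →
    (∀ x, x ∉ Q2 → M x = ContinuousLinearMap.id ℝ R3) →
    ∃ H : ℝ × ℝ × ℝ → (R3 →L[ℝ] R3), ContDiff ℝ ∞ H ∧ (∀ z, 0 < (H z).det) ∧
      (∀ x, H (0, x) = M x) ∧ (∀ x, H (1, x) = ContinuousLinearMap.id ℝ R3) ∧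
      ∀ t x, x ∉ Q2 → H (t, x) = ContinuousLinearMap.id ℝ R3

/-- MODULE FRAME (framings do not matter).  Two paths of thick arcs with the same cores, with the same germs at
both ends of the path and on the frozen part, have isotopic pushes.

Proof (uses `StCH4`, `StPI2`, and the calculus of `Calc.lean`: `LPush.exists`, `square4`, `LPush.reparam`, `LIso.trans`).
Write `L = D.L`.  (a) Reparametrize: let `ϑ q = step (3 q - 1)` (`0` for `q ≤ 1/3`, `1` for `q ≥ 2/3`).  The push along `q ↦ J (ϑ q)` is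
isotopic to the one along `J` (square `J ((1-u) q + u ϑ q)`, left and right edges constant).  So assume that `J q`, `J' q` are
constant for `q ≤ 1/3` and for `q ≥ 2/3` (as germs; `J 0`, `J' 0` agree near `L`, `J 1`, `J' 1` agree near `L`).
(b) Near `L`, `R q = (J q)⁻¹ ∘ J' q` is a smooth family of germs (inverse of the local diffeomorphism
`(q, p) ↦ (q, J q p)`, `StA1` on the compact `[0,1] × L`; `J' q p` is in its target for `p` near `L` because
`J' q p = J q p` for `p ∈ L`).  `R q p = p` for `p ∈ L`, and for `p` near the ends of `L` (in `V`); `R q = id` near `L` for `q ≤ 1/3`,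
`q ≥ 2/3`.  Its derivative at `(s, 0)`, `s ∈ [s₀, s₁]`, maps `(1, 0)` to `(1, 0)`: it is `(σ, v) ↦ (σ + l(q,s) v, M(q,s) v)` with `M(q,s) : R3 →L R3`
invertible; `M = 1`, `l = 0` for `q ≤ 1/3`, `q ≥ 2/3` and for `s` near `s₀`, `s₁`; smooth; `det M > 0` (connectedness of `[0,1] × [s₀,s₁]`).  Extend
`M`, `l` by `1`, `0` outside `[0,1] × [s₀,s₁]`: smooth on `ℝ × ℝ`.
(c) First homotopy: `T τ q (s, y) = (1-τ) • (s + l(q,s) y, M(q,s) y) + τ • R q (s, y)`, `τ ∈ [0,1]`: fixes `L` pointwise, its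
derivative on `L` is the one of `R q`, so `J q ∘ T τ q` is a family of germs (`Fam2 Q2 D.L V' D.U` in the parameters `(τ, q)`,
with `V'` a smaller open neighbourhood of the frozen part on which `R q = id` and `M = 1`, `l = 0`: for the points of `L` near the ends).
The edges `q = 0`, `q = 1` are constant near `L`.  `square4`: the push along `J'` (`τ = 1`) is isotopic to the one along
`q ↦ J q ∘ T 0 q`.
(d) Second homotopy: `T' τ q (s, y) = (s + (1-τ) l(q,s) y, H(τ, q, s) y)`, `H` from `StPI2` (rescale `s` to `[0,1]`): derivative on `L`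
block triangular with positive determinant.  At `τ = 0` it is the linear germ of (c), at `τ = 1` the identity.  `square4` again.
The frozen condition: all germs in the families agree with `J 0` on an open set containing the two ends of `L`;
this is all that is needed (`Fam2` with this smaller `V'`; on `L \ V'` the values are the cores, which are in `U`: the values on
`L ∩ Ioo` are `J q (s, 0)`; for `(s, 0) ∉ V` by hypothesis, for `(s, 0) ∈ V` they are `J 0 (s, 0)`, which must be in `U` for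
`s ∈ (s₀, s₁)`: this is the hypothesis `hmem`). -/
def StFRAME : Prop :=
  ∀ (D : ArcD) (V : Set R4) (J J' : ℝ → R4 → R4) (Θ Θ' : R4 → R4), IsOpen V →
    ((D.s₀, 0) : R4) ∈ V → ((D.s₁, 0) : R4) ∈ V →
    Fam2 Q2 D.L V D.U (fun a => J a.2) → Fam2 Q2 D.L V D.U (fun a => J' a.2) →
    (∀ q ∈ Icc (0 : ℝ) 1, ∀ s ∈ Icc D.s₀ D.s₁, J q (s, 0) = J' q (s, 0)) →
    (∀ p ∈ V, J 0 p = J' 0 p) → (∀ s ∈ Ioo D.s₀ D.s₁, J 0 (s, 0) ∈ D.U) →
    NearEq (J 0) (J' 0) D.L → NearEq (J 1) (J' 1) D.L →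
    LPush D.U D.L J Θ → LPush D.U D.L J' Θ' → LIso D.U D.L (J 0) (J 1) Θ Θ'

/-- The canonical thickening of an arc with core `x` close to the base germ `G` with core `c` (`x` and `c` and
their derivatives `x'`, `c'` are functions of `s`): the normal frame of `G` is transported by the quaternion
`x' (c')⁻¹`. -/
noncomputable def thk (G : R4 → R4) (c x : ℝ → R4) (p : R4) : R4 :=
  G p + (x p.1 - c p.1) +
    qmul (deriv x p.1 - deriv c p.1) (qmul (qinv (deriv c p.1)) (fderiv ℝ G (p.1, 0) (0, p.2)))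

/-- MODULE THK (existence of thick families with given cores).  Let `G` be a germ of an embedding along
`L = seg s₀ s₁` with core `c` (`c` smooth on `ℝ`, `G (s, 0) = c s` for `s ∈ [s₀, s₁]`).  For a smooth family of arcs `x (a, s)`,
`a ∈ ℝ × ℝ`, embedded for `a ∈ Q`, equal to `c` for `s ∉ (m₀, m₁)`, with values in `U` for `s ∈ [m₀, m₁]`, the
thickenings `thk G c (x a)` form a family of germs, with cores `x a`, equal to `G` wherever `x a = c` near `p.1`, and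
frozen on `{p | p.1 < m₀ ∨ m₁ < p.1}`.

Proof.  (Compare `Pool/Agent/Helper34/BI/Thick.lean`, `contDiffAt_thick`, `fderiv_thick`.)  `deriv c s ≠ 0` on
`[s₀, s₁]` (for `s ∈ (s₀, s₁)` it is `DG(s,0)(1,0)`, `DG` is injective; at the ends by continuity of both sides: `deriv c s = DG(s,0)(1,0)`).
Smoothness: all functions are smooth near `Q × L` (`contDiffAt_qinv`).  Derivative at `(s, 0)`, `s ∈ [s₀, s₁]`, in the direction
`(σ, v)`: `DG(σ, v) + σ (x' - c') + qmul (x' - c') (qmul (qinv c') (DG (0, v)))`, and as `DG (1, 0) = c'`, `qmul (qinv c') c' = 1`,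
`x' - c' = qmul (x' - c') (qmul (qinv c') (DG (1, 0)))`; so it is `DG + qmul (x' - c') ∘ qmul (qinv c') ∘ DG = qmul x' ∘ qmul (qinv c') ∘ DG`
(`qmul_qinv_qmul`), injective since `x' ≠ 0`.  (The derivative of the second factor `qmul (qinv (deriv c p.1)) (fderiv ℝ G (p.1, 0) (0, p.2))`
with respect to `p.1` vanishes at `p.2 = 0`.)  Injective on `L`: the values are the cores. -/
def StTHK : Prop :=
  ∀ (Q : Set (ℝ × ℝ)) (s₀ m₀ m₁ s₁ : ℝ) (U : Set R4) (G : R4 → R4) (c : ℝ → R4)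
    (x : ℝ × ℝ → ℝ → R4), s₀ < m₀ → m₀ < m₁ → m₁ < s₁ → IsOpen U → EmbOn I4 G (seg s₀ s₁) →
    ContDiff ℝ ∞ c → (∀ s ∈ Icc s₀ s₁, G (s, 0) = c s) →
    ContDiff ℝ ∞ (fun z : (ℝ × ℝ) × ℝ => x z.1 z.2) →
    (∀ a ∈ Q, ∀ s, (s ≤ m₀ ∨ m₁ ≤ s) → x a s = c s) →
    (∀ a ∈ Q, ∀ s ∈ Icc m₀ m₁, x a s ∈ U) → (∀ a ∈ Q, InjOn (x a) (Icc s₀ s₁)) →
    (∀ a ∈ Q, ∀ s ∈ Icc s₀ s₁, deriv (x a) s ≠ 0) →
    Fam2 Q (seg s₀ s₁) {p | p.1 < m₀ ∨ m₁ < p.1} U (fun a => thk G c (x a)) ∧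
    (∀ a, ∀ s ∈ Icc s₀ s₁, thk G c (x a) (s, 0) = x a s) ∧
    (∀ a p, x a =ᶠ[𝓝 p.1] c → thk G c (x a) p = G p) ∧
    ∀ a b p, x a =ᶠ[𝓝 p.1] x b → thk G c (x a) p = thk G c (x b) p

/-- MODULE PHI (the homomorphism `Phi`).  Proof: `StPush` (`hPush`), `StImp` (`hImp`), `StCI` (`hCI`) of
`Helper18/BI/AsmA.lean`; `D.emb`, `D.embe`, `D.openU`; `D.A` is compact.
(1) If `F` is the family of `LIso`, with support in the compact `K₁ ⊆ U` and `F.f (t, D.J p) = D.J p` for `p ∈ N`: `D.J` is injective and a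
local diffeomorphism on an open `N' ⊇ D.L` (`StA1`), `O = D.J '' (N ∩ N')` is open and contains `D.A`; the support of `F` is in the
compact set `K₂ = K₁ \ O ⊆ U \ A`.  `StPush` for `D.e` and `K₂ ∪ K` (`K` compact from `Phi Θ χ`; `imp` does not depend on the compact set, `StImp` (3)).
(2) existence: `K = K₂` for `F` as in (1), `χ = imp D.e K Θ`, `CIsot χ χ` by `StPush` (constant family `F.freeze`).
(3) uniqueness, (4) products: `K ∪ K'`, `StImp` (4), `StCI`; (5) identity; (6) change of `χ`; (7) `CIsot χ χ`. -/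
def StPhi : Prop :=
  ∀ D : ArcD,
    (∀ Θ Θ' χ, LIso D.U D.L D.J D.J Θ Θ' → D.Phi Θ χ → D.Phi Θ' χ) ∧
    (∀ Θ Θ', LIso D.U D.L D.J D.J Θ Θ' → ∃ χ, D.Phi Θ χ) ∧
    (∀ Θ χ χ', LIso D.U D.L D.J D.J Θ Θ → D.Phi Θ χ → D.Phi Θ χ' → CIsot I4 χ χ') ∧
    (∀ Θ Θ' χ χ', LIso D.U D.L D.J D.J Θ Θ → LIso D.U D.L D.J D.J Θ' Θ' → D.Phi Θ χ →
      D.Phi Θ' χ' → D.Phi (fun x => Θ (Θ' x)) (fun x => χ (χ' x))) ∧
    D.Phi (fun x => x) (fun x => x) ∧
    (∀ Θ χ χ', D.Phi Θ χ → CIsot I4 χ χ' → D.Phi Θ χ') ∧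
    ∀ Θ χ, D.Phi Θ χ → CIsot I4 χ χ

/-- CLS (helper27; uses `StCH4`, `StFRAME`, `StTHK`, `StPhi`).  The class of a loop of arcs: existence, uniqueness,
invariance under homotopies through embedded arcs, constant loops. -/
def StCls : Prop :=
  ∀ D : ArcD,
    (∀ c χ χ', D.Cls c χ → D.Cls c χ' → CIsot I4 χ χ') ∧
    (∀ c χ χ', D.Cls c χ → CIsot I4 χ χ' → D.Cls c χ') ∧
    (∀ c χ, D.Cls c χ → CIsot I4 χ χ) ∧
    (∀ c : ℝ × ℝ × ℝ → R4, D.Htpy c → ∀ u ∈ Icc (0 : ℝ) 1,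
      (∀ q ∈ Icc (0 : ℝ) 1, D.Imm c u q ∧ D.Inj c u q) → ∃ χ, D.Cls (fun q s => c (u, q, s)) χ) ∧
    (∀ c : ℝ × ℝ × ℝ → R4, D.Htpy c → ∀ u u' : ℝ, 0 ≤ u → u ≤ u' → u' ≤ 1 →
      (∀ v ∈ Icc u u', ∀ q ∈ Icc (0 : ℝ) 1, D.Imm c v q ∧ D.Inj c v q) →
      ∀ χ, D.Cls (fun q s => c (u, q, s)) χ → D.Cls (fun q s => c (u', q, s)) χ) ∧
    D.Cls (fun _ s => D.c s) (fun x => x)

/-! ## the chain of the general theorem -/

/-- CROSS (helper34, section 5). -/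
def StCROSS : Prop :=
  ∀ (D : ArcD) (c : ℝ × ℝ × ℝ → R4) (u₀ q₀ a b : ℝ), D.Htpy c → D.Xing c u₀ q₀ a b →
    (∀ u ∈ Icc (0 : ℝ) 1, ∀ q ∈ Icc (0 : ℝ) 1, D.Imm c u q) →
    (∀ u ∈ Icc (0 : ℝ) 1, ∀ q ∈ Icc (0 : ℝ) 1, (u, q) ≠ (u₀, q₀) → D.Inj c u q) →
    ∃ T, D.XG T ∧ ∀ χ₀ χ₁ τ : R4 → R4, D.Cls (fun q s => c (0, q, s)) χ₀ →
      D.Cls (fun q s => c (1, q, s)) χ₁ → Thin I4 (fun p => D.e (T p)) τ →
      CIsot I4 χ₀ (fun x => τ (χ₁ x)) ∨ CIsot I4 χ₁ (fun x => τ (χ₀ x))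

/-- CUSPFAM (helper27, section 6): an explicit family with one transverse double point. -/
def StCUSP : Prop :=
  ∀ D : ArcD, ∃ (c : ℝ × ℝ × ℝ → R4) (u₀ q₀ a b : ℝ), D.Htpy c ∧ D.Xing c u₀ q₀ a b ∧
    (∀ u ∈ Icc (0 : ℝ) 1, ∀ q ∈ Icc (0 : ℝ) 1, D.Imm c u q) ∧
    (∀ u ∈ Icc (0 : ℝ) 1, ∀ q ∈ Icc (0 : ℝ) 1, (u, q) ≠ (u₀, q₀) → D.Inj c u q) ∧
    (∀ q s, c (0, q, s) = D.c s) ∧ ∀ q s, c (1, q, s) = D.c s

/-- NORM + stage 2 (helper70). -/
def StNORM : Prop :=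
  ∀ (D : ArcD) (T T' W : R4 → R4), Pool.Agent.Helper70.BI.IsW W → D.XG T → D.XG T' →
    Pool.Agent.Helper70.BI.MW W (fun p => D.e (T p)) (fun p => D.e (T' p))

/-- GP (helper34, section 4): general position.  Every homotopy of loops of arcs can be replaced by one with the same
ends, consisting of immersed arcs, injective except for finitely many parameters, with different `u`, where there
is one transverse double point. -/
def StGP : Prop :=
  ∀ (D : ArcD) (c : ℝ × ℝ × ℝ → R4), D.Htpy c →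
    (∀ q ∈ Icc (0 : ℝ) 1, D.Imm c 0 q ∧ D.Inj c 0 q) →
    (∀ q ∈ Icc (0 : ℝ) 1, D.Imm c 1 q ∧ D.Inj c 1 q) →
    ∃ c' : ℝ × ℝ × ℝ → R4, D.Htpy c' ∧ (∀ q s, c' (0, q, s) = c (0, q, s)) ∧
      (∀ q s, c' (1, q, s) = c (1, q, s)) ∧
      (∀ u ∈ Icc (0 : ℝ) 1, ∀ q ∈ Icc (0 : ℝ) 1, D.Imm c' u q) ∧
      ∃ B : Finset ℝ, (∀ u ∈ B, u ∈ Ioo (0 : ℝ) 1) ∧
        (∀ u ∈ Icc (0 : ℝ) 1, u ∉ B → ∀ q ∈ Icc (0 : ℝ) 1, D.Inj c' u q) ∧
        ∀ u ∈ B, ∃ q a b, D.Xing c' u q a b ∧ ∀ q' ∈ Icc (0 : ℝ) 1, q' ≠ q → D.Inj c' u q'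

/-- **The homotopy theorem for loops of arcs** (from `StCls`, `StCROSS`, `StCUSP`, `StNORM`, `StGP`, `StMWL`). -/
def StArcH : Prop :=
  ∀ (D : ArcD) (c : ℝ × ℝ × ℝ → R4) (W χ₀ χ₁ : R4 → R4), D.Htpy c →
    (∀ q ∈ Icc (0 : ℝ) 1, D.Imm c 0 q ∧ D.Inj c 0 q) →
    (∀ q ∈ Icc (0 : ℝ) 1, D.Imm c 1 q ∧ D.Inj c 1 q) → Pool.Agent.Helper70.BI.IsW W →
    D.Cls (fun q s => c (0, q, s)) χ₀ → D.Cls (fun q s => c (1, q, s)) χ₁ →
    CIsot I4 χ₁ χ₀ ∨ CIsot I4 χ₁ (fun x => W (χ₀ x))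

end Pool.Agent.Helper27.H
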