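import Pool.Agent.Helper27.BI.H.StH2
import Pool.Agent.Helper34.BI.M_RE
import Pool.Agent.Helper27.BI.GBasic
import Pool.Agent.Helper18.BI.M_A0
import Pool.Agent.Helper18.BI.M_A1

/-!
# Project BI, stage 3 (H), module EHAT: the complement of the wall and the base arc
-/

set_option autoImplicit false

open scoped Manifold ContDiff Topology ComplexConjugate
open Set Filter Pool.Agent.Helper65.Barb Pool.Agent.Helper18.BI
open Pool.Agent.Helper70.BI (I4 NearEq LD ld_iff ld_comp ld_congr)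
open Pool.Agent.Helper27.BI (e1 barPath TIso IsPush StCh StSpin imp_image imp_off)
open Pool.Agent.Helper34.BI (rade)

namespace Pool.Agent.Helper27.H

namespace EHAT

open Pool.Agent.Helper34.BI.RE

private theorem rsq_def (c : ℝ) (p : R4) : rsq c p = (p.2.1 - c) ^ 2 + p.2.2.re ^ 2 + p.2.2.im ^ 2 := rfl

private theorem bounds {p : R4} (h : rsq 1 p ≤ 1 / 9) : 1 / 25 ≤ rsq 0 p ∧ rsq 0 p ≤ (9 / 2) ^ 2 := by
  rw [rsq_def] at h
  rw [rsq_def]
  have h1 := sq_nonneg p.2.2.re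
  have h2 := sq_nonneg p.2.2.im
  have h3 : p.2.1 ≤ 4 / 3 := by nlinarith
  have h4 : 2 / 3 ≤ p.2.1 := by nlinarith
  constructor
  · nlinarith
  · nlinarith

private theorem D_sub {δ : ℝ} (h0 : 0 < δ) : Dreg δ ⊆ K3 δ := by
  rintro p ⟨h1, h2, h3, h4⟩
  obtain ⟨h5, h6⟩ := bounds h4
  exact ⟨⟨by linarith, by linarith, h6⟩, h5, by linarith⟩

private theorem W_sub {δ : ℝ} (h0 : 0 < δ) : wallS δ ⊆ K3 δ := by
  rintro p ⟨h1, h2, h3, h4⟩
  obtain ⟨h5, h6⟩ := bounds (p := p) (by linarith)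
  exact ⟨⟨by linarith, by linarith, h6⟩, h5, h3⟩

private theorem compact_K (δ : ℝ) : IsCompact (K3 δ) := by
  refine Metric.isCompact_of_isClosed_isBounded ?_
    ((isBounded_of_rsq 0 ((9 / 2) ^ 2) (-1) 2).subset (fun p hp => hp.1))
  have e : K3 δ = {p : R4 | -1 ≤ p.1} ∩ {p : R4 | p.1 ≤ 2} ∩ {p : R4 | rsq 0 p ≤ (9 / 2) ^ 2} ∩
      {p : R4 | 1 / 25 ≤ rsq 0 p} ∩ {p : R4 | 1 / 25 - 3 * δ ≤ rsq 1 p} := by
    ext p
    constructor
    · rintro ⟨⟨h1, h2, h3⟩, h4, h5⟩
      exact ⟨⟨⟨⟨h1, h2⟩, h3⟩, h4⟩, h5⟩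
    · rintro ⟨⟨⟨⟨h1, h2⟩, h3⟩, h4⟩, h5⟩
      exact ⟨⟨h1, h2, h3⟩, h4, h5⟩
  rw [e]
  exact ((((isClosed_le continuous_const continuous_fst).inter
    (isClosed_le continuous_fst continuous_const)).inter
    (isClosed_le (continuous_rsq 0) continuous_const)).inter
    (isClosed_le continuous_const (continuous_rsq 0))).inter
    (isClosed_le continuous_const (continuous_rsq 1))

private theorem closed_D (δ : ℝ) : IsClosed (Dreg δ) := by
  have e : Dreg δ = {p : R4 | 0 ≤ p.1} ∩ {p : R4 | p.1 ≤ 1} ∩ {p : R4 | 1 / 25 - δ ≤ rsq 1 p} ∩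
      {p : R4 | rsq 1 p ≤ 1 / 9} := by
    ext p
    constructor
    · rintro ⟨h1, h2, h3, h4⟩
      exact ⟨⟨⟨h1, h2⟩, h3⟩, h4⟩
    · rintro ⟨⟨⟨h1, h2⟩, h3⟩, h4⟩
      exact ⟨h1, h2, h3, h4⟩
  rw [e]
  exact (((isClosed_le continuous_const continuous_fst).inter
    (isClosed_le continuous_fst continuous_const)).inter
    (isClosed_le continuous_const (continuous_rsq 1))).inter
    (isClosed_le (continuous_rsq 1) continuous_const)

/-- points of `Dreg δ` off the wall and the finger -/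
private structure Good (δ : ℝ) (p : R4) : Prop where
  mem : p ∈ Dreg δ
  lt : 1 / 25 - δ < rsq 1 p
  off : ∀ s, 1 / 25 - δ < bfin s ^ 2 → p ≠ (s, z0 s)

variable {δ : ℝ} {T T' : R4 → R4}

private theorem level' (hT : FingOk T T') (p : R4) : (T' p).1 = p.1 := by
  have h := hT.level (T' p)
  rw [hT.right] at h
  exact h.symm

private theorem pos_of_good (hT : FingOk T T') {p : R4} (hp : Good δ p) : 0 < rsq 1 (T' p) := by
  by_contra hn
  push Not at hn
  have h0 : rsq 1 (T' p) = (T' p).2.1 ^ 2 - 2 * (T' p).2.1 + 1 + (T' p).2.2.re ^ 2 + (T' p).2.2.im ^ 2 := by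
    rw [rsq_def]; ring
  have h1 := sq_nonneg ((T' p).2.1 - 1)
  have h2 := sq_nonneg (T' p).2.2.re
  have h3 := sq_nonneg (T' p).2.2.im
  rw [rsq_def] at hn
  have a1 : (T' p).2.1 = 1 := by
    have : ((T' p).2.1 - 1) ^ 2 = 0 := by linarith
    have := pow_eq_zero_iff (two_ne_zero) |>.1 this
    linarith
  have a2 : (T' p).2.2.re = 0 := by
    have : (T' p).2.2.re ^ 2 = 0 := by linarith
    exact pow_eq_zero_iff (two_ne_zero) |>.1 this
  have a3 : (T' p).2.2.im = 0 := by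
    have : (T' p).2.2.im ^ 2 = 0 := by linarith
    exact pow_eq_zero_iff (two_ne_zero) |>.1 this
  have e : T' p = (p.1, e1 + 0) := by
    rw [add_zero]
    refine Prod.ext (level' hT p) (Prod.ext a1 (Complex.ext a2 a3))
  have e2 : p = (p.1, z0 p.1) := by
    have h4 := hT.tube p.1 0 (by simp [nsq])
    rw [← e, hT.right, add_zero] at h4
    exact h4
  have e3 : rsq 1 p = bfin p.1 ^ 2 := by
    rw [e2, rsq_def]
    simp only [z0, e1, Prod.smul_mk, smul_eq_mul, mul_one, smul_zero, Complex.zero_re, Complex.zero_im]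
    ring
  have h5 := hp.lt
  rw [e3] at h5
  exact hp.off p.1 h5 e2

private theorem e0_rsq (hδ : δ ∈ Ioo (0 : ℝ) (1 / 100)) {p : R4} (hp : 0 < rsq 1 (T' p)) :
    rsq 1 (e0 δ T' p) = Pool.Agent.Helper34.BI.qe δ (rsq 1 (T' p)) :=
  rsq_rad (qe_prf hδ.1 (by linarith [hδ.2])) 1 (T' p) hp

private theorem fix' (hT : FingOk T T') {p : R4} (hp : (3 / 10) ^ 2 ≤ rsq 1 p) : T' p = p := by
  have h := congrArg T' (hT.far p hp)
  rw [hT.left] at h
  exact h.symm

private theorem fix'' (hT : FingOk T T') {p : R4} (hp : p.1 ≤ 1 / 10 ∨ 9 / 10 ≤ p.1) : T' p = p := by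
  have h := congrArg T' (hT.out p.1 p.2 hp)
  rw [hT.left] at h
  exact h.symm

private theorem e0_mem (hT : FingOk T T') (hδ : δ ∈ Ioo (0 : ℝ) (1 / 100)) {p : R4} (hp : Good δ p) :
    e0 δ T' p ∈ Dreg δ ∨ e0 δ T' p ∈ wallS δ := by
  have h0 := pos_of_good hT hp
  have h1 := e0_rsq (T' := T') hδ h0
  have h2 : (e0 δ T' p).1 = p.1 := level' hT p
  have h3 : 1 / 25 - 3 * δ ≤ rsq 1 (e0 δ T' p) := by
    rw [h1]
    exact qe_low hδ.1 hδ.2 h0.le
  have h4 : rsq 1 (T' p) ≤ 1 / 9 := by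
    by_contra hn
    push Not at hn
    have h5 := hT.far (T' p) (by norm_num; linarith)
    rw [hT.right] at h5
    rw [← h5] at hn
    have := hp.mem.2.2.2
    linarith
  have h5 : rsq 1 (e0 δ T' p) ≤ 1 / 9 := by
    rw [h1]
    have h6 := (qe_prf hδ.1 (by linarith [hδ.2] : δ < 1)).mono.monotone h4
    rwa [qe_eq hδ.1 (q := 1 / 9) (by linarith [hδ.1])] at h6
  obtain ⟨m1, m2, m3, m4⟩ := hp.mem
  rcases le_or_gt (1 / 25 - δ) (rsq 1 (e0 δ T' p)) with h | h
  · exact Or.inl ⟨by rw [h2]; exact m1, by rw [h2]; exact m2, h, h5⟩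
  · exact Or.inr ⟨by rw [h2]; exact m1, by rw [h2]; exact m2, h3, h.le⟩

/-- `e0` is the identity outside `Dreg δ` near the good points -/
private theorem e0_fix (hT : FingOk T T') (hδ : δ ∈ Ioo (0 : ℝ) (1 / 100)) {q : R4}
    (h1 : 1 / 25 - δ < rsq 1 q) (h2 : q ∉ Dreg δ) : e0 δ T' q = q := by
  have h3 : T' q = q := by
    by_cases a1 : q.1 ≤ 1 / 10
    · exact fix'' hT (Or.inl a1)
    by_cases a2 : 9 / 10 ≤ q.1
    · exact fix'' hT (Or.inr a2)
    apply fix' hT
    by_contra hn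
    push Not at hn a1 a2
    apply h2
    refine ⟨by linarith, by linarith, h1.le, ?_⟩
    norm_num at hn
    linarith
  unfold e0
  rw [h3]
  exact rade_id hδ.1 hδ.2 1 h1.le

private theorem ld_T' (hT : FingOk T T') (p : R4) : LD T' p := by
  rw [ld_iff]
  refine ⟨Eventually.of_forall fun q => hT.smooth'.contDiffAt, ?_⟩
  have d1 := (hT.smooth'.differentiable (by simp) p).hasFDerivAt
  have d2 := (hT.smooth.differentiable (by simp) (T' p)).hasFDerivAt
  have d3 := d2.comp p d1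
  have d4 := d3.congr_of_eventuallyEq (f₁ := fun x : R4 => x)
    (Eventually.of_forall fun q => (hT.right q).symm)
  have d5 := d4.unique (hasFDerivAt_id p)
  intro v w hvw
  have h := congrArg (fderiv ℝ T (T' p)) hvw
  have e : ∀ z, (fderiv ℝ T (T' p)) (fderiv ℝ T' p z) = z := fun z =>
    congrArg (fun A : R4 →L[ℝ] R4 => A z) d5
  rw [e, e] at h
  exact h

private theorem ld_rade (hδ : δ ∈ Ioo (0 : ℝ) (1 / 100)) {p : R4} (hp : 0 < rsq 1 p) :
    LD (rade δ 1) p := by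
  have hf := qe_prf hδ.1 (by linarith [hδ.2] : δ < 1)
  show IsLocalDiffeomorphAt 𝓘(ℝ, R4) 𝓘(ℝ, R4) ∞ (rade δ 1) p
  rw [m_A0 R4 (rade δ 1) p]
  exact ⟨⟨_, R2.isOpen_pos 1, hp, rad_contDiffOn hf 1⟩, fun v hv => rad_fderiv hf 1 p v hp hv⟩

private theorem ld_e0 (hT : FingOk T T') (hδ : δ ∈ Ioo (0 : ℝ) (1 / 100)) {p : R4} (hp : Good δ p) :
    LD (e0 δ T') p :=
  ld_comp (F := rade δ 1) (m := T') (ld_T' hT p) (ld_rade hδ (pos_of_good hT hp))

private theorem inj_e0 (hT : FingOk T T') (hδ : δ ∈ Ioo (0 : ℝ) (1 / 100)) {p q : R4} (hp : Good δ p)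
    (hq : Good δ q) (h : e0 δ T' p = e0 δ T' q) : p = q := by
  have hf := qe_prf hδ.1 (by linarith [hδ.2] : δ < 1)
  have h1 : T' p = T' q := rad_inj hf 1 (pos_of_good hT hp) (pos_of_good hT hq) h
  have h2 := congrArg T h1
  rwa [hT.right, hT.right] at h2

end EHAT

open EHAT in
theorem m_EHAT : StEHAT := by
  intro T T' G δ hT hδ hG
  have hDK := D_sub hδ.1
  have hWK := W_sub hδ.1
  have hKc := compact_K δ
  have hDc : IsCompact (Dreg δ) := hKc.of_isClosed_subset (closed_D δ) hDK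
  have hGD : InjOn G (Dreg δ) := hG.2.mono hDK
  obtain ⟨Φ, hΦ1, hΦ2⟩ := m_A1 R4 R4 R4 I4 R4 G (K3 δ) hKc hG.1 hG.2
  have hΦc : ContinuousOn G (K3 δ) := by
    intro p hp
    exact ((hG.1 p hp).contMDiffAt.continuousAt).continuousWithinAt
  have hGDc : IsClosed (G '' Dreg δ) := (hDc.image_of_continuousOn (hΦc.mono hDK)).isClosed
  -- points of the set in the image of `Dreg`
  have good : ∀ y ∈ (G '' wallS δ)ᶜ \ (fun s => G (s, z0 s)) '' {s | 1 / 25 - δ < bfin s ^ 2},
      ∀ p ∈ Dreg δ, G p = y → Good δ p := by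
    rintro y ⟨h1, h2⟩ p hp rfl
    refine ⟨hp, ?_, ?_⟩
    · by_contra hn
      push Not at hn
      exact h1 ⟨p, ⟨hp.1, hp.2.1, by linarith [hp.2.2.1, hδ.1], hn⟩, rfl⟩
    · intro s hs he
      exact h2 ⟨s, hs, by show G (s, z0 s) = G p; rw [he]⟩
  have hval : ∀ p, Good δ p → imp G (Dreg δ) (e0 δ T') (G p) = G (e0 δ T' p) := fun p hp =>
    imp_image hGD hp.mem
  have hK : ∀ p, Good δ p → e0 δ T' p ∈ K3 δ := fun p hp => by
    rcases e0_mem hT hδ hp with h | h
    · exact hDK h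
    · exact hWK h
  constructor
  · intro y hy
    by_cases hyD : y ∈ G '' Dreg δ
    · obtain ⟨p, hp, hpy⟩ := hyD
      have hgp := good y hy p hp hpy
      have hps : p ∈ Φ.source := hΦ1 (hDK hp)
      have hΦp : Φ p = y := by rw [hΦ2 p hps, hpy]
      have hyt : y ∈ Φ.target := hΦp ▸ Φ.map_source hps
      have hsy : Φ.symm y = p := by
        rw [← hΦp]
        exact Φ.left_inv hps
      have hls : LD Φ.symm y := by
        refine PartialDiffeomorph.isLocalDiffeomorphAt _ _ _ Φ.symm ?_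
        exact hyt
      have hle : LD (fun q => G (e0 δ T' q)) p := ld_comp (F := G) (ld_e0 hT hδ hgp) (hG.1 _ (hK p hgp))
      have hlc : LD (fun z => G (e0 δ T' (Φ.symm z))) y := by
        apply ld_comp (F := fun q => G (e0 δ T' q)) (m := Φ.symm) hls
        rw [hsy]
        exact hle
      refine ld_congr ?_ hlc
      have c1 : ContinuousAt Φ.symm y := hls.contMDiffAt.continuousAt
      have c2 : ∀ᶠ z in 𝓝 y, 1 / 25 - δ < rsq 1 (Φ.symm z) := by
        have c3 : ContinuousAt (fun z => rsq 1 (Φ.symm z)) y :=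
          (continuous_rsq 1).continuousAt.comp c1
        apply c3.eventually (Ioi_mem_nhds _)
        show 1 / 25 - δ < rsq 1 (Φ.symm y)
        rw [hsy]
        exact hgp.lt
      filter_upwards [c2, Φ.open_target.mem_nhds hyt] with z hz1 hz2
      have hz3 : Φ.symm z ∈ Φ.source := Φ.map_target hz2
      have hz4 : G (Φ.symm z) = z := by
        rw [← hΦ2 _ hz3]
        exact Φ.right_inv hz2
      by_cases hzD : Φ.symm z ∈ Dreg δ
      · have h5 : imp G (Dreg δ) (e0 δ T') (G (Φ.symm z)) = G (e0 δ T' (Φ.symm z)) :=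
          imp_image hGD hzD
        rw [hz4] at h5
        exact h5.symm
      · rw [e0_fix hT hδ hz1 hzD, hz4]
        symm
        apply imp_off
        rintro ⟨r, hr, hrz⟩
        have hr1 : r ∈ Φ.source := hΦ1 (hDK hr)
        have h6 : Φ r = z := by rw [hΦ2 r hr1, hrz]
        have h7 : Φ.symm z = r := by rw [← h6]; exact Φ.left_inv hr1
        rw [h7] at hzD
        exact hzD hr
    · have hid : LD (fun z : R4 => z) y := by
        rw [ld_iff]
        refine ⟨Eventually.of_forall fun q => contDiffAt_id, ?_⟩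
        have : fderiv ℝ (fun z : R4 => z) y = ContinuousLinearMap.id ℝ R4 := fderiv_id
        rw [this]
        exact fun v w h => h
      refine ld_congr ?_ hid
      filter_upwards [hGDc.isOpen_compl.mem_nhds hyD] with z hz
      exact (imp_off hz).symm
  · intro y hy y' hy' he
    by_cases hyD : y ∈ G '' Dreg δ
    · obtain ⟨p, hp, hpy⟩ := hyD
      have hgp := good y hy p hp hpy
      by_cases hyD' : y' ∈ G '' Dreg δ
      · obtain ⟨p', hp', hpy'⟩ := hyD'
        have hgp' := good y' hy' p' hp' hpy'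
        rw [← hpy, ← hpy', hval p hgp, hval p' hgp'] at he
        have h1 := hG.2 (hK p hgp) (hK p' hgp') he
        rw [← hpy, ← hpy', inj_e0 hT hδ hgp hgp' h1]
      · rw [imp_off hyD', ← hpy, hval p hgp] at he
        exfalso
        rcases e0_mem hT hδ hgp with h | h
        · exact hyD' ⟨_, h, he⟩
        · exact hy'.1 ⟨_, h, he⟩
    · by_cases hyD' : y' ∈ G '' Dreg δ
      · obtain ⟨p', hp', hpy'⟩ := hyD'
        have hgp' := good y' hy' p' hp' hpy'
        rw [imp_off hyD, ← hpy', hval p' hgp'] at he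
        exfalso
        rcases e0_mem hT hδ hgp' with h | h
        · exact hyD ⟨_, h, he.symm⟩
        · exact hy.1 ⟨_, h, he.symm⟩
      · rwa [imp_off hyD, imp_off hyD'] at he

end Pool.Agent.Helper27.H
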