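import Pool.Agent.Helper27.BI.H.Hcls
import Pool.Agent.Helper27.BI.H.M_EHAT
import Pool.Agent.Helper27.BI.AsmC

/-!
# Project BI, stage 3 (H): HAT, the choice of the constants
-/

set_option autoImplicit false
set_option linter.unusedSectionVars false
set_option linter.unusedVariables false

open scoped Manifold ContDiff Topology ComplexConjugate
open Set Filter Pool.Agent.Helper65.Barb Pool.Agent.Helper18.BI
open Pool.Agent.Helper27.BI
open Pool.Agent.Helper34.BI (rade qe)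
open Pool.Agent.Helper18.BI.H (neckE)
open Pool.Agent.Helper70.BI (I4 LD NearEq ld_iff embOn_iff ld_congr ld_comp embOn_comp contDiff_dfam ld_dfam)

namespace Pool.Agent.Helper27.H

theorem hCh5 : StCh5 := m_CH5 m_PERT

theorem hFING : StFING := m_FING hCh hCh5 hSpin

theorem hHARC : StHARC := m_HARC m_EHAT

/-- the flat shell inside the sphere `sph 1` -/
def shell (δ : ℝ) : Set R4 := {p | p.1 = 1 / 2 ∧ 1 / 25 - 3 * δ ≤ rsq 1 p ∧ rsq 1 p ≤ 1 / 25}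

theorem shell_flat (δ : ℝ) : shell δ ⊆ flat 1 := fun p hp => ⟨hp.1, hp.2.2⟩

theorem isCompact_shell (δ : ℝ) : IsCompact (shell δ) := by
  apply (S4.cpt_flat 1).of_isClosed_subset _ (shell_flat δ)
  exact (isClosed_eq continuous_fst continuous_const).inter
    ((isClosed_le continuous_const (continuous_rsq 1)).inter
      (isClosed_le (continuous_rsq 1) continuous_const))

/-- thin shells are in any neighbourhood of the sphere -/
theorem exists_shell {O : Set R4} (hO : IsOpen O) (h : sph 1 ⊆ O) :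
    ∃ δ ∈ Ioo (0 : ℝ) (1 / 100), shell δ ⊆ O := by
  have hc : IsCompact (shell (1 / 200) \ O) := (isCompact_shell _).diff hO
  rcases (shell (1 / 200) \ O).eq_empty_or_nonempty with h0 | h0
  · exact ⟨1 / 200, by norm_num, sdiff_eq_empty.1 h0⟩
  obtain ⟨x, hx, hmax⟩ := hc.exists_isMaxOn h0 (continuous_rsq 1).continuousOn
  have hlt : rsq 1 x < 1 / 25 := by
    refine lt_of_le_of_ne hx.1.2.2 fun h1 => hx.2 (h ⟨hx.1.1, h1⟩)
  set δ : ℝ := min (1 / 200) ((1 / 25 - rsq 1 x) / 6) with hδ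
  have hδ0 : 0 < δ := lt_min (by norm_num) (by linarith)
  have hδ1 : δ ≤ 1 / 200 := min_le_left _ _
  have hδ2 : δ ≤ (1 / 25 - rsq 1 x) / 6 := min_le_right _ _
  refine ⟨δ, ⟨hδ0, by linarith⟩, fun p hp => ?_⟩
  by_contra hpO
  have hp' : p ∈ shell (1 / 200) \ O := ⟨⟨hp.1, by linarith [hp.2.1], hp.2.2⟩, hpO⟩
  have h1 : rsq 1 p ≤ rsq 1 x := hmax hp'
  linarith [hp.2.1]

theorem sq0_K3 {δ : ℝ} {p : R4} (hp : p ∈ K3 δ) : sq 0 p ∈ SP ∪ shell δ := by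
  rcases le_or_gt (1 / 25) (rsq 1 p) with h | h
  · left
    apply hS4.1
    refine ⟨le_trans (by norm_num) hp.2.1, le_trans (by norm_num) h⟩
  · right
    rw [hS4.2.2.1 p (Or.inr (Or.inl h.le))]
    exact ⟨rfl, hp.2.2, h.le⟩

theorem sq0_near {δ : ℝ} {p : R4} (hp : p ∈ K3 δ) (hp' : rsq 1 p ≤ 1 / 9) :
    sq 0 p ∈ shell δ ∪ (sph 1 ∪ neckE) := by
  rcases le_or_gt (1 / 25) (rsq 1 p) with h | h
  · right
    have h1 : sq 0 p ∈ SP := by
      apply hS4.1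
      exact ⟨le_trans (by norm_num) hp.2.1, le_trans (by norm_num) h⟩
    have h2 : 2 / 3 ≤ p.2.1 := by
      rw [rsq_eq'] at hp'
      have hs1 := sq_nonneg p.2.2.re
      have hs2 := sq_nonneg p.2.2.im
      have hs3 : (p.2.1 - 1) ^ 2 ≤ (1 / 3) ^ 2 := by linarith
      have hs4 := (abs_le_of_sq_le_sq' hs3 (by norm_num)).1
      linarith
    have h3 : 2 / 3 ≤ (sq 0 p).2.1 := by
      show 2 / 3 ≤ axc 0 p.2.1
      rcases le_or_gt p.2.1 (6 / 5) with h4 | h4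
      · rw [S4.axc0_mid (by linarith) h4]; exact h2
      · rw [S4.axc0_right h4.le]; norm_num
    rcases h1 with (h1 | h1) | h1
    · exfalso
      have h4 := h1.2
      rw [rsq_eq'] at h4
      have hs1 := sq_nonneg (sq 0 p).2.2.re
      have hs2 := sq_nonneg (sq 0 p).2.2.im
      have hs3 : ((sq 0 p).2.1 - 0) ^ 2 ≤ (1 / 5) ^ 2 := by linarith
      have hs4 := (abs_le_of_sq_le_sq' hs3 (by norm_num)).2
      linarith
    · exact Or.inl h1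
    · exact Or.inr ⟨h1, by linarith⟩
  · left
    rw [hS4.2.2.1 p (Or.inr (Or.inl h.le))]
    exact ⟨rfl, hp.2.2, h.le⟩

theorem emb_open {F : R4 → R4} {L : Set R4} (hL : IsCompact L) (hF : EmbOn I4 F L) :
    ∃ O : Set R4, IsOpen O ∧ L ⊆ O ∧ EmbOn I4 F O ∧ ContinuousOn F O := by
  obtain ⟨ε, hε1, hε2⟩ := m_A1 R4 R4 R4 I4 R4 F L hL hF.1 hF.2
  have h1 : EmbOn I4 F ε.source := by
    refine ⟨fun p hp => ⟨ε, hp, fun q hq => (hε2 q hq).symm⟩, ?_⟩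
    intro p hp p' hp' h
    rw [← hε2 p hp, ← hε2 p' hp'] at h
    exact ε.toPartialEquiv.injOn hp hp' h
  refine ⟨ε.source, ε.open_source, hε1, h1, ?_⟩
  have h2 : ContinuousOn ε ε.source := ε.contMDiffOn_toFun.continuousOn
  exact h2.congr fun p hp => (hε2 p hp).symm

/-- compression of a compact set into an open set -/
theorem exists_eps {K U : Set R4} (hK : IsCompact K) (hU : IsOpen U) (h : ∀ p ∈ K, sq 0 p ∈ U) :
    ∃ ε₀ > 0, ∀ ε ∈ Ioo (0 : ℝ) ε₀, ∀ p ∈ K, sq ε p ∈ U := by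
  obtain ⟨ε₀, h0, h1⟩ := (hS5 K (univ ×ˢ U) hK (isOpen_univ.prod hU)).1
    (fun t _ p hp => ⟨mem_univ _, h p hp⟩)
  exact ⟨ε₀, h0, fun ε hε p hp => (h1 ε hε 0 (by simp) p hp).2⟩

theorem continuous_sq {ε : ℝ} (hε : 0 < ε) : Continuous (sq ε) := by
  have h := ((hS6.1 ε hε).1)
  exact continuous_iff_continuousAt.2 fun p => (ld_iff.1 (h p (mem_univ p))).1.self_of_nhds.continuousAt

/-- **HAT.** -/
theorem hHAT : StHAT := by
  intro F F' φ φ' V hF hF' hV hVs hFF hφ hφ' κ hκ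
  obtain ⟨T, T', FΛ, hT, hΛ, hiso⟩ := hFING
  obtain ⟨O, hO, hSPO, hFO, hFc⟩ := emb_open hS4.2.2.2.2.2.2.2.2.1 hF
  obtain ⟨O', hO', hSPO', hFO', hFc'⟩ := emb_open hS4.2.2.2.2.2.2.2.2.1 hF'
  have hsphSP : sph 1 ⊆ SP := fun p hp => Or.inl (Or.inr hp)
  -- the neighbourhood of the fixed cuff
  have hW : IsOpen (O ∩ F ⁻¹' (Metric.thickening κ (F '' sph 1))) :=
    hFc.isOpen_inter_preimage hO Metric.isOpen_thickening
  have hsub1 : sph 1 ⊆ F ⁻¹' (Metric.thickening κ (F '' sph 1)) := by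
    intro p hp
    have hq : F p ∈ F '' sph 1 := mem_image_of_mem F hp
    exact Metric.self_subset_thickening hκ (F '' sph 1) hq
  have hsub2 : sph 1 ⊆ V := fun p hp => hVs (mem_union_left _ hp)
  have hsub : sph 1 ⊆ (O ∩ F ⁻¹' (Metric.thickening κ (F '' sph 1))) ∩ (O' ∩ V) :=
    subset_inter (subset_inter (hsphSP.trans hSPO) hsub1)
      (subset_inter (hsphSP.trans hSPO') hsub2)
  obtain ⟨δ, hδ, hsh⟩ := exists_shell (hW.inter (hO'.inter hV)) hsub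
  have hLc : IsCompact (SP ∪ shell δ) := (hS4.2.2.2.2.2.2.2.2.1).union (isCompact_shell δ)
  have hFL : EmbOn I4 F (SP ∪ shell δ) := BI.EmbOn.mono hFO
    (union_subset hSPO fun p hp => (hsh hp).1.1)
  have hFL' : EmbOn I4 F' (SP ∪ shell δ) := BI.EmbOn.mono hFO'
    (union_subset hSPO' fun p hp => (hsh hp).2.1)
  obtain ⟨ε1, h1, e1⟩ := hT6 R4 R4 I4 R4 F (K3 δ) _ (isCompact_K3 δ) hLc (fun p hp => sq0_K3 hp) hFL
  obtain ⟨ε2, h2, e2⟩ := hT6 R4 R4 I4 R4 F' (K3 δ) _ (isCompact_K3 δ) hLc (fun p hp => sq0_K3 hp) hFL'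
  have hnc : IsCompact {p : R4 | p ∈ K3 δ ∧ rsq 1 p ≤ 1 / 9} :=
    (isCompact_K3 δ).inter_right (isClosed_le (continuous_rsq 1) continuous_const)
  obtain ⟨ε3, h3, e3⟩ := exists_eps hnc hV (by
    intro p hp
    rcases sq0_near hp.1 hp.2 with h | h
    · exact (hsh h).2.2
    · exact hVs h)
  obtain ⟨ε4, h4, e4⟩ := exists_eps (isCompact_wall hδ) hW (by
    intro p hp
    have h5 : sq 0 p = (1 / 2, p.2) := hS4.2.2.1 p (Or.inr (Or.inl (by linarith [hp.2.2.2, hδ.1])))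
    have h6 : ((1 / 2, p.2) : R4) ∈ shell δ :=
      ⟨rfl, hp.2.2.1, by show rsq 1 p ≤ 1 / 25; linarith [hp.2.2.2, hδ.1]⟩
    rw [h5]
    exact (hsh h6).1)
  obtain ⟨ε5, h5, e5⟩ := hφ
  obtain ⟨ε6, h6, e6⟩ := hφ'
  refine ⟨min (min (min ε1 ε2) (min ε3 ε4)) (min ε5 ε6), by positivity, ?_⟩
  rintro ε ⟨hε, hε'⟩
  have i1 : ε ∈ Ioo 0 ε1 := ⟨hε, lt_of_lt_of_le hε' ((min_le_left _ _).trans
    ((min_le_left _ _).trans (min_le_left _ _)))⟩
  have i2 : ε ∈ Ioo 0 ε2 := ⟨hε, lt_of_lt_of_le hε' ((min_le_left _ _).trans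
    ((min_le_left _ _).trans (min_le_right _ _)))⟩
  have i3 : ε ∈ Ioo 0 ε3 := ⟨hε, lt_of_lt_of_le hε' ((min_le_left _ _).trans
    ((min_le_right _ _).trans (min_le_left _ _)))⟩
  have i4 : ε ∈ Ioo 0 ε4 := ⟨hε, lt_of_lt_of_le hε' ((min_le_left _ _).trans
    ((min_le_right _ _).trans (min_le_right _ _)))⟩
  have i5 : ε ∈ Ioo 0 ε5 := ⟨hε, lt_of_lt_of_le hε' ((min_le_right _ _).trans (min_le_left _ _))⟩
  have i6 : ε ∈ Ioo 0 ε6 := ⟨hε, lt_of_lt_of_le hε' ((min_le_right _ _).trans (min_le_right _ _))⟩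
  have f1 := e5 ε i5
  have f2 := e6 ε i6
  have f3 := e1 ε i1
  have f4 := e2 ε i2
  have eG : F ∘ sq ε = fun p => F (sq ε p) := rfl
  have eG' : F' ∘ sq ε = fun p => F' (sq ε p) := rfl
  rw [eG] at f1 f3
  rw [eG'] at f2 f4
  have hG : EmbOn I4 (fun p => F (sq ε p)) (K3 δ) := f3.1
  have hG' : EmbOn I4 (fun p => F' (sq ε p)) (K3 δ) := f4.1
  obtain ⟨D, hD⟩ := hHARC T T' (fun p => F (sq ε p)) δ hT hδ hG
  have hn : NearEq (fun p => F (sq ε p)) (fun p => F' (sq ε p)) {p | p ∈ K3 δ ∧ rsq 1 p ≤ 1 / 9} :=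
    ⟨sq ε ⁻¹' V, hV.preimage (continuous_sq hε), fun p hp => e3 ε i3 p hp, fun p hp => hFF hp⟩
  have hn0 : NearEq (fun p => F (sq ε p)) (fun p => F (sq ε p))
      {p | p ∈ K3 δ ∧ rsq 1 p ≤ 1 / 9} := ⟨univ, isOpen_univ, subset_univ _, fun p _ => rfl⟩
  obtain ⟨c1, c2⟩ := m_HCLS T T' (fun p => F (sq ε p)) (fun p => F (sq ε p)) φ FΛ δ D hT hΛ hiso hδ
    hG hD hG hn0 f1.2
  obtain ⟨c3, c4⟩ := m_HCLS T T' (fun p => F (sq ε p)) (fun p => F' (sq ε p)) φ' FΛ δ D hT hΛ hiso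
    hδ hG hD hG' hn f2.2
  refine ⟨D, hD.m₀, hD.m₁, hD.s₀.2, hD.s₁.1, ?_, ?_, c1, c3, ?_⟩
  rotate_left 2
  · intro q hq
    obtain ⟨a1, a2⟩ := c2 q hq
    obtain ⟨a3, a4⟩ := c4 q hq
    exact ⟨⟨a1, a2⟩, a3, a4⟩
  · intro x hx
    rw [hD.U] at hx
    obtain ⟨p, hp, rfl⟩ := not_not.1 hx
    have h7 : F (sq ε p) ∈ Metric.thickening κ (F '' sph 1) := (e4 ε i4 p hp).2
    obtain ⟨y, hy, hd⟩ := Metric.mem_thickening_iff.1 h7
    exact ⟨y, hy, hd⟩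
  · intro s hs
    have hs' : s ∈ Icc D.s₀ D.s₁ := ⟨by linarith [hs.1, hD.s₀.2], by linarith [hs.2, hD.s₁.1]⟩
    rw [← D.core s hs', hD.J]
    show F (sq ε (s, z0 s + 0)) = _
    rw [add_zero]

end Pool.Agent.Helper27.H
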