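import Pool.Agent.Helper27.BI.M_CH
import Pool.Agent.Helper27.BI.M_PERT

/-!
# Project BI, stage 3 (H): chains in three-space, with additional properties

As `StCh`, and moreover: the maps are level preserving, and nothing moves in levels where the arcs do
not move.
-/

set_option autoImplicit false

open scoped Manifold ContDiff Topology ComplexConjugate
open Set Pool.Agent.Helper65.Barb Pool.Agent.Helper18.BI Pool.Agent.Helper27.BI

namespace Pool.Agent.Helper27.H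

section
variable {ι : Type} [Fintype ι]

theorem Q_fst {ρ : ℝ} {Γ : ι → ℝ → ℝ → ℝ → R3} {N : ℕ} {a b : ℝ × ℝ} (p : R4) (k : ℕ) :
    (CH.Q ρ Γ N a b k p).1 = p.1 := by
  induction k with
  | zero => rfl
  | succ k ih =>
    show (CH.ds ρ Γ (CH.ip N a b k) (CH.ip N a b (k + 1)) (CH.Q ρ Γ N a b k p)).1 = p.1
    exact ih

theorem Q_static {ρ : ℝ} (hρ : 0 < ρ) {Γ : ι → ℝ → ℝ → ℝ → R3} {N : ℕ} {a b : ℝ × ℝ} {s : ℝ}
    {x : R3} (k : ℕ) (hk : k ≤ N)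
    (h : ∀ i, ∀ m < N, Γ i (CH.ip N a b (m + 1)).1 (CH.ip N a b (m + 1)).2 s =
        Γ i (CH.ip N a b m).1 (CH.ip N a b m).2 s) :
    CH.Q ρ Γ N a b k (s, x) = (s, x) := by
  induction k with
  | zero => rfl
  | succ k ih =>
    show CH.ds ρ Γ (CH.ip N a b k) (CH.ip N a b (k + 1)) (CH.Q ρ Γ N a b k (s, x)) = (s, x)
    rw [ih (by omega)]
    exact CH.ds_fix hρ (Or.inl fun i => h i k (by omega))

end

/-- Chains, with additional properties. -/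
def StCh5 : Prop :=
  ∀ (ι : Type) (_ : Fintype ι) (O : Set R4) (ρ : ℝ) (Γ : ι → ℝ → ℝ → ℝ → R3), 0 < ρ →
    SqOk O ρ Γ →
    ∃ P : ℝ × ℝ → ℝ × ℝ → R4 → R4, (∀ q x, P q q x = x) ∧
      ∀ a b : ℝ → ℝ × ℝ, ContDiff ℝ ∞ a → ContDiff ℝ ∞ b →
        (∀ t, a t ∈ Icc (0 : ℝ) 1 ×ˢ Icc (0 : ℝ) 1) →
        (∀ t, b t ∈ Icc (0 : ℝ) 1 ×ˢ Icc (0 : ℝ) 1) →
        ∃ F : DFam 𝓘(ℝ, R4) R4, (∀ t x, F.f (t, x) = P (a t) (b t) x) ∧ SuppB F ∧
          (∀ t, ∀ x ∈ O, F.f (t, x) = x) ∧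
          (∀ t i s y, nsq y ≤ ρ ^ 2 →
            F.f (t, (s, Γ i (a t).1 (a t).2 s + y)) = (s, Γ i (b t).1 (b t).2 s + y)) ∧
          (∀ t s x, (∀ i, ∀ τ ∈ Icc (0 : ℝ) 1, (2 * ρ) ^ 2 ≤
              nsq (x - Γ i ((a t).1 + τ * ((b t).1 - (a t).1))
                ((a t).2 + τ * ((b t).2 - (a t).2)) s)) →
            F.f (t, (s, x)) = (s, x)) ∧
          (∀ t p, (F.f (t, p)).1 = p.1) ∧
          ∀ t s, (∀ i, ∀ τ ∈ Icc (0 : ℝ) 1,
              Γ i ((a t).1 + τ * ((b t).1 - (a t).1)) ((a t).2 + τ * ((b t).2 - (a t).2)) s =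
                Γ i (a t).1 (a t).2 s) → ∀ x, F.f (t, (s, x)) = (s, x)

open CH in
/-- **CH5.** -/
theorem m_CH5 (pert : StPert) : StCh5 := by
  intro ι _ O ρ Γ hρ hΓ
  obtain ⟨C, hC0, hC⟩ := exists_lip hρ
  set δ : ℝ := 1 / (2 * C * (Fintype.card ι + 1)) with hδdef
  have hδ0 : 0 < δ := by positivity
  have hδ : Fintype.card ι * (C * δ) ≤ 1 / 2 := by
    have h1 : (Fintype.card ι + 1 : ℝ) * (C * δ) = 1 / 2 := by
      rw [hδdef]; field_simp
    have h2 : 0 < C * δ := by positivity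
    nlinarith
  obtain ⟨N, hN, hstep⟩ := exists_N hΓ hδ0
  have hN' : (N : ℝ) ≠ 0 := by exact_mod_cast hN.ne'
  refine ⟨fun a b => Q ρ Γ N a b N, ?_, ?_⟩
  · rintro q ⟨s, x⟩
    apply Q_fix hρ N le_rfl (Or.inl ?_)
    intro i m
    have : ∀ m, ip N q q m = q := by
      intro m
      unfold ip
      simp
    rw [this, this]
  intro a b ha hb ha' hb'
  obtain ⟨F, hF⟩ := exists_Q pert hΓ hC hC0 hδ ha hb
    (fun t s i k hk => hstep (a t) (ha' t) (b t) (hb' t) s i k hk) N le_rfl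
  have hout : ∀ t s x, (s ≤ 0 ∨ 1 ≤ s) → F.f (t, (s, x)) = (s, x) := by
    intro t s x hs
    rw [hF]
    apply Q_fix hρ N le_rfl (Or.inl ?_)
    intro i m
    obtain ⟨z, hz⟩ := hΓ.ends i
    rw [hz _ _ _ hs, hz _ _ _ hs]
  have hfix : ∀ t s x, (∀ i, ∀ τ ∈ Icc (0 : ℝ) 1, (2 * ρ) ^ 2 ≤
      nsq (x - Γ i ((a t).1 + τ * ((b t).1 - (a t).1))
        ((a t).2 + τ * ((b t).2 - (a t).2)) s)) → F.f (t, (s, x)) = (s, x) := by
    intro t s x h
    rw [hF]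
    apply Q_fix hρ N le_rfl (Or.inr ?_)
    intro i m hm
    exact h i _ (div_mem hm)
  refine ⟨F, hF, ?_, ?_, ?_, hfix, ?_, ?_⟩
  · refine ⟨⋃ i, (fun z : (ℝ × ℝ × ℝ) × R3 => ((z.1.2.2, Γ i z.1.1 z.1.2.1 z.1.2.2 + z.2) : R4)) ''
      ((Icc (0 : ℝ) 1 ×ˢ (Icc (0 : ℝ) 1 ×ˢ Icc (0 : ℝ) 1)) ×ˢ {y : R3 | nsq y ≤ (2 * ρ) ^ 2}),
      ?_, ?_, ?_⟩
    · apply isCompact_iUnion
      intro i
      apply IsCompact.image
      · exact (isCompact_Icc.prod (isCompact_Icc.prod isCompact_Icc)).prod (isCompact_nsq _)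
      · have h1 : Continuous (fun z : (ℝ × ℝ × ℝ) × R3 => Γ i z.1.1 z.1.2.1 z.1.2.2) :=
          (hΓ.smooth i).continuous.comp continuous_fst
        exact (continuous_fst.snd.snd).prodMk (h1.add continuous_snd)
    · rintro p hp
      obtain ⟨i, ⟨⟨u, q, s⟩, y⟩, ⟨⟨hu, hq, hs⟩, hy⟩, rfl⟩ := mem_iUnion.1 hp
      have hopen : IsOpen {p : R4 | -1 < p.1 ∧ p.1 < 2 ∧ rsq 0 p < (9 / 2) ^ 2} := by
        apply IsOpen.inter (isOpen_lt continuous_const continuous_fst)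
        apply IsOpen.inter (isOpen_lt continuous_fst continuous_const)
        exact isOpen_lt (continuous_rsq 0) continuous_const
      have hsub : {p : R4 | -1 < p.1 ∧ p.1 < 2 ∧ rsq 0 p < (9 / 2) ^ 2} ⊆ ball4 :=
        fun p hp => ⟨hp.1.le, hp.2.1.le, hp.2.2.le⟩
      apply interior_maximal hsub hopen
      have h1 := hΓ.inside i u hu q hq s hs (Γ i u q s + y) (by
        rw [add_sub_cancel_left]; exact hy)
      refine ⟨?_, ?_, ?_⟩
      · show -1 < s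
        linarith [hs.1]
      · show s < 2
        linarith [hs.2]
      · show nsq ((Γ i u q s + y).1 - 0, (Γ i u q s + y).2) < _
        rw [sub_zero]
        exact h1
    · rintro t ⟨s, x⟩ hx
      by_cases hs : s ≤ 0 ∨ 1 ≤ s
      · exact hout t s x hs
      push Not at hs
      have hs' : s ∈ Icc (0 : ℝ) 1 := ⟨hs.1.le, hs.2.le⟩
      apply hfix
      intro i τ hτ
      by_contra hlt
      push Not at hlt
      apply hx
      have hm := ip_mem (ha' t) (hb' t) hτ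
      refine mem_iUnion.2 ⟨i, ⟨⟨⟨(a t).1 + τ * ((b t).1 - (a t).1),
        (a t).2 + τ * ((b t).2 - (a t).2), s⟩, x - Γ i ((a t).1 + τ * ((b t).1 - (a t).1))
        ((a t).2 + τ * ((b t).2 - (a t).2)) s⟩, ⟨⟨hm.1, hm.2, hs'⟩, hlt.le⟩, ?_⟩⟩
      show (s, _ + (x - _)) = (s, x)
      rw [add_sub_cancel]
  · rintro t ⟨s, x⟩ hx
    by_cases hs : s ≤ 0 ∨ 1 ≤ s
    · exact hout t s x hs
    push Not at hs
    have hs' : s ∈ Icc (0 : ℝ) 1 := ⟨hs.1.le, hs.2.le⟩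
    apply hfix
    intro i τ hτ
    have hm := ip_mem (ha' t) (hb' t) hτ
    exact hΓ.off i _ hm.1 _ hm.2 s hs' x hx
  · intro t i s y hy
    rw [hF]
    have h1 := Q_tube hρ hΓ (N := N) (a := a t) (b := b t)
      (fun m hm => ip_mem (ha' t) (hb' t) (div_mem hm)) (s := s) i hy N le_rfl
    have e0 : ip N (a t) (b t) 0 = a t := by
      unfold ip; simp
    have e1 : ip N (a t) (b t) N = b t := by
      unfold ip
      rw [div_self hN']; simp
    rw [e0, e1] at h1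
    exact h1
  · intro t p
    rw [hF]
    exact Q_fst p N
  · intro t s h x
    rw [hF]
    apply Q_static hρ N le_rfl
    intro i m hm
    have e : ∀ m ≤ N, Γ i (ip N (a t) (b t) m).1 (ip N (a t) (b t) m).2 s =
        Γ i (a t).1 (a t).2 s := fun m hm => h i _ (div_mem hm)
    rw [e (m + 1) (by omega), e m (by omega)]

/-- Existence of pushes along paths of arcs, with all additional properties. -/
theorem exists_push5 (hCh : StCh5) {ι : Type} [inst : Fintype ι] {O : Set R4} {ρ : ℝ}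
    {γ : ι → ℝ → ℝ → R3} (hρ : 0 < ρ) (h : SqOk O ρ (fun i _ q s => γ i q s)) :
    ∃ F : DFam 𝓘(ℝ, R4) R4, (∀ x, F.f (0, x) = x) ∧ SuppB F ∧ (∀ t, ∀ x ∈ O, F.f (t, x) = x) ∧
      (∀ t i s y, nsq y ≤ ρ ^ 2 → F.f (t, (s, γ i 0 s + y)) = (s, γ i (step t) s + y)) ∧
      (∀ t s x, (∀ i, ∀ q ∈ Icc (0 : ℝ) 1, (2 * ρ) ^ 2 ≤ nsq (x - γ i q s)) →
        F.f (t, (s, x)) = (s, x)) ∧ (∀ t p, (F.f (t, p)).1 = p.1) ∧
      ∀ t s, (∀ i, ∀ q ∈ Icc (0 : ℝ) 1, γ i q s = γ i 0 s) → ∀ x, F.f (t, (s, x)) = (s, x) := by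
  obtain ⟨P, hP, h1⟩ := hCh ι inst O ρ _ hρ h
  obtain ⟨F, hF, hs, hf, ht, hx, hl, hst⟩ := h1 (fun _ => (0, 0)) (fun t => (0, step t))
    contDiff_const (contDiff_const.prodMk contDiff_step) (fun t => by simp)
    (fun t => ⟨by simp, step_mem t⟩)
  have hm : ∀ t, ∀ τ ∈ Icc (0 : ℝ) 1, τ * step t ∈ Icc (0 : ℝ) 1 := by
    intro t τ hτ
    obtain ⟨h1, h2⟩ := step_mem t
    obtain ⟨h3, h4⟩ := hτ
    constructor <;> nlinarith
  refine ⟨F, fun x => ?_, hs, fun t x hx => hf t x hx, fun t i s y hy => ht t i s y hy,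
    fun t s x hh => hx t s x ?_, hl, fun t s hh => hst t s ?_⟩
  · rw [hF]
    simp only [Pool.Agent.Helper27.BI.step_zero]
    exact hP _ _
  · intro i τ hτ
    simp only [sub_zero, zero_add]
    exact hh i _ (hm t τ hτ)
  · intro i τ hτ
    simp only [sub_zero, zero_add]
    exact hh i _ (hm t τ hτ)

end Pool.Agent.Helper27.H
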