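import Pool.Agent.Helper27.BI.H.StH1
import Pool.Agent.Helper27.BI.H.Ch5
import Pool.Agent.Helper27.BI.GBasic
import Pool.Agent.Helper27.BI.Geo
import Pool.Agent.Helper18.BI.H.StS7
import Pool.Agent.Helper34.BI.StD

/-!
# Project BI, stage 3 (H), parts 0 and 2: the implantation class of a germ as the class of a loop of arcs

Model coordinates `p = (s, x)`, `x` in three-space.  The fixed cuff is `sph 1`.  `G = F ∘ sq ε` is an embedding of the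
region `K3 δ`.  The wall is `G '' wallS δ`, a thick shell around the fixed cuff.  The arcs start and end on the wall; the
base arc is the finger `s ↦ G (s, z0 s)`, the loop of arcs is `s ↦ G (s, zq q s)`; it sweeps out a sphere around the
first hole.
-/

set_option autoImplicit false

open scoped Manifold ContDiff Topology ComplexConjugate
open Set Filter Pool.Agent.Helper65.Barb Pool.Agent.Helper18.BI
open Pool.Agent.Helper70.BI (I4 NearEq)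
open Pool.Agent.Helper27.BI (e1 barPath TIso IsPush StCh StSpin)
open Pool.Agent.Helper34.BI (rade)

namespace Pool.Agent.Helper27.H

/-- the length of the finger -/
noncomputable def bfin (s : ℝ) : ℝ := 27 / 100 * (step (5 * s - 1 / 2) * step (9 / 2 - 5 * s))

/-- the finger -/
noncomputable def z0 (s : ℝ) : R3 := (1 - bfin s) • e1

/-- the loop of fingers -/
noncomputable def zq (q s : ℝ) : R3 := (1 - bfin s) • barPath () q (10 * s - 9 / 2)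

/-- the wall -/
def wallS (δ : ℝ) : Set R4 :=
  {p | 0 ≤ p.1 ∧ p.1 ≤ 1 ∧ 1 / 25 - 3 * δ ≤ rsq 1 p ∧ rsq 1 p ≤ 1 / 25 - δ}

/-- the region where the germs are defined -/
def K3 (δ : ℝ) : Set R4 := {p | p ∈ ball4 ∧ 1 / 25 ≤ rsq 0 p ∧ 1 / 25 - 3 * δ ≤ rsq 1 p}

/-- the region between the wall and the radius `1/3`, which contains the finger -/
def Dreg (δ : ℝ) : Set R4 := {p | 0 ≤ p.1 ∧ p.1 ≤ 1 ∧ 1 / 25 - δ ≤ rsq 1 p ∧ rsq 1 p ≤ 1 / 9}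

/-- the support of the pushes of the loop of fingers -/
def SL : Set R4 :=
  {p | 9 / 20 ≤ p.1 ∧ p.1 ≤ 11 / 20 ∧ (71 / 100) ^ 2 ≤ rsq 0 p ∧ rsq 0 p ≤ (3 / 4) ^ 2}

/-- **BFIN.**  Elementary properties of the finger function. -/
def StBFIN : Prop :=
  ContDiff ℝ ∞ bfin ∧ (∀ s, 0 ≤ bfin s ∧ bfin s ≤ 27 / 100) ∧
  (∀ s ∈ Icc (3 / 10 : ℝ) (7 / 10), bfin s = 27 / 100) ∧
  (∀ s, (s ≤ 1 / 10 ∨ 9 / 10 ≤ s) → bfin s = 0) ∧
  ∀ δ ∈ Ioo (0 : ℝ) (1 / 100), ∃ s₀ ∈ Ioo (1 / 10 : ℝ) (3 / 10), ∃ s₁ ∈ Ioo (7 / 10 : ℝ) (9 / 10),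
    bfin s₀ ^ 2 = 1 / 25 - δ ∧ bfin s₁ ^ 2 = 1 / 25 - δ ∧
    (∀ s ∈ Ioo s₀ s₁, 1 / 25 - δ < bfin s ^ 2) ∧ ∀ s, s ∉ Ioo s₀ s₁ → bfin s ^ 2 ≤ 1 / 25 - δ

/-- `T` pushes the vertical line over `e1` to the finger, `T'` is the inverse. -/
structure FingOk (T T' : R4 → R4) : Prop where
  smooth : ContDiff ℝ ∞ T
  smooth' : ContDiff ℝ ∞ T'
  left : ∀ x, T' (T x) = x
  right : ∀ x, T (T' x) = x
  tube : ∀ (s : ℝ) (y : R3), nsq y ≤ (1 / 100) ^ 2 → T (s, e1 + y) = (s, z0 s + y)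
  level : ∀ p, (T p).1 = p.1
  out : ∀ (s : ℝ) (x : R3), (s ≤ 1 / 10 ∨ 9 / 10 ≤ s) → T (s, x) = (s, x)
  far : ∀ p, (3 / 10) ^ 2 ≤ rsq 1 p → T p = p

/-- the pushes of the loop of fingers -/
structure LamOk (F : DFam 𝓘(ℝ, R4) R4) : Prop where
  zero : ∀ x, F.f (0, x) = x
  tube : ∀ (t s : ℝ) (y : R3), nsq y ≤ (1 / 100) ^ 2 →
    F.f (t, (s, z0 s + y)) = (s, zq (step t) s + y)
  supp : ∀ t p, p ∉ SL → F.f (t, p) = p

/-- **FING.** -/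
def StFING : Prop :=
  ∃ (T T' : R4 → R4) (F : DFam 𝓘(ℝ, R4) R4), FingOk T T' ∧ LamOk F ∧
    TIso {p | rsq 0 p ≤ 1 / 25} (1 / 100) (fun (_ : Unit) _ => e1) (fun _ _ => e1) barMap
      (fun p => T' (F.f (1, T p)))

/-- the retraction of the finger, in the model: for `p` off the finger the point is in `K3 δ` -/
noncomputable def e0 (δ : ℝ) (T' : R4 → R4) (p : R4) : R4 := rade δ 1 (T' p)

/-- MODULE EHAT.  The complement of the wall and the base arc is embedded in `R4`, by retracting the finger.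

Proof.  Write `e₀ = e0 δ T'`, `D = Dreg δ` (compact), `W = wallS δ`, `K = K3 δ`.  `D ⊆ K`, `W ⊆ K` (for `rsq 1 p ≤ 1/9` the
first space coordinate is `≥ 2/3`, so `rsq 0 p ≥ 1/25`; `ball4`: `rsq 0 p ≤ (4/3)^2`).
Facts about `rade δ 1` from `Pool/Agent/Helper34/BI/M_RE.lean`, namespace `RE` (`rade_eq_rad`, `rade_id`, `rsq_rad`, `qe_prf`, `qe_eq`, `qe_low`,
`rad_inj`, `rad_contDiffOn`, `rad_fderiv`).
(1) If `p ∈ D` and `p` is not on the finger (`p ≠ (s, z0 s)` for all `s` with `1/25 - δ < bfin s ^ 2`) and `1/25 - δ < rsq 1 p`, then `rsq 1 (T' p) > 0`: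
otherwise `T' p = (s, e1)`, `p = T (s, e1) = (s, z0 s)` (`tube` with `y = 0`) and `rsq 1 p = bfin s ^ 2`.
(2) For such `p`: `e₀ p ∈ K3 δ`, more precisely `0 ≤ (e₀ p).1 ≤ 1` (`T'` and `rade` preserve the level), `1/25 - 3 δ ≤ rsq 1 (e₀ p)`
(`qe_low`) and `rsq 1 (e₀ p) ≤ 1/9` (`rsq 1 (T' p) ≤ 1/9`: otherwise `T' p` is fixed by `T` (`far`), so `p = T' p`; `qe δ` is
monotone and the identity on `[1/25 - δ, ∞)`).  So `e₀ p ∈ D` or `e₀ p ∈ W`.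
(3) `e₀ p = p` if `rsq 1 p ≥ (3/10)^2` (`far`, `left`, `rade_id`), and if `1/25 - δ ≤ rsq 1 p` and (`p.1 ≤ 1/10` or `9/10 ≤ p.1`) (`out`).
(4) `e₀` is a local diffeomorphism at `p` as in (1) (`A0`, chain rule; or `T'` is a diffeomorphism and `rade` is a local one, `IsLocalDiffeomorphAt.comp`),
and injective on the set of these `p` (`T'` injective, `rad_inj` on `rsq 1 > 0`).
(5) Let `y` be in the set `S = (G '' W)ᶜ \ finger`.  If `y = G p`, `p ∈ D`, then `1/25 - δ < rsq 1 p` (otherwise `p ∈ W`), `p` is as in (1),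
`imp G D e₀ y = G (e₀ p)` (`imp_image`).  Let `N` be an open set containing `K` on which `G` is injective and a local diffeomorphism (`StA1`, `m_A1`;
`K` is compact).  For `q` near `p`: `imp G D e₀ (G q) = G (e₀ q)`: clear if `q ∈ D`; if `q ∉ D` then `q.1 < 0`, `q.1 > 1` or `rsq 1 q > 1/9`
(`rsq 1 q > 1/25 - δ` near `p`), so `e₀ q = q` by (3) and `G q ∉ G '' D` (injectivity on `N`; `imp_off`).  So near `y` the map is
`G ∘ e₀ ∘ G⁻¹`, a local diffeomorphism at `y` (`G⁻¹` from the partial diffeomorphism).  If `y ∉ G '' D` (compact), the map is the identity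
near `y`.
(6) Injective on `S`: two points of `G '' D`: by injectivity of `G` on `K` and (4).  `y = G p`, `p ∈ D`, `y' ∉ G '' D`, with the same image:
`y' = G (e₀ p)`, and `e₀ p ∈ D` or `e₀ p ∈ W` by (2): both impossible for `y' ∈ S`. -/
def StEHAT : Prop :=
  ∀ (T T' G : R4 → R4) (δ : ℝ), FingOk T T' → δ ∈ Ioo (0 : ℝ) (1 / 100) → EmbOn I4 G (K3 δ) →
    EmbOn I4 (imp G (Dreg δ) (e0 δ T'))
      ((G '' wallS δ)ᶜ \ (fun s => G (s, z0 s)) '' {s | 1 / 25 - δ < bfin s ^ 2})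

/-- the loop of arcs of the germ `G`, relative to the base arc of `D` -/
noncomputable def loopc (D : ArcD) (G : R4 → R4) (q s : ℝ) : R4 :=
  open Classical in if s ∈ Icc (3 / 10 : ℝ) (7 / 10) then G (s, zq q s) else D.c s

/-- the arc datum of an embedding of `K3 δ` -/
structure HatOk (δ : ℝ) (T' G : R4 → R4) (D : ArcD) : Prop where
  U : D.U = (G '' wallS δ)ᶜ
  J : D.J = fun p => G (p.1, z0 p.1 + p.2)
  e : D.e = imp G (Dreg δ) (e0 δ T')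
  m₀ : D.m₀ = 9 / 20
  m₁ : D.m₁ = 11 / 20
  s₀ : D.s₀ ∈ Ioo (1 / 10 : ℝ) (3 / 10)
  s₁ : D.s₁ ∈ Ioo (7 / 10 : ℝ) (9 / 10)
  b₀ : bfin D.s₀ ^ 2 = 1 / 25 - δ
  b₁ : bfin D.s₁ ^ 2 = 1 / 25 - δ
  b : ∀ s ∈ Ioo D.s₀ D.s₁, 1 / 25 - δ < bfin s ^ 2
  b' : ∀ s, s ∉ Ioo D.s₀ D.s₁ → bfin s ^ 2 ≤ 1 / 25 - δ

/-- MODULE HARC: the arc datum exists. -/
def StHARC : Prop :=
  ∀ (T T' G : R4 → R4) (δ : ℝ), FingOk T T' → δ ∈ Ioo (0 : ℝ) (1 / 100) → EmbOn I4 G (K3 δ) →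
    ∃ D, HatOk δ T' G D

/-- MODULE HCLS: the class of the loop. -/
def StHCLS : Prop :=
  ∀ (T T' G G' φ : R4 → R4) (F : DFam 𝓘(ℝ, R4) R4) (δ : ℝ) (D : ArcD), FingOk T T' → LamOk F →
    TIso {p | rsq 0 p ≤ 1 / 25} (1 / 100) (fun (_ : Unit) _ => e1) (fun _ _ => e1) barMap
      (fun p => T' (F.f (1, T p))) → δ ∈ Ioo (0 : ℝ) (1 / 100) → EmbOn I4 G (K3 δ) →
    HatOk δ T' G D → EmbOn I4 G' (K3 δ) → NearEq G G' {p | p ∈ K3 δ ∧ rsq 1 p ≤ 1 / 9} →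
    CIsot I4 φ (imp G' bsupp barMap) →
    D.Cls (loopc D G') φ ∧ ∀ q ∈ Icc (0 : ℝ) 1, InjOn (loopc D G' q) (Icc D.s₀ D.s₁) ∧
      ∀ s ∈ Icc D.s₀ D.s₁, deriv (loopc D G' q) s ≠ 0

/-- **HAT** (parts 0 and 2): two germs which agree near the fixed cuff and the outer part of the bar. -/
def StHAT : Prop :=
  ∀ (F F' φ φ' : R4 → R4) (V : Set R4), EmbOn I4 F SP → EmbOn I4 F' SP → IsOpen V →
    sph 1 ∪ Pool.Agent.Helper18.BI.H.neckE ⊆ V → EqOn F F' V → Thin I4 F φ → Thin I4 F' φ' →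
    ∀ κ > 0, ∃ ε₀ > 0, ∀ ε ∈ Ioo 0 ε₀, ∃ D : ArcD, D.m₀ = 9 / 20 ∧ D.m₁ = 11 / 20 ∧
      D.s₀ < 3 / 10 ∧ 7 / 10 < D.s₁ ∧ (∀ x ∉ D.U, ∃ y ∈ F '' sph 1, dist x y < κ) ∧
      (∀ s ∈ Icc (3 / 10 : ℝ) (7 / 10), D.c s = F (sq ε (s, z0 s))) ∧
      D.Cls (loopc D (fun p => F (sq ε p))) φ ∧ D.Cls (loopc D (fun p => F' (sq ε p))) φ' ∧
      ∀ q ∈ Icc (0 : ℝ) 1,
        (InjOn (loopc D (fun p => F (sq ε p)) q) (Icc D.s₀ D.s₁) ∧
          ∀ s ∈ Icc D.s₀ D.s₁, deriv (loopc D (fun p => F (sq ε p)) q) s ≠ 0) ∧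
        InjOn (loopc D (fun p => F' (sq ε p)) q) (Icc D.s₀ D.s₁) ∧
          ∀ s ∈ Icc D.s₀ D.s₁, deriv (loopc D (fun p => F' (sq ε p)) q) s ≠ 0

end Pool.Agent.Helper27.H
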