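import Pool.Agent.Helper27.BI.H.StH1
import Pool.Agent.Helper27.BI.GBasic
import Pool.Agent.Helper18.BI.AsmA

/-!
# Project BI, stage 3 (H): the homotopy theorem for loops of arcs, assembly
-/

set_option autoImplicit false
set_option linter.unusedSectionVars false
set_option linter.unusedVariables false

open scoped Manifold ContDiff Topology ComplexConjugate
open Set Filter Pool.Agent.Helper65.Barb Pool.Agent.Helper18.BI
open Pool.Agent.Helper70.BI (I4 LD Eqv NearEq IsW MW embOn_comp ld_comp)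
open Pool.Agent.Helper27.BI (ci_refl)

namespace Pool.Agent.Helper27.H

private theorem ci_symm {φ ψ : R4 → R4} (h : CIsot I4 φ ψ) : CIsot I4 ψ φ :=
  Pool.Agent.Helper27.BI.CIsot.symm' h

private theorem ci_trans {φ ψ χ : R4 → R4} (h : CIsot I4 φ ψ) (h' : CIsot I4 ψ χ) :
    CIsot I4 φ χ := Pool.Agent.Helper27.BI.CIsot.trans' h h'

private theorem ci_comp {φ ψ φ' ψ' : R4 → R4} (h : CIsot I4 φ ψ) (h' : CIsot I4 φ' ψ') :
    CIsot I4 (fun x => φ (φ' x)) (fun x => ψ (ψ' x)) := Pool.Agent.Helper27.BI.CIsot.comp' h h'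


/-- equality up to `W` -/
def WR (W φ ψ : R4 → R4) : Prop := CIsot I4 ψ φ ∨ CIsot I4 ψ (fun x => W (φ x))

theorem IsW.self {W : R4 → R4} (hW : IsW W) : CIsot I4 W W := by
  obtain ⟨F₀, α₀, β₀, h1, h2⟩ := hW.rep
  exact (hT2 R4 R4 I4 R4).2.2.2.2.2.2 F₀ W h2

theorem WR.symm {W φ ψ : R4 → R4} (hW : IsW W) (hφ : CIsot I4 φ φ) (h : WR W φ ψ) : WR W ψ φ := by
  rcases h with h | h
  · exact Or.inl (ci_symm h)
  · right
    have h1 : CIsot I4 (fun x => W (ψ x)) (fun x => W (W (φ x))) := ci_comp (IsW.self hW) h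
    have h2 : CIsot I4 (fun x => W (W (φ x))) (fun x => φ x) := by
      have h3 := ci_comp hW.sq hφ
      exact h3
    exact ci_symm (ci_trans h1 h2)

theorem WR.trans {W φ ψ χ : R4 → R4} (hW : IsW W) (hφ : CIsot I4 φ φ) (h : WR W φ ψ)
    (h' : WR W ψ χ) : WR W φ χ := by
  rcases h' with h' | h'
  · rcases h with h | h
    · exact Or.inl (ci_trans h' h)
    · exact Or.inr (ci_trans h' h)
  · have h1 := IsW.self hW
    rcases h with h | h
    · exact Or.inr (ci_trans h' (ci_comp h1 h))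
    · left
      have h2 : CIsot I4 (fun x => W (ψ x)) (fun x => W (W (φ x))) := ci_comp h1 h
      have h3 : CIsot I4 (fun x => W (W (φ x))) (fun x => φ x) := by
        have h4 := ci_comp hW.sq hφ
        exact h4
      exact ci_trans h' (ci_trans h2 h3)

theorem XG.embSP {D : ArcD} {T : R4 → R4} (hT : D.XG T) : EmbOn I4 (fun p => D.e (T p)) SP := by
  have hFB : SP ⊆ FB := by
    rintro p ((h | h) | h)
    · exact Or.inl (Or.inl ⟨h.1, h.2.le⟩)
    · exact Or.inl (Or.inr ⟨h.1, h.2.le⟩)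
    · exact Or.inr h
  have h1 : EmbOn I4 T SP := Pool.Agent.Helper27.BI.EmbOn.mono hT.emb hFB
  have h2 : EmbOn I4 (D.e ∘ T) SP := by
    apply embOn_comp D.embe h1
    intro p hp
    refine ⟨hT.inU p (hFB hp), fun hA => ?_⟩
    rcases hT.arc p (hFB hp) hA with rfl | rfl
    · rcases hp with (h | h) | h
      · have := h.2; norm_num [rsq, nsq] at this
      · have := h.2; norm_num [rsq, nsq] at this
      · have := h.2.1; norm_num at this
    · rcases hp with (h | h) | h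
      · have := h.2; norm_num [rsq, nsq] at this
      · have := h.2; norm_num [rsq, nsq] at this
      · have := h.2.2.1; norm_num at this
  exact h2

theorem exists_thin {F : R4 → R4} (hF : EmbOn I4 F SP) : ∃ φ, Thin I4 F φ := by
  obtain ⟨ε₀, h0, h1⟩ := (hT2 R4 R4 I4 R4).1 F hF
  exact ⟨_, h1 (ε₀ / 2) ⟨by positivity, by linarith⟩⟩

/-- the class of every crossing is trivial or `W` -/
theorem cross_class (hCls : StCls) (hCROSS : StCROSS) (hCUSP : StCUSP) (hNORM : StNORM) {D : ArcD}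
    {W T τ : R4 → R4} (hW : IsW W) (hT : D.XG T) (hτ : Thin I4 (fun p => D.e (T p)) τ) :
    WR W (fun x => x) τ := by
  obtain ⟨c, u₀, q₀, a, b, h1, h2, h3, h4, h5, h6⟩ := hCUSP D
  obtain ⟨T₀, hT₀, h7⟩ := hCROSS D c u₀ q₀ a b h1 h2 h3 h4
  obtain ⟨τ₀, hτ₀⟩ := exists_thin (XG.embSP hT₀)
  have hid : D.Cls (fun _ s => D.c s) (fun x => x) := (hCls D).2.2.2.2.2
  have e0 : (fun q s => c (0, q, s)) = fun _ s => D.c s := by funext q s; exact h5 q s
  have e1 : (fun q s => c (1, q, s)) = fun _ s => D.c s := by funext q s; exact h6 q s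
  have h8 : CIsot I4 (fun x : R4 => x) τ₀ := by
    have := h7 (fun x => x) (fun x => x) τ₀ (by rw [e0]; exact hid) (by rw [e1]; exact hid) hτ₀
    rcases this with h | h
    · exact h
    · exact h
  have h9 : Thin I4 (fun p => D.e (T₀ p)) (fun x => x) :=
    (hT2 R4 R4 I4 R4).2.2.2.1 _ _ _ hτ₀ (ci_symm h8)
  exact hNORM D T₀ T W hW hT₀ hT _ _ h9 hτ

/-- restriction of a homotopy to an interval of parameters -/
def rsc (c : ℝ × ℝ × ℝ → R4) (u₁ u₂ : ℝ) (z : ℝ × ℝ × ℝ) : R4 :=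
  c (u₁ + z.1 * (u₂ - u₁), z.2.1, z.2.2)

theorem htpy_rsc {D : ArcD} {c : ℝ × ℝ × ℝ → R4} (hc : D.Htpy c) {u₁ u₂ : ℝ} (h0 : 0 ≤ u₁)
    (h1 : u₁ ≤ u₂) (h2 : u₂ ≤ 1) : D.Htpy (rsc c u₁ u₂) := by
  have hm : ∀ u ∈ Icc (0 : ℝ) 1, u₁ + u * (u₂ - u₁) ∈ Icc (0 : ℝ) 1 := by
    rintro u ⟨a, b⟩
    constructor <;> nlinarith
  refine ⟨?_, fun u hu q hq s hs => hc.froz _ (hm u hu) q hq s hs,
    fun u hu q hq s hs => hc.inU _ (hm u hu) q hq s hs, fun u hu s => hc.start _ (hm u hu) s,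
    fun u hu s => hc.stop _ (hm u hu) s⟩
  have : ContDiff ℝ ∞ (fun z : ℝ × ℝ × ℝ => ((u₁ + z.1 * (u₂ - u₁), z.2.1, z.2.2) : ℝ × ℝ × ℝ)) :=
    (contDiff_const.add (contDiff_fst.mul contDiff_const)).prodMk
      ((contDiff_fst.comp contDiff_snd).prodMk (contDiff_snd.comp contDiff_snd))
  exact hc.smooth.comp this

theorem xing_rsc {D : ArcD} {c : ℝ × ℝ × ℝ → R4} (hc : D.Htpy c) {u₁ u₂ : ℝ} {b q a' b' : ℝ}
    (h1 : u₁ < b) (h2 : b < u₂) (hx : D.Xing c b q a' b') :
    D.Xing (rsc c u₁ u₂) ((b - u₁) / (u₂ - u₁)) q a' b' := by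
  have hp : 0 < u₂ - u₁ := by linarith
  have e : u₁ + (b - u₁) / (u₂ - u₁) * (u₂ - u₁) = b := by field_simp; ring
  refine ⟨⟨by apply div_pos <;> linarith, by rw [div_lt_one hp]; linarith⟩, hx.memq, hx.mema,
    hx.memb, hx.lt, ?_, ?_, ?_⟩
  · show c (_, _, _) = c (_, _, _)
    rw [e]; exact hx.eq
  · intro s hs s' hs' hlt h
    have h' : c (u₁ + (b - u₁) / (u₂ - u₁) * (u₂ - u₁), q, s) =
      c (u₁ + (b - u₁) / (u₂ - u₁) * (u₂ - u₁), q, s') := h
    rw [e] at h'
    exact hx.uniq s hs s' hs' hlt h'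
  · intro ζ η σ τ h
    have key : ∀ s ζ η σ : ℝ, fderiv ℝ (rsc c u₁ u₂) ((b - u₁) / (u₂ - u₁), q, s) (ζ, η, σ) =
        fderiv ℝ c (b, q, s) (ζ * (u₂ - u₁), η, σ) := by
      intro s ζ η σ
      have hd : HasFDerivAt c (fderiv ℝ c (b, q, s)) (b, q, s) :=
        (hc.smooth.differentiable (by simp) _).hasFDerivAt
      have h3 : HasDerivAt (fun t : ℝ => ((b + t * (ζ * (u₂ - u₁)), q + t * η, s + t * σ) :
          ℝ × ℝ × ℝ)) (ζ * (u₂ - u₁), η, σ) 0 := by
        have l : ∀ x y : ℝ, HasDerivAt (fun t : ℝ => x + t * y) y 0 := by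
          intro x y
          simpa using ((hasDerivAt_id (0 : ℝ)).mul_const y).const_add x
        exact (l _ _).prodMk ((l _ _).prodMk (l _ _))
      have h4 : HasDerivAt (fun t : ℝ => c (b + t * (ζ * (u₂ - u₁)), q + t * η, s + t * σ))
          (fderiv ℝ c (b, q, s) (ζ * (u₂ - u₁), η, σ)) 0 := by
        have h5 : HasFDerivAt c (fderiv ℝ c (b, q, s))
            ((b + (0 : ℝ) * (ζ * (u₂ - u₁)), q + (0 : ℝ) * η, s + (0 : ℝ) * σ) : ℝ × ℝ × ℝ) := by
          simpa using hd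
        exact h5.comp_hasDerivAt (0 : ℝ) h3
      have hr : HasFDerivAt (rsc c u₁ u₂) (fderiv ℝ (rsc c u₁ u₂) ((b - u₁) / (u₂ - u₁), q, s))
          ((b - u₁) / (u₂ - u₁), q, s) := by
        have hs : ContDiff ℝ ∞ (rsc c u₁ u₂) := by
          have : ContDiff ℝ ∞ (fun z : ℝ × ℝ × ℝ =>
              ((u₁ + z.1 * (u₂ - u₁), z.2.1, z.2.2) : ℝ × ℝ × ℝ)) :=
            (contDiff_const.add (contDiff_fst.mul contDiff_const)).prodMk
              ((contDiff_fst.comp contDiff_snd).prodMk (contDiff_snd.comp contDiff_snd))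
          exact hc.smooth.comp this
        exact (hs.differentiable (by simp) _).hasFDerivAt
      have h6 : HasDerivAt (fun t : ℝ => (((b - u₁) / (u₂ - u₁) + t * ζ, q + t * η, s + t * σ) :
          ℝ × ℝ × ℝ)) (ζ, η, σ) 0 := by
        have l : ∀ x y : ℝ, HasDerivAt (fun t : ℝ => x + t * y) y 0 := by
          intro x y
          simpa using ((hasDerivAt_id (0 : ℝ)).mul_const y).const_add x
        exact (l _ _).prodMk ((l _ _).prodMk (l _ _))
      have h7 : HasDerivAt ((rsc c u₁ u₂) ∘ fun t : ℝ =>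
          (((b - u₁) / (u₂ - u₁) + t * ζ, q + t * η, s + t * σ) : ℝ × ℝ × ℝ))
          (fderiv ℝ (rsc c u₁ u₂) ((b - u₁) / (u₂ - u₁), q, s) (ζ, η, σ)) 0 := by
        have h8 : HasFDerivAt (rsc c u₁ u₂) (fderiv ℝ (rsc c u₁ u₂) ((b - u₁) / (u₂ - u₁), q, s))
            (((b - u₁) / (u₂ - u₁) + (0 : ℝ) * ζ, q + (0 : ℝ) * η, s + (0 : ℝ) * σ) :
              ℝ × ℝ × ℝ) := by
          simpa using hr
        exact h8.comp_hasDerivAt (0 : ℝ) h6
      have h9 : ((rsc c u₁ u₂) ∘ fun t : ℝ =>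
          (((b - u₁) / (u₂ - u₁) + t * ζ, q + t * η, s + t * σ) : ℝ × ℝ × ℝ)) =
          fun t : ℝ => c (b + t * (ζ * (u₂ - u₁)), q + t * η, s + t * σ) := by
        funext t
        show c (u₁ + ((b - u₁) / (u₂ - u₁) + t * ζ) * (u₂ - u₁), _, _) = _
        congr 2
        field_simp
        ring
      rw [h9] at h7
      exact h7.unique h4
    have h' : fderiv ℝ c (b, q, a') (ζ * (u₂ - u₁), η, σ) =
        fderiv ℝ c (b, q, b') (ζ * (u₂ - u₁), η, τ) := by
      rw [← key, ← key]; exact h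
    obtain ⟨r1, r2, r3, r4⟩ := hx.trans _ _ _ _ h'
    refine ⟨?_, r2, r3, r4⟩
    rcases mul_eq_zero.1 r1 with h | h
    · exact h
    · exact absurd h hp.ne'

/-- **ArcH.** -/
theorem m_ArcH (hCls : StCls) (hCROSS : StCROSS) (hCUSP : StCUSP) (hNORM : StNORM) (hGP : StGP) :
    StArcH := by
  intro D c W χ₀ χ₁ hc hc0 hc1 hW h0 h1
  obtain ⟨c', hc', e0, e1, himm, B, hB, hinj, hX⟩ := hGP D c hc hc0 hc1
  have hex : ∀ u ∈ Icc (0 : ℝ) 1, u ∉ B → ∃ χ, D.Cls (fun q s => c' (u, q, s)) χ := by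
    intro u hu huB
    exact (hCls D).2.2.2.1 c' hc' u hu fun q hq => ⟨himm u hu q hq, hinj u hu huB q hq⟩
  -- one crossing
  have hone : ∀ b ∈ B, ∀ u₁ u₂ : ℝ, 0 ≤ u₁ → u₁ < b → b < u₂ → u₂ ≤ 1 →
      (∀ u ∈ Icc u₁ u₂, u ∈ B → u = b) → ∀ χ χ', D.Cls (fun q s => c' (u₁, q, s)) χ →
      D.Cls (fun q s => c' (u₂, q, s)) χ' → WR W χ χ' := by
    intro b hb u₁ u₂ h1 h2 h3 h4 h5 χ χ' hχ hχ'
    obtain ⟨q₀, a, b', hx, hx'⟩ := hX b hb
    have hp : 0 < u₂ - u₁ := by linarith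
    have hm : ∀ u ∈ Icc (0 : ℝ) 1, u₁ + u * (u₂ - u₁) ∈ Icc u₁ u₂ := by
      rintro u ⟨a, b⟩
      constructor <;> nlinarith
    have hm' : ∀ u ∈ Icc u₁ u₂, u ∈ Icc (0 : ℝ) 1 := fun u hu => ⟨by linarith [hu.1], by linarith [hu.2]⟩
    obtain ⟨T, hT, h6⟩ := hCROSS D (rsc c' u₁ u₂) ((b - u₁) / (u₂ - u₁)) q₀ a b'
      (htpy_rsc hc' h1 (by linarith) h4) (xing_rsc hc' h2 h3 hx)
      (fun u hu q hq => himm _ (hm' _ (hm u hu)) q hq) (by
        intro u hu q hq hne
        show D.Inj c' (u₁ + u * (u₂ - u₁)) q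
        by_cases h : u₁ + u * (u₂ - u₁) ∈ B
        · have h7 := h5 _ (hm u hu) h
          rw [h7]
          apply hx' q hq
          rintro rfl
          apply hne
          have h8 : u = (b - u₁) / (u₂ - u₁) := by
            rw [eq_div_iff hp.ne']; linarith
          rw [h8]
        · exact hinj _ (hm' _ (hm u hu)) h q hq)
    obtain ⟨τ, hτ⟩ := exists_thin (XG.embSP hT)
    have hr0 : (fun q s => rsc c' u₁ u₂ (0, q, s)) = fun q s => c' (u₁, q, s) := by
      funext q s; show c' (u₁ + 0 * (u₂ - u₁), q, s) = _; rw [zero_mul, add_zero]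
    have hr1 : (fun q s => rsc c' u₁ u₂ (1, q, s)) = fun q s => c' (u₂, q, s) := by
      funext q s; show c' (u₁ + 1 * (u₂ - u₁), q, s) = _; rw [one_mul, add_sub_cancel]
    have h7 := h6 χ χ' τ (by rw [hr0]; exact hχ) (by rw [hr1]; exact hχ') hτ
    have h8 := cross_class hCls hCROSS hCUSP hNORM hW hT hτ
    have hχs : CIsot I4 χ χ := (hCls D).2.2.1 _ _ hχ
    have hχs' : CIsot I4 χ' χ' := (hCls D).2.2.1 _ _ hχ'
    have key : ∀ φ : R4 → R4, CIsot I4 φ φ → WR W φ (fun x => τ (φ x)) := by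
      intro φ hφ
      rcases h8 with h | h
      · have h9 := ci_comp h hφ
        exact Or.inl h9
      · have h9 := ci_comp h hφ
        exact Or.inr h9
    rcases h7 with h | h
    · have h9 : WR W χ' χ := by
        rcases key χ' hχs' with h' | h'
        · exact Or.inl (ci_trans h h')
        · exact Or.inr (ci_trans h h')
      exact WR.symm hW hχs' h9
    · rcases key χ hχs with h' | h'
      · exact Or.inl (ci_trans h h')
      · exact Or.inr (ci_trans h h')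
  -- no crossing
  have hnone : ∀ u₁ u₂ : ℝ, 0 ≤ u₁ → u₁ ≤ u₂ → u₂ ≤ 1 → (∀ u ∈ Icc u₁ u₂, u ∉ B) →
      ∀ χ χ', D.Cls (fun q s => c' (u₁, q, s)) χ → D.Cls (fun q s => c' (u₂, q, s)) χ' →
      WR W χ χ' := by
    intro u₁ u₂ h1 h2 h3 h4 χ χ' hχ hχ'
    have h5 := (hCls D).2.2.2.2.1 c' hc' u₁ u₂ h1 h2 h3 (fun v hv q hq =>
      ⟨himm v ⟨by linarith [hv.1], by linarith [hv.2]⟩ q hq,
        hinj v ⟨by linarith [hv.1], by linarith [hv.2]⟩ (h4 v hv) q hq⟩) χ hχ
    exact Or.inl ((hCls D).1 _ _ _ hχ' h5)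
  -- induction on the number of crossings
  have hind : ∀ n : ℕ, ∀ u₁ u₂ : ℝ, 0 ≤ u₁ → u₁ ≤ u₂ → u₂ ≤ 1 → u₁ ∉ B → u₂ ∉ B →
      (B.filter (fun u => u₁ < u ∧ u < u₂)).card = n →
      ∀ χ χ', D.Cls (fun q s => c' (u₁, q, s)) χ → D.Cls (fun q s => c' (u₂, q, s)) χ' →
      WR W χ χ' := by
    intro n
    induction n with
    | zero =>
      intro u₁ u₂ h1 h2 h3 h4 h5 h6
      apply hnone u₁ u₂ h1 h2 h3
      intro u hu huB
      rw [Finset.card_eq_zero] at h6
      have : u ∈ B.filter (fun u => u₁ < u ∧ u < u₂) := by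
        rw [Finset.mem_filter]
        refine ⟨huB, lt_of_le_of_ne hu.1 ?_, lt_of_le_of_ne hu.2 ?_⟩
        · rintro rfl; exact h4 huB
        · rintro rfl; exact h5 huB
      rw [h6] at this
      simp at this
    | succ n ih =>
      intro u₁ u₂ h1 h2 h3 h4 h5 h6 χ χ' hχ hχ'
      have hne : (B.filter (fun u => u₁ < u ∧ u < u₂)).Nonempty := by
        rw [← Finset.card_pos, h6]; omega
      set b := (B.filter (fun u => u₁ < u ∧ u < u₂)).min' hne with hb
      have hbm : b ∈ B.filter (fun u => u₁ < u ∧ u < u₂) := Finset.min'_mem _ _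
      have hbB := (Finset.mem_filter.1 hbm).1
      obtain ⟨hb1, hb2⟩ := (Finset.mem_filter.1 hbm).2
      have hmin : ∀ u ∈ B, u₁ < u → u < u₂ → b ≤ u := fun u hu a1 a2 =>
        Finset.min'_le _ _ (Finset.mem_filter.2 ⟨hu, a1, a2⟩)
      -- a point after `b`
      obtain ⟨v, hv1, hv2, hv3⟩ : ∃ v, b < v ∧ v < u₂ ∧ ∀ u ∈ Ioc b v, u ∉ B := by
        have hfin : ((B : Set ℝ) \ {b}).Finite := B.finite_toSet.subset sdiff_subset
        have hop : IsOpen ((B : Set ℝ) \ {b})ᶜ := hfin.isClosed.isOpen_compl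
        have hbo : b ∈ ((B : Set ℝ) \ {b})ᶜ := fun h => h.2 rfl
        obtain ⟨r, hr, hr'⟩ := Metric.isOpen_iff.1 hop b hbo
        refine ⟨min (b + r / 2) ((b + u₂) / 2), lt_min (by linarith) (by linarith),
          lt_of_le_of_lt (min_le_right _ _) (by linarith), ?_⟩
        rintro u ⟨a1, a2⟩ huB
        have a3 : u ≤ b + r / 2 := a2.trans (min_le_left _ _)
        have a4 : u ∈ Metric.ball b r := by
          rw [Metric.mem_ball, Real.dist_eq, abs_lt]
          constructor <;> linarith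
        exact hr' a4 ⟨huB, fun h => absurd h (ne_of_gt a1)⟩
      have hvB : v ∉ B := hv3 v ⟨hv1, le_rfl⟩
      have hv01 : v ∈ Icc (0 : ℝ) 1 := ⟨by linarith, by linarith⟩
      obtain ⟨χv, hχv⟩ := hex v hv01 hvB
      have s1 : WR W χ χv := by
        refine hone b hbB u₁ v h1 hb1 hv1 hv01.2 ?_ χ χv hχ hχv
        intro u hu huB
        rcases lt_trichotomy u b with h | h | h
        · exfalso
          rcases hu.1.lt_or_eq with h' | h'
          · exact absurd (hmin u huB h' (by linarith)) (not_le.2 h)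
          · rw [← h'] at huB; exact h4 huB
        · exact h
        · exact absurd huB (hv3 u ⟨h, hu.2⟩)
      have s2 : WR W χv χ' := by
        apply ih v u₂ hv01.1 hv2.le h3 hvB h5 _ χv χ' hχv hχ'
        have e : B.filter (fun u => u₁ < u ∧ u < u₂) =
            insert b (B.filter (fun u => v < u ∧ u < u₂)) := by
          ext u
          simp only [Finset.mem_filter, Finset.mem_insert]
          constructor
          · rintro ⟨a1, a2, a3⟩
            rcases (hmin u a1 a2 a3).lt_or_eq with h | h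
            · right
              refine ⟨a1, ?_, a3⟩
              by_contra h'
              push Not at h'
              exact hv3 u ⟨h, h'⟩ a1
            · exact Or.inl h.symm
          · rintro (rfl | ⟨a1, a2, a3⟩)
            · exact ⟨hbB, hb1, hb2⟩
            · exact ⟨a1, by linarith, a3⟩
        rw [e, Finset.card_insert_of_notMem] at h6
        · omega
        · simp only [Finset.mem_filter]
          rintro ⟨a1, a2, a3⟩
          linarith
      exact WR.trans hW ((hCls D).2.2.1 _ _ hχ) s1 s2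
  have h0B : (0 : ℝ) ∉ B := fun h => lt_irrefl _ (hB 0 h).1
  have h1B : (1 : ℝ) ∉ B := fun h => lt_irrefl _ (hB 1 h).2
  have e0' : (fun q s => c' (0, q, s)) = fun q s => c (0, q, s) := by funext q s; exact e0 q s
  have e1' : (fun q s => c' (1, q, s)) = fun q s => c (1, q, s) := by funext q s; exact e1 q s
  exact hind _ 0 1 le_rfl zero_le_one le_rfl h0B h1B rfl χ₀ χ₁ (by rw [e0']; exact h0)
    (by rw [e1']; exact h1)

end Pool.Agent.Helper27.H
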