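import Pool.Agent.Helper27.BI.H.Calc

/-!
# Project BI, stage 3 (H): chains along paths from chains with joint smoothness
-/

set_option autoImplicit false

open scoped Manifold ContDiff Topology ComplexConjugate
open Set Filter Pool.Agent.Helper65.Barb Pool.Agent.Helper18.BI
open Pool.Agent.Helper70.BI (I4 LD Eqv NearEq)

namespace Pool.Agent.Helper27.H

/-- a `DFam` of `R4` from smooth families of maps inverse to each other -/
theorem exists_dfam {f g : ℝ × R4 → R4} (hf : ContDiff ℝ ∞ f) (hg : ContDiff ℝ ∞ g)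
    (h1 : ∀ t x, f (t, g (t, x)) = x) (h2 : ∀ t x, g (t, f (t, x)) = x) :
    ∃ F : DFam 𝓘(ℝ, R4) R4, (∀ t x, F.f (t, x) = f (t, x)) ∧ ∀ t x, F.g (t, x) = g (t, x) := by
  refine ⟨⟨f, g, ?_, ?_, h1, h2⟩, fun _ _ => rfl, fun _ _ => rfl⟩
  · rw [← contMDiff_iff_contDiff, modelWithCornersSelf_prod, ← chartedSpaceSelf_prod] at hf
    exact hf
  · rw [← contMDiff_iff_contDiff, modelWithCornersSelf_prod, ← chartedSpaceSelf_prod] at hg
    exact hg

theorem ch4_of_joint (h : StCH4J) : StCH4 := by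
  intro Q L V U J hQ hQc hL hV hU hJ
  obtain ⟨P, P', O, hO, hQO, hP, hP', hinv, hid, N, hN, hLN, K, hK, hKU, hc⟩ :=
    h Q L V U J hQ hQc hL hV hU hJ
  refine ⟨P, hid, N, hN, hLN, K, hK, hKU, fun a b ha hb ha' hb' => ?_⟩
  have hz : ContDiff ℝ ∞ (fun z : ℝ × R4 => (((a z.1, b z.1), z.2) : ((ℝ × ℝ) × (ℝ × ℝ)) × R4)) :=
    ((ha.comp contDiff_fst).prodMk (hb.comp contDiff_fst)).prodMk contDiff_snd
  have hm : ∀ z : ℝ × R4, (((a z.1, b z.1), z.2) : ((ℝ × ℝ) × (ℝ × ℝ)) × R4) ∈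
      O ×ˢ (univ : Set R4) := fun z => ⟨hQO ⟨ha' _, hb' _⟩, mem_univ _⟩
  have hOo : IsOpen (O ×ˢ (univ : Set R4)) := hO.prod isOpen_univ
  have h1 : ContDiff ℝ ∞ (fun z : ℝ × R4 => P (a z.1) (b z.1) z.2) := by
    rw [contDiff_iff_contDiffAt]
    intro z
    exact ContDiffAt.comp z (hP.contDiffAt (hOo.mem_nhds (hm z))) hz.contDiffAt
  have h2 : ContDiff ℝ ∞ (fun z : ℝ × R4 => P' (a z.1) (b z.1) z.2) := by
    rw [contDiff_iff_contDiffAt]
    intro z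
    exact ContDiffAt.comp z (hP'.contDiffAt (hOo.mem_nhds (hm z))) hz.contDiffAt
  obtain ⟨F, hF, -⟩ := exists_dfam h1 h2
    (fun t x => (hinv (a t) (b t) (hQO ⟨ha' t, hb' t⟩) x).1)
    (fun t x => (hinv (a t) (b t) (hQO ⟨ha' t, hb' t⟩) x).2)
  refine ⟨F, hF, fun t x hx => ?_, fun t p hp => ?_⟩
  · rw [hF]
    exact (hc (a t) (ha' t) (b t) (hb' t)).1 x hx
  · rw [hF]
    exact (hc (a t) (ha' t) (b t) (hb' t)).2 p hp

end Pool.Agent.Helper27.H
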