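import Pool.Agent.Helper27.BI.H.StH1
import Pool.Agent.Helper18.BI.M_A0
import Pool.Agent.Helper18.BI.M_A1

/-!
# Project BI, stage 3 (H), module CH4: chains of displacements for families of germs (helper2)
-/

set_option autoImplicit false

open scoped Manifold ContDiff Topology ComplexConjugate
open Set Filter Pool.Agent.Helper65.Barb Pool.Agent.Helper18.BI
open Pool.Agent.Helper70.BI (I4 LD Eqv NearEq embOn_iff)

namespace Pool.Agent.Helper27.H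

namespace CH4

noncomputable section

/-- step (0): the inverse of `(a, p) ↦ (a, J a p)` near `Q × L` -/
theorem exists_inv {Q : Set (ℝ × ℝ)} {L V U : Set R4} {J : ℝ × ℝ → R4 → R4} (hQ : IsCompact Q)
    (hL : IsCompact L) (hF : Fam2 Q L V U J) :
    ∃ (S T : Set ((ℝ × ℝ) × R4)) (G : (ℝ × ℝ) × R4 → R4), IsOpen S ∧ IsOpen T ∧ Q ×ˢ L ⊆ S ∧
      ContDiffOn ℝ ∞ (fun z : (ℝ × ℝ) × R4 => J z.1 z.2) S ∧ ContDiffOn ℝ ∞ G T ∧
      (∀ z ∈ S, (z.1, J z.1 z.2) ∈ T ∧ G (z.1, J z.1 z.2) = z.2) ∧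
      ∀ w ∈ T, (w.1, G w) ∈ S ∧ J w.1 (G w) = w.2 := by
  have hld : ∀ z ∈ Q ×ˢ L, IsLocalDiffeomorphAt 𝓘(ℝ, (ℝ × ℝ) × R4) 𝓘(ℝ, (ℝ × ℝ) × R4) ∞
      (fun z : (ℝ × ℝ) × R4 => (z.1, J z.1 z.2)) z := by
    rintro ⟨a, p⟩ ⟨ha, hp⟩
    have hs := hF.smooth a ha p hp
    refine (m_A0 ((ℝ × ℝ) × R4) _ (a, p)).2 ⟨?_, ?_⟩
    · obtain ⟨O, hO1, hO2, hO3⟩ := eventually_nhds_iff.1 hs
      refine ⟨O, hO2, hO3, fun z hz => ?_⟩
      exact (contDiffAt_fst.prodMk (hO1 z hz)).contDiffWithinAt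
    · rintro ⟨α, v⟩ hv
      have h1 : HasFDerivAt (fun z : (ℝ × ℝ) × R4 => J z.1 z.2)
          (fderiv ℝ (fun z : (ℝ × ℝ) × R4 => J z.1 z.2) (a, p)) (a, p) :=
        (hs.self_of_nhds.differentiableAt (by simp)).hasFDerivAt
      have h2 : HasFDerivAt (fun z : (ℝ × ℝ) × R4 => (z.1, J z.1 z.2))
          ((ContinuousLinearMap.fst ℝ (ℝ × ℝ) R4).prod
            (fderiv ℝ (fun z : (ℝ × ℝ) × R4 => J z.1 z.2) (a, p))) (a, p) :=
        hasFDerivAt_fst.prodMk h1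
      rw [h2.fderiv] at hv
      have hα : α = 0 := congrArg Prod.fst hv
      have hv2 : fderiv ℝ (fun z : (ℝ × ℝ) × R4 => J z.1 z.2) (a, p) (α, v) = 0 :=
        congrArg Prod.snd hv
      subst hα
      have h3 : HasFDerivAt (fun q : R4 => ((a, q) : (ℝ × ℝ) × R4))
          (ContinuousLinearMap.inr ℝ (ℝ × ℝ) R4) p := hasFDerivAt_prodMk_right a p
      have h4 := (h1.comp p h3).fderiv
      have h5 : fderiv ℝ (J a) p v = 0 := by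
        have h6 : (J a) = (fun z : (ℝ × ℝ) × R4 => J z.1 z.2) ∘ fun q : R4 => (a, q) := rfl
        rw [h6, h4]
        exact hv2
      have h7 := ((embOn_iff.1 (hF.emb a ha)).1 p hp).2
      have h8 : v = 0 := h7 (by rw [h5, map_zero])
      rw [h8]
      rfl
  have hinj : InjOn (fun z : (ℝ × ℝ) × R4 => (z.1, J z.1 z.2)) (Q ×ˢ L) := by
    rintro ⟨a, p⟩ ⟨ha, hp⟩ ⟨a', p'⟩ ⟨ha', hp'⟩ he
    have h1 : a = a' := congrArg Prod.fst he
    have h2 : J a p = J a' p' := congrArg Prod.snd he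
    subst h1
    have h3 : p = p' := (hF.emb a ha).2 hp hp' h2
    rw [h3]
  obtain ⟨δ, hδ, hδ'⟩ := m_A1 ((ℝ × ℝ) × R4) ((ℝ × ℝ) × R4) ((ℝ × ℝ) × R4)
    𝓘(ℝ, (ℝ × ℝ) × R4) ((ℝ × ℝ) × R4) _ _ (hQ.prod hL) hld hinj
  have c1 : ContDiffOn ℝ ∞ δ.toFun δ.source := contMDiffOn_iff_contDiffOn.1 δ.contMDiffOn_toFun
  have c2 : ContDiffOn ℝ ∞ δ.invFun δ.target := contMDiffOn_iff_contDiffOn.1 δ.contMDiffOn_invFun
  have key : ∀ w ∈ δ.target, (w.1, (δ.invFun w).2) = δ.invFun w := by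
    intro w hw
    have h1 := δ.map_target hw
    have h2 := hδ' _ h1
    have h3 : δ.toFun (δ.invFun w) = w := δ.right_inv hw
    have h4 : ((δ.invFun w).1, J (δ.invFun w).1 (δ.invFun w).2) = w := h2.symm.trans h3
    have h5 : (δ.invFun w).1 = w.1 := (Prod.ext_iff.1 h4).1
    rw [← h5]
  refine ⟨δ.source, δ.target, fun w => (δ.invFun w).2, δ.open_source, δ.open_target, hδ, ?_, ?_,
    ?_, ?_⟩
  · have h1 : ContDiffOn ℝ ∞ (fun z => (δ.toFun z).2) δ.source := c1.snd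
    exact h1.congr fun z hz => (congrArg Prod.snd (hδ' z hz)).symm
  · exact c2.snd
  · intro z hz
    have h1 : δ.toFun z = (z.1, J z.1 z.2) := hδ' z hz
    rw [← h1]
    refine ⟨δ.map_source hz, ?_⟩
    exact congrArg Prod.snd (δ.left_inv hz)
  · intro w hw
    refine ⟨by rw [key w hw]; exact δ.map_target hw, ?_⟩
    have h1 := hδ' _ (δ.map_target hw)
    have h3 : δ.toFun (δ.invFun w) = w := δ.right_inv hw
    have h4 : ((δ.invFun w).1, J (δ.invFun w).1 (δ.invFun w).2) = w := h1.symm.trans h3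
    have h5 : (δ.invFun w).1 = w.1 := (Prod.ext_iff.1 h4).1
    have h6 : J (δ.invFun w).1 (δ.invFun w).2 = w.2 := (Prod.ext_iff.1 h4).2
    rw [h5] at h6
    exact h6

/-- the data of the displacement -/
structure Dat (Q : Set (ℝ × ℝ)) (L V U : Set R4) (J : ℝ × ℝ → R4 → R4)
    (S T : Set ((ℝ × ℝ) × R4)) (G : (ℝ × ℝ) × R4 → R4) (A : Set (ℝ × ℝ)) (N' N : Set R4)
    (χ : R4 → ℝ) : Prop where
  openS : IsOpen S
  openT : IsOpen T
  smJ : ContDiffOn ℝ ∞ (fun z : (ℝ × ℝ) × R4 => J z.1 z.2) S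
  smG : ContDiffOn ℝ ∞ G T
  into : ∀ z ∈ S, (z.1, J z.1 z.2) ∈ T ∧ G (z.1, J z.1 z.2) = z.2
  fro : ∀ w ∈ T, (w.1, G w) ∈ S ∧ J w.1 (G w) = w.2
  openA : IsOpen A
  openN' : IsOpen N'
  QA : Q ⊆ A
  box : ∀ a ∈ A, ∀ p ∈ N', (a, p) ∈ S ∧ (p ∉ V → J a p ∈ U)
  smχ : ContDiff ℝ ∞ χ
  cpt : IsCompact (tsupport χ)
  sub : tsupport χ ⊆ N'
  openN : IsOpen N
  LN : L ⊆ N
  one : ∀ p ∈ N, χ p = 1
  froz : ∀ a ∈ Q, ∀ b ∈ Q, ∀ p ∈ V, J a p = J b p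

theorem exists_dat {Q : Set (ℝ × ℝ)} {L V U : Set R4} {J : ℝ × ℝ → R4 → R4} (hQ : IsCompact Q)
    (hL : IsCompact L) (hV : IsOpen V) (hU : IsOpen U) (hF : Fam2 Q L V U J) :
    ∃ S T G A N' N χ, Dat Q L V U J S T G A N' N χ := by
  obtain ⟨S, T, G, hS, hT, hQL, sJ, sG, h1, h2⟩ := exists_inv hQ hL hF
  have hW1 : IsOpen (S ∩ (fun z : (ℝ × ℝ) × R4 => J z.1 z.2) ⁻¹' U) :=
    sJ.continuousOn.isOpen_inter_preimage hS hU
  have hW2 : IsOpen (S ∩ Prod.snd ⁻¹' V) := hS.inter (hV.preimage continuous_snd)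
  obtain ⟨A, N', hA, hN', hQA, hLN', hbox⟩ := generalized_tube_lemma hQ hL (hW1.union hW2) (by
    rintro ⟨a, p⟩ ⟨ha, hp⟩
    by_cases hpV : p ∈ V
    · exact Or.inr ⟨hQL ⟨ha, hp⟩, hpV⟩
    · exact Or.inl ⟨hQL ⟨ha, hp⟩, hF.inU a ha p hp hpV⟩)
  obtain ⟨N₁, c1, l1, s1⟩ := exists_compact_between hL hN' hLN'
  obtain ⟨N₂, c2, l2, s2⟩ := exists_compact_between c1 hN' s1
  obtain ⟨χ, χ0, χ1, -⟩ := exists_contMDiffMap_zero_one_of_isClosed (n := ⊤) 𝓘(ℝ, R4)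
    (isOpen_interior (s := N₂)).isClosed_compl c1.isClosed
    (disjoint_compl_left_iff_subset.2 l2)
  have hsupp : tsupport χ ⊆ N₂ := by
    refine (closure_mono ?_).trans (closure_minimal interior_subset c2.isClosed)
    intro p hp
    by_contra h
    exact hp (χ0 h)
  refine ⟨S, T, G, A, N', interior N₁, χ, ⟨hS, hT, sJ, sG, h1, h2, hA, hN', hQA, ?_,
    χ.contMDiff.contDiff, c2.of_isClosed_subset (isClosed_tsupport _) hsupp, hsupp.trans s2,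
    isOpen_interior, l1, fun p hp => χ1 (interior_subset hp), hF.froz⟩⟩
  intro a ha p hp
  rcases hbox (show ((a, p) : (ℝ × ℝ) × R4) ∈ A ×ˢ N' from ⟨ha, hp⟩) with h | h
  · exact ⟨h.1, fun _ => h.2⟩
  · exact ⟨h.1, fun h' => absurd h.2 h'⟩

section
variable {Q : Set (ℝ × ℝ)} {L V U : Set R4} {J : ℝ × ℝ → R4 → R4} {S T : Set ((ℝ × ℝ) × R4)}
  {G : (ℝ × ℝ) × R4 → R4} {A : Set (ℝ × ℝ)} {N' N : Set R4} {χ : R4 → ℝ}

/-- the displacement -/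
def dsp (J : ℝ × ℝ → R4 → R4) (T : Set ((ℝ × ℝ) × R4)) (G : (ℝ × ℝ) × R4 → R4) (χ : R4 → ℝ)
    (a b : ℝ × ℝ) (y : R4) : R4 :=
  open Classical in
  if (a, y) ∈ T then χ (G (a, y)) • (J b (G (a, y)) - J a (G (a, y))) else 0

theorem dsp_self (a : ℝ × ℝ) (y : R4) : dsp J T G χ a a y = 0 := by
  unfold dsp
  split_ifs
  · rw [sub_self, smul_zero]
  · rfl

theorem dsp_zero {a b : ℝ × ℝ} {y : R4} (h : (a, y) ∈ T → χ (G (a, y)) = 0) :
    dsp J T G χ a b y = 0 := by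
  unfold dsp
  split_ifs with h1
  · rw [h h1, zero_smul]
  · rfl

theorem dsp_smooth (hD : Dat Q L V U J S T G A N' N χ) {a b : ℝ × ℝ} (ha : a ∈ A) (hb : b ∈ A)
    (y : R4) : ContDiffAt ℝ ∞
      (fun z : (ℝ × ℝ) × (ℝ × ℝ) × R4 => dsp J T G χ z.1 z.2.1 z.2.2) (a, b, y) := by
  have hc0 : Continuous (fun z : (ℝ × ℝ) × (ℝ × ℝ) × R4 => ((z.1, z.2.2) : (ℝ × ℝ) × R4)) := by
    fun_prop
  have hs0 : ContDiff ℝ ∞
      (fun z : (ℝ × ℝ) × (ℝ × ℝ) × R4 => ((z.1, z.2.2) : (ℝ × ℝ) × R4)) := by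
    fun_prop
  by_cases hT : (a, y) ∈ T
  · have hTe : ∀ᶠ z : (ℝ × ℝ) × (ℝ × ℝ) × R4 in 𝓝 (a, b, y), (z.1, z.2.2) ∈ T :=
      (hD.openT.preimage hc0).mem_nhds hT
    have hG : ContDiffAt ℝ ∞ (fun z : (ℝ × ℝ) × (ℝ × ℝ) × R4 => G (z.1, z.2.2)) (a, b, y) :=
      ContDiffAt.comp (a, b, y) (hD.smG.contDiffAt (hD.openT.mem_nhds hT)) hs0.contDiffAt
    by_cases hp : G (a, y) ∈ N'
    · have e : (fun z : (ℝ × ℝ) × (ℝ × ℝ) × R4 => dsp J T G χ z.1 z.2.1 z.2.2) =ᶠ[𝓝 (a, b, y)]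
          fun z => χ (G (z.1, z.2.2)) • (J z.2.1 (G (z.1, z.2.2)) - J z.1 (G (z.1, z.2.2))) := by
        filter_upwards [hTe] with z hz
        unfold dsp
        rw [if_pos hz]
      refine ContDiffAt.congr_of_eventuallyEq ?_ e
      have j1 : ContDiffAt ℝ ∞ (fun z : (ℝ × ℝ) × (ℝ × ℝ) × R4 => J z.2.1 (G (z.1, z.2.2)))
          (a, b, y) := by
        have k1 : ContDiffAt ℝ ∞ (fun z : (ℝ × ℝ) × R4 => J z.1 z.2) (b, G (a, y)) :=
          hD.smJ.contDiffAt (hD.openS.mem_nhds (hD.box b hb _ hp).1)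
        exact ContDiffAt.comp (a, b, y) k1 ((contDiffAt_snd.fst).prodMk hG)
      have j2 : ContDiffAt ℝ ∞ (fun z : (ℝ × ℝ) × (ℝ × ℝ) × R4 => J z.1 (G (z.1, z.2.2)))
          (a, b, y) := by
        have k1 : ContDiffAt ℝ ∞ (fun z : (ℝ × ℝ) × R4 => J z.1 z.2) (a, G (a, y)) :=
          hD.smJ.contDiffAt (hD.openS.mem_nhds (hD.box a ha _ hp).1)
        exact ContDiffAt.comp (a, b, y) k1 (contDiffAt_fst.prodMk hG)
      exact (ContDiffAt.comp (a, b, y) hD.smχ.contDiffAt hG).smul (j1.sub j2)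
    · have hp' : G (a, y) ∉ tsupport χ := fun h => hp (hD.sub h)
      have e : (fun z : (ℝ × ℝ) × (ℝ × ℝ) × R4 => dsp J T G χ z.1 z.2.1 z.2.2) =ᶠ[𝓝 (a, b, y)]
          fun _ => 0 := by
        filter_upwards [hG.continuousAt.eventually
          ((isClosed_tsupport χ).isOpen_compl.mem_nhds hp')] with z hz
        exact dsp_zero fun _ => image_eq_zero_of_notMem_tsupport hz
      exact contDiffAt_const.congr_of_eventuallyEq e
  · obtain ⟨A₁, hA₁, hA₁A, cA₁⟩ := local_compact_nhds (hD.openA.mem_nhds ha)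
    have hcont : ContinuousOn (fun z : (ℝ × ℝ) × R4 => (z.1, J z.1 z.2)) (A₁ ×ˢ tsupport χ) := by
      refine continuous_fst.continuousOn.prodMk (hD.smJ.continuousOn.mono ?_)
      rintro ⟨a', p'⟩ ⟨h1, h2⟩
      exact (hD.box a' (hA₁A h1) p' (hD.sub h2)).1
    have hC : IsCompact ((fun z : (ℝ × ℝ) × R4 => (z.1, J z.1 z.2)) '' (A₁ ×ˢ tsupport χ)) :=
      (cA₁.prod hD.cpt).image_of_continuousOn hcont
    have hn : ((a, y) : (ℝ × ℝ) × R4) ∉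
        (fun z : (ℝ × ℝ) × R4 => (z.1, J z.1 z.2)) '' (A₁ ×ˢ tsupport χ) := by
      rintro ⟨⟨a', p'⟩, ⟨h1, h2⟩, h3⟩
      apply hT
      rw [← h3]
      exact (hD.into (a', p') (hD.box a' (hA₁A h1) p' (hD.sub h2)).1).1
    have e : (fun z : (ℝ × ℝ) × (ℝ × ℝ) × R4 => dsp J T G χ z.1 z.2.1 z.2.2) =ᶠ[𝓝 (a, b, y)]
        fun _ => 0 := by
      have e1 : ∀ᶠ z : (ℝ × ℝ) × (ℝ × ℝ) × R4 in 𝓝 (a, b, y), z.1 ∈ A₁ :=
        continuous_fst.continuousAt.eventually hA₁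
      have e2 : ∀ᶠ z : (ℝ × ℝ) × (ℝ × ℝ) × R4 in 𝓝 (a, b, y), ((z.1, z.2.2) : (ℝ × ℝ) × R4) ∉
          (fun z : (ℝ × ℝ) × R4 => (z.1, J z.1 z.2)) '' (A₁ ×ˢ tsupport χ) :=
        (hC.isClosed.isOpen_compl.preimage hc0).mem_nhds hn
      filter_upwards [e1, e2] with z h1 h2
      refine dsp_zero fun h3 => ?_
      by_contra h4
      apply h2
      refine ⟨(z.1, G (z.1, z.2.2)), ⟨h1, subset_tsupport χ h4⟩, ?_⟩
      have := (hD.fro _ h3).2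
      exact Prod.ext rfl this
    exact contDiffAt_const.congr_of_eventuallyEq e

/-- the support -/
theorem dsp_supp (hD : Dat Q L V U J S T G A N' N χ) {a b : ℝ × ℝ} (ha : a ∈ Q) (hb : b ∈ Q)
    {y : R4} (hy : y ∉ (fun z : (ℝ × ℝ) × R4 => J z.1 z.2) '' (Q ×ˢ (tsupport χ \ V))) :
    dsp J T G χ a b y = 0 := by
  by_cases hT : (a, y) ∈ T
  · by_cases hp : G (a, y) ∈ tsupport χ
    · by_cases hV : G (a, y) ∈ V
      · unfold dsp
        rw [if_pos hT, hD.froz a ha b hb _ hV, sub_self, smul_zero]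
      · exfalso
        exact hy ⟨(a, G (a, y)), ⟨ha, hp, hV⟩, (hD.fro _ hT).2⟩
    · exact dsp_zero fun _ => image_eq_zero_of_notMem_tsupport hp
  · exact dsp_zero fun h => absurd h hT

theorem dsp_germ (hD : Dat Q L V U J S T G A N' N χ) {a b : ℝ × ℝ} (ha : a ∈ Q)
    {p : R4} (hp : p ∈ N) : J a p + dsp J T G χ a b (J a p) = J b p := by
  have hp' : p ∈ N' := by
    apply hD.sub
    apply subset_tsupport χ
    rw [Function.mem_support, hD.one p hp]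
    exact one_ne_zero
  obtain ⟨h1, h2⟩ := hD.into (a, p) (hD.box a (hD.QA ha) p hp').1
  unfold dsp
  rw [if_pos h1, h2, hD.one p hp, one_smul]
  abel

/-- step (2): short displacements are contractions, for parameters in an open set -/
theorem exists_eta (hD : Dat Q L V U J S T G A N' N χ) (hQ : IsCompact Q) :
    ∃ (η : ℝ) (O : Set ((ℝ × ℝ) × (ℝ × ℝ))), 0 < η ∧ IsOpen O ∧
      (∀ a ∈ Q, ∀ b ∈ Q, dist b a < η → (a, b) ∈ O) ∧ (∀ z ∈ O, z.1 ∈ A ∧ z.2 ∈ A) ∧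
      ∀ z ∈ O, ∀ x y, ‖dsp J T G χ z.1 z.2 x - dsp J T G χ z.1 z.2 y‖ ≤ 3 / 4 * ‖x - y‖ := by
  set Ω : Set ((ℝ × ℝ) × (ℝ × ℝ) × R4) := A ×ˢ (A ×ˢ univ) with hΩ
  have hΩo : IsOpen Ω := hD.openA.prod (hD.openA.prod isOpen_univ)
  have hsm : ContDiffOn ℝ ∞
      (fun z : (ℝ × ℝ) × (ℝ × ℝ) × R4 => dsp J T G χ z.1 z.2.1 z.2.2) Ω := by
    rintro ⟨a, b, y⟩ ⟨ha, hb, -⟩
    exact (dsp_smooth hD ha hb y).contDiffWithinAt
  set I : R4 →L[ℝ] (ℝ × ℝ) × (ℝ × ℝ) × R4 :=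
    (ContinuousLinearMap.inr ℝ (ℝ × ℝ) ((ℝ × ℝ) × R4)).comp
      (ContinuousLinearMap.inr ℝ (ℝ × ℝ) R4) with hI
  set F : (ℝ × ℝ) × (ℝ × ℝ) × R4 → (R4 →L[ℝ] R4) := fun z =>
    (fderiv ℝ (fun z : (ℝ × ℝ) × (ℝ × ℝ) × R4 => dsp J T G χ z.1 z.2.1 z.2.2) z).comp I with hFdef
  have hFc : ContinuousOn F Ω := by
    have h1 := hsm.continuousOn_fderiv_of_isOpen hΩo (by simp)
    exact h1.clm_comp continuousOn_const
  have hFd : ∀ a ∈ A, ∀ b ∈ A, ∀ y, HasFDerivAt (dsp J T G χ a b) (F (a, b, y)) y := by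
    intro a ha b hb y
    have h1 := ((dsp_smooth hD ha hb y).differentiableAt (by simp)).hasFDerivAt
    have h2 : HasFDerivAt (fun q : R4 => ((a, b, q) : (ℝ × ℝ) × (ℝ × ℝ) × R4)) I y :=
      (hasFDerivAt_prodMk_right a (b, y)).comp y (hasFDerivAt_prodMk_right b y)
    exact h1.comp y h2
  have hF0 : ∀ a ∈ A, ∀ y, F (a, a, y) = 0 := by
    intro a ha y
    have h1 := hFd a ha a ha y
    have h2 : dsp J T G χ a a = fun _ => 0 := funext fun y => dsp_self a y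
    rw [h2] at h1
    exact h1.unique (hasFDerivAt_const (0 : R4) y)
  obtain ⟨A₁, cA₁, hQA₁, hA₁A⟩ := exists_compact_between hQ hD.openA hD.QA
  have hcJ : ContinuousOn (fun z : (ℝ × ℝ) × R4 => J z.1 z.2) (A₁ ×ˢ tsupport χ) := by
    refine hD.smJ.continuousOn.mono ?_
    rintro ⟨a, p⟩ ⟨h1, h2⟩
    exact (hD.box a (hA₁A h1) p (hD.sub h2)).1
  set K : Set R4 := (fun z : (ℝ × ℝ) × R4 => J z.1 z.2) '' (A₁ ×ˢ tsupport χ) with hK
  have hKc : IsCompact K := (cA₁.prod hD.cpt).image_of_continuousOn hcJ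
  have hF1 : ∀ a ∈ A₁, ∀ b ∈ A, ∀ y, y ∉ K → F (a, b, y) = 0 := by
    intro a ha b hb y hy
    have h1 := hFd a (hA₁A ha) b hb y
    have h2 : dsp J T G χ a b =ᶠ[𝓝 y] fun _ => 0 := by
      filter_upwards [hKc.isClosed.isOpen_compl.mem_nhds hy] with y' hy'
      refine dsp_zero fun h3 => ?_
      by_contra h4
      exact hy' ⟨(a, G (a, y')), ⟨ha, subset_tsupport χ h4⟩, (hD.fro _ h3).2⟩
    exact h1.unique ((hasFDerivAt_const (0 : R4) y).congr_of_eventuallyEq h2)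
  have hcomp : IsCompact (Q ×ˢ (Q ×ˢ K)) := hQ.prod (hQ.prod hKc)
  have huc := hcomp.uniformContinuousOn_of_continuous (hFc.mono (by
    rintro ⟨a, b, y⟩ ⟨ha, hb, -⟩
    exact ⟨hD.QA ha, hD.QA hb, mem_univ _⟩))
  rw [Metric.uniformContinuousOn_iff] at huc
  obtain ⟨η, hη, h⟩ := huc (3 / 4) (by norm_num)
  set O : Set ((ℝ × ℝ) × (ℝ × ℝ)) :=
    interior {z | z.1 ∈ A₁ ∧ z.2 ∈ A ∧ ∀ y ∈ K, ‖F (z.1, z.2, y)‖ < 3 / 4} with hO
  have hsub' : O ⊆ {z | z.1 ∈ A₁ ∧ z.2 ∈ A ∧ ∀ y ∈ K, ‖F (z.1, z.2, y)‖ < 3 / 4} :=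
    interior_subset
  have hsub : ∀ z ∈ O, z.1 ∈ A₁ ∧ z.2 ∈ A ∧ ∀ y ∈ K, ‖F (z.1, z.2, y)‖ < 3 / 4 :=
    fun z hz => hsub' hz
  refine ⟨η, O, hη, isOpen_interior, fun a ha b hb hab => ?_,
    fun z hz => ⟨hA₁A (hsub z hz).1, (hsub z hz).2.1⟩, fun z hz x y => ?_⟩
  · rw [hO, mem_interior_iff_mem_nhds]
    have e1 : ∀ᶠ z : (ℝ × ℝ) × (ℝ × ℝ) in 𝓝 (a, b), z.1 ∈ A₁ :=
      continuous_fst.continuousAt.eventually (mem_interior_iff_mem_nhds.1 (hQA₁ ha))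
    have e2 : ∀ᶠ z : (ℝ × ℝ) × (ℝ × ℝ) in 𝓝 (a, b), z.2 ∈ A :=
      continuous_snd.continuousAt.eventually (hD.openA.mem_nhds (hD.QA hb))
    have e3 : ∀ᶠ z : (ℝ × ℝ) × (ℝ × ℝ) in 𝓝 (a, b), ∀ y ∈ K, ‖F (z.1, z.2, y)‖ < 3 / 4 := by
      apply hKc.eventually_forall_of_forall_eventually
      intro y hy
      have h1 := h (a, b, y) ⟨ha, hb, hy⟩ (a, a, y) ⟨ha, ha, hy⟩ (by
        have e : dist ((a, b, y) : (ℝ × ℝ) × (ℝ × ℝ) × R4) (a, a, y) = dist b a := by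
          simp [Prod.dist_eq]
        rw [e]
        exact hab)
      rw [hF0 a (hD.QA ha), dist_zero_right] at h1
      have h2 : ContinuousAt (fun z : ((ℝ × ℝ) × (ℝ × ℝ)) × R4 => F (z.1.1, z.1.2, z.2))
          ((a, b), y) := by
        have h3 : ContinuousAt F (a, b, y) :=
          hFc.continuousAt (hΩo.mem_nhds ⟨hD.QA ha, hD.QA hb, mem_univ _⟩)
        have h4 : Continuous (fun z : ((ℝ × ℝ) × (ℝ × ℝ)) × R4 =>
            ((z.1.1, z.1.2, z.2) : (ℝ × ℝ) × (ℝ × ℝ) × R4)) := by fun_prop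
        exact ContinuousAt.comp (g := F) (x := ((a, b), y))
          (f := fun z : ((ℝ × ℝ) × (ℝ × ℝ)) × R4 =>
            ((z.1.1, z.1.2, z.2) : (ℝ × ℝ) × (ℝ × ℝ) × R4)) h3 h4.continuousAt
      exact (h2.norm).eventually_lt_const h1
    filter_upwards [e1, e2, e3] with z h1 h2 h3
    exact ⟨h1, h2, h3⟩
  · obtain ⟨h1, h2, h3⟩ := hsub z hz
    have hbd : ∀ y : R4, ‖F (z.1, z.2, y)‖ ≤ 3 / 4 := by
      intro y
      by_cases hy : y ∈ K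
      · exact (h3 y hy).le
      · rw [hF1 _ h1 _ h2 y hy, norm_zero]
        norm_num
    exact convex_univ.norm_image_sub_le_of_norm_hasFDerivWithin_le
      (fun w _ => (hFd _ (hA₁A h1) _ h2 w).hasFDerivWithinAt) (fun w _ => hbd w)
      (mem_univ y) (mem_univ x)

/-- the points of the segment -/
def ip (n : ℕ) (a b : ℝ × ℝ) (k : ℕ) : ℝ × ℝ := a + ((k : ℝ) / n) • (b - a)

theorem ip_zero (n : ℕ) (a b : ℝ × ℝ) : ip n a b 0 = a := by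
  unfold ip
  simp

theorem ip_last {n : ℕ} (hn : 0 < n) (a b : ℝ × ℝ) : ip n a b n = b := by
  unfold ip
  rw [div_self (by exact_mod_cast hn.ne'), one_smul]
  abel

theorem ip_self (n : ℕ) (a : ℝ × ℝ) (k : ℕ) : ip n a a k = a := by
  unfold ip
  simp

theorem ip_mem (hc : Convex ℝ Q) {n k : ℕ} {a b : ℝ × ℝ} (ha : a ∈ Q) (hb : b ∈ Q) (hk : k ≤ n) :
    ip n a b k ∈ Q := by
  apply hc.add_smul_sub_mem ha hb
  refine ⟨by positivity, ?_⟩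
  apply div_le_one_of_le₀ _ (by positivity)
  exact_mod_cast hk

theorem exists_n (hQ : IsCompact Q) {η : ℝ} (hη : 0 < η) : ∃ n : ℕ, 0 < n ∧ ∀ a ∈ Q, ∀ b ∈ Q,
    ∀ k : ℕ, dist (ip n a b (k + 1)) (ip n a b k) < η := by
  obtain ⟨R, hR⟩ := hQ.isBounded.exists_norm_le
  obtain ⟨n, hn⟩ := exists_nat_gt ((2 * |R| + 1) / η)
  have hn0 : (0 : ℝ) < n := lt_trans (by positivity) hn
  refine ⟨n, by exact_mod_cast hn0, fun a ha b hb k => ?_⟩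
  have e : ip n a b (k + 1) - ip n a b k = (1 / (n : ℝ)) • (b - a) := by
    unfold ip
    rw [add_sub_add_left_eq_sub, ← sub_smul]
    push_cast
    rw [← sub_div, add_sub_cancel_left]
  rw [dist_eq_norm, e, norm_smul, Real.norm_eq_abs, abs_of_pos (show (0 : ℝ) < 1 / n by positivity)]
  have h1 : ‖b - a‖ ≤ 2 * |R| := by
    have h2 := norm_sub_le b a
    have h3 := hR a ha
    have h4 := hR b hb
    have h5 := le_abs_self R
    linarith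
  rw [div_lt_iff₀ hη] at hn
  rw [one_div, inv_mul_lt_iff₀ hn0]
  linarith

/-- the chain -/
def chn (J : ℝ × ℝ → R4 → R4) (T : Set ((ℝ × ℝ) × R4)) (G : (ℝ × ℝ) × R4 → R4) (χ : R4 → ℝ)
    (n : ℕ) (a b : ℝ × ℝ) : ℕ → R4 → R4
  | 0, x => x
  | k + 1, x => chn J T G χ n a b k x +
      dsp J T G χ (ip n a b k) (ip n a b (k + 1)) (chn J T G χ n a b k x)

theorem chn_self (n : ℕ) (a : ℝ × ℝ) (k : ℕ) (x : R4) : chn J T G χ n a a k x = x := by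
  induction k with
  | zero => rfl
  | succ k ih =>
    change chn J T G χ n a a k x +
      dsp J T G χ (ip n a a k) (ip n a a (k + 1)) (chn J T G χ n a a k x) = x
    rw [ih, ip_self, ip_self, dsp_self, add_zero]

theorem chn_supp (hD : Dat Q L V U J S T G A N' N χ) (hc : Convex ℝ Q) {n : ℕ} {a b : ℝ × ℝ}
    (ha : a ∈ Q) (hb : b ∈ Q) {x : R4}
    (hx : x ∉ (fun z : (ℝ × ℝ) × R4 => J z.1 z.2) '' (Q ×ˢ (tsupport χ \ V))) (k : ℕ)
    (hk : k ≤ n) : chn J T G χ n a b k x = x := by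
  induction k with
  | zero => rfl
  | succ k ih =>
    change chn J T G χ n a b k x +
      dsp J T G χ (ip n a b k) (ip n a b (k + 1)) (chn J T G χ n a b k x) = x
    rw [ih (by omega), dsp_supp hD (ip_mem hc ha hb (by omega)) (ip_mem hc ha hb hk) hx, add_zero]

theorem chn_germ (hD : Dat Q L V U J S T G A N' N χ) (hc : Convex ℝ Q) {n : ℕ} {a b : ℝ × ℝ}
    (ha : a ∈ Q) (hb : b ∈ Q) {p : R4} (hp : p ∈ N) (k : ℕ) (hk : k ≤ n) :
    chn J T G χ n a b k (J a p) = J (ip n a b k) p := by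
  induction k with
  | zero => rw [ip_zero]; rfl
  | succ k ih =>
    change chn J T G χ n a b k (J a p) +
      dsp J T G χ (ip n a b k) (ip n a b (k + 1)) (chn J T G χ n a b k (J a p)) = _
    rw [ih (by omega)]
    exact dsp_germ hD (ip_mem hc ha hb (by omega)) hp

/-- the inverse chain -/
def chv (f' : ((ℝ × ℝ) × (ℝ × ℝ)) × R4 → R4) (n : ℕ) (a b : ℝ × ℝ) : ℕ → R4 → R4
  | 0, x => x
  | k + 1, x => chv f' n a b k (f' ((ip n a b k, ip n a b (k + 1)), x))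

theorem ip_smooth (n k : ℕ) :
    ContDiff ℝ ∞ (fun z : (ℝ × ℝ) × (ℝ × ℝ) => ip n z.1 z.2 k) := by
  unfold ip
  fun_prop

/-- the steps are in `O` -/
def OO (O : Set ((ℝ × ℝ) × (ℝ × ℝ))) (n : ℕ) : Set ((ℝ × ℝ) × (ℝ × ℝ)) :=
  ⋂ k : Fin n, (fun z => (ip n z.1 z.2 k, ip n z.1 z.2 (k + 1))) ⁻¹' O

theorem isOpen_OO {O : Set ((ℝ × ℝ) × (ℝ × ℝ))} (hO : IsOpen O) (n : ℕ) : IsOpen (OO O n) := by
  refine isOpen_iInter_of_finite fun k => hO.preimage ?_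
  exact (ip_smooth n k).continuous.prodMk (ip_smooth n (k + 1)).continuous

theorem mem_OO {O : Set ((ℝ × ℝ) × (ℝ × ℝ))} {n k : ℕ} {z : (ℝ × ℝ) × (ℝ × ℝ)}
    (hz : z ∈ OO O n) (hk : k < n) : (ip n z.1 z.2 k, ip n z.1 z.2 (k + 1)) ∈ O :=
  mem_iInter.1 hz ⟨k, hk⟩

theorem chn_smooth (hD : Dat Q L V U J S T G A N' N χ) {O : Set ((ℝ × ℝ) × (ℝ × ℝ))}
    (hOA : ∀ z ∈ O, z.1 ∈ A ∧ z.2 ∈ A) {n : ℕ} (k : ℕ) (hk : k ≤ n) :
    ContDiffOn ℝ ∞ (fun z : ((ℝ × ℝ) × (ℝ × ℝ)) × R4 => chn J T G χ n z.1.1 z.1.2 k z.2)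
      (OO O n ×ˢ univ) := by
  induction k with
  | zero => exact contDiffOn_snd
  | succ k ih =>
    have ih' := ih (by omega)
    change ContDiffOn ℝ ∞ (fun z : ((ℝ × ℝ) × (ℝ × ℝ)) × R4 => chn J T G χ n z.1.1 z.1.2 k z.2 +
      dsp J T G χ (ip n z.1.1 z.1.2 k) (ip n z.1.1 z.1.2 (k + 1)) (chn J T G χ n z.1.1 z.1.2 k z.2))
      (OO O n ×ˢ univ)
    refine ih'.add ?_
    intro z hz
    have hm := hOA _ (mem_OO hz.1 (show k < n by omega))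
    have h1 := dsp_smooth hD hm.1 hm.2 (chn J T G χ n z.1.1 z.1.2 k z.2)
    have h2 : ContDiffWithinAt ℝ ∞ (fun z : ((ℝ × ℝ) × (ℝ × ℝ)) × R4 =>
        ((ip n z.1.1 z.1.2 k, ip n z.1.1 z.1.2 (k + 1), chn J T G χ n z.1.1 z.1.2 k z.2) :
          (ℝ × ℝ) × (ℝ × ℝ) × R4)) (OO O n ×ˢ univ) z :=
      (((ip_smooth n k).comp contDiff_fst).contDiffAt.contDiffWithinAt).prodMk
        ((((ip_smooth n (k + 1)).comp contDiff_fst).contDiffAt.contDiffWithinAt).prodMk (ih' z hz))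
    exact ContDiffAt.comp_contDiffWithinAt (f := fun z : ((ℝ × ℝ) × (ℝ × ℝ)) × R4 =>
        ((ip n z.1.1 z.1.2 k, ip n z.1.1 z.1.2 (k + 1), chn J T G χ n z.1.1 z.1.2 k z.2) :
          (ℝ × ℝ) × (ℝ × ℝ) × R4)) z h1 h2

theorem chv_smooth {O : Set ((ℝ × ℝ) × (ℝ × ℝ))} {f' : ((ℝ × ℝ) × (ℝ × ℝ)) × R4 → R4}
    (hf : ContDiffOn ℝ ∞ f' (O ×ˢ univ)) {n : ℕ} (k : ℕ) (hk : k ≤ n) :
    ContDiffOn ℝ ∞ (fun z : ((ℝ × ℝ) × (ℝ × ℝ)) × R4 => chv f' n z.1.1 z.1.2 k z.2)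
      (OO O n ×ˢ univ) := by
  induction k with
  | zero => exact contDiffOn_snd
  | succ k ih =>
    have ih' := ih (by omega)
    have h1 : ContDiffOn ℝ ∞ (fun z : ((ℝ × ℝ) × (ℝ × ℝ)) × R4 =>
        ((z.1, f' ((ip n z.1.1 z.1.2 k, ip n z.1.1 z.1.2 (k + 1)), z.2)) :
          ((ℝ × ℝ) × (ℝ × ℝ)) × R4)) (OO O n ×ˢ univ) := by
      refine contDiffOn_fst.prodMk ?_
      have h2 : ContDiff ℝ ∞ (fun z : ((ℝ × ℝ) × (ℝ × ℝ)) × R4 =>
          (((ip n z.1.1 z.1.2 k, ip n z.1.1 z.1.2 (k + 1)), z.2) :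
          ((ℝ × ℝ) × (ℝ × ℝ)) × R4)) :=
        (((ip_smooth n k).comp contDiff_fst).prodMk
          ((ip_smooth n (k + 1)).comp contDiff_fst)).prodMk contDiff_snd
      exact hf.comp h2.contDiffOn fun z hz => ⟨mem_OO hz.1 (by omega), mem_univ _⟩
    exact ih'.comp h1 fun z hz => ⟨hz.1, mem_univ _⟩

theorem chv_inv {O : Set ((ℝ × ℝ) × (ℝ × ℝ))} {f' : ((ℝ × ℝ) × (ℝ × ℝ)) × R4 → R4}
    (hf : ∀ e ∈ O, ∀ x, f' (e, x) + dsp J T G χ e.1 e.2 (f' (e, x)) = x ∧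
      f' (e, x + dsp J T G χ e.1 e.2 x) = x) {n : ℕ} {a b : ℝ × ℝ} (hab : (a, b) ∈ OO O n)
    (k : ℕ) (hk : k ≤ n) (x : R4) :
    chn J T G χ n a b k (chv f' n a b k x) = x ∧ chv f' n a b k (chn J T G χ n a b k x) = x := by
  induction k generalizing x with
  | zero => exact ⟨rfl, rfl⟩
  | succ k ih =>
    have hm : (ip n a b k, ip n a b (k + 1)) ∈ O := mem_OO hab (show k < n by omega)
    constructor
    · change chn J T G χ n a b k (chv f' n a b k (f' ((ip n a b k, ip n a b (k + 1)), x))) +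
        dsp J T G χ (ip n a b k) (ip n a b (k + 1))
          (chn J T G χ n a b k (chv f' n a b k (f' ((ip n a b k, ip n a b (k + 1)), x)))) = x
      rw [(ih (by omega) _).1]
      exact (hf _ hm x).1
    · change chv f' n a b k (f' ((ip n a b k, ip n a b (k + 1)), chn J T G χ n a b k x +
        dsp J T G χ (ip n a b k) (ip n a b (k + 1)) (chn J T G χ n a b k x))) = x
      have h1 := (hf _ hm (chn J T G χ n a b k x)).2
      rw [h1]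
      exact (ih (by omega) x).2

end

end

end CH4

open CH4 in
/-- **CH4.** -/
theorem m_CH4 (pt : StPTJ) : StCH4J := by
  intro Q L V U J hQ hc hL hV hU hF
  obtain ⟨S, T, G, A, N', N, χ, hD⟩ := exists_dat hQ hL hV hU hF
  obtain ⟨η, O, hη, hO, h1, hOA, h3⟩ := exists_eta hD hQ
  obtain ⟨n, hn, h2⟩ := exists_n hQ hη
  obtain ⟨f', hf1, hf2⟩ := pt ((ℝ × ℝ) × (ℝ × ℝ)) R4 O
    (fun z => dsp J T G χ z.1.1 z.1.2 z.2) hO (by
      intro z hz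
      have hm := hOA _ hz.1
      have k1 := dsp_smooth hD hm.1 hm.2 z.2
      have k2 : ContDiff ℝ ∞ (fun z : ((ℝ × ℝ) × (ℝ × ℝ)) × R4 =>
        ((z.1.1, z.1.2, z.2) : (ℝ × ℝ) × (ℝ × ℝ) × R4)) := by fun_prop
      exact (ContDiffAt.comp (f := fun z : ((ℝ × ℝ) × (ℝ × ℝ)) × R4 =>
        ((z.1.1, z.1.2, z.2) : (ℝ × ℝ) × (ℝ × ℝ) × R4)) z k1 k2.contDiffAt).contDiffWithinAt)
    (fun e he x y => h3 e he x y)
  refine ⟨fun a b => chn J T G χ n a b n, fun a b => chv f' n a b n, OO O n, isOpen_OO hO n, ?_,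
    chn_smooth hD hOA n le_rfl, chv_smooth hf1 n le_rfl,
    fun a b hab x => chv_inv hf2 hab n le_rfl x, fun a _ x => chn_self n a n x, N, hD.openN, hD.LN,
    (fun z : (ℝ × ℝ) × R4 => J z.1 z.2) '' (Q ×ˢ (tsupport χ \ V)), ?_, ?_, ?_⟩
  · rintro ⟨a, b⟩ ⟨ha, hb⟩
    refine mem_iInter.2 fun k => ?_
    exact h1 _ (ip_mem hc ha hb k.2.le) _ (ip_mem hc ha hb k.2) (h2 a ha b hb k)
  · refine (hQ.prod (hD.cpt.diff hV)).image_of_continuousOn (hD.smJ.continuousOn.mono ?_)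
    rintro ⟨a, p⟩ ⟨ha, hp⟩
    exact (hD.box a (hD.QA ha) p (hD.sub hp.1)).1
  · rintro _ ⟨⟨a, p⟩, ⟨ha, hp⟩, rfl⟩
    exact (hD.box a (hD.QA ha) p (hD.sub hp.1)).2 hp.2
  · intro a ha b hb
    refine ⟨fun x hx => chn_supp hD hc ha hb hx n le_rfl, fun p hp => ?_⟩
    change chn J T G χ n a b n (J a p) = J b p
    rw [chn_germ hD hc ha hb hp n le_rfl, ip_last hn]

end Pool.Agent.Helper27.H
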