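import Pool.Agent.Helper27.BI.H.StH3
import Pool.Agent.Helper18.BI.M_A1

/-!
# Project BI, stage 3 (H), module CUT: transplantation of the cusp family into a thick arc
-/

set_option autoImplicit false

open scoped Manifold ContDiff Topology ComplexConjugate
open Set Filter Pool.Agent.Helper65.Barb Pool.Agent.Helper18.BI
open Pool.Agent.Helper70.BI (I4 LD ld_iff)

namespace Pool.Agent.Helper27.H

namespace CUT

private theorem isCompact_seg (s₀ s₁ : ℝ) : IsCompact (seg s₀ s₁) := by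
  have h : seg s₀ s₁ = (fun s : ℝ => ((s, 0) : R4)) '' Icc s₀ s₁ := by
    ext ⟨s, x⟩
    constructor
    · rintro ⟨h1, h2, h3⟩
      refine ⟨s, ⟨h1, h2⟩, ?_⟩
      simp only at h3
      rw [h3]
    · rintro ⟨t, ⟨h1, h2⟩, h3⟩
      have e1 : t = s := congrArg Prod.fst h3
      have e2 : (0 : ℝ × ℂ) = x := congrArg Prod.snd h3
      subst e1
      exact ⟨h1, h2, e2.symm⟩
  rw [h]
  exact isCompact_Icc.image (by fun_prop)

/-- the reparametrized model family -/
private noncomputable def P (x : ℝ × ℝ × ℝ → R4) (m η : ℝ) (z : ℝ × ℝ × ℝ) : R4 :=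
  ((m, 0) : R4) + η • x (z.1, z.2.1, (z.2.2 - m) / η)

private theorem contDiff_P {x : ℝ × ℝ × ℝ → R4} (hx : ContDiff ℝ ∞ x) (m η : ℝ) :
    ContDiff ℝ ∞ (P x m η) := by
  have h1 : ContDiff ℝ ∞ (fun z : ℝ × ℝ × ℝ => ((z.1, z.2.1, (z.2.2 - m) / η) : ℝ × ℝ × ℝ)) := by
    refine contDiff_fst.prodMk ((contDiff_fst.comp contDiff_snd).prodMk ?_)
    exact ((contDiff_snd.comp contDiff_snd).sub contDiff_const).div_const η
  have h2 : ContDiff ℝ ∞ (fun z : ℝ × ℝ × ℝ => x (z.1, z.2.1, (z.2.2 - m) / η)) := hx.comp h1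
  exact contDiff_const.add (h2.const_smul η)

private theorem fderiv_P {x : ℝ × ℝ × ℝ → R4} (hx : ContDiff ℝ ∞ x) {m η : ℝ} (z : ℝ × ℝ × ℝ)
    (ζ θ σ : ℝ) : fderiv ℝ (P x m η) z (ζ, θ, σ) =
      η • fderiv ℝ x (z.1, z.2.1, (z.2.2 - m) / η) (ζ, θ, σ / η) := by
  have h1 : HasFDerivAt (fun z : ℝ × ℝ × ℝ => ((z.1, z.2.1, (z.2.2 - m) / η) : ℝ × ℝ × ℝ))
      ((ContinuousLinearMap.fst ℝ ℝ (ℝ × ℝ)).prod
        (((ContinuousLinearMap.fst ℝ ℝ ℝ).comp (ContinuousLinearMap.snd ℝ ℝ (ℝ × ℝ))).prod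
          (η⁻¹ • ((ContinuousLinearMap.snd ℝ ℝ ℝ).comp (ContinuousLinearMap.snd ℝ ℝ (ℝ × ℝ))))))
      z := by
    refine hasFDerivAt_fst.prodMk (HasFDerivAt.prodMk ?_ ?_)
    · exact (hasFDerivAt_fst.comp z hasFDerivAt_snd)
    · have h2 : HasFDerivAt (fun z : ℝ × ℝ × ℝ => z.2.2 - m)
          ((ContinuousLinearMap.snd ℝ ℝ ℝ).comp (ContinuousLinearMap.snd ℝ ℝ (ℝ × ℝ))) z :=
        (hasFDerivAt_snd.comp z hasFDerivAt_snd).sub_const m
      have h3 := h2.const_smul η⁻¹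
      refine h3.congr_of_eventuallyEq (Eventually.of_forall fun y => ?_)
      simp [div_eq_inv_mul]
  have h4 := (hx.differentiable (by simp) (z.1, z.2.1, (z.2.2 - m) / η)).hasFDerivAt
  have h5 := ((h4.comp z h1).const_smul η).const_add ((m, 0) : R4)
  have h6 : fderiv ℝ (P x m η) z = _ := h5.fderiv
  rw [h6]
  simp [div_eq_inv_mul]

end CUT

theorem m_CUT : StCUT := by
  rintro ⟨x, σ₀, hσ, hσ1, hx, hfix, hbd, himm, hdbl, hpt, htr⟩ D
  classical
  obtain ⟨δ, hL, hδ⟩ := m_A1 R4 R4 R4 I4 R4 D.J D.L (CUT.isCompact_seg _ _) D.emb.1 D.emb.2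
  have hJinj : InjOn D.J δ.source := fun p hp q hq he => by
    apply δ.injOn hp hq
    rw [hδ p hp, hδ q hq, he]
  have hJld : ∀ p ∈ δ.source, LD D.J p := fun p hp => ⟨δ, hp, fun q hq => (hδ q hq).symm⟩
  have hJc : ∀ p ∈ δ.source, ContDiffAt ℝ ∞ D.J p := fun p hp =>
    (ld_iff.1 (hJld p hp)).1.self_of_nhds
  have hJd : ∀ p ∈ δ.source, Function.Injective (fderiv ℝ D.J p) := fun p hp =>
    (ld_iff.1 (hJld p hp)).2
  set m : ℝ := (D.m₀ + D.m₁) / 2 with hm
  have h₀ := D.h₀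
  have h₁ := D.h₁
  have h₂ := D.h₂
  have hLm : ∀ s ∈ Icc D.s₀ D.s₁, ((s, 0) : R4) ∈ δ.source := fun s hs =>
    hL ⟨hs.1, hs.2, rfl⟩
  have hmI : m ∈ Icc D.s₀ D.s₁ := ⟨by linarith, by linarith⟩
  have hmN := hLm m hmI
  have hmU : D.J (m, 0) ∈ D.U := by
    rw [D.core m hmI]
    exact D.mem m ⟨by linarith, by linarith⟩
  have hnb : δ.source ∩ D.J ⁻¹' D.U ∈ 𝓝 ((m, 0) : R4) :=
    Filter.inter_mem (δ.open_source.mem_nhds hmN)
      ((hJc _ hmN).continuousAt.preimage_mem_nhds (D.openU.mem_nhds hmU))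
  obtain ⟨ρ, hρ, hball⟩ := Metric.mem_nhds_iff.1 hnb
  set η : ℝ := min (ρ / 8) ((D.m₁ - D.m₀) / 8) with hη
  have hη0 : 0 < η := lt_min (by linarith) (by linarith)
  have hη1 : η ≤ ρ / 8 := min_le_left _ _
  have hη2 : η ≤ (D.m₁ - D.m₀) / 8 := min_le_right _ _
  set P := CUT.P x m η with hP
  have hPc : ContDiff ℝ ∞ P := CUT.contDiff_P hx m η
  -- far from the middle the curve is straight
  have hPs : ∀ u q s, (η ≤ |s - m| ∨ u ∉ Ioo (0 : ℝ) 1 ∨ q ∉ Ioo (0 : ℝ) 1) →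
      P (u, q, s) = (s, 0) := by
    intro u q s h
    have h' : 1 ≤ |(s - m) / η| ∨ u ∉ Ioo (0 : ℝ) 1 ∨ q ∉ Ioo (0 : ℝ) 1 := by
      rcases h with h | h
      · left
        rw [abs_div, abs_of_pos hη0, le_div_iff₀ hη0]
        linarith
      · exact Or.inr h
    have e := hfix u q _ h'
    simp only [hP, CUT.P]
    rw [e]
    refine Prod.ext ?_ ?_
    · simp only [Prod.fst_add, Prod.smul_fst, smul_eq_mul]
      field_simp
      ring
    · simp
  have hPb : ∀ u q s, |s - m| ≤ 2 * η → P (u, q, s) ∈ Metric.ball ((m, 0) : R4) ρ := by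
    intro u q s h
    have h3 : ‖x (u, q, (s - m) / η)‖ ≤ 3 := by
      by_cases h4 : |(s - m) / η| ≤ 1
      · exact hbd u q _ h4
      · push Not at h4
        rw [hfix u q _ (Or.inl h4.le)]
        have h5 : |(s - m) / η| ≤ 2 := by
          rw [abs_div, abs_of_pos hη0, div_le_iff₀ hη0]
          linarith
        rw [Prod.norm_def]
        simp only [Real.norm_eq_abs, norm_zero]
        exact max_le (by linarith) (by norm_num)
    rw [Metric.mem_ball, dist_eq_norm]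
    simp only [hP, CUT.P, add_sub_cancel_left]
    rw [norm_smul, Real.norm_eq_abs, abs_of_pos hη0]
    nlinarith
  have hPN : ∀ u q, ∀ s ∈ Icc D.s₀ D.s₁, P (u, q, s) ∈ δ.source := by
    intro u q s hs
    by_cases h : |s - m| ≤ 2 * η
    · exact (hball (hPb u q s h)).1
    · push Not at h
      rw [hPs u q s (Or.inl (by linarith))]
      exact hLm s hs
  set c : ℝ × ℝ × ℝ → R4 := fun z => if |z.2.2 - m| < 2 * η then D.J (P z) else D.c z.2.2 with hc
  have hcJ : ∀ u q, ∀ s ∈ Icc D.s₀ D.s₁, c (u, q, s) = D.J (P (u, q, s)) := by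
    intro u q s hs
    simp only [hc]
    split_ifs with h
    · rfl
    · push Not at h
      rw [hPs u q s (Or.inl (by linarith)), D.core s hs]
  have hIn : ∀ s, |s - m| < 2 * η → s ∈ Ioo D.m₀ D.m₁ := by
    intro s h
    rw [abs_lt] at h
    constructor <;> linarith [h.1, h.2]
  have hInn : ∀ s, |s - m| < 2 * η → s ∈ Icc D.s₀ D.s₁ := fun s h =>
    ⟨by linarith [(hIn s h).1], by linarith [(hIn s h).2]⟩
  have hfar : ∀ u q s, (η ≤ |s - m| ∨ u ∉ Ioo (0 : ℝ) 1 ∨ q ∉ Ioo (0 : ℝ) 1) →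
      c (u, q, s) = D.c s := by
    intro u q s h
    by_cases h' : |s - m| < 2 * η
    · rw [hcJ u q s (hInn s h'), hPs u q s h, D.core s (hInn s h')]
    · simp only [hc]
      rw [if_neg h']
  have hnear : ∀ z : ℝ × ℝ × ℝ, |z.2.2 - m| < 2 * η → c =ᶠ[𝓝 z] fun y => D.J (P y) := by
    intro z hz
    have : ∀ᶠ y : ℝ × ℝ × ℝ in 𝓝 z, |y.2.2 - m| < 2 * η :=
      ContinuousAt.eventually_lt (by fun_prop) (by fun_prop) hz
    filter_upwards [this] with y hy
    simp only [hc]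
    rw [if_pos hy]
  have hfar' : ∀ z : ℝ × ℝ × ℝ, η < |z.2.2 - m| → c =ᶠ[𝓝 z] fun y => D.c y.2.2 := by
    intro z hz
    have : ∀ᶠ y : ℝ × ℝ × ℝ in 𝓝 z, η < |y.2.2 - m| :=
      ContinuousAt.eventually_lt (by fun_prop) (by fun_prop) hz
    filter_upwards [this] with y hy
    exact hfar y.1 y.2.1 y.2.2 (Or.inl hy.le)
  have hcsm : ContDiff ℝ ∞ c := by
    rw [contDiff_iff_contDiffAt]
    intro z
    by_cases hz : |z.2.2 - m| < 2 * η
    · refine ContDiffAt.congr_of_eventuallyEq ?_ (hnear z hz)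
      exact (hJc _ (hball (hPb z.1 z.2.1 z.2.2 hz.le)).1).comp z hPc.contDiffAt
    · push Not at hz
      refine ContDiffAt.congr_of_eventuallyEq ?_ (hfar' z (by linarith))
      exact (D.smooth.comp (contDiff_snd.comp contDiff_snd)).contDiffAt
  have hsep : ∀ s s', s < s' → (s - m) / η < (s' - m) / η := fun s s' h =>
    div_lt_div_of_pos_right (by linarith) hη0
  -- double points
  have hxx : ∀ u q, ∀ s ∈ Icc D.s₀ D.s₁, ∀ s' ∈ Icc D.s₀ D.s₁, c (u, q, s) = c (u, q, s') →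
      x (u, q, (s - m) / η) = x (u, q, (s' - m) / η) := by
    intro u q s hs s' hs' h
    rw [hcJ u q s hs, hcJ u q s' hs'] at h
    have h2 := hJinj (hPN u q s hs) (hPN u q s' hs') h
    simp only [hP, CUT.P] at h2
    have h3 := add_left_cancel h2
    exact smul_right_injective R4 hη0.ne' h3
  have hdd : ∀ u q, ∀ s ∈ Icc D.s₀ D.s₁, ∀ s' ∈ Icc D.s₀ D.s₁, s < s' → c (u, q, s) = c (u, q, s') →
      u = 1 / 2 ∧ q = 1 / 2 ∧ s = m - η * σ₀ ∧ s' = m + η * σ₀ := by
    intro u q s hs s' hs' hlt h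
    obtain ⟨h1, h2, h3, h4⟩ := hdbl u q _ _ (hsep s s' hlt) (hxx u q s hs s' hs' h)
    refine ⟨h1, h2, ?_, ?_⟩
    · rw [div_eq_iff hη0.ne'] at h3
      linarith
    · rw [div_eq_iff hη0.ne'] at h4
      linarith
  have hσa : (m - η * σ₀ - m) / η = -σ₀ := by
    field_simp
    ring
  have hσb : (m + η * σ₀ - m) / η = σ₀ := by
    field_simp
    ring
  have hησ : η * σ₀ < η := by nlinarith
  have hησ0 : 0 < η * σ₀ := mul_pos hη0 hσ
  have haI : |m - η * σ₀ - m| < 2 * η := by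
    rw [show m - η * σ₀ - m = -(η * σ₀) by ring, abs_neg, abs_of_pos hησ0]
    linarith
  have hbI : |m + η * σ₀ - m| < 2 * η := by
    rw [show m + η * σ₀ - m = η * σ₀ by ring, abs_of_pos hησ0]
    linarith
  have hPab : P (1 / 2, 1 / 2, m - η * σ₀) = P (1 / 2, 1 / 2, m + η * σ₀) := by
    simp only [hP, CUT.P]
    rw [hσa, hσb, hpt]
  have hImm : ∀ u ∈ Icc (0 : ℝ) 1, ∀ q ∈ Icc (0 : ℝ) 1, D.Imm c u q := by
    intro u _ q _ s hs
    by_cases h : |s - m| < 2 * η
    · have e1 : (fun s => c (u, q, s)) =ᶠ[𝓝 s] fun s => D.J (P (u, q, s)) := by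
        have h3 : ContinuousAt (fun s : ℝ => ((u, q, s) : ℝ × ℝ × ℝ)) s := by fun_prop
        exact h3.eventually (hnear (u, q, s) h)
      rw [e1.deriv_eq]
      have h4 : HasDerivAt (fun s => P (u, q, s)) (deriv (fun σ => x (u, q, σ)) ((s - m) / η)) s := by
        have h5 : ContDiff ℝ ∞ (fun σ => x (u, q, σ)) :=
          hx.comp (contDiff_const.prodMk (contDiff_const.prodMk contDiff_id))
        have h6 := (h5.differentiable (by simp) ((s - m) / η)).hasDerivAt
        have h7 : HasDerivAt (fun s : ℝ => (s - m) / η) (1 / η) s :=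
          ((hasDerivAt_id s).sub_const m).div_const η
        have h8 := ((h6.scomp s h7).const_smul η).const_add ((m, 0) : R4)
        have h9 : η • (1 / η) • deriv (fun σ => x (u, q, σ)) ((s - m) / η) =
            deriv (fun σ => x (u, q, σ)) ((s - m) / η) := by
          rw [smul_smul, mul_one_div_cancel hη0.ne', one_smul]
        rw [h9] at h8
        exact h8
      have hN := hPN u q s hs
      have h10 := ((hJc _ hN).differentiableAt (by simp)).hasFDerivAt.comp_hasDerivAt s h4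
      have h11 : deriv (fun s => D.J (P (u, q, s))) s = _ := h10.deriv
      rw [h11]
      intro h12
      refine himm u q ((s - m) / η) (hJd _ hN ?_)
      rw [h12, map_zero]
    · push Not at h
      have e1 : (fun s => c (u, q, s)) =ᶠ[𝓝 s] D.c := by
        have h3 : ContinuousAt (fun s : ℝ => ((u, q, s) : ℝ × ℝ × ℝ)) s := by fun_prop
        exact h3.eventually (hfar' (u, q, s) (by simp only; linarith))
      rw [e1.deriv_eq]
      have hN := hLm s hs
      have h4 : HasDerivAt (fun s : ℝ => ((s, 0) : R4)) (1, 0) s :=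
        (hasDerivAt_id s).prodMk (hasDerivAt_const s _)
      have h10 := (((hJc _ hN).differentiableAt (by simp)).hasFDerivAt.comp_hasDerivAt s
        h4).hasDerivWithinAt (s := Icc D.s₀ D.s₁)
      have h11 : HasDerivWithinAt D.c (fderiv ℝ D.J (s, 0) (1, 0)) (Icc D.s₀ D.s₁) s := by
        refine h10.congr (fun t ht => ?_) ?_
        · exact (D.core t ht).symm
        · exact (D.core s hs).symm
      have h12 := (D.smooth.differentiable (by simp) s).hasDerivAt.hasDerivWithinAt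
        (s := Icc D.s₀ D.s₁)
      have h13 := (uniqueDiffOn_Icc (by linarith : D.s₀ < D.s₁) s hs).eq_deriv _ h12 h11
      rw [h13]
      intro h14
      have h15 : ((1, 0) : R4) = 0 := hJd _ hN (by rw [h14, map_zero])
      have h16 : (1 : ℝ) = 0 := congrArg Prod.fst h15
      norm_num at h16
  refine ⟨c, 1 / 2, 1 / 2, m - η * σ₀, m + η * σ₀, ?_, ?_, hImm, ?_, ?_, ?_⟩
  · refine ⟨hcsm, ?_, ?_, ?_, ?_⟩
    · intro u _ q _ s hs
      refine hfar u q s (Or.inl ?_)
      rcases hs with hs | hs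
      · rw [abs_of_nonpos (by linarith)]
        linarith
      · rw [abs_of_nonneg (by linarith)]
        linarith
    · intro u _ q _ s hs
      by_cases h : |s - m| < 2 * η
      · simp only [hc]
        rw [if_pos h]
        exact (hball (hPb u q s h.le)).2
      · push Not at h
        rw [hfar u q s (Or.inl (by linarith))]
        exact D.mem s ⟨by linarith [hs.1], by linarith [hs.2]⟩
    · intro u _ s
      exact hfar u 0 s (Or.inr (Or.inr fun h => lt_irrefl _ h.1))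
    · intro u _ s
      exact hfar u 1 s (Or.inr (Or.inr fun h => lt_irrefl _ h.2))
  · have haN := hPN (1 / 2) (1 / 2) _ (hInn _ haI)
    have hbN := hPN (1 / 2) (1 / 2) _ (hInn _ hbI)
    refine ⟨⟨by norm_num, by norm_num⟩, ⟨by norm_num, by norm_num⟩, ?_, ?_, by linarith, ?_, ?_, ?_⟩
    · exact ⟨by linarith [(hIn _ haI).1], by linarith [(hIn _ haI).2]⟩
    · exact ⟨by linarith [(hIn _ hbI).1], by linarith [(hIn _ hbI).2]⟩
    · rw [hcJ _ _ _ (hInn _ haI), hcJ _ _ _ (hInn _ hbI), hPab]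
    · intro s hs s' hs' hlt h
      obtain ⟨-, -, h3, h4⟩ := hdd _ _ s hs s' hs' hlt h
      exact ⟨h3, h4⟩
    · intro ζ θ σ τ h
      rw [(hnear (1 / 2, 1 / 2, m - η * σ₀) haI).fderiv_eq,
        (hnear (1 / 2, 1 / 2, m + η * σ₀) hbI).fderiv_eq] at h
      have k1 := fderiv_comp (𝕜 := ℝ) (f := P) (g := D.J) ((1 / 2, 1 / 2, m - η * σ₀) : ℝ × ℝ × ℝ)
        ((hJc _ haN).differentiableAt (by simp)) (hPc.differentiable (by simp) _)
      have k2 := fderiv_comp (𝕜 := ℝ) (f := P) (g := D.J) ((1 / 2, 1 / 2, m + η * σ₀) : ℝ × ℝ × ℝ)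
        ((hJc _ hbN).differentiableAt (by simp)) (hPc.differentiable (by simp) _)
      have k1' : fderiv ℝ (fun y => D.J (P y)) (1 / 2, 1 / 2, m - η * σ₀) = _ := k1
      have k2' : fderiv ℝ (fun y => D.J (P y)) (1 / 2, 1 / 2, m + η * σ₀) = _ := k2
      rw [k1', k2', hPab] at h
      have h2 := hJd _ hbN h
      have q1 := CUT.fderiv_P hx (m := m) (η := η) (1 / 2, 1 / 2, m - η * σ₀) ζ θ σ
      have q2 := CUT.fderiv_P hx (m := m) (η := η) (1 / 2, 1 / 2, m + η * σ₀) ζ θ τ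
      have h3 := smul_right_injective R4 hη0.ne' (q1.symm.trans (h2.trans q2))
      simp only at h3
      rw [hσa, hσb] at h3
      obtain ⟨e1, e2, e3, e4⟩ := htr ζ θ (σ / η) (τ / η) h3
      refine ⟨e1, e2, ?_, ?_⟩
      · rw [div_eq_iff hη0.ne'] at e3
        linarith
      · rw [div_eq_iff hη0.ne'] at e4
        linarith
  · intro u _ q _ huq s hs s' hs' h
    by_contra hne
    rcases lt_or_gt_of_ne hne with hlt | hlt
    · obtain ⟨h1, h2, -, -⟩ := hdd u q s hs s' hs' hlt h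
      exact huq (by rw [h1, h2])
    · obtain ⟨h1, h2, -, -⟩ := hdd u q s' hs' s hs hlt h.symm
      exact huq (by rw [h1, h2])
  · intro q s
    exact hfar 0 q s (Or.inr (Or.inl fun h => lt_irrefl _ h.1))
  · intro q s
    exact hfar 1 q s (Or.inr (Or.inl fun h => lt_irrefl _ h.2))

end Pool.Agent.Helper27.H
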