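import Pool.Agent.Helper27.BI.H.StH1
import Pool.Agent.Helper27.BI.H.Calc

/-!
# Project BI, stage 3 (H): framings do not matter

`m_FRAME (ch : StCH4) (pi2 : StPI2) : StFRAME`.
-/

set_option autoImplicit false

open scoped Manifold ContDiff Topology ComplexConjugate
open Set Filter Pool.Agent.Helper65.Barb Pool.Agent.Helper18.BI
open Pool.Agent.Helper70.BI (I4 LD Eqv NearEq embOn_iff nearEq_of_eventuallyEq)

namespace Pool.Agent.Helper27.H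

namespace FRAME

/-- the inclusion of the normal space -/
noncomputable abbrev nrm : R3 →L[ℝ] R4 := ContinuousLinearMap.inr ℝ ℝ R3

theorem nrm_apply (v : R3) : nrm v = ((0 : ℝ), v) := rfl

theorem seg_mem {s₀ s₁ s : ℝ} (h : s ∈ Icc s₀ s₁) : ((s, 0) : R4) ∈ seg s₀ s₁ :=
  ⟨h.1, h.2, rfl⟩

theorem seg_eq {s₀ s₁ : ℝ} {p : R4} (h : p ∈ seg s₀ s₁) : ∃ s ∈ Icc s₀ s₁, p = (s, 0) :=
  ⟨p.1, ⟨h.1, h.2.1⟩, Prod.ext rfl h.2.2⟩

section one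
variable {s₀ s₁ : ℝ} {V U : Set R4} {J : ℝ → R4 → R4}

/-- joint smoothness of a path of germs -/
theorem joint (h : Fam2 Q2 (seg s₀ s₁) V U (fun a => J a.2)) {q : ℝ} (hq : q ∈ Icc (0 : ℝ) 1)
    {p : R4} (hp : p ∈ seg s₀ s₁) :
    ∀ᶠ z : ℝ × R4 in 𝓝 (q, p), ContDiffAt ℝ ∞ (fun z : ℝ × R4 => J z.1 z.2) z := by
  have h1 := h.smooth (0, q) ⟨by simp, hq⟩ p hp
  have hg : ContDiff ℝ ∞ (fun z : ℝ × R4 => (((0 : ℝ), z.1), z.2)) :=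
    (contDiff_const.prodMk contDiff_fst).prodMk contDiff_snd
  have h2 := (hg.continuous.continuousAt (x := (q, p))).eventually h1
  filter_upwards [h2] with z hz
  exact ContDiffAt.comp (g := fun z : (ℝ × ℝ) × R4 => J z.1.2 z.2)
    (f := fun z : ℝ × R4 => (((0 : ℝ), z.1), z.2)) z hz hg.contDiffAt

theorem slice {K : ℝ × ℝ → R4 → R4} {a : ℝ × ℝ} {p : R4}
    (h : ∀ᶠ z : (ℝ × ℝ) × R4 in 𝓝 (a, p), ContDiffAt ℝ ∞ (fun z : (ℝ × ℝ) × R4 => K z.1 z.2) z) :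
    ∀ᶠ q in 𝓝 p, ContDiffAt ℝ ∞ (K a) q := by
  have hg : ContDiff ℝ ∞ (fun q : R4 => (a, q)) := contDiff_const.prodMk contDiff_id
  have h2 := (hg.continuous.continuousAt (x := p)).eventually h
  filter_upwards [h2] with q hq
  exact ContDiffAt.comp (g := fun z : (ℝ × ℝ) × R4 => K z.1 z.2)
    (f := fun q : R4 => (a, q)) q hq hg.contDiffAt

theorem diffAt (h : Fam2 Q2 (seg s₀ s₁) V U (fun a => J a.2)) {q : ℝ} (hq : q ∈ Icc (0 : ℝ) 1)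
    {p : R4} (hp : p ∈ seg s₀ s₁) : DifferentiableAt ℝ (J q) p := by
  have h1 := (embOn_iff.1 (h.emb (0, q) ⟨by simp, hq⟩)).1 p hp
  exact h1.1.self_of_nhds.differentiableAt (by simp)

/-- smoothness of the derivative along the core -/
theorem der_smooth (h : Fam2 Q2 (seg s₀ s₁) V U (fun a => J a.2)) {q s : ℝ}
    (hq : q ∈ Icc (0 : ℝ) 1) (hs : s ∈ Icc s₀ s₁) :
    ∀ᶠ x : ℝ × ℝ in 𝓝 (q, s),
      ContDiffAt ℝ ∞ (fun x : ℝ × ℝ => fderiv ℝ (J x.1) (x.2, (0 : R3))) x := by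
  have h1 := joint h hq (seg_mem hs)
  have hg : ContDiff ℝ ∞ (fun x : ℝ × ℝ => (x.1, ((x.2, (0 : R3)) : R4))) :=
    contDiff_fst.prodMk (contDiff_snd.prodMk contDiff_const)
  have h2 := (hg.continuous.continuousAt (x := (q, s))).eventually h1
  filter_upwards [h2] with x hx
  have hm : ContDiff ℝ ∞ (fun w : (ℝ × ℝ) × R4 => (w.1.1, w.2)) :=
    (contDiff_fst.comp contDiff_fst).prodMk contDiff_snd
  have h3 : ContDiffAt ℝ ∞ (Function.uncurry (fun (x : ℝ × ℝ) (p : R4) => J x.1 p))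
      (x, ((x.2, (0 : R3)) : R4)) :=
    ContDiffAt.comp (g := fun z : ℝ × R4 => J z.1 z.2)
      (f := fun w : (ℝ × ℝ) × R4 => (w.1.1, w.2)) _ hx hm.contDiffAt
  have h4 : ContDiffAt ℝ ∞ (fun x : ℝ × ℝ => ((x.2, (0 : R3)) : R4)) x :=
    (contDiff_snd.prodMk contDiff_const).contDiffAt
  exact ContDiffAt.fderiv h3 h4 (by simp)

theorem inv_of_inj {A : R4 →L[ℝ] R4} (h : Function.Injective A) : A.IsInvertible := by
  have h' : Function.Injective A.toLinearMap := h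
  refine ⟨(LinearEquiv.ofInjectiveEndo A.toLinearMap h').toContinuousLinearEquiv, ?_⟩
  ext x <;> rfl

theorem der_inj (h : Fam2 Q2 (seg s₀ s₁) V U (fun a => J a.2)) {q s : ℝ}
    (hq : q ∈ Icc (0 : ℝ) 1) (hs : s ∈ Icc s₀ s₁) :
    Function.Injective (fderiv ℝ (J q) (s, (0 : R3))) :=
  ((embOn_iff.1 (h.emb (0, q) ⟨by simp, hq⟩)).1 _ (seg_mem hs)).2

end one

/-- the rectangle -/
def Rc (a₀ a₁ : ℝ) : Set (ℝ × ℝ) := Icc (1 / 3) (2 / 3) ×ˢ Icc a₀ a₁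

theorem isClosed_Rc (a₀ a₁ : ℝ) : IsClosed (Rc a₀ a₁) := isClosed_Icc.prod isClosed_Icc

/-- the reduced situation -/
structure Red (s₀ a₀ a₁ s₁ : ℝ) (V U : Set R4) (J J' : ℝ → R4 → R4) : Prop where
  openV : IsOpen V
  lt0 : s₀ < a₀
  lt1 : a₀ < a₁
  lt2 : a₁ < s₁
  V0 : ∀ s ∈ Icc s₀ a₀, ((s, 0) : R4) ∈ V
  V1 : ∀ s ∈ Icc a₁ s₁, ((s, 0) : R4) ∈ V
  fam : Fam2 Q2 (seg s₀ s₁) V U (fun a => J a.2)
  fam' : Fam2 Q2 (seg s₀ s₁) V U (fun a => J' a.2)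
  core : ∀ q ∈ Icc (0 : ℝ) 1, ∀ s ∈ Icc s₀ s₁, J q (s, 0) = J' q (s, 0)
  eqV : ∀ p ∈ V, J 0 p = J' 0 p
  mem : ∀ s ∈ Ioo s₀ s₁, J 0 (s, 0) ∈ U
  e0 : ∀ q ∈ Icc (0 : ℝ) 1, q ≤ 1 / 3 → NearEq (J q) (J' q) (seg s₀ s₁)
  e1 : ∀ q ∈ Icc (0 : ℝ) 1, 2 / 3 ≤ q → NearEq (J q) (J' q) (seg s₀ s₁)

/-- the comparison of the normal framings -/
noncomputable def W0 (J J' : ℝ → R4 → R4) (x : ℝ × ℝ) : R3 →L[ℝ] R4 :=
  (fderiv ℝ (J x.1) (x.2, (0 : R3))).inverse.comp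
    ((fderiv ℝ (J' x.1) (x.2, (0 : R3))).comp nrm)

open Classical in
/-- the comparison of the normal framings, extended -/
noncomputable def W (a₀ a₁ : ℝ) (J J' : ℝ → R4 → R4) (x : ℝ × ℝ) : R3 →L[ℝ] R4 :=
  if x ∈ Rc a₀ a₁ then W0 J J' x else nrm

theorem W_of_notMem {a₀ a₁ : ℝ} {J J' : ℝ → R4 → R4} {x : ℝ × ℝ} (h : x ∉ Rc a₀ a₁) :
    W a₀ a₁ J J' x = nrm := if_neg h

section two
variable {s₀ a₀ a₁ s₁ : ℝ} {V U : Set R4} {J J' : ℝ → R4 → R4}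

theorem Red.eqV' (R : Red s₀ a₀ a₁ s₁ V U J J') {q : ℝ} (hq : q ∈ Icc (0 : ℝ) 1) {p : R4}
    (hp : p ∈ V) : J q p = J' q p := by
  have h1 : J q p = J 0 p := R.fam.froz (0, q) ⟨by simp, hq⟩ (0, 0) ⟨by simp, by simp⟩ p hp
  have h2 : J' q p = J' 0 p := R.fam'.froz (0, q) ⟨by simp, hq⟩ (0, 0) ⟨by simp, by simp⟩ p hp
  rw [h1, h2, R.eqV p hp]

theorem Red.der_eq (R : Red s₀ a₀ a₁ s₁ V U J J') {q s : ℝ} (hq : q ∈ Icc (0 : ℝ) 1)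
    (hs : s ∈ Icc s₀ s₁) (h : (q, s) ∉ Rc a₀ a₁) :
    fderiv ℝ (J q) (s, (0 : R3)) = fderiv ℝ (J' q) (s, (0 : R3)) := by
  have key : J q =ᶠ[𝓝 ((s, (0 : R3)) : R4)] J' q := by
    by_cases h1 : q ≤ 1 / 3
    · exact (R.e0 q hq h1).eventuallyEq (seg_mem hs)
    by_cases h2 : 2 / 3 ≤ q
    · exact (R.e1 q hq h2).eventuallyEq (seg_mem hs)
    push Not at h1 h2
    have hV : ((s, 0) : R4) ∈ V := by
      by_cases h3 : s < a₀
      · exact R.V0 s ⟨hs.1, h3.le⟩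
      by_cases h4 : a₁ < s
      · exact R.V1 s ⟨h4.le, hs.2⟩
      push Not at h3 h4
      exact absurd ⟨⟨h1.le, h2.le⟩, ⟨h3, h4⟩⟩ h
    filter_upwards [R.openV.mem_nhds hV] with p hp
    exact R.eqV' hq hp
  exact key.fderiv_eq

theorem Red.core_der (R : Red s₀ a₀ a₁ s₁ V U J J') {q s : ℝ} (hq : q ∈ Icc (0 : ℝ) 1)
    (hs : s ∈ Ioo s₀ s₁) (c : ℝ) :
    fderiv ℝ (J q) (s, (0 : R3)) (c, 0) = fderiv ℝ (J' q) (s, (0 : R3)) (c, 0) := by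
  have hs' : s ∈ Icc s₀ s₁ := Ioo_subset_Icc_self hs
  have d1 := (diffAt R.fam hq (seg_mem hs')).hasFDerivAt
  have d2 := (diffAt R.fam' hq (seg_mem hs')).hasFDerivAt
  have dc : HasDerivAt (fun t : ℝ => ((t, (0 : R3)) : R4)) (1, 0) s :=
    (hasDerivAt_id s).prodMk (hasDerivAt_const s (0 : R3))
  have e1 := HasFDerivAt.comp_hasDerivAt (f := fun t : ℝ => ((t, (0 : R3)) : R4)) s d1 dc
  have e2 := HasFDerivAt.comp_hasDerivAt (f := fun t : ℝ => ((t, (0 : R3)) : R4)) s d2 dc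
  have e3 : (J q ∘ fun t : ℝ => ((t, (0 : R3)) : R4)) =ᶠ[𝓝 s]
      (J' q ∘ fun t : ℝ => ((t, (0 : R3)) : R4)) := by
    filter_upwards [Ioo_mem_nhds hs.1 hs.2] with t ht
    exact R.core q hq t (Ioo_subset_Icc_self ht)
  have e4 := (e1.congr_of_eventuallyEq e3.symm).unique e2
  have e5 : ((c, 0) : R4) = c • ((1, 0) : R4) := by
    ext <;> simp
  rw [e5, map_smul, map_smul, e4]

theorem Red.inner {q s : ℝ} (R : Red s₀ a₀ a₁ s₁ V U J J') (h : (q, s) ∈ Rc a₀ a₁) :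
    q ∈ Ioo (0 : ℝ) 1 ∧ s ∈ Ioo s₀ s₁ := by
  obtain ⟨⟨h1, h2⟩, h3, h4⟩ := h
  simp only at h1 h2 h3 h4
  have := R.lt0
  have := R.lt2
  exact ⟨⟨by linarith, by linarith⟩, by linarith, by linarith⟩

theorem Red.W_key (R : Red s₀ a₀ a₁ s₁ V U J J') {q s : ℝ} (hq : q ∈ Icc (0 : ℝ) 1)
    (hs : s ∈ Icc s₀ s₁) (v : R3) :
    fderiv ℝ (J q) (s, (0 : R3)) (W a₀ a₁ J J' (q, s) v) =
      fderiv ℝ (J' q) (s, (0 : R3)) (0, v) := by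
  by_cases h : (q, s) ∈ Rc a₀ a₁
  · rw [W, if_pos h]
    exact (inv_of_inj (der_inj R.fam hq hs)).self_apply_inverse _
  · rw [W_of_notMem h, R.der_eq hq hs h]
    rfl

theorem Red.W_eq (R : Red s₀ a₀ a₁ s₁ V U J J') {x : ℝ × ℝ}
    (hx : x ∈ Ioo (0 : ℝ) 1 ×ˢ Ioo s₀ s₁) : W a₀ a₁ J J' x = W0 J J' x := by
  obtain ⟨q, s⟩ := x
  have hq : q ∈ Icc (0 : ℝ) 1 := Ioo_subset_Icc_self hx.1
  have hs : s ∈ Icc s₀ s₁ := Ioo_subset_Icc_self hx.2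
  by_cases h : (q, s) ∈ Rc a₀ a₁
  · rw [W, if_pos h]
  · rw [W_of_notMem h]
    refine ContinuousLinearMap.ext fun v => ?_
    apply der_inj R.fam hq hs
    have := (inv_of_inj (der_inj R.fam hq hs)).self_apply_inverse
      (fderiv ℝ (J' q) (s, (0 : R3)) (nrm v))
    refine Eq.trans ?_ this.symm
    rw [R.der_eq hq hs h]

theorem Red.W_smooth (R : Red s₀ a₀ a₁ s₁ V U J J') : ContDiff ℝ ∞ (W a₀ a₁ J J') := by
  rw [contDiff_iff_contDiffAt]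
  rintro ⟨q, s⟩
  by_cases h : (q, s) ∈ Rc a₀ a₁
  · obtain ⟨hq, hs⟩ := R.inner h
    have hq' : q ∈ Icc (0 : ℝ) 1 := Ioo_subset_Icc_self hq
    have hs' : s ∈ Icc s₀ s₁ := Ioo_subset_Icc_self hs
    have h1 : W a₀ a₁ J J' =ᶠ[𝓝 (q, s)] W0 J J' := by
      filter_upwards [(isOpen_Ioo.prod isOpen_Ioo).mem_nhds (⟨hq, hs⟩ :
        (q, s) ∈ Ioo (0 : ℝ) 1 ×ˢ Ioo s₀ s₁)] with x hx
      exact R.W_eq hx
    refine ContDiffAt.congr_of_eventuallyEq ?_ h1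
    have s1 := (der_smooth R.fam hq' hs').self_of_nhds
    have s2 := (der_smooth R.fam' hq' hs').self_of_nhds
    have s3 : ContDiffAt ℝ ∞ (fun x : ℝ × ℝ =>
        (fderiv ℝ (J x.1) (x.2, (0 : R3))).inverse) (q, s) := by
      have := (inv_of_inj (der_inj R.fam hq' hs')).contDiffAt_map_inverse (n := ∞)
      exact ContDiffAt.comp (g := ContinuousLinearMap.inverse)
        (f := fun x : ℝ × ℝ => fderiv ℝ (J x.1) (x.2, (0 : R3))) (q, s) this s1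
    exact s3.clm_comp (s2.clm_comp contDiffAt_const)
  · have h1 : W a₀ a₁ J J' =ᶠ[𝓝 (q, s)] fun _ => nrm := by
      filter_upwards [(isClosed_Rc a₀ a₁).isOpen_compl.mem_nhds h] with x hx
      exact W_of_notMem hx
    exact contDiffAt_const.congr_of_eventuallyEq h1

theorem Red.W_inj (R : Red s₀ a₀ a₁ s₁ V U J J') (x : ℝ × ℝ) (v : R3)
    (h : (W a₀ a₁ J J' x v).2 = 0) : v = 0 := by
  obtain ⟨q, s⟩ := x
  by_cases hx : (q, s) ∈ Rc a₀ a₁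
  · obtain ⟨hq, hs⟩ := R.inner hx
    have hq' : q ∈ Icc (0 : ℝ) 1 := Ioo_subset_Icc_self hq
    have hs' : s ∈ Icc s₀ s₁ := Ioo_subset_Icc_self hs
    have k := R.W_key hq' hs' v
    have e : W a₀ a₁ J J' (q, s) v = ((W a₀ a₁ J J' (q, s) v).1, 0) := Prod.ext rfl h
    rw [e, R.core_der hq' hs] at k
    have := der_inj R.fam' hq' hs' k
    exact (congrArg Prod.snd this).symm
  · rw [W_of_notMem hx] at h
    exact h

/-- the matrices of the normal parts, on the unit square -/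
noncomputable def Mx (a₀ a₁ : ℝ) (J J' : ℝ → R4 → R4) (x : ℝ × ℝ) : R3 →L[ℝ] R3 :=
  (ContinuousLinearMap.snd ℝ ℝ R3).comp
    (W a₀ a₁ J J' ((1 + x.1) / 3, a₀ + x.2 * (a₁ - a₀)))

theorem Mx_off (h01 : a₀ < a₁) {x : ℝ × ℝ} (hx : x ∉ Q2) :
    Mx a₀ a₁ J J' x = ContinuousLinearMap.id ℝ R3 := by
  have : ((1 + x.1) / 3, a₀ + x.2 * (a₁ - a₀)) ∉ Rc a₀ a₁ := by
    rintro ⟨⟨h1, h2⟩, h3, h4⟩
    simp only at h1 h2 h3 h4
    apply hx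
    have h5 : 0 < a₁ - a₀ := by linarith
    refine ⟨⟨by linarith, by linarith⟩, ?_, ?_⟩
    · by_contra h6
      push Not at h6
      nlinarith
    · by_contra h6
      push Not at h6
      nlinarith
  rw [Mx, W_of_notMem this]
  rfl

theorem Red.Mx_smooth (R : Red s₀ a₀ a₁ s₁ V U J J') : ContDiff ℝ ∞ (Mx a₀ a₁ J J') := by
  have h1 : ContDiff ℝ ∞ (fun x : ℝ × ℝ => ((1 + x.1) / 3, a₀ + x.2 * (a₁ - a₀))) := by
    fun_prop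
  exact contDiff_const.clm_comp (R.W_smooth.comp h1)

theorem Red.Mx_det (R : Red s₀ a₀ a₁ s₁ V U J J') (x : ℝ × ℝ) :
    0 < (Mx a₀ a₁ J J' x).det := by
  have hne : ∀ x, (Mx a₀ a₁ J J' x).det ≠ 0 := by
    intro x h0
    have h1 : LinearMap.det (Mx a₀ a₁ J J' x).toLinearMap = 0 := h0
    have h2 := LinearMap.bot_lt_ker_of_det_eq_zero h1
    obtain ⟨v, hv, hv0⟩ := (Submodule.ne_bot_iff _).1 h2.ne'
    exact hv0 (R.W_inj _ v hv)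
  have hc : Continuous fun x => (Mx a₀ a₁ J J' x).det :=
    ContinuousLinearMap.continuous_det.comp R.Mx_smooth.continuous
  by_contra hcon
  push Not at hcon
  have h1 : (0 : ℝ) ≤ (Mx a₀ a₁ J J' (-1, 0)).det := by
    rw [Mx_off R.lt1 (x := (-1, 0)) (by rintro ⟨⟨h1, -⟩, -⟩; norm_num at h1)]
    simp [ContinuousLinearMap.det]
  obtain ⟨y, hy⟩ := mem_range_of_exists_le_of_exists_ge hc ⟨x, hcon⟩ ⟨_, h1⟩
  exact hne y hy

theorem Red.core_der' (R : Red s₀ a₀ a₁ s₁ V U J J') {q s : ℝ} (hq : q ∈ Icc (0 : ℝ) 1)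
    (hs : s ∈ Icc s₀ s₁) (c : ℝ) :
    fderiv ℝ (J q) (s, (0 : R3)) (c, 0) = fderiv ℝ (J' q) (s, (0 : R3)) (c, 0) := by
  by_cases h : (q, s) ∈ Rc a₀ a₁
  · exact R.core_der hq (R.inner h).2 c
  · rw [R.der_eq hq hs h]

/-- change of the normal framing of a family of germs -/
noncomputable def K (J : ℝ → R4 → R4) (X : ℝ × ℝ × ℝ → (R3 →L[ℝ] R4)) (a : ℝ × ℝ) (p : R4) : R4 :=
  J a.2 p + ((fderiv ℝ (J a.2) (p.1, (0 : R3))).comp (X (a.1, a.2, p.1) - nrm)) p.2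

theorem K_eq {X : ℝ × ℝ × ℝ → (R3 →L[ℝ] R4)} {a : ℝ × ℝ} {p : R4}
    (h : X (a.1, a.2, p.1) = nrm) : K J X a p = J a.2 p := by
  rw [K, h, sub_self, ContinuousLinearMap.comp_zero, zero_apply, add_zero]

theorem K_core {X : ℝ × ℝ × ℝ → (R3 →L[ℝ] R4)} {a : ℝ × ℝ} {s : ℝ} :
    K J X a (s, 0) = J a.2 (s, 0) := by
  rw [K, map_zero, add_zero]

theorem K_smooth (h : Fam2 Q2 (seg s₀ s₁) V U (fun a => J a.2)) {X : ℝ × ℝ × ℝ → (R3 →L[ℝ] R4)}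
    (hX : ContDiff ℝ ∞ X) {a : ℝ × ℝ} (ha : a ∈ Q2) {p : R4} (hp : p ∈ seg s₀ s₁) :
    ∀ᶠ z : (ℝ × ℝ) × R4 in 𝓝 (a, p),
      ContDiffAt ℝ ∞ (fun z : (ℝ × ℝ) × R4 => K J X z.1 z.2) z := by
  have hp1 : p.1 ∈ Icc s₀ s₁ := ⟨hp.1, hp.2.1⟩
  have h1 := h.smooth a ha p hp
  have h2 := der_smooth h ha.2 hp1
  have hg : ContDiff ℝ ∞ (fun z : (ℝ × ℝ) × R4 => (z.1.2, z.2.1)) :=
    (contDiff_snd.comp contDiff_fst).prodMk (contDiff_fst.comp contDiff_snd)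
  have h3 := (hg.continuous.continuousAt (x := (a, p))).eventually h2
  have hg' : ContDiff ℝ ∞ (fun z : (ℝ × ℝ) × R4 => (z.1.1, z.1.2, z.2.1)) :=
    (contDiff_fst.comp contDiff_fst).prodMk hg
  have hX' : ContDiff ℝ ∞ (fun z : (ℝ × ℝ) × R4 => X (z.1.1, z.1.2, z.2.1) - nrm) :=
    (hX.comp hg').sub contDiff_const
  filter_upwards [h1, h3] with z e1 e3
  have e4 : ContDiffAt ℝ ∞ (fun z : (ℝ × ℝ) × R4 => fderiv ℝ (J z.1.2) (z.2.1, (0 : R3))) z :=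
    ContDiffAt.comp (g := fun x : ℝ × ℝ => fderiv ℝ (J x.1) (x.2, (0 : R3)))
      (f := fun z : (ℝ × ℝ) × R4 => (z.1.2, z.2.1)) z e3 hg.contDiffAt
  exact e1.add ((e4.clm_comp hX'.contDiffAt).clm_apply
    (contDiff_snd.comp contDiff_snd).contDiffAt)

theorem K_der (h : Fam2 Q2 (seg s₀ s₁) V U (fun a => J a.2)) {X : ℝ × ℝ × ℝ → (R3 →L[ℝ] R4)}
    (hX : ContDiff ℝ ∞ X) {a : ℝ × ℝ} (ha : a ∈ Q2) {s : ℝ} (hs : s ∈ Icc s₀ s₁) :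
    HasFDerivAt (K J X a) (fderiv ℝ (J a.2) (s, (0 : R3)) +
      ((fderiv ℝ (J a.2) (s, (0 : R3))).comp (X (a.1, a.2, s) - nrm)).comp
        (ContinuousLinearMap.snd ℝ ℝ R3)) ((s, (0 : R3)) : R4) := by
  have h1 := (diffAt h ha.2 (seg_mem hs)).hasFDerivAt
  have h2 := (der_smooth h ha.2 hs).self_of_nhds
  have hg : ContDiff ℝ ∞ (fun p : R4 => (a.2, p.1)) := contDiff_const.prodMk contDiff_fst
  have h3 : ContDiffAt ℝ ∞ (fun p : R4 => fderiv ℝ (J a.2) (p.1, (0 : R3)))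
      ((s, (0 : R3)) : R4) :=
    ContDiffAt.comp (g := fun x : ℝ × ℝ => fderiv ℝ (J x.1) (x.2, (0 : R3)))
      (f := fun p : R4 => (a.2, p.1)) _ h2 hg.contDiffAt
  have hg' : ContDiff ℝ ∞ (fun p : R4 => (a.1, a.2, p.1)) := contDiff_const.prodMk hg
  have hX' : ContDiff ℝ ∞ (fun p : R4 => X (a.1, a.2, p.1) - nrm) :=
    (hX.comp hg').sub contDiff_const
  have h4 : ContDiffAt ℝ ∞ (fun p : R4 =>
      (fderiv ℝ (J a.2) (p.1, (0 : R3))).comp (X (a.1, a.2, p.1) - nrm))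
      ((s, (0 : R3)) : R4) := h3.clm_comp hX'.contDiffAt
  have h5 := (h4.differentiableAt (by simp)).hasFDerivAt
  have h6 : HasFDerivAt (fun p : R4 => p.2) (ContinuousLinearMap.snd ℝ ℝ R3)
      ((s, (0 : R3)) : R4) := hasFDerivAt_snd
  have h7 := h1.add (h5.clm_apply h6)
  refine h7.congr_fderiv ?_
  rw [map_zero, add_zero]

theorem K_der_inj (h : Fam2 Q2 (seg s₀ s₁) V U (fun a => J a.2))
    {X : ℝ × ℝ × ℝ → (R3 →L[ℝ] R4)}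
    {a : ℝ × ℝ} (ha : a ∈ Q2) {s : ℝ} (hs : s ∈ Icc s₀ s₁)
    (hi : ∀ v, (X (a.1, a.2, s) v).2 = 0 → v = 0) :
    Function.Injective (fderiv ℝ (J a.2) (s, (0 : R3)) +
      ((fderiv ℝ (J a.2) (s, (0 : R3))).comp (X (a.1, a.2, s) - nrm)).comp
        (ContinuousLinearMap.snd ℝ ℝ R3)) := by
  rw [injective_iff_map_eq_zero]
  rintro ⟨c, v⟩ hcv
  have e : fderiv ℝ (J a.2) (s, (0 : R3)) ((c, 0) + X (a.1, a.2, s) v) = 0 := by
    rw [← hcv]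
    change _ = fderiv ℝ (J a.2) (s, (0 : R3)) (c, v) +
      fderiv ℝ (J a.2) (s, (0 : R3)) (X (a.1, a.2, s) v - nrm v)
    rw [← map_add]
    congr 1
    rw [nrm_apply]
    refine Prod.ext ?_ ?_
    · simp
    · simp
  have e2 := der_inj h ha.2 hs (e.trans (map_zero _).symm)
  have e3 : (X (a.1, a.2, s) v).2 = 0 := by
    have := congrArg Prod.snd e2
    simpa using this
  have e4 := hi v e3
  rw [e4] at e2 ⊢
  have e5 := congrArg Prod.fst e2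
  simp at e5
  rw [e5]
  rfl

/-- the frozen set of the families below -/
def Vf (a₀ a₁ : ℝ) (V : Set R4) : Set R4 := V ∩ {p | p.1 < a₀ ∨ a₁ < p.1}

theorem isOpen_Vf (hV : IsOpen V) : IsOpen (Vf a₀ a₁ V) :=
  hV.inter ((isOpen_lt continuous_fst continuous_const).union
    (isOpen_lt continuous_const continuous_fst))

theorem Vf_Rc {p : R4} (hp : p ∈ Vf a₀ a₁ V) (q : ℝ) : (q, p.1) ∉ Rc a₀ a₁ := by
  rintro ⟨-, h3, h4⟩
  simp only at h3 h4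
  rcases hp.2 with h | h
  · exact absurd h (not_lt.2 h3)
  · exact absurd h (not_lt.2 h4)

theorem Red.inU (R : Red s₀ a₀ a₁ s₁ V U J J') {q : ℝ} (hq : q ∈ Icc (0 : ℝ) 1) {p : R4}
    (hp : p ∈ seg s₀ s₁) (hpV : p ∉ Vf a₀ a₁ V) : J q p ∈ U := by
  by_cases h : p ∈ V
  · have h1 : J q p = J 0 p := R.fam.froz (0, q) ⟨by simp, hq⟩ (0, 0) ⟨by simp, by simp⟩ p h
    have h2 : ¬ (p.1 < a₀ ∨ a₁ < p.1) := fun h2 => hpV ⟨h, h2⟩
    push Not at h2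
    have e : p = ((p.1, 0) : R4) := Prod.ext rfl hp.2.2
    have := R.lt0
    have := R.lt2
    rw [h1, e]
    exact R.mem p.1 ⟨by linarith [h2.1], by linarith [h2.2]⟩
  · exact R.fam.inU (0, q) ⟨by simp, hq⟩ p hp h

theorem Red.inU' (R : Red s₀ a₀ a₁ s₁ V U J J') {q : ℝ} (hq : q ∈ Icc (0 : ℝ) 1) {p : R4}
    (hp : p ∈ seg s₀ s₁) (hpV : p ∉ Vf a₀ a₁ V) : J' q p ∈ U := by
  obtain ⟨s, hs, rfl⟩ := seg_eq hp
  rw [← R.core q hq s hs]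
  exact R.inU hq hp hpV

theorem Red.fam2_K (R : Red s₀ a₀ a₁ s₁ V U J J') {X : ℝ × ℝ × ℝ → (R3 →L[ℝ] R4)}
    (hX : ContDiff ℝ ∞ X) (hi : ∀ z v, (X z v).2 = 0 → v = 0)
    (hoff : ∀ t q s, (q, s) ∉ Rc a₀ a₁ → X (t, q, s) = nrm) :
    Fam2 Q2 (seg s₀ s₁) (Vf a₀ a₁ V) U (K J X) where
  smooth a ha p hp := K_smooth R.fam hX ha hp
  emb a ha := by
    rw [embOn_iff]
    refine ⟨fun p hp => ⟨slice (K_smooth R.fam hX ha hp), ?_⟩, ?_⟩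
    · obtain ⟨s, hs, rfl⟩ := seg_eq hp
      rw [(K_der R.fam hX ha hs).fderiv]
      exact K_der_inj R.fam ha hs (hi _)
    · have h1 : InjOn (J a.2) (seg s₀ s₁) := (R.fam.emb (0, a.2) ⟨by simp, ha.2⟩).2
      refine h1.congr fun p hp => ?_
      obtain ⟨s, hs, rfl⟩ := seg_eq hp
      exact K_core.symm
  froz a ha b hb p hp := by
    rw [K_eq (hoff _ _ _ (Vf_Rc hp _)), K_eq (hoff _ _ _ (Vf_Rc hp _))]
    exact R.fam.froz a ha b hb p hp.1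
  inU a ha p hp hpV := by
    obtain ⟨s, hs, rfl⟩ := seg_eq hp
    rw [K_core]
    exact R.inU ha.2 hp hpV

/-- the comparison of framings as a function of three variables -/
noncomputable def XW (a₀ a₁ : ℝ) (J J' : ℝ → R4 → R4) (z : ℝ × ℝ × ℝ) : R3 →L[ℝ] R4 :=
  W a₀ a₁ J J' z.2

/-- the first homotopy -/
noncomputable def L1 (a₀ a₁ : ℝ) (J J' : ℝ → R4 → R4) (a : ℝ × ℝ) (p : R4) : R4 :=
  (1 - a.1) • J' a.2 p + a.1 • K J (XW a₀ a₁ J J') a p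

theorem Red.XW_smooth (R : Red s₀ a₀ a₁ s₁ V U J J') : ContDiff ℝ ∞ (XW a₀ a₁ J J') :=
  R.W_smooth.comp contDiff_snd

theorem Red.L1_der (R : Red s₀ a₀ a₁ s₁ V U J J') {a : ℝ × ℝ} (ha : a ∈ Q2) {s : ℝ}
    (hs : s ∈ Icc s₀ s₁) :
    HasFDerivAt (L1 a₀ a₁ J J' a) (fderiv ℝ (J' a.2) (s, (0 : R3))) ((s, (0 : R3)) : R4) := by
  have h1 := (diffAt R.fam' ha.2 (seg_mem hs)).hasFDerivAt
  have h2 := K_der R.fam R.XW_smooth ha hs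
  have h3 : fderiv ℝ (J a.2) (s, (0 : R3)) +
      ((fderiv ℝ (J a.2) (s, (0 : R3))).comp (XW a₀ a₁ J J' (a.1, a.2, s) - nrm)).comp
        (ContinuousLinearMap.snd ℝ ℝ R3) = fderiv ℝ (J' a.2) (s, (0 : R3)) := by
    refine ContinuousLinearMap.ext fun x => ?_
    obtain ⟨c, v⟩ := x
    change fderiv ℝ (J a.2) (s, (0 : R3)) (c, v) +
      fderiv ℝ (J a.2) (s, (0 : R3)) (W a₀ a₁ J J' (a.2, s) v - nrm v) = _
    have e1 : ((c, v) : R4) = (c, 0) + (0, v) := by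
      refine Prod.ext ?_ ?_ <;> simp
    rw [map_sub, R.W_key ha.2 hs, nrm_apply, e1, map_add, map_add, R.core_der' ha.2 hs]
    abel
  rw [h3] at h2
  refine ((h1.const_smul (1 - a.1)).add (h2.const_smul a.1)).congr_fderiv ?_
  rw [← add_smul]
  simp

theorem L1_core {a : ℝ × ℝ} {s : ℝ} (h : J a.2 (s, 0) = J' a.2 (s, 0)) :
    L1 a₀ a₁ J J' a (s, 0) = J' a.2 (s, 0) := by
  rw [L1, K_core, h, ← add_smul]
  simp

theorem L1_eq {a : ℝ × ℝ} {p : R4} (h : J a.2 p = J' a.2 p) (h' : (a.2, p.1) ∉ Rc a₀ a₁) :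
    L1 a₀ a₁ J J' a p = J' a.2 p := by
  rw [L1, K_eq (show XW a₀ a₁ J J' (a.1, a.2, p.1) = nrm from W_of_notMem h'), h, ← add_smul]
  simp

theorem Red.fam2_L1 (R : Red s₀ a₀ a₁ s₁ V U J J') :
    Fam2 Q2 (seg s₀ s₁) (Vf a₀ a₁ V) U (L1 a₀ a₁ J J') := by
  have sm : ∀ a ∈ Q2, ∀ p ∈ seg s₀ s₁, ∀ᶠ z : (ℝ × ℝ) × R4 in 𝓝 (a, p),
      ContDiffAt ℝ ∞ (fun z : (ℝ × ℝ) × R4 => L1 a₀ a₁ J J' z.1 z.2) z := by
    intro a ha p hp
    filter_upwards [R.fam'.smooth a ha p hp, K_smooth R.fam R.XW_smooth ha hp] with z e1 e2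
    have e3 : ContDiffAt ℝ ∞ (fun z : (ℝ × ℝ) × R4 => z.1.1) z :=
      (contDiff_fst.comp contDiff_fst).contDiffAt
    exact ((contDiffAt_const.sub e3).smul e1).add (e3.smul e2)
  refine ⟨sm, fun a ha => ?_, fun a ha b hb p hp => ?_, fun a ha p hp hpV => ?_⟩
  · rw [embOn_iff]
    refine ⟨fun p hp => ⟨slice (sm a ha p hp), ?_⟩, ?_⟩
    · obtain ⟨s, hs, rfl⟩ := seg_eq hp
      rw [(R.L1_der ha hs).fderiv]
      exact der_inj R.fam' ha.2 hs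
    · have h1 : InjOn (J' a.2) (seg s₀ s₁) := (R.fam'.emb (0, a.2) ⟨by simp, ha.2⟩).2
      refine h1.congr fun p hp => ?_
      obtain ⟨s, hs, rfl⟩ := seg_eq hp
      exact (L1_core (R.core _ ha.2 s hs)).symm
  · rw [L1_eq (R.eqV' ha.2 hp.1) (Vf_Rc hp _), L1_eq (R.eqV' hb.2 hp.1) (Vf_Rc hp _)]
    exact R.fam'.froz a ha b hb p hp.1
  · obtain ⟨s, hs, rfl⟩ := seg_eq hp
    rw [L1_core (R.core _ ha.2 s hs)]
    exact R.inU' ha.2 hp hpV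

/-- the framings of the second homotopy -/
noncomputable def X2 (a₀ a₁ : ℝ) (J J' : ℝ → R4 → R4) (H : ℝ × ℝ × ℝ → (R3 →L[ℝ] R3))
    (z : ℝ × ℝ × ℝ) : R3 →L[ℝ] R4 :=
  (ContinuousLinearMap.inl ℝ ℝ R3).comp
      ((1 - z.1) • ((ContinuousLinearMap.fst ℝ ℝ R3).comp (W a₀ a₁ J J' z.2))) +
    nrm.comp (H (z.1, 3 * z.2.1 - 1, (z.2.2 - a₀) / (a₁ - a₀)))

theorem X2_apply {H : ℝ × ℝ × ℝ → (R3 →L[ℝ] R3)} {t q s : ℝ} {v : R3} :
    X2 a₀ a₁ J J' H (t, q, s) v =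
      ((1 - t) * (W a₀ a₁ J J' (q, s) v).1, H (t, 3 * q - 1, (s - a₀) / (a₁ - a₀)) v) := by
  refine Prod.ext ?_ ?_ <;> simp [X2]

theorem off_Q2 (h01 : a₀ < a₁) {q s : ℝ} (h : (q, s) ∉ Rc a₀ a₁) :
    (3 * q - 1, (s - a₀) / (a₁ - a₀)) ∉ Q2 := by
  rintro ⟨⟨h1, h2⟩, h3, h4⟩
  simp only at h1 h2 h3 h4
  have h5 : 0 < a₁ - a₀ := by linarith
  rw [le_div_iff₀ h5] at h3
  rw [div_le_iff₀ h5] at h4
  exact h ⟨⟨by linarith, by linarith⟩, by linarith, by linarith⟩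

theorem inj_of_det {A : R3 →L[ℝ] R3} (h : 0 < A.det) {v : R3} (hv : A v = 0) : v = 0 := by
  have h1 : LinearMap.det A.toLinearMap ≠ 0 := h.ne'
  exact (LinearMap.equivOfDetNeZero A.toLinearMap h1).injective (hv.trans (map_zero _).symm)

theorem isCompact_seg (s₀ s₁ : ℝ) : IsCompact (seg s₀ s₁) := by
  have : seg s₀ s₁ = Icc s₀ s₁ ×ˢ {(0 : R3)} := by
    ext p
    constructor
    · rintro ⟨h1, h2, h3⟩
      exact ⟨⟨h1, h2⟩, h3⟩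
    · rintro ⟨⟨h1, h2⟩, h3⟩
      exact ⟨h1, h2, h3⟩
  rw [this]
  exact isCompact_Icc.prod isCompact_singleton

theorem Red.main (ch : StCH4) (pi2 : StPI2) (R : Red s₀ a₀ a₁ s₁ V U J J') (hU : IsOpen U)
    {Θ Θ' : R4 → R4} (hΘ : LPush U (seg s₀ s₁) J Θ) (hΘ' : LPush U (seg s₀ s₁) J' Θ') :
    LIso U (seg s₀ s₁) (J 0) (J 1) Θ Θ' := by
  obtain ⟨H, hH, hdet, hH0, hH1, hoff⟩ := pi2 (Mx a₀ a₁ J J') R.Mx_smooth R.Mx_det
    fun x hx => Mx_off R.lt1 hx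
  have hVf : IsOpen (Vf a₀ a₁ V) := isOpen_Vf R.openV
  have hL := isCompact_seg s₀ s₁
  have h5 : 0 < a₁ - a₀ := by linarith [R.lt1]
  have xs : ContDiff ℝ ∞ (X2 a₀ a₁ J J' H) := by
    have g1 : ContDiff ℝ ∞ (fun z : ℝ × ℝ × ℝ =>
        (z.1, 3 * z.2.1 - 1, (z.2.2 - a₀) / (a₁ - a₀))) := by fun_prop
    have g2 : ContDiff ℝ ∞ (fun z : ℝ × ℝ × ℝ => 1 - z.1) := by fun_prop
    exact (contDiff_const.clm_comp (g2.smul
      (contDiff_const.clm_comp (R.W_smooth.comp contDiff_snd)))).add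
      (contDiff_const.clm_comp (hH.comp g1))
  have xi : ∀ z v, (X2 a₀ a₁ J J' H z v).2 = 0 → v = 0 := by
    rintro ⟨t, q, s⟩ v hv
    rw [X2_apply] at hv
    exact inj_of_det (hdet _) hv
  have xo : ∀ t q s, (q, s) ∉ Rc a₀ a₁ → X2 a₀ a₁ J J' H (t, q, s) = nrm := by
    intro t q s h
    refine ContinuousLinearMap.ext fun v => ?_
    rw [X2_apply, W_of_notMem h, hoff _ _ (off_Q2 R.lt1 h), nrm_apply]
    simp
  have x0 : ∀ q s, X2 a₀ a₁ J J' H (0, q, s) = W a₀ a₁ J J' (q, s) := by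
    intro q s
    refine ContinuousLinearMap.ext fun v => ?_
    rw [X2_apply, hH0, Mx]
    have e : ((1 + (3 * q - 1)) / 3, a₀ + (s - a₀) / (a₁ - a₀) * (a₁ - a₀)) = (q, s) := by
      refine Prod.ext ?_ ?_
      · simp only
        ring
      · simp only
        rw [div_mul_cancel₀ _ h5.ne']
        ring
    simp only [e]
    refine Prod.ext ?_ ?_ <;> simp
  have x1 : ∀ q s, X2 a₀ a₁ J J' H (1, q, s) = nrm := by
    intro q s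
    refine ContinuousLinearMap.ext fun v => ?_
    rw [X2_apply, hH1, nrm_apply]
    simp
  have n0 : ∀ s, ((0 : ℝ), s) ∉ Rc a₀ a₁ := by
    rintro s ⟨⟨h1, -⟩, -⟩
    norm_num at h1
  have n1 : ∀ s, ((1 : ℝ), s) ∉ Rc a₀ a₁ := by
    rintro s ⟨⟨-, h1⟩, -⟩
    norm_num at h1
  have m0 : (0 : ℝ) ∈ Icc (0 : ℝ) 1 := by simp
  have m1 : (1 : ℝ) ∈ Icc (0 : ℝ) 1 := by simp
  have fK : Fam2 Q2 (seg s₀ s₁) (Vf a₀ a₁ V) U (K J (X2 a₀ a₁ J J' H)) := R.fam2_K xs xi xo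
  have k0 : ∀ t p, K J (X2 a₀ a₁ J J' H) (t, 0) p = J 0 p := fun t p => K_eq (xo _ _ _ (n0 _))
  have k1 : ∀ t p, K J (X2 a₀ a₁ J J' H) (t, 1) p = J 1 p := fun t p => K_eq (xo _ _ _ (n1 _))
  have fE : Fam2 Q2 (seg s₀ s₁) (Vf a₀ a₁ V) U
      (fun a => (fun q => K J (X2 a₀ a₁ J J' H) (0, q)) a.2) :=
    fK.comp (θ := fun a : ℝ × ℝ => ((0 : ℝ), a.2)) (contDiff_const.prodMk contDiff_snd)
      fun a ha => ⟨by simp, ha.2⟩
  obtain ⟨ΘE, hE⟩ := exists_lpush1 ch hL hVf hU (J := fun q => K J (X2 a₀ a₁ J J' H) (0, q)) fE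
  have l2 := push_htpy ch hL hVf hU (J := fun t q => K J (X2 a₀ a₁ J J' H) (t, q)) fK
    ⟨univ, isOpen_univ, subset_univ _, fun u _ p _ => by rw [k0, k0]⟩
    ⟨univ, isOpen_univ, subset_univ _, fun u _ p _ => by rw [k1, k1]⟩ hE
    (hΘ.congr ⟨univ, isOpen_univ, subset_univ _, fun q _ p _ =>
      (K_eq (J := J) (a := (1, q)) (x1 q p.1)).symm⟩)
  have l2' : LIso U (seg s₀ s₁) (J 0) (J 1) ΘE Θ :=
    l2.congr ⟨univ, isOpen_univ, subset_univ _, fun p _ => k0 0 p⟩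
      ⟨univ, isOpen_univ, subset_univ _, fun p _ => k1 0 p⟩
  obtain ⟨N0, hN0, hLN0, hN0e⟩ := R.e0 0 m0 (by norm_num)
  obtain ⟨N1, hN1, hLN1, hN1e⟩ := R.e1 1 m1 (by norm_num)
  have j0 : ∀ t, ∀ p ∈ N0, L1 a₀ a₁ J J' (t, 0) p = J' 0 p := fun t p hp =>
    L1_eq (hN0e hp) (n0 _)
  have j1 : ∀ t, ∀ p ∈ N1, L1 a₀ a₁ J J' (t, 1) p = J' 1 p := fun t p hp =>
    L1_eq (hN1e hp) (n1 _)
  have l1 := push_htpy ch hL hVf hU (J := fun t q => L1 a₀ a₁ J J' (t, q)) R.fam2_L1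
    ⟨N0, hN0, hLN0, fun u _ p hp => by rw [j0 u p hp, j0 0 p hp]⟩
    ⟨N1, hN1, hLN1, fun u _ p hp => by rw [j1 u p hp, j1 0 p hp]⟩
    (hΘ'.congr ⟨univ, isOpen_univ, subset_univ _, fun q _ p _ => by
      simp [L1]⟩)
    (hE.congr ⟨univ, isOpen_univ, subset_univ _, fun q _ p _ => by
      simp only [L1, K, x0, XW, sub_self, zero_smul, one_smul, zero_add]⟩)
  have l1' : LIso U (seg s₀ s₁) (J 0) (J 1) Θ' ΘE :=
    l1.congr ⟨N0, hN0, hLN0, fun p hp => (j0 0 p hp).trans (hN0e hp).symm⟩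
      ⟨N1, hN1, hLN1, fun p hp => (j1 0 p hp).trans (hN1e hp).symm⟩
  exact (l1'.trans l2').symm

end two

end FRAME

open FRAME

theorem m_FRAME (ch : StCH4) (pi2 : StPI2) : StFRAME := by
  intro D V J J' Θ Θ' hV hs0 hs1 hJ hJ' hcore heqV hmem hn0 hn1 hΘ hΘ'
  change Fam2 Q2 (seg D.s₀ D.s₁) V D.U (fun a => J a.2) at hJ
  change Fam2 Q2 (seg D.s₀ D.s₁) V D.U (fun a => J' a.2) at hJ'
  change NearEq (J 0) (J' 0) (seg D.s₀ D.s₁) at hn0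
  change NearEq (J 1) (J' 1) (seg D.s₀ D.s₁) at hn1
  change LPush D.U (seg D.s₀ D.s₁) J Θ at hΘ
  change LPush D.U (seg D.s₀ D.s₁) J' Θ' at hΘ'
  change LIso D.U (seg D.s₀ D.s₁) (J 0) (J 1) Θ Θ'
  have hL := isCompact_seg D.s₀ D.s₁
  have hlt : D.s₀ < D.s₁ := by linarith [D.h₀, D.h₁, D.h₂]
  have hgc : Continuous (fun s : ℝ => ((s, (0 : R3)) : R4)) := by fun_prop
  obtain ⟨ε₀, he0, hb0⟩ := Metric.isOpen_iff.1 (hV.preimage hgc) D.s₀ hs0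
  obtain ⟨ε₁, he1, hb1⟩ := Metric.isOpen_iff.1 (hV.preimage hgc) D.s₁ hs1
  -- the reparametrization
  obtain ⟨ϑ, hϑdef⟩ : ∃ ϑ : ℝ → ℝ, ϑ = fun q => step (3 * q - 1) := ⟨_, rfl⟩
  have hϑ : ContDiff ℝ ∞ ϑ := by
    rw [hϑdef]
    exact contDiff_step.comp (by fun_prop)
  have hm : ∀ q ∈ Icc (0 : ℝ) 1, ϑ q ∈ Icc (0 : ℝ) 1 := fun q _ => by
    rw [hϑdef]; exact step_mem _
  have hϑ0 : ∀ q, q ≤ 1 / 3 → ϑ q = 0 := fun q hq => by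
    rw [hϑdef]; exact step_of_nonpos (by linarith)
  have hϑ1 : ∀ q, 2 / 3 ≤ q → ϑ q = 1 := fun q hq => by
    rw [hϑdef]; exact step_of_one_le (by linarith)
  have e0 : ϑ 0 = 0 := hϑ0 0 (by norm_num)
  have e1 : ϑ 1 = 1 := hϑ1 1 (by norm_num)
  have hθ : ContDiff ℝ ∞ (fun a : ℝ × ℝ => ((0 : ℝ), ϑ a.2)) :=
    contDiff_const.prodMk (hϑ.comp contDiff_snd)
  have f1 : Fam2 Q2 (seg D.s₀ D.s₁) V D.U (fun a => (fun q => J (ϑ q)) a.2) :=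
    hJ.comp (θ := fun a : ℝ × ℝ => ((0 : ℝ), ϑ a.2)) hθ fun a ha => ⟨by simp, hm _ ha.2⟩
  have f2 : Fam2 Q2 (seg D.s₀ D.s₁) V D.U (fun a => (fun q => J' (ϑ q)) a.2) :=
    hJ'.comp (θ := fun a : ℝ × ℝ => ((0 : ℝ), ϑ a.2)) hθ fun a ha => ⟨by simp, hm _ ha.2⟩
  obtain ⟨Θ₁, hΘ₁⟩ := exists_lpush1 ch hL hV D.openU (J := fun q => J (ϑ q)) f1
  obtain ⟨Θ₂, hΘ₂⟩ := exists_lpush1 ch hL hV D.openU (J := fun q => J' (ϑ q)) f2
  have r1 := push_reparam ch hL hV D.openU hJ hϑ hm e0 e1 hΘ hΘ₁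
  have r2 := push_reparam ch hL hV D.openU hJ' hϑ hm e0 e1 hΘ' hΘ₂
  have hμ : 0 < min (min ε₀ ε₁) (D.s₁ - D.s₀) := lt_min (lt_min he0 he1) (by linarith)
  obtain ⟨μ, hμdef⟩ : ∃ μ, μ = min (min ε₀ ε₁) (D.s₁ - D.s₀) := ⟨_, rfl⟩
  rw [← hμdef] at hμ
  have m1 : μ ≤ ε₀ := by rw [hμdef]; exact (min_le_left _ _).trans (min_le_left _ _)
  have m2 : μ ≤ ε₁ := by rw [hμdef]; exact (min_le_left _ _).trans (min_le_right _ _)
  have m3 : μ ≤ D.s₁ - D.s₀ := by rw [hμdef]; exact min_le_right _ _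
  have R : Red D.s₀ (D.s₀ + μ / 3) (D.s₁ - μ / 3) D.s₁ V D.U (fun q => J (ϑ q))
      (fun q => J' (ϑ q)) :=
    { openV := hV
      lt0 := by linarith
      lt1 := by linarith
      lt2 := by linarith
      V0 := fun s hs => by
        refine hb0 ?_
        rw [Metric.mem_ball, Real.dist_eq, abs_lt]
        constructor <;> linarith [hs.1, hs.2]
      V1 := fun s hs => by
        refine hb1 ?_
        rw [Metric.mem_ball, Real.dist_eq, abs_lt]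
        constructor <;> linarith [hs.1, hs.2]
      fam := f1
      fam' := f2
      core := fun q hq s hs => hcore _ (hm q hq) s hs
      eqV := fun p hp => by simp only [e0]; exact heqV p hp
      mem := fun s hs => by simp only [e0]; exact hmem s hs
      e0 := fun q _ hq => by simp only [hϑ0 q hq]; exact hn0
      e1 := fun q _ hq => by simp only [hϑ1 q hq]; exact hn1 }
  have r3 := R.main ch pi2 D.openU hΘ₁ hΘ₂
  simp only [e0, e1] at r3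
  exact r1.trans (r3.trans ((r2.congr hn0.symm hn1.symm).symm))

end Pool.Agent.Helper27.H
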