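import Pool.Agent.Helper27.BI.H.StH1
import Pool.Agent.Helper18.BI.AsmA

/-!
# Project BI, stage 3 (H), module PHI: the homomorphism `Phi`
-/

set_option autoImplicit false

open scoped Manifold ContDiff Topology ComplexConjugate
open Set Filter Pool.Agent.Helper65.Barb Pool.Agent.Helper18.BI
open Pool.Agent.Helper70.BI (I4 LD Eqv NearEq StPT)
open Pool.Agent.Helper34.BI (qmul qinv)

namespace Pool.Agent.Helper27.H

namespace PHI

private theorem isCompact_seg (s₀ s₁ : ℝ) : IsCompact (seg s₀ s₁) := by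
  have h : seg s₀ s₁ = (fun s : ℝ => ((s, 0) : R4)) '' Icc s₀ s₁ := by
    ext p
    constructor
    · rintro ⟨h1, h2, h3⟩
      exact ⟨p.1, ⟨h1, h2⟩, Prod.ext rfl h3.symm⟩
    · rintro ⟨s, hs, rfl⟩
      exact ⟨hs.1, hs.2, rfl⟩
  rw [h]
  exact isCompact_Icc.image (by fun_prop)

/-- the germ of the base arc is a partial diffeomorphism near the segment -/
private theorem exists_pd (D : ArcD) : ∃ δ : PartialDiffeomorph 𝓘(ℝ, R4) I4 R4 R4 ∞,
    D.L ⊆ δ.source ∧ ∀ p ∈ δ.source, δ p = D.J p :=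
  hA1 R4 R4 R4 I4 R4 D.J D.L (isCompact_seg _ _) D.emb.1 D.emb.2

private theorem image_open (δ : PartialDiffeomorph 𝓘(ℝ, R4) I4 R4 R4 ∞) {N : Set R4}
    (hN : IsOpen N) : IsOpen (δ '' (δ.source ∩ N)) :=
  δ.toOpenPartialHomeomorph.isOpen_image_source_inter hN

private theorem isCompact_A (D : ArcD) : IsCompact D.A := by
  obtain ⟨δ, h1, h2⟩ := exists_pd D
  have h3 : D.A = δ '' D.L := by
    refine (image_congr fun p hp => ?_).symm
    exact h2 p (h1 hp)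
  rw [h3]
  exact (isCompact_seg _ _).image_of_continuousOn
    (δ.toOpenPartialHomeomorph.continuousOn.mono h1)

/-- the isotopies of `LIso` are supported in a compact subset of `U \ A` -/
private theorem supp (D : ArcD) {Θ Θ' : R4 → R4} (h : LIso D.U D.L D.J D.J Θ Θ') :
    ∃ F : DFam 𝓘(ℝ, R4) R4, (∀ x, F.f (0, x) = Θ x) ∧ (∀ x, F.f (1, x) = Θ' x) ∧
      ∃ K : Set R4, IsCompact K ∧ K ⊆ D.U \ D.A ∧ ∀ t x, x ∉ K → F.f (t, x) = x := by
  obtain ⟨F, h0, h1, ⟨K, hK, hKU, hF⟩, N, hN, hLN, hFN⟩ := h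
  obtain ⟨δ, g1, g2⟩ := exists_pd D
  have hO := image_open δ hN
  have hAO : D.A ⊆ δ '' (δ.source ∩ N) := by
    rintro _ ⟨p, hp, rfl⟩
    exact ⟨p, ⟨g1 hp, hLN hp⟩, g2 p (g1 hp)⟩
  refine ⟨F, h0, h1, K \ δ '' (δ.source ∩ N), hK.diff hO, fun x hx => ⟨hKU hx.1, fun hA =>
    hx.2 (hAO hA)⟩, fun t x hx => ?_⟩
  by_cases hxK : x ∈ K
  · have hxO : x ∈ δ '' (δ.source ∩ N) := by
      by_contra hc
      exact hx ⟨hxK, hc⟩
    obtain ⟨p, hp, rfl⟩ := hxO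
    rw [g2 p hp.1]
    exact hFN t p hp.2
  · exact hF t x hxK

private theorem emb_mono (D : ArcD) {K : Set R4} (hK : K ⊆ D.U \ D.A) : EmbOn I4 D.e K :=
  ⟨fun p hp => D.embe.1 p (hK hp), D.embe.2.mono hK⟩

private theorem imp_enl (D : ArcD) {K K' : Set R4} (hK' : K' ⊆ D.U \ D.A) (hs : K ⊆ K')
    {Θ : R4 → R4} (hΘ : ∀ x, x ∉ K → Θ x = x) : imp D.e K Θ = imp D.e K' Θ :=
  ((hImp R4 R4 I4 R4 D.e K' Θ (emb_mono D hK').2).2.2.1 K hs hΘ).symm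

end PHI

open PHI in
theorem m_PHI : StPhi := by
  intro D
  obtain ⟨c1, c2, c3, c4, c5, -⟩ := hCI R4 R4 I4 R4
  refine ⟨?_, ?_, ?_, ?_, ?_, ?_, ?_⟩
  · rintro Θ Θ' χ hI ⟨K, hK, hKU, hΘ, hχ⟩
    obtain ⟨F, F0, F1, K₂, hK₂, hKU₂, hF⟩ := supp D hI
    have hU : K ∪ K₂ ⊆ D.U \ D.A := union_subset hKU hKU₂
    have hF' : ∀ t x, x ∉ K ∪ K₂ → F.f (t, x) = x := fun t x hx =>
      hF t x fun h => hx (Or.inr h)
    have e0 : (fun p => F.f (0, p)) = Θ := funext F0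
    have e1 : (fun p => F.f (1, p)) = Θ' := funext F1
    have hP := hPush R4 R4 I4 R4 D.e (K ∪ K₂) F (hK.union hK₂) (emb_mono D hU) hF'
    rw [e0, e1] at hP
    refine ⟨K ∪ K₂, hK.union hK₂, hU, fun x hx => ?_, c4 _ _ _ hχ ?_⟩
    · rw [← F1]; exact hF' 1 x hx
    · rw [imp_enl D hU subset_union_left hΘ]
      exact hP
  · rintro Θ Θ' hI
    obtain ⟨F, F0, F1, K₂, hK₂, hKU₂, hF⟩ := supp D hI
    have e0 : (fun p => F.f (0, p)) = Θ := funext F0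
    have hP := hPush R4 R4 I4 R4 D.e K₂ F hK₂ (emb_mono D hKU₂) hF
    rw [e0] at hP
    exact ⟨imp D.e K₂ Θ, K₂, hK₂, hKU₂, fun x hx => by rw [← F0]; exact hF 0 x hx,
      c3 _ _ hP⟩
  · rintro Θ χ χ' - ⟨K, hK, hKU, hΘ, hχ⟩ ⟨K', hK', hKU', hΘ', hχ'⟩
    have hU : K ∪ K' ⊆ D.U \ D.A := union_subset hKU hKU'
    rw [imp_enl D hU subset_union_left hΘ] at hχ
    rw [imp_enl D hU subset_union_right hΘ'] at hχ'
    exact c4 _ _ _ hχ (c2 _ _ hχ')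
  · rintro Θ Θ' χ χ' - hI' ⟨K, hK, hKU, hΘ, hχ⟩ ⟨K', hK', hKU', hΘ', hχ'⟩
    have hU : K ∪ K' ⊆ D.U \ D.A := union_subset hKU hKU'
    obtain ⟨F, F0, -, -⟩ := supp D hI'
    have hinj : Function.Injective Θ' := by
      intro x y hxy
      rw [← F0, ← F0] at hxy
      have := congrArg (fun z => F.g (0, z)) hxy
      simpa [F.gf] using this
    have hid : ∀ x, x ∉ K ∪ K' → Θ' x = x := fun x hx => hΘ' x fun h => hx (Or.inr h)
    have hmaps : MapsTo Θ' (K ∪ K') (K ∪ K') := by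
      intro x hx
      by_contra hc
      exact hc (by rw [hinj (hid _ hc)]; exact hx)
    rw [imp_enl D hU subset_union_left hΘ] at hχ
    rw [imp_enl D hU subset_union_right hΘ'] at hχ'
    refine ⟨K ∪ K', hK.union hK', hU, fun x hx => ?_, ?_⟩
    · change Θ (Θ' x) = x
      rw [hid x hx]
      exact hΘ x fun h => hx (Or.inl h)
    · have h4 := (hImp R4 R4 I4 R4 D.e (K ∪ K') Θ' (emb_mono D hU).2).2.2.2.1 Θ hmaps
      have e4 : imp D.e (K ∪ K') (fun p => Θ (Θ' p))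
          = fun y => imp D.e (K ∪ K') Θ (imp D.e (K ∪ K') Θ' y) := funext h4
      rw [e4]
      exact c5 _ _ _ _ hχ hχ'
  · refine ⟨∅, isCompact_empty, empty_subset _, fun x _ => rfl, ?_⟩
    have e : imp D.e ∅ (fun x => x) = fun x => x := by
      funext y
      unfold imp
      rw [dif_neg]
      rintro ⟨p, hp, -⟩
      exact hp
    rw [e]
    exact c1
  · rintro Θ χ χ' ⟨K, hK, hKU, hΘ, hχ⟩ hc
    exact ⟨K, hK, hKU, hΘ, c4 _ _ _ (c2 _ _ hc) hχ⟩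
  · rintro Θ χ ⟨K, hK, hKU, hΘ, hχ⟩
    exact c3 _ _ hχ

end Pool.Agent.Helper27.H
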