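import Pool.Agent.Helper27.BI.H.StH1

/-!
# Project BI-H, module PTJ: perturbation of the identity with an open set of parameters
-/

set_option autoImplicit false

open scoped Manifold ContDiff Topology ComplexConjugate
open Set Filter Pool.Agent.Helper65.Barb Pool.Agent.Helper18.BI
open Pool.Agent.Helper70.BI (I4 LD Eqv NearEq StPT)
open Pool.Agent.Helper34.BI (qmul qinv)

namespace Pool.Agent.Helper27.H

namespace PTJ

variable {E' : Type} [NormedAddCommGroup E'] [NormedSpace ℝ E']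
variable {E : Type} [NormedAddCommGroup E] [NormedSpace ℝ E]

/-- the parameter preserving map -/
def mp (g : E' × E → E) (p : E' × E) : E' × E := (p.1, p.2 + g p)

theorem exists_pre [FiniteDimensional ℝ E] (O : Set E') (g : E' × E → E)
    (hg : ∀ e ∈ O, ∀ x y, ‖g (e, x) - g (e, y)‖ ≤ 3 / 4 * ‖x - y‖) (t : E') (ht : t ∈ O) (y : E) :
    ∃ x : E, x + g (t, x) = y := by
  have : CompleteSpace E := FiniteDimensional.complete ℝ E
  have hl : LipschitzWith (3 / 4) (fun x : E => y - g (t, x)) := by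
    refine LipschitzWith.of_dist_le_mul fun a b => ?_
    rw [dist_eq_norm, dist_eq_norm]
    have e : y - g (t, a) - (y - g (t, b)) = g (t, b) - g (t, a) := by abel
    rw [e]
    have := hg t ht b a
    rw [norm_sub_rev b a] at this
    simpa using this
  have h34 : (3 / 4 : NNReal) < 1 := by
    rw [← NNReal.coe_lt_coe]
    norm_num
  have hc : ContractingWith (3 / 4) (fun x : E => y - g (t, x)) := ⟨h34, hl⟩
  refine ⟨hc.fixedPoint, ?_⟩
  have h := hc.fixedPoint_isFixedPt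
  have h2 : y - g (t, hc.fixedPoint) = hc.fixedPoint := h
  calc hc.fixedPoint + g (t, hc.fixedPoint) =
      (y - g (t, hc.fixedPoint)) + g (t, hc.fixedPoint) := by rw [h2]
    _ = y := by abel

theorem key (O : Set E') (g : E' × E → E)
    (hg : ∀ e ∈ O, ∀ x y, ‖g (e, x) - g (e, y)‖ ≤ 3 / 4 * ‖x - y‖) (t : E') (ht : t ∈ O)
    (x x' : E) : ‖x - x'‖ ≤ 4 * ‖(x + g (t, x)) - (x' + g (t, x'))‖ := by
  have h1 := hg t ht x x'
  have h2 : ‖x - x'‖ ≤ ‖(x + g (t, x)) - (x' + g (t, x'))‖ + ‖g (t, x) - g (t, x')‖ := by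
    have e : x - x' = ((x + g (t, x)) - (x' + g (t, x'))) - (g (t, x) - g (t, x')) := by abel
    calc ‖x - x'‖ = ‖((x + g (t, x)) - (x' + g (t, x'))) - (g (t, x) - g (t, x'))‖ := by rw [← e]
      _ ≤ _ := norm_sub_le _ _
  linarith

open Classical in
/-- the inverse -/
noncomputable def iv [FiniteDimensional ℝ E] (O : Set E') (g : E' × E → E)
    (hg : ∀ e ∈ O, ∀ x y, ‖g (e, x) - g (e, y)‖ ≤ 3 / 4 * ‖x - y‖) (q : E' × E) : E :=
  if h : q.1 ∈ O then (exists_pre O g hg q.1 h q.2).choose else 0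

theorem iv_spec [FiniteDimensional ℝ E] (O : Set E') (g : E' × E → E)
    (hg : ∀ e ∈ O, ∀ x y, ‖g (e, x) - g (e, y)‖ ≤ 3 / 4 * ‖x - y‖) (q : E' × E) (h : q.1 ∈ O) :
    iv O g hg q + g (q.1, iv O g hg q) = q.2 := by
  have e : iv O g hg q = (exists_pre O g hg q.1 h q.2).choose := by
    unfold iv
    rw [dif_pos h]
  rw [e]
  exact (exists_pre O g hg q.1 h q.2).choose_spec

theorem iv_mp [FiniteDimensional ℝ E] (O : Set E') (g : E' × E → E)
    (hg : ∀ e ∈ O, ∀ x y, ‖g (e, x) - g (e, y)‖ ≤ 3 / 4 * ‖x - y‖) (p : E' × E) (h : p.1 ∈ O) :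
    iv O g hg (mp g p) = p.2 := by
  have h1 := iv_spec O g hg (mp g p) h
  have h2 := key O g hg p.1 h (iv O g hg (mp g p)) p.2
  have h3 : iv O g hg (mp g p) + g (p.1, iv O g hg (mp g p)) = p.2 + g (p.1, p.2) := h1
  rw [h3, sub_self, norm_zero, mul_zero] at h2
  exact sub_eq_zero.1 (norm_le_zero_iff.1 h2)

theorem iv_cont [FiniteDimensional ℝ E] (O : Set E') (hO : IsOpen O) (g : E' × E → E)
    (hc : ContinuousOn g (O ×ˢ univ))
    (hg : ∀ e ∈ O, ∀ x y, ‖g (e, x) - g (e, y)‖ ≤ 3 / 4 * ‖x - y‖) :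
    ContinuousOn (iv O g hg) (O ×ˢ univ) := by
  have hop : IsOpen (O ×ˢ (univ : Set E)) := hO.prod isOpen_univ
  intro q₀ hq₀
  refine ContinuousAt.continuousWithinAt ?_
  set x₀ := iv O g hg q₀ with hx₀
  have h0 : x₀ + g (q₀.1, x₀) = q₀.2 := iv_spec O g hg q₀ hq₀.1
  have h1 : ∀ᶠ q in 𝓝 q₀, ‖iv O g hg q - x₀‖ ≤ 4 * ‖q.2 - (x₀ + g (q.1, x₀))‖ := by
    filter_upwards [hop.mem_nhds hq₀] with q hq
    have := key O g hg q.1 hq.1 (iv O g hg q) x₀
    rwa [iv_spec O g hg q hq.1] at this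
  have h2 : Tendsto (fun q : E' × E => 4 * ‖q.2 - (x₀ + g (q.1, x₀))‖) (𝓝 q₀) (𝓝 0) := by
    have ha : ContinuousAt (fun q : E' × E => g (q.1, x₀)) q₀ := by
      have hb : ContinuousAt g (q₀.1, x₀) := hc.continuousAt (hop.mem_nhds ⟨hq₀.1, mem_univ _⟩)
      have hd : ContinuousAt (fun q : E' × E => (q.1, x₀)) q₀ := by fun_prop
      exact ContinuousAt.comp (f := fun q : E' × E => (q.1, x₀)) (g := g) hb hd
    have hcont : ContinuousAt (fun q : E' × E => 4 * ‖q.2 - (x₀ + g (q.1, x₀))‖) q₀ :=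
      continuousAt_const.mul (continuousAt_snd.sub (continuousAt_const.add ha)).norm
    have h3 := hcont.tendsto
    rw [h0, sub_self, norm_zero, mul_zero] at h3
    exact h3
  rw [ContinuousAt, tendsto_iff_norm_sub_tendsto_zero]
  exact squeeze_zero' (Eventually.of_forall fun _ => norm_nonneg _) h1 h2

/-- the partial homeomorphism -/
noncomputable def hm [FiniteDimensional ℝ E] (O : Set E') (hO : IsOpen O) (g : E' × E → E)
    (hc : ContinuousOn g (O ×ˢ univ))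
    (hg : ∀ e ∈ O, ∀ x y, ‖g (e, x) - g (e, y)‖ ≤ 3 / 4 * ‖x - y‖) :
    OpenPartialHomeomorph (E' × E) (E' × E) where
  toFun := mp g
  invFun q := (q.1, iv O g hg q)
  source := O ×ˢ univ
  target := O ×ˢ univ
  map_source' _ hp := ⟨hp.1, mem_univ _⟩
  map_target' _ hp := ⟨hp.1, mem_univ _⟩
  left_inv' p hp := by
    show (p.1, iv O g hg (mp g p)) = p
    rw [iv_mp O g hg p hp.1]
  right_inv' q hq := by
    show (q.1, iv O g hg q + g (q.1, iv O g hg q)) = q
    rw [iv_spec O g hg q hq.1]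
  open_source := hO.prod isOpen_univ
  open_target := hO.prod isOpen_univ
  continuousOn_toFun := by
    unfold mp
    fun_prop
  continuousOn_invFun := by
    have := iv_cont O hO g hc hg
    fun_prop

theorem fderiv_small (O : Set E') (g : E' × E → E)
    (hg : ∀ e ∈ O, ∀ x y, ‖g (e, x) - g (e, y)‖ ≤ 3 / 4 * ‖x - y‖) (p : E' × E) (hp : p.1 ∈ O)
    (h1 : HasFDerivAt g (fderiv ℝ g p) p) (ξ : E) :
    ‖fderiv ℝ g p (0, ξ)‖ ≤ 3 / 4 * ‖ξ‖ := by
  let e : E →L[ℝ] E' × E := ContinuousLinearMap.inr ℝ E' E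
  have h2 : HasFDerivAt (fun x : E => ((p.1, x) : E' × E)) e p.2 := by
    have h3 : HasFDerivAt (fun x : E => e x + ((p.1, 0) : E' × E)) e p.2 :=
      e.hasFDerivAt.add_const _
    refine h3.congr_of_eventuallyEq (Eventually.of_forall fun x => ?_)
    show ((p.1, x) : E' × E) = (0, x) + (p.1, 0)
    simp
  have h4 : HasFDerivAt (fun x : E => g (p.1, x)) ((fderiv ℝ g p).comp e) p.2 :=
    HasFDerivAt.comp p.2 h1 h2
  have hl : LipschitzWith (3 / 4) (fun x : E => g (p.1, x)) := by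
    refine LipschitzWith.of_dist_le_mul fun a b => ?_
    rw [dist_eq_norm, dist_eq_norm]
    simpa using hg p.1 hp a b
  have h5 := h4.le_of_lipschitz hl
  have h6 := ContinuousLinearMap.le_opNorm ((fderiv ℝ g p).comp e) ξ
  have h7 : ((fderiv ℝ g p).comp e) ξ = fderiv ℝ g p (0, ξ) := rfl
  rw [h7] at h6
  refine h6.trans (mul_le_mul_of_nonneg_right ?_ (norm_nonneg _))
  simpa using h5

theorem exists_equiv [FiniteDimensional ℝ E'] [FiniteDimensional ℝ E] (O : Set E')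
    (g : E' × E → E) (hg : ∀ e ∈ O, ∀ x y, ‖g (e, x) - g (e, y)‖ ≤ 3 / 4 * ‖x - y‖)
    (p : E' × E) (hp : p.1 ∈ O) (h1 : HasFDerivAt g (fderiv ℝ g p) p) :
    ∃ L : (E' × E) ≃L[ℝ] (E' × E), HasFDerivAt (mp g) (L : (E' × E) →L[ℝ] (E' × E)) p := by
  let A : (E' × E) →L[ℝ] E := ContinuousLinearMap.snd ℝ E' E + fderiv ℝ g p
  let D : (E' × E) →L[ℝ] (E' × E) := (ContinuousLinearMap.fst ℝ E' E).prod A
  have hD : HasFDerivAt (mp g) D p := by
    have a1 : HasFDerivAt (fun q : E' × E => q.1) (ContinuousLinearMap.fst ℝ E' E) p :=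
      (ContinuousLinearMap.fst ℝ E' E).hasFDerivAt
    have a3 : HasFDerivAt (fun q : E' × E => q.2) (ContinuousLinearMap.snd ℝ E' E) p :=
      (ContinuousLinearMap.snd ℝ E' E).hasFDerivAt
    exact a1.prodMk (a3.add h1)
  have hinj : Function.Injective D := by
    rw [injective_iff_map_eq_zero]
    rintro ⟨τ, ξ⟩ h
    have b1 : τ = 0 := congrArg Prod.fst h
    have b3 : ξ + fderiv ℝ g p (τ, ξ) = 0 := congrArg Prod.snd h
    subst b1
    have b4 := fderiv_small O g hg p hp h1 ξ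
    have b5 : fderiv ℝ g p (0, ξ) = -ξ := by
      rw [← add_eq_zero_iff_eq_neg']
      exact b3
    rw [b5, norm_neg] at b4
    have b6 : ‖ξ‖ ≤ 0 := by linarith [norm_nonneg ξ]
    rw [norm_le_zero_iff.1 b6]
    rfl
  refine ⟨(LinearEquiv.ofInjectiveEndo (D : (E' × E) →ₗ[ℝ] (E' × E))
    hinj).toContinuousLinearEquiv, ?_⟩
  have hcoe : ((LinearEquiv.ofInjectiveEndo (D : (E' × E) →ₗ[ℝ] (E' × E))
      hinj).toContinuousLinearEquiv : (E' × E) →L[ℝ] (E' × E)) = D := by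
    refine ContinuousLinearMap.ext fun v => ?_
    rfl
  rw [hcoe]
  exact hD

end PTJ

open PTJ in
theorem m_PTJ : StPTJ := by
  intro E' _ _ _ E _ _ _ O g hO hs hg
  have hop : IsOpen (O ×ˢ (univ : Set E)) := hO.prod isOpen_univ
  have hc := hs.continuousOn
  refine ⟨iv O g hg, ?_, fun e he x => ⟨iv_spec O g hg (e, x) he, iv_mp O g hg (e, x) he⟩⟩
  intro q hq
  refine ContDiffAt.contDiffWithinAt ?_
  have hp : (hm O hO g hc hg).symm q ∈ O ×ˢ (univ : Set E) := ⟨hq.1, mem_univ _⟩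
  have hsm : ContDiffAt ℝ ∞ g ((hm O hO g hc hg).symm q) := hs.contDiffAt (hop.mem_nhds hp)
  have h1 : HasFDerivAt g (fderiv ℝ g ((hm O hO g hc hg).symm q)) ((hm O hO g hc hg).symm q) :=
    (hsm.differentiableAt (by simp)).hasFDerivAt
  obtain ⟨L, hL⟩ := exists_equiv O g hg _ hp.1 h1
  have hmp : ContDiffAt ℝ ∞ (mp g) ((hm O hO g hc hg).symm q) := by
    unfold mp
    fun_prop
  have hinv : ContDiffAt ℝ ∞ (hm O hO g hc hg).symm q :=
    (hm O hO g hc hg).contDiffAt_symm (f₀' := L) hq hL hmp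
  exact hinv.snd

end Pool.Agent.Helper27.H
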