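import Pool.Agent.Helper27.BI.H.StH1

/-!
# Project BI, stage 3 (H): canonical quaternionic thickening of a family of arcs (MODULE THK)
-/

set_option autoImplicit false

open scoped Manifold ContDiff Topology ComplexConjugate
open Set Filter Pool.Agent.Helper65.Barb Pool.Agent.Helper18.BI
open Pool.Agent.Helper70.BI (I4 LD embOn_iff)
open Pool.Agent.Helper34.BI (qmul qinv qmul_qinv_qmul qmul_qinv_self_qmul qmul_injective
  qinv_ne_zero contDiffAt_qinv qmul_apply toQ)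

namespace Pool.Agent.Helper27.H

namespace THK

/-- the linear correction of the thickening -/
noncomputable def corr (G : R4 → R4) (c : ℝ → R4) (x : ℝ × ℝ → ℝ → R4) (z : (ℝ × ℝ) × ℝ) :
    R4 →L[ℝ] R4 :=
  (qmul (deriv (x z.1) z.2 - deriv c z.2)).comp
    ((qmul (qinv (deriv c z.2))).comp (fderiv ℝ G (z.2, 0)))

theorem thk_eq (G : R4 → R4) (c : ℝ → R4) (x : ℝ × ℝ → ℝ → R4) (a : ℝ × ℝ) (p : R4) :
    thk G c (x a) p = G p + (x a p.1 - c p.1) + corr G c x (a, p.1) (0, p.2) := rfl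

section
variable {G : R4 → R4} {c : ℝ → R4} {x : ℝ × ℝ → ℝ → R4}

theorem hasDerivAt_x (hx : ContDiff ℝ ∞ (fun z : (ℝ × ℝ) × ℝ => x z.1 z.2)) (z : (ℝ × ℝ) × ℝ) :
    HasDerivAt (x z.1) (fderiv ℝ (fun z : (ℝ × ℝ) × ℝ => x z.1 z.2) z (0, 1)) z.2 := by
  have l : HasDerivAt (fun r : ℝ => ((z.1, r) : (ℝ × ℝ) × ℝ)) (0, 1) z.2 :=
    (hasDerivAt_const z.2 z.1).prodMk (hasDerivAt_id z.2)
  exact HasFDerivAt.comp_hasDerivAt_of_eq z.2
    ((hx.differentiable (by simp) z).hasFDerivAt) l rfl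

theorem contDiffAt_corr (hc : ContDiff ℝ ∞ c)
    (hx : ContDiff ℝ ∞ (fun z : (ℝ × ℝ) × ℝ => x z.1 z.2)) {z : (ℝ × ℝ) × ℝ}
    (h2 : ContDiffAt ℝ ∞ G (z.2, 0)) (h3 : deriv c z.2 ≠ 0) :
    ContDiffAt ℝ ∞ (corr G c x) z := by
  have e1 : ContDiffAt ℝ ∞ (fun z : (ℝ × ℝ) × ℝ => deriv (x z.1) z.2) z := by
    have e : (fun z : (ℝ × ℝ) × ℝ => deriv (x z.1) z.2) =
        fun z => fderiv ℝ (fun z : (ℝ × ℝ) × ℝ => x z.1 z.2) z (0, 1) := by
      funext z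
      exact (hasDerivAt_x hx z).deriv
    rw [e]
    exact ((hx.fderiv_right (m := ∞) (by simp)).contDiffAt).clm_apply contDiffAt_const
  have hdc : ContDiff ℝ ∞ (deriv c) := ContDiff.deriv' (n := ∞) (by simpa using hc)
  have e2 : ContDiffAt ℝ ∞ (fun z : (ℝ × ℝ) × ℝ => deriv c z.2) z :=
    (hdc.comp contDiff_snd).contDiffAt
  have e3 : ContDiffAt ℝ ∞ (fun z : (ℝ × ℝ) × ℝ => qinv (deriv c z.2)) z :=
    ContDiffAt.comp (g := qinv) (f := fun z : (ℝ × ℝ) × ℝ => deriv c z.2) z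
      (contDiffAt_qinv h3) e2
  have e4 : ContDiffAt ℝ ∞ (fun z : (ℝ × ℝ) × ℝ => fderiv ℝ G ((z.2, 0) : R4)) z := by
    have g1 : ContDiffAt ℝ ∞ (fun z : (ℝ × ℝ) × ℝ => ((z.2, 0) : R4)) z :=
      (contDiff_snd.prodMk contDiff_const).contDiffAt
    have g2 : ContDiffAt ℝ ∞ (fderiv ℝ G) ((z.2, 0) : R4) :=
      h2.fderiv_right (m := ∞) (by simp)
    exact ContDiffAt.comp z g2 g1
  have e5 : ContDiffAt ℝ ∞
      (fun z : (ℝ × ℝ) × ℝ => qmul (deriv (x z.1) z.2 - deriv c z.2)) z :=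
    (qmul.contDiff.contDiffAt).comp z (e1.sub e2)
  have e6 : ContDiffAt ℝ ∞ (fun z : (ℝ × ℝ) × ℝ => qmul (qinv (deriv c z.2))) z :=
    (qmul.contDiff.contDiffAt).comp z e3
  exact e5.clm_comp (e6.clm_comp e4)

/-- pointwise smoothness of the thickening -/
theorem contDiffAt_thk (hc : ContDiff ℝ ∞ c)
    (hx : ContDiff ℝ ∞ (fun z : (ℝ × ℝ) × ℝ => x z.1 z.2)) {a : ℝ × ℝ} {p : R4}
    (h1 : ContDiffAt ℝ ∞ G p) (h2 : ContDiffAt ℝ ∞ G (p.1, 0)) (h3 : deriv c p.1 ≠ 0) :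
    ContDiffAt ℝ ∞ (fun z : (ℝ × ℝ) × R4 => thk G c (x z.1) z.2) (a, p) := by
  have a1 : ContDiffAt ℝ ∞ (fun z : (ℝ × ℝ) × R4 => G z.2) (a, p) :=
    ContDiffAt.comp (a, p) h1 contDiffAt_snd
  have a3 : ContDiffAt ℝ ∞ (fun z : (ℝ × ℝ) × R4 => ((z.1, z.2.1) : (ℝ × ℝ) × ℝ)) (a, p) :=
    (contDiff_fst.prodMk (contDiff_fst.comp contDiff_snd)).contDiffAt
  have a4 : ContDiffAt ℝ ∞ (fun z : (ℝ × ℝ) × R4 => x z.1 z.2.1) (a, p) :=
    ContDiffAt.comp (g := fun z : (ℝ × ℝ) × ℝ => x z.1 z.2)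
      (f := fun z : (ℝ × ℝ) × R4 => ((z.1, z.2.1) : (ℝ × ℝ) × ℝ)) (a, p) hx.contDiffAt a3
  have a5 : ContDiffAt ℝ ∞ (fun z : (ℝ × ℝ) × R4 => c z.2.1) (a, p) :=
    (hc.comp (contDiff_fst.comp contDiff_snd)).contDiffAt
  have a6 : ContDiffAt ℝ ∞ (fun z : (ℝ × ℝ) × R4 => corr G c x (z.1, z.2.1)) (a, p) :=
    ContDiffAt.comp (g := corr G c x)
      (f := fun z : (ℝ × ℝ) × R4 => ((z.1, z.2.1) : (ℝ × ℝ) × ℝ)) (a, p)
      (contDiffAt_corr (z := (a, p.1)) hc hx h2 h3) a3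
  have a7 : ContDiffAt ℝ ∞ (fun z : (ℝ × ℝ) × R4 => (((0 : ℝ), z.2.2) : R4)) (a, p) :=
    (contDiff_const.prodMk (contDiff_snd.comp contDiff_snd)).contDiffAt
  exact (a1.add (a4.sub a5)).add (a6.clm_apply a7)

/-- the derivative of the thickening along the core -/
theorem hasFDerivAt_thk (hc : ContDiff ℝ ∞ c)
    (hx : ContDiff ℝ ∞ (fun z : (ℝ × ℝ) × ℝ => x z.1 z.2)) {a : ℝ × ℝ} {s : ℝ}
    (h2 : ContDiffAt ℝ ∞ G (s, 0)) (h3 : deriv c s ≠ 0)
    (h4 : fderiv ℝ G (s, 0) (1, 0) = deriv c s) :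
    HasFDerivAt (thk G c (x a))
      ((qmul (deriv (x a) s)).comp ((qmul (qinv (deriv c s))).comp
        (fderiv ℝ G (s, 0)))) ((s, 0) : R4) := by
  set p₀ : R4 := (s, 0) with hp₀
  let pr : R4 →L[ℝ] ℝ := ContinuousLinearMap.fst ℝ ℝ (ℝ × ℂ)
  have hpr : ∀ p : R4, pr p = p.1 := fun p => rfl
  have dpr : HasFDerivAt (fun p : R4 => p.1) pr p₀ := pr.hasFDerivAt
  have d1 : HasFDerivAt G (fderiv ℝ G p₀) p₀ := (h2.differentiableAt (by simp)).hasFDerivAt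
  have d3 : HasFDerivAt (fun p : R4 => c p.1) (pr.smulRight (deriv c s)) p₀ := by
    have h0 : HasDerivAt c (deriv c s) s := (hc.differentiable (by simp) s).hasDerivAt
    have h1 := h0.hasFDerivAt.comp p₀ dpr
    refine h1.congr_fderiv ?_
    ext v <;> simp
  have d4 : HasFDerivAt (fun p : R4 => x a p.1) (pr.smulRight (deriv (x a) s)) p₀ := by
    have h0 : HasDerivAt (x a) (deriv (x a) s) s :=
      (hasDerivAt_x hx (a, s)).differentiableAt.hasDerivAt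
    have h1 := h0.hasFDerivAt.comp p₀ dpr
    refine h1.congr_fderiv ?_
    ext v <;> simp
  let ℓ : R4 →L[ℝ] R4 := (0 : R4 →L[ℝ] ℝ).prod (ContinuousLinearMap.snd ℝ ℝ (ℝ × ℂ))
  have d5 : HasFDerivAt (fun p : R4 => (((0 : ℝ), p.2) : R4)) ℓ p₀ := ℓ.hasFDerivAt
  have d6 : DifferentiableAt ℝ (fun p : R4 => corr G c x (a, p.1)) p₀ := by
    have g1 : DifferentiableAt ℝ (corr G c x) (a, s) :=
      (contDiffAt_corr (z := (a, s)) hc hx h2 h3).differentiableAt (by simp)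
    have g2 : DifferentiableAt ℝ (fun p : R4 => ((a, p.1) : (ℝ × ℝ) × ℝ)) p₀ := by fun_prop
    exact DifferentiableAt.comp p₀ g1 g2
  have d7 := d6.hasFDerivAt.clm_apply d5
  have d8 := (d1.add (d4.sub d3)).add d7
  have hval : (((0 : ℝ), p₀.2) : R4) = 0 := by simp [hp₀]
  refine HasFDerivAt.congr_fderiv (f := thk G c (x a)) d8 ?_
  refine ContinuousLinearMap.ext fun v => ?_
  have h7 : fderiv ℝ G p₀ v = v.1 • deriv c s + fderiv ℝ G p₀ (ℓ v) := by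
    rw [← h4, ← map_smul, ← map_add]
    congr 1
    ext <;> simp [ℓ]
  have h8 : qmul (deriv c s) (qmul (qinv (deriv c s)) (fderiv ℝ G p₀ v)) = fderiv ℝ G p₀ v :=
    qmul_qinv_qmul h3 _
  have hB : corr G c x (a, s) = (qmul (deriv (x a) s - deriv c s)).comp
    ((qmul (qinv (deriv c s))).comp (fderiv ℝ G p₀)) := rfl
  have h9 : qmul (qinv (deriv c s)) (deriv c s) = toQ.symm 1 := by
    have hne : toQ (deriv c s) ≠ 0 := by
      intro h0
      exact h3 (by simpa using h0)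
    simp only [qmul_apply, qinv, ContinuousLinearEquiv.apply_symm_apply, inv_mul_cancel₀ hne]
  have h10 : ∀ y : R4, qmul y (toQ.symm 1) = y := by
    intro y
    simp only [qmul_apply, ContinuousLinearEquiv.apply_symm_apply, mul_one,
      ContinuousLinearEquiv.symm_apply_apply]
  simp only [ContinuousLinearMap.add_apply, ContinuousLinearMap.sub_apply,
    ContinuousLinearMap.smulRight_apply, ContinuousLinearMap.comp_apply,
    hval, map_zero, add_zero, hpr]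
  have ha : p₀.1 = s := rfl
  simp only [ha]
  rw [hB]
  simp only [ContinuousLinearMap.comp_apply]
  have h14 : qmul (deriv (x a) s) (qmul (qinv (deriv c s)) (fderiv ℝ G p₀ v)) =
      fderiv ℝ G p₀ v + qmul (deriv (x a) s - deriv c s)
      (qmul (qinv (deriv c s)) (fderiv ℝ G p₀ v)) := by
    rw [map_sub, ContinuousLinearMap.sub_apply, h8]
    abel
  rw [h14]
  conv_rhs => rw [h7]
  rw [map_add, map_add, map_smul, map_smul, h9, h10, h7, ← smul_sub]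
  abel

/-- the derivative of the core of a germ, including the ends -/
theorem core_deriv {s₀ s₁ : ℝ} (h01 : s₀ < s₁) (hG : EmbOn I4 G (seg s₀ s₁))
    (hc : ContDiff ℝ ∞ c) (hGc : ∀ s ∈ Icc s₀ s₁, G (s, 0) = c s) {s : ℝ}
    (hs : s ∈ Icc s₀ s₁) : fderiv ℝ G (s, 0) (1, 0) = deriv c s := by
  have hmem : ((s, 0) : R4) ∈ seg s₀ s₁ := ⟨hs.1, hs.2, rfl⟩
  have hd : HasFDerivAt G (fderiv ℝ G (s, 0)) ((s, 0) : R4) :=
    (((embOn_iff.1 hG).1 _ hmem).1.self_of_nhds.differentiableAt (by simp)).hasFDerivAt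
  have l : HasDerivAt (fun r : ℝ => ((r, 0) : R4)) (1, 0) s :=
    (hasDerivAt_id s).prodMk (hasDerivAt_const s _)
  have e1 : HasDerivAt (fun r : ℝ => G (r, 0)) (fderiv ℝ G (s, 0) (1, 0)) s :=
    HasFDerivAt.comp_hasDerivAt_of_eq s hd l rfl
  have e2 : HasDerivAt c (deriv c s) s := (hc.differentiable (by simp) s).hasDerivAt
  have e3 : HasDerivWithinAt c (fderiv ℝ G (s, 0) (1, 0)) (Icc s₀ s₁) s :=
    e1.hasDerivWithinAt.congr (fun r hr => (hGc r hr).symm) (hGc s hs).symm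
  exact (uniqueDiffOn_Icc h01 s hs).eq_deriv _ e3 e2.hasDerivWithinAt

theorem core_ne_zero {s₀ s₁ : ℝ} (h01 : s₀ < s₁) (hG : EmbOn I4 G (seg s₀ s₁))
    (hc : ContDiff ℝ ∞ c) (hGc : ∀ s ∈ Icc s₀ s₁, G (s, 0) = c s) {s : ℝ}
    (hs : s ∈ Icc s₀ s₁) : deriv c s ≠ 0 := by
  rw [← core_deriv h01 hG hc hGc hs]
  intro h0
  have hmem : ((s, 0) : R4) ∈ seg s₀ s₁ := ⟨hs.1, hs.2, rfl⟩
  have h1 := ((embOn_iff.1 hG).1 _ hmem).2
  have h3 := h1 (h0.trans (map_zero _).symm)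
  simp at h3

/-- the value on the core -/
theorem thk_core {s : ℝ} (hGc : G (s, 0) = c s) (y : ℝ → R4) : thk G c y (s, 0) = y s := by
  have h0 : (((0 : ℝ), ((s, 0) : R4).2) : R4) = 0 := rfl
  unfold thk
  rw [h0, map_zero, map_zero, map_zero, hGc, add_zero]
  exact add_sub_cancel (c s) (y s)

/-- locality of the thickening -/
theorem thk_congr {y y' : ℝ → R4} {p : R4} (h : y =ᶠ[𝓝 p.1] y') :
    thk G c y p = thk G c y' p := by
  unfold thk
  rw [h.deriv_eq, h.self_of_nhds]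

theorem thk_base (p : R4) : thk G c c p = G p := by
  unfold thk
  rw [sub_self, sub_self, map_zero, ContinuousLinearMap.zero_apply, add_zero, add_zero]

end

end THK

open THK in
theorem m_THK : StTHK := by
  intro Q s₀ m₀ m₁ s₁ U G c x h₀ h₁ h₂ hU hG hc hGc hx hfroz hxU hinj himm
  have h01 : s₀ < s₁ := by linarith
  have heq : ∀ p ∈ seg s₀ s₁, p = ((p.1, 0) : R4) := fun p hp => Prod.ext rfl hp.2.2
  have hbase : ∀ a p, x a =ᶠ[𝓝 p.1] c → thk G c (x a) p = G p := fun a p h =>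
    (thk_congr h).trans (thk_base p)
  have hcore : ∀ a, ∀ s ∈ Icc s₀ s₁, thk G c (x a) (s, 0) = x a s := fun a s hs =>
    thk_core (hGc s hs) (x a)
  have hfr : ∀ a ∈ Q, ∀ p : R4, (p.1 < m₀ ∨ m₁ < p.1) → thk G c (x a) p = G p := by
    intro a ha p hp
    refine hbase a p ?_
    rcases hp with hp | hp
    · filter_upwards [Iio_mem_nhds hp] with s hs
      exact hfroz a ha s (Or.inl (le_of_lt hs))
    · filter_upwards [Ioi_mem_nhds hp] with s hs
      exact hfroz a ha s (Or.inr (le_of_lt hs))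
  have hdc : Continuous (deriv c) := (ContDiff.deriv' (n := ∞) (by simpa using hc)).continuous
  have hsm : ∀ a, ∀ p ∈ seg s₀ s₁, ∀ᶠ z : (ℝ × ℝ) × R4 in 𝓝 (a, p),
      ContDiffAt ℝ ∞ (fun z : (ℝ × ℝ) × R4 => thk G c (x z.1) z.2) z := by
    intro a p hp
    have hps : p.1 ∈ Icc s₀ s₁ := ⟨hp.1, hp.2.1⟩
    have hev := ((embOn_iff.1 hG).1 p hp).1
    have t1 : Tendsto (fun z : (ℝ × ℝ) × R4 => z.2) (𝓝 (a, p)) (𝓝 p) :=
      continuous_snd.tendsto (a, p)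
    have t2 : Tendsto (fun z : (ℝ × ℝ) × R4 => ((z.2.1, 0) : R4)) (𝓝 (a, p)) (𝓝 p) := by
      have hcont : Continuous (fun z : (ℝ × ℝ) × R4 => ((z.2.1, 0) : R4)) := by fun_prop
      have h := hcont.tendsto (a, p)
      rwa [show (((((a, p) : (ℝ × ℝ) × R4).2.1, 0) : R4)) = p from (heq p hp).symm] at h
    have t3 : Tendsto (fun z : (ℝ × ℝ) × R4 => deriv c z.2.1) (𝓝 (a, p)) (𝓝 (deriv c p.1)) := by
      have hcont : Continuous (fun z : (ℝ × ℝ) × R4 => deriv c z.2.1) :=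
        hdc.comp (continuous_fst.comp continuous_snd)
      exact hcont.tendsto (a, p)
    have e3 : ∀ᶠ z : (ℝ × ℝ) × R4 in 𝓝 (a, p), deriv c z.2.1 ≠ 0 :=
      t3.eventually (isOpen_ne.mem_nhds (core_ne_zero h01 hG hc hGc hps))
    filter_upwards [t1.eventually hev, t2.eventually hev, e3] with z z1 z2 z3
    exact contDiffAt_thk hc hx (a := z.1) (p := z.2) z1 z2 z3
  refine ⟨⟨fun a _ p hp => hsm a p hp, fun a ha => ?_, fun a ha b hb p hp => ?_,
    fun a ha p hp hpV => ?_⟩, hcore, hbase, fun a b p h => thk_congr h⟩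
  · rw [embOn_iff]
    refine ⟨fun p hp => ⟨?_, ?_⟩, fun p hp q hq he => ?_⟩
    · have hcont : Continuous (fun q : R4 => ((a, q) : (ℝ × ℝ) × R4)) := by fun_prop
      filter_upwards [(hcont.tendsto p).eventually (hsm a p hp)] with q hq
      exact ContDiffAt.comp (g := fun z : (ℝ × ℝ) × R4 => thk G c (x z.1) z.2)
        (f := fun q : R4 => ((a, q) : (ℝ × ℝ) × R4)) q hq
        (contDiff_const.prodMk contDiff_id).contDiffAt
    · have hps : p.1 ∈ Icc s₀ s₁ := ⟨hp.1, hp.2.1⟩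
      have hp0 := heq p hp
      have hsmG : ContDiffAt ℝ ∞ G ((p.1, 0) : R4) := by
        rw [← hp0]
        exact ((embOn_iff.1 hG).1 p hp).1.self_of_nhds
      have hne := core_ne_zero h01 hG hc hGc hps
      have hder := hasFDerivAt_thk (a := a) hc hx hsmG hne (core_deriv h01 hG hc hGc hps)
      rw [← hp0] at hder
      rw [hder.fderiv]
      have i1 := ((embOn_iff.1 hG).1 p hp).2
      have i2 := qmul_injective (qinv_ne_zero hne)
      have i3 := qmul_injective (himm a ha p.1 hps)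
      exact i3.comp (i2.comp i1)
    · have hps : p.1 ∈ Icc s₀ s₁ := ⟨hp.1, hp.2.1⟩
      have hqs : q.1 ∈ Icc s₀ s₁ := ⟨hq.1, hq.2.1⟩
      rw [heq p hp, heq q hq, hcore a _ hps, hcore a _ hqs] at he
      rw [heq p hp, heq q hq, hinj a ha hps hqs he]
  · rw [hfr a ha p hp, hfr b hb p hp]
  · have hps : p.1 ∈ Icc s₀ s₁ := ⟨hp.1, hp.2.1⟩
    have h3 : p.1 ∈ Icc m₀ m₁ := by
      constructor
      · by_contra hcon
        exact hpV (Or.inl (not_le.1 hcon))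
      · by_contra hcon
        exact hpV (Or.inr (not_le.1 hcon))
    show thk G c (x a) p ∈ U
    rw [heq p hp, hcore a _ hps]
    exact hxU a ha p.1 h3

end Pool.Agent.Helper27.H
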