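import Pool.Agent.Helper27.BI.H.ArcH
import Pool.Agent.Helper27.BI.H.Cls
import Pool.Agent.Helper27.BI.H.Joint
import Pool.Agent.Helper27.BI.H.M_PTJ
import Pool.Agent.Helper27.BI.H.M_CH4
import Pool.Agent.Helper27.BI.H.M_THK
import Pool.Agent.Helper27.BI.H.M_PHI
import Pool.Agent.Helper27.BI.H.M_FRAME
import Pool.Agent.Helper27.BI.H.M_CUT
import Pool.Agent.Helper18.BI.H.AsmPI2
import Pool.Agent.Helper34.BI.H.AsmH4

/-!
# Project BI, stage 3 (H): the results of parts 0, 1, 2, unconditionally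
-/

set_option autoImplicit false

namespace Pool.Agent.Helper27.H

theorem hPTJ : StPTJ := m_PTJ
theorem hCH4J : StCH4J := m_CH4 hPTJ
theorem hCH4 : StCH4 := ch4_of_joint hCH4J
theorem hFRAME : StFRAME := m_FRAME hCH4 Pool.Agent.Helper18.BI.H.hPI2'
theorem hTHK : StTHK := m_THK
theorem hPhi : StPhi := m_PHI
theorem hCls : StCls := m_Cls hCH4 hFRAME hTHK hPhi

/-- the homotopy theorem for loops of arcs, from the crossing lemma, the cusp family and the normalization -/
theorem hArcH_of (hCROSS : StCROSS) (hCUM : StCUM) (hNORM : StNORM) : StArcH :=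
  m_ArcH hCls hCROSS (m_CUT hCUM) hNORM Pool.Agent.Helper34.BI.H.hGPD

end Pool.Agent.Helper27.H
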