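import Pool.Agent.Helper70.BI.StL
import Pool.Agent.Helper27.BI.ChBasic

/-!
# Project BI, stage 3 (H): definitions

Thick arcs, pushes of thick arcs, the class of a loop of arcs.

`M = R4`.  An arc datum `D` consists of an open set `U` of `R4` (the complement of the wall), a germ
`D.J` along the segment `D.L = {(s, 0) | s₀ ≤ s ≤ s₁}` with core `D.c` (the base arc; its ends are not in
`U`, its interior is in `U`), and an injective local diffeomorphism `D.e` of `U \ D.J '' D.L` into `R4`.  Arcs move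
inside `U`, and only for `s ∈ (m₀, m₁)`, where `s₀ < m₀ < m₁ < s₁`.
-/

set_option autoImplicit false

open scoped Manifold ContDiff Topology ComplexConjugate
open Set Filter Pool.Agent.Helper65.Barb Pool.Agent.Helper18.BI
open Pool.Agent.Helper70.BI (I4 LD Eqv NearEq)

namespace Pool.Agent.Helper27.H

/-- the unit square -/
def Q2 : Set (ℝ × ℝ) := Icc 0 1 ×ˢ Icc 0 1

/-- Smooth families, parametrized by `Q`, of germs of embeddings along `L`, constant on `V` (the frozen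
part), with values in `U` on the rest of `L`. -/
structure Fam2 (Q : Set (ℝ × ℝ)) (L V U : Set R4) (J : ℝ × ℝ → R4 → R4) : Prop where
  smooth : ∀ a ∈ Q, ∀ p ∈ L, ∀ᶠ z : (ℝ × ℝ) × R4 in 𝓝 (a, p),
    ContDiffAt ℝ ∞ (fun z : (ℝ × ℝ) × R4 => J z.1 z.2) z
  emb : ∀ a ∈ Q, EmbOn I4 (J a) L
  froz : ∀ a ∈ Q, ∀ b ∈ Q, ∀ p ∈ V, J a p = J b p
  inU : ∀ a ∈ Q, ∀ p ∈ L, p ∉ V → J a p ∈ U

/-- supported in a compact subset of `U` -/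
def SuppU (U : Set R4) (F : DFam 𝓘(ℝ, R4) R4) : Prop :=
  ∃ K : Set R4, IsCompact K ∧ K ⊆ U ∧ ∀ t x, x ∉ K → F.f (t, x) = x

/-- `φ` and `ψ` are joined by an isotopy with compact support in `U`, all whose members carry the germ
`J₀` along `L` to the germ `J₁`. -/
def LIso (U L : Set R4) (J₀ J₁ φ ψ : R4 → R4) : Prop :=
  ∃ F : DFam 𝓘(ℝ, R4) R4, (∀ x, F.f (0, x) = φ x) ∧ (∀ x, F.f (1, x) = ψ x) ∧ SuppU U F ∧
    ∃ N : Set R4, IsOpen N ∧ L ⊆ N ∧ ∀ t, ∀ p ∈ N, F.f (t, J₀ p) = J₁ p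

/-- `Θ` is the end of an isotopy with compact support in `U`, starting at the identity, which carries
the germ `J 0` to the germ `J (step t)` at time `t`. -/
def LPush (U L : Set R4) (J : ℝ → R4 → R4) (Θ : R4 → R4) : Prop :=
  ∃ F : DFam 𝓘(ℝ, R4) R4, (∀ x, F.f (0, x) = x) ∧ (∀ x, F.f (1, x) = Θ x) ∧ SuppU U F ∧
    ∃ N : Set R4, IsOpen N ∧ L ⊆ N ∧ ∀ t ∈ Icc (0 : ℝ) 1, ∀ p ∈ N, F.f (t, J 0 p) = J (step t) p

/-- a segment of the first coordinate axis -/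
def seg (s₀ s₁ : ℝ) : Set R4 := {p | s₀ ≤ p.1 ∧ p.1 ≤ s₁ ∧ p.2 = 0}

/-- Arc data, see the top of the file. -/
structure ArcD where
  U : Set R4
  s₀ : ℝ
  m₀ : ℝ
  m₁ : ℝ
  s₁ : ℝ
  J : R4 → R4
  c : ℝ → R4
  e : R4 → R4
  openU : IsOpen U
  h₀ : s₀ < m₀
  h₁ : m₀ < m₁
  h₂ : m₁ < s₁
  smooth : ContDiff ℝ ∞ c
  core : ∀ s ∈ Icc s₀ s₁, J (s, 0) = c s
  emb : EmbOn I4 J (seg s₀ s₁)
  mem : ∀ s ∈ Ioo s₀ s₁, c s ∈ U
  off₀ : c s₀ ∉ U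
  off₁ : c s₁ ∉ U
  embe : EmbOn I4 e (U \ J '' seg s₀ s₁)

namespace ArcD

variable (D : ArcD)

/-- the segment of parameters -/
def L : Set R4 := seg D.s₀ D.s₁

/-- the base arc -/
def A : Set R4 := D.J '' D.L

/-- the frozen part -/
def V : Set R4 := {p | p.1 < D.m₀ ∨ D.m₁ < p.1}

/-- Transport of compactly supported diffeomorphisms of `U \ A` by `e`: the class of the diffeomorphism
`Θ` (the identity near the base arc and the complement of `U`) is `χ`. -/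
def Phi (Θ χ : R4 → R4) : Prop :=
  ∃ K : Set R4, IsCompact K ∧ K ⊆ D.U \ D.A ∧ (∀ x, x ∉ K → Θ x = x) ∧
    CIsot I4 χ (imp D.e K Θ)

/-- `χ` is the class of the loop of thick arcs `J`. -/
def TCls (J : ℝ → R4 → R4) (χ : R4 → R4) : Prop :=
  ∃ V : Set R4, IsOpen V ∧ ((D.s₀, 0) : R4) ∈ V ∧ ((D.s₁, 0) : R4) ∈ V ∧
    Fam2 Q2 D.L V D.U (fun a => J a.2) ∧ (∀ p ∈ V, J 0 p = D.J p) ∧ NearEq (J 0) D.J D.L ∧
    NearEq (J 1) D.J D.L ∧ ∃ Θ, LPush D.U D.L J Θ ∧ D.Phi Θ χ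

/-- `χ` is the class of the loop of arcs `c`: of any loop of thick arcs with these cores. -/
def Cls (c : ℝ → ℝ → R4) (χ : R4 → R4) : Prop :=
  ∃ J : ℝ → R4 → R4, (∀ q ∈ Icc (0 : ℝ) 1, ∀ s ∈ Icc D.s₀ D.s₁, J q (s, 0) = c q s) ∧ D.TCls J χ

/-- A homotopy `c (u, q, s)` (`u, q ∈ [0,1]`) of loops of arcs, not necessarily embedded; for fixed `u`, `q` the arc
is `s ↦ c (u, q, s)`; the loop parameter is `q`. -/
structure Htpy (c : ℝ × ℝ × ℝ → R4) : Prop where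
  smooth : ContDiff ℝ ∞ c
  froz : ∀ u ∈ Icc (0 : ℝ) 1, ∀ q ∈ Icc (0 : ℝ) 1, ∀ s, (s ≤ D.m₀ ∨ D.m₁ ≤ s) → c (u, q, s) = D.c s
  inU : ∀ u ∈ Icc (0 : ℝ) 1, ∀ q ∈ Icc (0 : ℝ) 1, ∀ s ∈ Icc D.m₀ D.m₁, c (u, q, s) ∈ D.U
  start : ∀ u ∈ Icc (0 : ℝ) 1, ∀ s, c (u, 0, s) = D.c s
  stop : ∀ u ∈ Icc (0 : ℝ) 1, ∀ s, c (u, 1, s) = D.c s

/-- the arc with parameters `u, q` is immersed -/
def Imm (c : ℝ × ℝ × ℝ → R4) (u q : ℝ) : Prop :=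
  ∀ s ∈ Icc D.s₀ D.s₁, deriv (fun s => c (u, q, s)) s ≠ 0

/-- the arc with parameters `u, q` is injective -/
def Inj (c : ℝ × ℝ × ℝ → R4) (u q : ℝ) : Prop :=
  InjOn (fun s => c (u, q, s)) (Icc D.s₀ D.s₁)

/-- At the parameters `u₀, q₀` the arc has exactly one double point, and it is transverse in the
two-parameter family. -/
structure Xing (c : ℝ × ℝ × ℝ → R4) (u₀ q₀ a b : ℝ) : Prop where
  memu : u₀ ∈ Ioo (0 : ℝ) 1
  memq : q₀ ∈ Ioo (0 : ℝ) 1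
  mema : a ∈ Ioo D.s₀ D.s₁
  memb : b ∈ Ioo D.s₀ D.s₁
  lt : a < b
  eq : c (u₀, q₀, a) = c (u₀, q₀, b)
  uniq : ∀ s ∈ Icc D.s₀ D.s₁, ∀ s' ∈ Icc D.s₀ D.s₁, s < s' → c (u₀, q₀, s) = c (u₀, q₀, s') →
    s = a ∧ s' = b
  trans : ∀ ζ η σ τ : ℝ, fderiv ℝ c (u₀, q₀, a) (ζ, η, σ) = fderiv ℝ c (u₀, q₀, b) (ζ, η, τ) →
    ζ = 0 ∧ η = 0 ∧ σ = 0 ∧ τ = 0

/-- A germ along the spine with the flat balls filled in, each flat ball meets the base arc in its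
centre, the vertical lines through the centres are pieces of the base arc, traversed in the same
direction; the parameter of the first is smaller; orientation preserving with respect to `D.J`. -/
structure XG (T : R4 → R4) : Prop where
  emb : EmbOn I4 T FB
  inU : ∀ p ∈ FB, T p ∈ D.U
  arc : ∀ p ∈ FB, T p ∈ D.A → p = (1 / 2, ((0 : ℝ), (0 : ℂ))) ∨ p = (1 / 2, ((1 : ℝ), (0 : ℂ)))
  str : ∃ σ τ : ℝ → ℝ, ContDiffAt ℝ ∞ σ (1 / 2) ∧ ContDiffAt ℝ ∞ τ (1 / 2) ∧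
    0 < deriv σ (1 / 2) ∧ 0 < deriv τ (1 / 2) ∧ D.s₀ < σ (1 / 2) ∧ σ (1 / 2) < τ (1 / 2) ∧
    τ (1 / 2) < D.s₁ ∧ (∀ᶠ s in 𝓝 (1 / 2 : ℝ), T (s, ((0 : ℝ), (0 : ℂ))) = D.J (σ s, 0)) ∧
    (∀ᶠ s in 𝓝 (1 / 2 : ℝ), T (s, ((1 : ℝ), (0 : ℂ))) = D.J (τ s, 0)) ∧
    0 < (fderiv ℝ T (1 / 2, ((0 : ℝ), (0 : ℂ)))).det * (fderiv ℝ D.J (σ (1 / 2), 0)).det

end ArcD

end Pool.Agent.Helper27.H
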