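import Pool.Agent.Helper27.BI.H.StH2

/-!
# Project BI, stage 3 (H): the finger and the loop of fingers in the model
-/

set_option autoImplicit false
set_option linter.unusedSectionVars false
set_option linter.unusedVariables false

open scoped Manifold ContDiff Topology ComplexConjugate
open Set Filter Pool.Agent.Helper65.Barb Pool.Agent.Helper18.BI
open Pool.Agent.Helper27.BI

namespace Pool.Agent.Helper27.H

theorem bfin_symm (s : ℝ) : bfin (1 - s) = bfin s := by
  unfold bfin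
  rw [show 5 * (1 - s) - 1 / 2 = 9 / 2 - 5 * s by ring,
    show 9 / 2 - 5 * (1 - s) = 5 * s - 1 / 2 by ring, mul_comm (step (9 / 2 - 5 * s))]

theorem contDiff_bfin : ContDiff ℝ ∞ bfin := by
  have h1 : ContDiff ℝ ∞ (fun s : ℝ => step (5 * s - 1 / 2)) :=
    contDiff_step.comp ((contDiff_const.mul contDiff_id).sub contDiff_const)
  have h2 : ContDiff ℝ ∞ (fun s : ℝ => step (9 / 2 - 5 * s)) :=
    contDiff_step.comp (contDiff_const.sub (contDiff_const.mul contDiff_id))
  exact contDiff_const.mul (h1.mul h2)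

theorem bfin_nonneg (s : ℝ) : 0 ≤ bfin s := by
  have h1 := (step_mem (5 * s - 1 / 2)).1
  have h2 := (step_mem (9 / 2 - 5 * s)).1
  unfold bfin
  positivity

theorem bfin_le (s : ℝ) : bfin s ≤ 27 / 100 := by
  have h1 := step_mem (5 * s - 1 / 2)
  have h2 := step_mem (9 / 2 - 5 * s)
  have h3 : step (5 * s - 1 / 2) * step (9 / 2 - 5 * s) ≤ 1 := mul_le_one₀ h1.2 h2.1 h2.2
  unfold bfin
  linarith

theorem bfin_mid {s : ℝ} (hs : s ∈ Icc (3 / 10 : ℝ) (7 / 10)) : bfin s = 27 / 100 := by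
  unfold bfin
  rw [step_of_one_le (by linarith [hs.1]), step_of_one_le (by linarith [hs.2])]
  norm_num

theorem bfin_out {s : ℝ} (hs : s ≤ 1 / 10 ∨ 9 / 10 ≤ s) : bfin s = 0 := by
  unfold bfin
  rcases hs with h | h
  · rw [step_of_nonpos (by linarith)]; ring
  · rw [step_of_nonpos (s := 9 / 2 - 5 * s) (by linarith)]; ring

theorem step_monotone : Monotone step := fun a b h => Real.smoothTransition.monotone h

theorem bfin_mono {s t : ℝ} (hst : s ≤ t) (ht : t ≤ 7 / 10) : bfin s ≤ bfin t := by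
  unfold bfin
  rw [step_of_one_le (s := 9 / 2 - 5 * s) (by linarith),
    step_of_one_le (s := 9 / 2 - 5 * t) (by linarith)]
  have := step_monotone (show 5 * s - 1 / 2 ≤ 5 * t - 1 / 2 by linarith)
  linarith

/-- **BFIN.** -/
theorem m_BFIN : StBFIN := by
  refine ⟨contDiff_bfin, fun s => ⟨bfin_nonneg s, bfin_le s⟩, fun s hs => bfin_mid hs,
    fun s hs => bfin_out hs, ?_⟩
  intro δ hδ
  have hc : IsCompact {s : ℝ | s ∈ Icc (1 / 10 : ℝ) (3 / 10) ∧ bfin s ^ 2 ≤ 1 / 25 - δ} :=
    isCompact_Icc.inter_right (isClosed_le (contDiff_bfin.continuous.pow 2) continuous_const)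
  have hne : {s : ℝ | s ∈ Icc (1 / 10 : ℝ) (3 / 10) ∧ bfin s ^ 2 ≤ 1 / 25 - δ}.Nonempty := by
    refine ⟨1 / 10, ⟨le_rfl, by norm_num⟩, ?_⟩
    rw [bfin_out (Or.inl le_rfl)]
    linarith [hδ.2]
  obtain ⟨s₀, ⟨hs₀, hb₀⟩, hmax⟩ := hc.exists_isGreatest hne
  have hmid : ∀ s ∈ Icc (3 / 10 : ℝ) (7 / 10), 1 / 25 - δ < bfin s ^ 2 := by
    intro s hs
    rw [bfin_mid hs]
    linarith [hδ.1]
  have hgt : ∀ s, s₀ < s → s ≤ 7 / 10 → 1 / 25 - δ < bfin s ^ 2 := by
    intro s h1 h2
    rcases le_or_gt s (3 / 10) with h3 | h3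
    · by_contra h4
      push Not at h4
      exact absurd (hmax ⟨⟨hs₀.1.trans h1.le, h3⟩, h4⟩) (not_le.2 h1)
    · exact hmid s ⟨h3.le, h2⟩
  have hs3 : s₀ ≠ 3 / 10 := by
    rintro rfl
    exact absurd hb₀ (not_le.2 (hmid _ ⟨le_rfl, by norm_num⟩))
  have hs3' : s₀ < 3 / 10 := lt_of_le_of_ne hs₀.2 hs3
  have heq : bfin s₀ ^ 2 = 1 / 25 - δ := by
    apply le_antisymm hb₀
    have h1 : Tendsto (fun s => bfin s ^ 2) (𝓝[>] s₀) (𝓝 (bfin s₀ ^ 2)) :=
      ((contDiff_bfin.continuous.pow 2).tendsto s₀).mono_left nhdsWithin_le_nhds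
    apply ge_of_tendsto h1
    filter_upwards [Ioo_mem_nhdsGT hs3'] with s hs
    exact (hgt s hs.1 (by linarith [hs.2])).le
  have hs1 : 1 / 10 < s₀ := by
    rcases hs₀.1.lt_or_eq with h | h
    · exact h
    · rw [← h, bfin_out (Or.inl le_rfl)] at heq
      linarith [hδ.2]
  have hlow : ∀ s ≤ s₀, bfin s ^ 2 ≤ 1 / 25 - δ := by
    intro s hs
    rw [← heq]
    have := bfin_mono hs (by linarith)
    have h0 := bfin_nonneg s
    nlinarith
  refine ⟨s₀, ⟨hs1, hs3'⟩, 1 - s₀, ⟨by linarith, by linarith⟩, heq, by rw [bfin_symm, heq], ?_, ?_⟩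
  · rintro s ⟨h1, h2⟩
    rcases le_or_gt s (7 / 10) with h3 | h3
    · exact hgt s h1 h3
    · rw [← bfin_symm]
      exact hgt _ (by linarith) (by linarith)
  · intro s hs
    rcases le_or_gt s s₀ with h | h
    · exact hlow s h
    · have h2 : 1 - s₀ ≤ s := by
        by_contra h3
        push Not at h3
        exact hs ⟨h, h3⟩
      rw [← bfin_symm]
      exact hlow _ (by linarith)

theorem nsq_smul (c : ℝ) (x : R3) : nsq (c • x) = c ^ 2 * nsq x := by
  simp only [nsq, Prod.smul_fst, Prod.smul_snd, smul_eq_mul, Complex.real_smul, Complex.mul_re,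
    Complex.mul_im, Complex.ofReal_re, Complex.ofReal_im]
  ring

theorem nsq_e1 : nsq e1 = 1 := by simp [nsq, e1]

theorem nsq_barPath (i : Unit) (q s : ℝ) : nsq (barPath i q s) = 1 := by
  unfold barPath
  rw [nsq_zarc_chi]
  ring

theorem barPath_end (i : Unit) (q : ℝ) {s : ℝ} (h : s ≤ 0 ∨ 1 ≤ s) : barPath i q s = e1 :=
  zarc_end _ _ _ h (chi_end h)

/-- the arcs of the comparison of the two loops -/
noncomputable def gam (u q s : ℝ) : R3 :=
  (1 - step u * bfin s) • barPath () q ((1 - step u) * s + step u * (10 * s - 9 / 2))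

theorem contDiff_gam : ContDiff ℝ ∞ (fun p : ℝ × ℝ × ℝ => gam p.1 p.2.1 p.2.2) := by
  have hu : ContDiff ℝ ∞ (fun p : ℝ × ℝ × ℝ => step p.1) := contDiff_step.comp contDiff_fst
  have hq : ContDiff ℝ ∞ (fun p : ℝ × ℝ × ℝ => p.2.1) := contDiff_fst.comp contDiff_snd
  have hs : ContDiff ℝ ∞ (fun p : ℝ × ℝ × ℝ => p.2.2) := contDiff_snd.comp contDiff_snd
  have hb : ContDiff ℝ ∞ (fun p : ℝ × ℝ × ℝ => bfin p.2.2) := contDiff_bfin.comp hs
  have hτ : ContDiff ℝ ∞ (fun p : ℝ × ℝ × ℝ =>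
      (1 - step p.1) * p.2.2 + step p.1 * (10 * p.2.2 - 9 / 2)) :=
    ((contDiff_const.sub hu).mul hs).add (hu.mul ((contDiff_const.mul hs).sub contDiff_const))
  apply ContDiff.smul (contDiff_const.sub (hu.mul hb))
  exact contDiff_zarc (Real.contDiff_sin.comp (contDiff_const.mul hq)) (contDiff_chi.comp hτ) hq hτ

theorem gam_end {u q s : ℝ} (hs : s ≤ 0 ∨ 1 ≤ s) : gam u q s = e1 := by
  unfold gam
  obtain ⟨h1, h2⟩ := step_mem u
  rw [bfin_out (by rcases hs with h | h; exacts [Or.inl (by linarith), Or.inr (by linarith)]),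
    barPath_end]
  · simp
  · rcases hs with h | h
    · left; nlinarith
    · right; nlinarith

theorem gam_fac {u s : ℝ} : 1 - step u * bfin s ∈ Icc (73 / 100 : ℝ) 1 := by
  obtain ⟨h1, h2⟩ := step_mem u
  have h3 := bfin_nonneg s
  have h4 := bfin_le s
  constructor <;> nlinarith

theorem nsq_gam (u q s : ℝ) : nsq (gam u q s) = (1 - step u * bfin s) ^ 2 := by
  unfold gam
  rw [nsq_smul, nsq_barPath, mul_one]

theorem nsq_gam_ge (u q s : ℝ) : (73 / 100) ^ 2 ≤ nsq (gam u q s) := by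
  rw [nsq_gam]
  have := (gam_fac (u := u) (s := s)).1
  nlinarith

theorem nsq_gam_le (u q s : ℝ) : nsq (gam u q s) ≤ 1 ^ 2 := by
  rw [nsq_gam]
  obtain ⟨h1, h2⟩ := gam_fac (u := u) (s := s)
  nlinarith

theorem rsq0_eq (p : R4) : rsq 0 p = nsq p.2 := by
  unfold rsq
  rw [sub_zero]

theorem rsq1_eq (p : R4) : rsq 1 p = nsq (p.2 - e1) := by
  unfold rsq
  congr 1
  refine Prod.ext rfl ?_
  show p.2.2 = p.2.2 - 0
  rw [sub_zero]

/-- admissibility of systems of arcs at distance at least `73/100` from the origin -/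
theorem sqOk_of {Γ : Unit → ℝ → ℝ → ℝ → R3}
    (h1 : ContDiff ℝ ∞ (fun p : ℝ × ℝ × ℝ => Γ () p.1 p.2.1 p.2.2))
    (h2 : ∀ u q s : ℝ, (s ≤ 0 ∨ 1 ≤ s) → Γ () u q s = e1)
    (h3 : ∀ u q s, (73 / 100) ^ 2 ≤ nsq (Γ () u q s)) (h4 : ∀ u q s, nsq (Γ () u q s) ≤ 1 ^ 2) :
    SqOk {p | rsq 0 p ≤ 1 / 25} (1 / 100) Γ := by
  refine ⟨fun i => h1, fun i => ⟨e1, h2⟩, ?_, ?_, ?_⟩
  · intro i u hu q hq s hs x hx
    have e := nsq_add_le (x := x - Γ i u q s) (y := Γ i u q s) (r := 2 * (1 / 100)) (t := 1)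
      (by norm_num) (by norm_num) hx (h4 u q s)
    rw [sub_add_cancel] at e
    exact lt_of_le_of_lt e (by norm_num)
  · intro i j hij
    exact absurd (Subsingleton.elim i j) hij
  · intro i u hu q hq s hs x hx
    have hx' : nsq x ≤ (1 / 5) ^ 2 := by
      have : rsq 0 (s, x) ≤ 1 / 25 := hx
      rw [rsq0_eq] at this
      simpa using this.trans (by norm_num)
    exact nsq_sub_ge (r := 1 / 5) (R := 73 / 100) (d := 2 * (1 / 100)) (by norm_num) (by norm_num)
      (by norm_num) hx' (h3 u q s)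

/-- the path of the finger -/
noncomputable def fpath : Unit → ℝ → ℝ → R3 := fun _ u s => (1 - step u * bfin s) • e1

theorem gam_zero (u s : ℝ) : gam u 0 s = (1 - step u * bfin s) • e1 := by
  unfold gam
  rw [barPath_zero]

theorem gam_one (u s : ℝ) : gam u 1 s = (1 - step u * bfin s) • e1 := by
  unfold gam
  rw [barPath_one]

theorem gam_u0 (q s : ℝ) : gam 0 q s = barPath () q s := by
  unfold gam
  rw [BI.step_zero]
  simp

theorem gam_u1 (q s : ℝ) : gam 1 q s = zq q s := by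
  unfold gam zq
  rw [BI.step_one]
  simp

theorem zq_zero (s : ℝ) : zq 0 s = z0 s := by
  unfold zq z0
  rw [barPath_zero]

theorem zq_one (s : ℝ) : zq 1 s = z0 s := by
  unfold zq z0
  rw [barPath_one]

theorem zq_out (q : ℝ) {s : ℝ} (hs : s ≤ 9 / 20 ∨ 11 / 20 ≤ s) : zq q s = z0 s := by
  unfold zq z0
  rw [barPath_end]
  rcases hs with h | h
  · left; linarith
  · right; linarith

/-- **FING.** -/
theorem m_FING (hCh : StCh) (hCh5 : StCh5) (hspin : StSpin) : StFING := by
  -- the finger push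
  have okf : SqOk {p | rsq 0 p ≤ 1 / 25} (1 / 100) (fun i _ q s => fpath i q s) := by
    apply sqOk_of
    · have h := contDiff_gam.comp (f := fun p : ℝ × ℝ × ℝ => (p.2.1, ((0 : ℝ), p.2.2)))
        ((contDiff_fst.comp contDiff_snd).prodMk
          (contDiff_const.prodMk (contDiff_snd.comp contDiff_snd)))
      have e : (fun p : ℝ × ℝ × ℝ => fpath () p.2.1 p.2.2) =
          (fun p : ℝ × ℝ × ℝ => gam p.1 p.2.1 p.2.2) ∘ fun p => (p.2.1, 0, p.2.2) := by
        funext p
        show fpath () p.2.1 p.2.2 = gam p.2.1 0 p.2.2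
        rw [gam_zero]; rfl
      rw [e]
      exact h
    · intro u q s hs
      show fpath () q s = e1
      rw [← gam_end (u := q) (q := 0) hs, gam_zero]; rfl
    · intro u q s
      show _ ≤ nsq (fpath () q s)
      have := nsq_gam_ge q 0 s
      rwa [gam_zero] at this
    · intro u q s
      show nsq (fpath () q s) ≤ _
      have := nsq_gam_le q 0 s
      rwa [gam_zero] at this
  have okl : SqOk {p | rsq 0 p ≤ 1 / 25} (1 / 100) (fun (_ : Unit) _ q s => zq q s) := by
    apply sqOk_of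
    · have h := contDiff_gam.comp (f := fun p : ℝ × ℝ × ℝ => ((1 : ℝ), (p.2.1, p.2.2)))
        (contDiff_const.prodMk contDiff_snd)
      have e : (fun p : ℝ × ℝ × ℝ => zq p.2.1 p.2.2) =
          (fun p : ℝ × ℝ × ℝ => gam p.1 p.2.1 p.2.2) ∘ fun p => (1, p.2.1, p.2.2) := by
        funext p
        show zq p.2.1 p.2.2 = gam 1 p.2.1 p.2.2
        rw [gam_u1]
      rw [e]
      exact h
    · intro u q s hs
      rw [← gam_end (u := 1) (q := q) hs, gam_u1]
    · intro u q s
      have := nsq_gam_ge 1 q s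
      rwa [gam_u1] at this
    · intro u q s
      have := nsq_gam_le 1 q s
      rwa [gam_u1] at this
  have okg : SqOk {p | rsq 0 p ≤ 1 / 25} (1 / 100) (fun (_ : Unit) u q s => gam u q s) :=
    sqOk_of contDiff_gam (fun u q s hs => gam_end hs) (fun u q s => nsq_gam_ge u q s)
      (fun u q s => nsq_gam_le u q s)
  have h01 : (1 : ℝ) ∈ Icc (0 : ℝ) 1 := by simp
  obtain ⟨Ff, f0, fs, fO, ft, ffar, fl, fst⟩ := exists_push5 hCh5 (by norm_num) okf
  obtain ⟨Fl, l0, ls, lO, lt, lfar, ll, lst⟩ := exists_push5 hCh5 (by norm_num) okl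
  have e0' : ∀ s, fpath () 0 s = e1 := by
    intro s; show (1 - step 0 * bfin s) • e1 = e1
    rw [BI.step_zero]; simp
  have e1' : ∀ s, fpath () 1 s = z0 s := by
    intro s; show (1 - step 1 * bfin s) • e1 = z0 s
    rw [BI.step_one]; simp [z0]
  have pf : IsPush {p | rsq 0 p ≤ 1 / 25} (1 / 100) fpath (fun x => Ff.f (1, x)) :=
    ⟨Ff, f0, fun _ => rfl, fs, fun t _ x hx => fO t x hx, fun t _ i s y hy => ft t i s y hy⟩
  have pl : IsPush {p | rsq 0 p ≤ 1 / 25} (1 / 100) (fun (_ : Unit) q s => zq q s)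
      (fun x => Fl.f (1, x)) :=
    ⟨Fl, l0, fun _ => rfl, ls, fun t _ x hx => lO t x hx, fun t _ i s y hy => lt t i s y hy⟩
  refine ⟨fun x => Ff.f (1, x), fun x => Ff.g (1, x), Fl, ?_, ?_, ?_⟩
  · refine ⟨?_, ?_, fun x => Ff.gf 1 x, fun x => Ff.fg 1 x, ?_, fun p => fl 1 p, ?_, ?_⟩
    · exact contMDiff_iff_contDiff.1 (Ff.smooth_f.comp (contMDiff_const.prodMk contMDiff_id))
    · exact contMDiff_iff_contDiff.1 (Ff.smooth_g.comp (contMDiff_const.prodMk contMDiff_id))
    · intro s y hy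
      have := ft 1 () s y hy
      rw [e0', BI.step_one, e1'] at this
      exact this
    · intro s x hs
      apply fst 1 s
      intro i q hq
      show (1 - step q * bfin s) • e1 = (1 - step 0 * bfin s) • e1
      rw [bfin_out hs]
      simp
    · rintro ⟨s, x⟩ hp
      apply ffar 1 s x
      intro i q hq
      rw [rsq1_eq] at hp
      have hp' : (3 / 10) ^ 2 ≤ nsq (x - e1) := hp
      have e2 : x - fpath i q s = (step q * bfin s) • e1 - (e1 - x) := by
        show x - (1 - step q * bfin s) • e1 = _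
        rw [sub_smul, one_smul]; abel
      rw [e2]
      have h3 : nsq ((step q * bfin s) • e1) ≤ (27 / 100) ^ 2 := by
        rw [nsq_smul, nsq_e1, mul_one]
        obtain ⟨h1, h2⟩ := step_mem q
        have h3 := bfin_nonneg s
        have h4 := bfin_le s
        have h5 : step q * bfin s ≤ 27 / 100 := by nlinarith
        have h6 : 0 ≤ step q * bfin s := mul_nonneg h1 h3
        nlinarith
      refine nsq_sub_ge (r := 27 / 100) (R := 3 / 10) (by norm_num) (by norm_num) (by norm_num) h3 ?_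
      rw [nsq_sub_comm]
      exact hp'
  · refine ⟨l0, ?_, ?_⟩
    · intro t s y hy
      have := lt t () s y hy
      rw [zq_zero] at this
      exact this
    · rintro t ⟨s, x⟩ hp
      by_cases hs : s ≤ 9 / 20 ∨ 11 / 20 ≤ s
      · apply lst t s
        intro i q hq
        show zq q s = zq 0 s
        rw [zq_out q hs, zq_out 0 hs]
      push Not at hs
      have hb : bfin s = 27 / 100 := bfin_mid ⟨by linarith [hs.1], by linarith [hs.2]⟩
      have hn : ∀ q, nsq (zq q s) = (73 / 100) ^ 2 := by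
        intro q
        unfold zq
        rw [nsq_smul, nsq_barPath, hb]
        norm_num
      apply lfar t s x
      intro i q hq
      have hx : nsq x < (71 / 100) ^ 2 ∨ (3 / 4) ^ 2 < nsq x := by
        by_contra h
        push Not at h
        apply hp
        refine ⟨hs.1.le, hs.2.le, ?_, ?_⟩
        · rw [rsq0_eq]; exact h.1
        · rw [rsq0_eq]; exact h.2
      rcases hx with hx | hx
      · exact nsq_sub_ge (r := 71 / 100) (R := 73 / 100) (by norm_num) (by norm_num) (by norm_num)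
          hx.le (hn q).ge
      · rw [nsq_sub_comm]
        exact nsq_sub_ge (r := 73 / 100) (R := 3 / 4) (by norm_num) (by norm_num) (by norm_num)
          (hn q).le hx.le
  · have pb : IsPush {p | rsq 0 p ≤ 1 / 25} (1 / 100) barPath barMap :=
      (isPush_barMap hspin).mono (fun p hp => le_trans (show rsq 0 p ≤ 1 / 25 from hp) (by norm_num))
        (by norm_num) (by norm_num)
    have sqr := square hCh (by norm_num) okg (Θ1 := barMap) (Θ2 := fun x => Ff.f (1, x))
      (Θ3 := fun x => Ff.f (1, x)) (Θ4 := fun x => Fl.f (1, x))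
      (pb.congr (by intro i q hq s; exact (gam_u0 q s).symm))
      (pf.congr (by intro i q hq s; exact (gam_one q s).symm))
      (pf.congr (by intro i q hq s; exact (gam_zero q s).symm))
      (pl.congr (by intro i q hq s; exact (gam_u1 q s).symm))
    have tf : TIso {p | rsq 0 p ≤ 1 / 25} (1 / 100) (fun (_ : Unit) _ => e1) (fun _ => z0)
        (fun x => Ff.f (1, x)) (fun x => Ff.f (1, x)) := by
      have := pf.tIso
      have e3 : (fun i : Unit => fpath i 0) = fun _ _ => e1 := by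
        funext i s; exact e0' s
      have e4 : (fun i : Unit => fpath i 1) = fun _ => z0 := by
        funext i s; exact e1' s
      rwa [e3, e4] at this
    have sqr' : TIso {p | rsq 0 p ≤ 1 / 25} (1 / 100) (fun (_ : Unit) _ => e1) (fun _ => z0)
        (fun x => Ff.f (1, barMap x)) (fun x => Fl.f (1, Ff.f (1, x))) := by
      have e3 : (fun _ : Unit => gam 0 0) = fun _ _ => e1 := by
        funext i s; rw [gam_u0, barPath_zero]
      have e4 : (fun _ : Unit => gam 1 1) = fun _ => z0 := by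
        funext i s; rw [gam_u1, zq_one]
      rwa [e3, e4] at sqr
    have ti : TIso {p | rsq 0 p ≤ 1 / 25} (1 / 100) (fun (_ : Unit) => z0) (fun _ _ => e1)
        (fun x => Ff.g (1, x)) (fun x => Ff.g (1, x)) :=
      tf.inv (fun x => Ff.fg 1 x) (fun x => Ff.fg 1 x)
    have := ti.comp sqr'
    have e5 : (fun x => Ff.g (1, Ff.f (1, barMap x))) = barMap := by
      funext x; exact Ff.gf 1 _
    rwa [e5] at this

end Pool.Agent.Helper27.H
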