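import Pool.Agent.Helper27.BI.H.Fing
import Pool.Agent.Helper27.BI.GAdd
import Pool.Agent.Helper27.BI.H.Calc

/-!
# Project BI, stage 3 (H): the arc datum of an embedding of `K3 δ`
-/

set_option autoImplicit false
set_option linter.unusedSectionVars false
set_option linter.unusedVariables false

open scoped Manifold ContDiff Topology ComplexConjugate
open Set Filter Pool.Agent.Helper65.Barb Pool.Agent.Helper18.BI
open Pool.Agent.Helper27.BI
open Pool.Agent.Helper70.BI (I4 LD NearEq ld_iff embOn_iff ld_congr ld_comp embOn_comp contDiff_dfam ld_dfam)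

namespace Pool.Agent.Helper27.H

/-! ### elementary geometry -/

theorem rsq_eq' (c : ℝ) (p : R4) : rsq c p = (p.2.1 - c) ^ 2 + p.2.2.re ^ 2 + p.2.2.im ^ 2 := rfl

theorem far0' {p : R4} (hp : rsq 0 p ≤ 1 / 25) : 16 / 25 ≤ rsq 1 p := by
  rw [rsq_eq'] at hp ⊢
  have h1 := sq_nonneg p.2.2.re
  have h2 := sq_nonneg p.2.2.im
  have h3 : p.2.1 ≤ 1 / 5 := by nlinarith
  nlinarith

theorem near1 {p : R4} (hp : rsq 1 p ≤ 1 / 9) : 1 / 25 ≤ rsq 0 p ∧ rsq 0 p ≤ (9 / 2) ^ 2 := by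
  rw [rsq_eq'] at hp ⊢
  have h1 := sq_nonneg p.2.2.re
  have h2 := sq_nonneg p.2.2.im
  have h3 : 2 / 3 ≤ p.2.1 := by nlinarith
  have h4 : p.2.1 ≤ 4 / 3 := by nlinarith
  constructor
  · nlinarith
  · nlinarith

section
variable {δ : ℝ}

theorem wall_sub (hδ : δ ∈ Ioo (0 : ℝ) (1 / 100)) : wallS δ ⊆ K3 δ := by
  rintro p ⟨h1, h2, h3, h4⟩
  have h5 := near1 (p := p) (by linarith [hδ.1])
  exact ⟨⟨by linarith, by linarith, h5.2⟩, h5.1, h3⟩

theorem wall_sub' (hδ : δ ∈ Ioo (0 : ℝ) (1 / 100)) :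
    wallS δ ⊆ {p | p ∈ K3 δ ∧ rsq 1 p ≤ 1 / 9} :=
  fun p hp => ⟨wall_sub hδ hp, by linarith [hp.2.2.2, hδ.1]⟩

theorem Dreg_sub (hδ : δ ∈ Ioo (0 : ℝ) (1 / 100)) : Dreg δ ⊆ {p | p ∈ K3 δ ∧ rsq 1 p ≤ 1 / 9} := by
  rintro p ⟨h1, h2, h3, h4⟩
  have h5 := near1 h4
  exact ⟨⟨⟨by linarith, by linarith, h5.2⟩, h5.1, by linarith [hδ.1]⟩, h4⟩

theorem SL_sub (hδ : δ ∈ Ioo (0 : ℝ) (1 / 100)) {p : R4} (hp : p ∈ SL) :
    p ∈ K3 δ ∧ 1 / 16 ≤ rsq 1 p := by
  obtain ⟨h1, h2, h3, h4⟩ := hp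
  have h5 : 1 / 16 ≤ rsq 1 p := by
    rw [rsq_eq'] at h4 ⊢
    have h6 := sq_nonneg p.2.2.re
    have h7 := sq_nonneg p.2.2.im
    have h8 : p.2.1 ≤ 3 / 4 := by nlinarith
    nlinarith
  exact ⟨⟨⟨by linarith, by linarith, by linarith⟩, by linarith, by linarith [hδ.1]⟩, h5⟩

theorem isCompact_K3 (δ : ℝ) : IsCompact (K3 δ) :=
  isCompact_ball4.inter_right ((isClosed_le continuous_const (continuous_rsq 0)).inter
    (isClosed_le continuous_const (continuous_rsq 1)))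

theorem isCompact_wall (hδ : δ ∈ Ioo (0 : ℝ) (1 / 100)) : IsCompact (wallS δ) := by
  apply (isCompact_K3 δ).of_isClosed_subset _ (wall_sub hδ)
  exact (isClosed_le continuous_const continuous_fst).inter
    ((isClosed_le continuous_fst continuous_const).inter
      ((isClosed_le continuous_const (continuous_rsq 1)).inter
        (isClosed_le (continuous_rsq 1) continuous_const)))

theorem isCompact_Dreg (hδ : δ ∈ Ioo (0 : ℝ) (1 / 100)) : IsCompact (Dreg δ) := by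
  apply (isCompact_K3 δ).of_isClosed_subset _ (fun p hp => (Dreg_sub hδ hp).1)
  exact (isClosed_le continuous_const continuous_fst).inter
    ((isClosed_le continuous_fst continuous_const).inter
      ((isClosed_le continuous_const (continuous_rsq 1)).inter
        (isClosed_le (continuous_rsq 1) continuous_const)))

theorem isCompact_SL : IsCompact SL := by
  have hδ : (1 / 200 : ℝ) ∈ Ioo (0 : ℝ) (1 / 100) := by norm_num
  apply (isCompact_K3 (1 / 200)).of_isClosed_subset _ (fun p hp => (SL_sub hδ hp).1)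
  exact (isClosed_le continuous_const continuous_fst).inter
    ((isClosed_le continuous_fst continuous_const).inter
      ((isClosed_le continuous_const (continuous_rsq 0)).inter
        (isClosed_le (continuous_rsq 0) continuous_const)))

end

theorem contDiff_z0 : ContDiff ℝ ∞ z0 := (contDiff_const.sub contDiff_bfin).smul contDiff_const

theorem contDiff_zq : ContDiff ℝ ∞ (fun p : ℝ × ℝ => zq p.1 p.2) := by
  have h := contDiff_gam.comp (f := fun p : ℝ × ℝ => ((1 : ℝ), (p.1, p.2)))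
    (contDiff_const.prodMk contDiff_id)
  have e : (fun p : ℝ × ℝ => zq p.1 p.2) =
      (fun p : ℝ × ℝ × ℝ => gam p.1 p.2.1 p.2.2) ∘ fun p => (1, p.1, p.2) := by
    funext p
    show zq p.1 p.2 = gam 1 p.1 p.2
    rw [gam_u1]
  rw [e]
  exact h

theorem contDiff_zq' {E : Type*} [NormedAddCommGroup E] [NormedSpace ℝ E] {f g : E → ℝ}
    (hf : ContDiff ℝ ∞ f) (hg : ContDiff ℝ ∞ g) : ContDiff ℝ ∞ (fun x => zq (f x) (g x)) := by
  have h := contDiff_zq.comp (hf.prodMk hg)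
  have e : (fun p : ℝ × ℝ => zq p.1 p.2) ∘ (fun x => (f x, g x)) = fun x => zq (f x) (g x) := by
    funext x; simp only [Function.comp_apply]
  rwa [e] at h

theorem nsq_zq (q s : ℝ) : nsq (zq q s) = (1 - bfin s) ^ 2 := by
  unfold zq
  rw [nsq_smul, nsq_barPath, mul_one]

theorem rsq0_zq (q s : ℝ) : rsq 0 (s, zq q s) = (1 - bfin s) ^ 2 := by
  rw [rsq0_eq, nsq_zq]

/-- the distance of the arcs to the vertical line over `e1` -/
theorem rsq1_zq_ge (q s : ℝ) : bfin s ^ 2 ≤ rsq 1 (s, zq q s) := by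
  rw [rsq1_eq]
  show _ ≤ nsq (zq q s - e1)
  exact nsq_sub_ge (r := 1 - bfin s) (R := 1) (by linarith [bfin_le s]) (bfin_nonneg s)
    (by linarith) (nsq_zq q s).le (by rw [nsq_e1]; norm_num)

theorem rsq1_z0 (s : ℝ) : rsq 1 (s, z0 s) = bfin s ^ 2 := by
  rw [rsq1_eq]
  show nsq (z0 s - e1) = _
  have : z0 s - e1 = (-bfin s) • e1 := by
    unfold z0
    rw [sub_smul, one_smul, neg_smul]; abel
  rw [this, nsq_smul, nsq_e1]
  ring

theorem zq_mem {δ q s : ℝ} (hs : s ∈ Icc (0 : ℝ) 1) (hb : 1 / 25 - δ ≤ bfin s ^ 2)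
    (hδ : δ ∈ Ioo (0 : ℝ) (1 / 100)) : (s, zq q s) ∈ K3 δ := by
  have h1 := bfin_le s
  have h2 := bfin_nonneg s
  refine ⟨⟨by linarith [hs.1], by linarith [hs.2], ?_⟩, ?_, ?_⟩
  · rw [rsq0_zq]; nlinarith
  · rw [rsq0_zq]; nlinarith
  · have := rsq1_zq_ge q s
    linarith [hδ.1]

/-! ### the shear -/

/-- level preserving translation by the arc `z` -/
def shr (z : ℝ → R3) (p : R4) : R4 := (p.1, z p.1 + p.2)

theorem contDiff_shr {z : ℝ → R3} (hz : ContDiff ℝ ∞ z) : ContDiff ℝ ∞ (shr z) :=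
  contDiff_fst.prodMk ((hz.comp contDiff_fst).add contDiff_snd)

theorem shr_injective (z : ℝ → R3) : Function.Injective (shr z) := by
  rintro ⟨s, x⟩ ⟨t, y⟩ h
  have h1 : s = t := congrArg Prod.fst h
  subst h1
  have h2 : z s + x = z s + y := congrArg Prod.snd h
  rw [add_left_cancel h2]

theorem ld_shr {z : ℝ → R3} (hz : ContDiff ℝ ∞ z) (p : R4) : LD (shr z) p := by
  rw [ld_iff]
  refine ⟨Filter.Eventually.of_forall fun q => (contDiff_shr hz).contDiffAt, ?_⟩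
  have hd : HasFDerivAt (shr z) ((ContinuousLinearMap.fst ℝ ℝ R3).prod
      (((fderiv ℝ z p.1).comp (ContinuousLinearMap.fst ℝ ℝ R3)) +
        ContinuousLinearMap.snd ℝ ℝ R3)) p := by
    apply HasFDerivAt.prodMk hasFDerivAt_fst
    apply HasFDerivAt.add _ hasFDerivAt_snd
    exact ((hz.differentiable (by simp) p.1).hasFDerivAt).comp p hasFDerivAt_fst
  rw [hd.fderiv, injective_iff_map_eq_zero]
  rintro ⟨σ, v⟩ h
  have h1 : σ = 0 := congrArg Prod.fst h
  have h2 : fderiv ℝ z p.1 σ + v = 0 := congrArg Prod.snd h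
  rw [h1, map_zero, zero_add] at h2
  rw [h1, h2]
  rfl

theorem embOn_shr {z : ℝ → R3} (hz : ContDiff ℝ ∞ z) (L : Set R4) : EmbOn I4 (shr z) L :=
  ⟨fun p _ => ld_shr hz p, (shr_injective z).injOn⟩

/-- smooth extension of a function defined near a compact interval -/
theorem exists_smooth_ext {f : ℝ → R4} {a b : ℝ} (hab : a ≤ b)
    (hf : ∀ s ∈ Icc a b, ∀ᶠ t in 𝓝 s, ContDiffAt ℝ ∞ f t) :
    ∃ c : ℝ → R4, ContDiff ℝ ∞ c ∧ ∀ s ∈ Icc a b, c =ᶠ[𝓝 s] f := by
  obtain ⟨O, hO, hab', hfO⟩ : ∃ O : Set ℝ, IsOpen O ∧ Icc a b ⊆ O ∧ ∀ s ∈ O, ContDiffAt ℝ ∞ f s := by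
    refine ⟨interior {s | ContDiffAt ℝ ∞ f s}, isOpen_interior, fun s hs => ?_, fun s hs => ?_⟩
    · exact mem_interior_iff_mem_nhds.2 (hf s hs)
    · have h3 : s ∈ {s | ContDiffAt ℝ ∞ f s} := interior_subset hs
      exact h3
  obtain ⟨r, hr, hrO⟩ : ∃ r > 0, Icc (a - 2 * r) (b + 2 * r) ⊆ O := by
    obtain ⟨ε, hε, h⟩ := (isCompact_Icc (a := a) (b := b)).exists_cthickening_subset_open hO hab'
    refine ⟨ε / 2, by positivity, fun s hs => h ?_⟩
    have hne : (Icc a b).Nonempty := ⟨a, le_rfl, hab⟩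
    refine Metric.mem_cthickening_of_dist_le s (max a (min s b)) ε _
      ⟨le_max_left _ _, max_le hab (min_le_right _ _)⟩ ?_
    rw [Real.dist_eq, abs_le]
    constructor
    · rcases le_total a (min s b) with h1 | h1
      · rw [max_eq_right h1]; linarith [min_le_left s b, hs.1]
      · rw [max_eq_left h1]; linarith [hs.1]
    · rcases le_total s b with h2 | h2
      · rw [min_eq_left h2]; linarith [le_max_right a s]
      · rw [min_eq_right h2]; linarith [le_max_right a b, hs.2]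
  set χ : ℝ → ℝ := fun s => step ((s - (a - 2 * r)) / r) * step (((b + 2 * r) - s) / r) with hχ
  have hχs : ContDiff ℝ ∞ χ := by
    apply ContDiff.mul
    · exact contDiff_step.comp ((contDiff_id.sub contDiff_const).div_const _)
    · exact contDiff_step.comp ((contDiff_const.sub contDiff_id).div_const _)
  have hχ0 : ∀ s, (s ≤ a - 2 * r ∨ b + 2 * r ≤ s) → χ s = 0 := by
    intro s hs
    rcases hs with h | h
    · show step _ * step _ = 0
      rw [step_of_nonpos (div_nonpos_of_nonpos_of_nonneg (by linarith) hr.le), zero_mul]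
    · show step _ * step _ = 0
      rw [step_of_nonpos (s := ((b + 2 * r) - s) / r)
        (div_nonpos_of_nonpos_of_nonneg (by linarith) hr.le), mul_zero]
  have hχ1 : ∀ s, a - r ≤ s → s ≤ b + r → χ s = 1 := by
    intro s h1 h2
    show step _ * step _ = 1
    rw [step_of_one_le (by rw [le_div_iff₀ hr]; linarith),
      step_of_one_le (by rw [le_div_iff₀ hr]; linarith), mul_one]
  refine ⟨fun s => χ s • f s, ?_, ?_⟩
  · rw [contDiff_iff_contDiffAt]
    intro s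
    by_cases hs : s ∈ O
    · exact hχs.contDiffAt.smul (hfO s hs)
    · have hs' : s ∈ (Icc (a - 2 * r) (b + 2 * r))ᶜ := fun h => hs (hrO h)
      have h0 : (fun s => χ s • f s) =ᶠ[𝓝 s] fun _ => 0 := by
        filter_upwards [isClosed_Icc.isOpen_compl.mem_nhds hs'] with t ht
        rw [hχ0 t, zero_smul]
        by_contra h
        push Not at h
        exact ht ⟨h.1.le, h.2.le⟩
      exact contDiffAt_const.congr_of_eventuallyEq h0
  · intro s hs
    filter_upwards [Ioo_mem_nhds (show a - r < s by linarith [hs.1])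
      (show s < b + r by linarith [hs.2])] with t ht
    rw [hχ1 t ht.1.le ht.2.le, one_smul]

/-- **HARC.** -/
theorem m_HARC (hE : StEHAT) : StHARC := by
  intro T T' G δ hT hδ hG
  obtain ⟨s₀, hs₀, s₁, hs₁, hb₀, hb₁, hb, hb'⟩ := m_BFIN.2.2.2.2 δ hδ
  have hge : ∀ s ∈ Icc s₀ s₁, 1 / 25 - δ ≤ bfin s ^ 2 := by
    rintro s ⟨h1, h2⟩
    rcases h1.lt_or_eq with h1 | rfl
    · rcases h2.lt_or_eq with h2 | rfl
      · exact (hb s ⟨h1, h2⟩).le
      · exact hb₁.ge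
    · exact hb₀.ge
  have h01 : ∀ s ∈ Icc s₀ s₁, s ∈ Icc (0 : ℝ) 1 := by
    rintro s ⟨h1, h2⟩
    exact ⟨by linarith [hs₀.1], by linarith [hs₁.2]⟩
  have hzK : ∀ s ∈ Icc s₀ s₁, (s, z0 s) ∈ K3 δ := by
    intro s hs
    rw [← zq_zero]
    exact zq_mem (h01 s hs) (hge s hs) hδ
  have hz : ContDiff ℝ ∞ (fun s : ℝ => ((s, z0 s) : R4)) := contDiff_id.prodMk contDiff_z0
  obtain ⟨c, hc, hcG⟩ := exists_smooth_ext (f := fun s => G (s, z0 s)) (a := s₀) (b := s₁)
    (by linarith [hs₀.2, hs₁.1]) (by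
      intro s hs
      have h1 := (ld_iff.1 (hG.1 _ (hzK s hs))).1
      have h2 : ContinuousAt (fun s : ℝ => ((s, z0 s) : R4)) s := hz.continuous.continuousAt
      filter_upwards [h2.eventually h1] with t ht
      exact ht.comp t hz.contDiffAt)
  have hcG' : ∀ s ∈ Icc s₀ s₁, c s = G (s, z0 s) := fun s hs => (hcG s hs).self_of_nhds
  have hwall : ∀ s ∈ Icc s₀ s₁, c s ∈ G '' wallS δ → bfin s ^ 2 ≤ 1 / 25 - δ := by
    rintro s hs ⟨p, hp, hpe⟩
    rw [hcG' s hs] at hpe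
    have := hG.2 (wall_sub hδ hp) (hzK s hs) hpe
    subst this
    rw [← rsq1_z0]
    exact hp.2.2.2
  refine ⟨⟨(G '' wallS δ)ᶜ, s₀, 9 / 20, 11 / 20, s₁, fun p => G (p.1, z0 p.1 + p.2), c,
    imp G (Dreg δ) (e0 δ T'), ?_, by linarith [hs₀.2], by norm_num, by linarith [hs₁.1], hc, ?_, ?_,
    ?_, ?_, ?_, ?_⟩, rfl, rfl, rfl, rfl, rfl, hs₀, hs₁, hb₀, hb₁, hb, hb'⟩
  · have h1 : ContinuousOn G (wallS δ) := fun p hp =>
      ((ld_iff.1 (hG.1 p (wall_sub hδ hp))).1.self_of_nhds.continuousAt).continuousWithinAt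
    exact ((isCompact_wall hδ).image_of_continuousOn h1).isClosed.isOpen_compl
  · intro s hs
    show G (s, z0 s + 0) = c s
    rw [add_zero, hcG' s hs]
  · have h1 : EmbOn I4 (G ∘ shr z0) (seg s₀ s₁) := by
      apply embOn_comp hG (embOn_shr contDiff_z0 _)
      rintro ⟨s, y⟩ ⟨h1, h2, h3⟩
      have h3' : y = 0 := h3
      subst h3'
      show (s, z0 s + 0) ∈ K3 δ
      rw [add_zero]
      exact hzK s ⟨h1, h2⟩
    exact h1
  · intro s hs h
    exact absurd (hwall s ⟨hs.1.le, hs.2.le⟩ h) (not_le.2 (hb s hs))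
  · intro h
    have hs : s₀ ∈ Icc s₀ s₁ := ⟨le_rfl, by linarith [hs₀.2, hs₁.1]⟩
    apply h
    refine ⟨(s₀, z0 s₀), ⟨?_, ?_, ?_, ?_⟩, (hcG' s₀ hs).symm⟩
    · exact (h01 s₀ hs).1
    · exact (h01 s₀ hs).2
    · rw [rsq1_z0, hb₀]; linarith [hδ.1]
    · rw [rsq1_z0, hb₀]
  · intro h
    have hs : s₁ ∈ Icc s₀ s₁ := ⟨by linarith [hs₀.2, hs₁.1], le_rfl⟩
    apply h
    refine ⟨(s₁, z0 s₁), ⟨?_, ?_, ?_, ?_⟩, (hcG' s₁ hs).symm⟩
    · exact (h01 s₁ hs).1
    · exact (h01 s₁ hs).2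
    · rw [rsq1_z0, hb₁]; linarith [hδ.1]
    · rw [rsq1_z0, hb₁]
  · apply BI.EmbOn.mono (hE T T' G δ hT hδ hG)
    rintro y ⟨hy1, hy2⟩
    refine ⟨hy1, ?_⟩
    rintro ⟨s, hs, rfl⟩
    apply hy2
    have hs' : s ∈ Ioo s₀ s₁ := by
      by_contra h
      exact absurd hs (not_lt.2 (hb' s h))
    refine ⟨(s, 0), ⟨hs'.1.le, hs'.2.le, rfl⟩, ?_⟩
    show G (s, z0 s + 0) = G (s, z0 s)
    rw [add_zero]

end Pool.Agent.Helper27.H
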