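import Pool.Agent.Helper27.BI.H.Hat

/-!
# Project BI, stage 3 (H): walls of thickness `ε`
-/

set_option autoImplicit false
set_option linter.unusedSectionVars false
set_option linter.unusedVariables false

open scoped Manifold ContDiff Topology ComplexConjugate
open Set Filter Pool.Agent.Helper65.Barb Pool.Agent.Helper18.BI
open Pool.Agent.Helper27.BI
open Pool.Agent.Helper18.BI.H (neckE mm)
open Pool.Agent.Helper70.BI (I4 LD NearEq ld_iff embOn_iff ld_congr ld_comp embOn_comp contDiff_dfam ld_dfam)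

namespace Pool.Agent.Helper27.H

theorem K3_mono {δ δ' : ℝ} (h : δ ≤ δ') : K3 δ ⊆ K3 δ' := fun p hp =>
  ⟨hp.1, hp.2.1, by linarith [hp.2.2]⟩

theorem eps_emb {F : R4 → R4} (hF : EmbOn I4 F SP) :
    ∃ ε₀ > 0, ∀ ε ∈ Ioo (0 : ℝ) ε₀, EmbOn I4 (fun p => F (sq ε p)) (K3 ε) := by
  obtain ⟨O, hO, hSPO, hFO, hFc⟩ := emb_open hS4.2.2.2.2.2.2.2.2.1 hF
  obtain ⟨δ, hδ, hsh⟩ := exists_shell hO (fun p hp => hSPO (Or.inl (Or.inr hp)))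
  have hLc : IsCompact (SP ∪ shell δ) := (hS4.2.2.2.2.2.2.2.2.1).union (isCompact_shell δ)
  have hFL : EmbOn I4 F (SP ∪ shell δ) := BI.EmbOn.mono hFO (union_subset hSPO hsh)
  obtain ⟨ε1, h1, e1⟩ := hT6 R4 R4 I4 R4 F (K3 δ) _ (isCompact_K3 δ) hLc (fun p hp => sq0_K3 hp) hFL
  refine ⟨min ε1 δ, lt_min h1 hδ.1, fun ε hε => ?_⟩
  have h2 := (e1 ε ⟨hε.1, lt_of_lt_of_le hε.2 (min_le_left _ _)⟩).1
  have h3 : EmbOn I4 (F ∘ sq ε) (K3 ε) :=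
    BI.EmbOn.mono h2 (K3_mono (lt_of_lt_of_le hε.2 (min_le_right _ _)).le)
  exact h3

theorem eps_near {V : Set R4} (hV : IsOpen V) (hVs : sph 1 ∪ neckE ⊆ V) :
    ∃ ε₀ > 0, ∀ ε ∈ Ioo (0 : ℝ) ε₀, ∀ p ∈ K3 ε, rsq 1 p ≤ 1 / 9 → sq ε p ∈ V := by
  obtain ⟨δ, hδ, hsh⟩ := exists_shell hV (fun p hp => hVs (Or.inl hp))
  have hnc : IsCompact {p : R4 | p ∈ K3 δ ∧ rsq 1 p ≤ 1 / 9} :=
    (isCompact_K3 δ).inter_right (isClosed_le (continuous_rsq 1) continuous_const)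
  obtain ⟨ε3, h3, e3⟩ := exists_eps hnc hV (by
    intro p hp
    rcases sq0_near hp.1 hp.2 with h | h
    · exact hsh h
    · exact hVs h)
  refine ⟨min ε3 δ, lt_min h3 hδ.1, fun ε hε p hp hp' => ?_⟩
  exact e3 ε ⟨hε.1, lt_of_lt_of_le hε.2 (min_le_left _ _)⟩ p
    ⟨K3_mono (lt_of_lt_of_le hε.2 (min_le_right _ _)).le hp, hp'⟩

theorem eps_wall {V : Set R4} (hV : IsOpen V) (hVs : sph 1 ⊆ V) :
    ∃ ε₀ > 0, ∀ ε ∈ Ioo (0 : ℝ) ε₀, ∀ p ∈ wallS ε, sq ε p ∈ V := by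
  obtain ⟨δ, hδ, hsh⟩ := exists_shell hV hVs
  have hnc : IsCompact {p : R4 | p ∈ K3 δ ∧ rsq 1 p ≤ 1 / 25} :=
    (isCompact_K3 δ).inter_right (isClosed_le (continuous_rsq 1) continuous_const)
  obtain ⟨ε3, h3, e3⟩ := exists_eps hnc hV (by
    intro p hp
    have h5 : sq 0 p = (1 / 2, p.2) := hS4.2.2.1 p (Or.inr (Or.inl hp.2))
    have h6 : ((1 / 2, p.2) : R4) ∈ shell δ := ⟨rfl, hp.1.2.2, hp.2⟩
    rw [h5]
    exact hsh h6)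
  refine ⟨min (min ε3 δ) (1 / 100), lt_min (lt_min h3 hδ.1) (by norm_num), fun ε hε p hp => ?_⟩
  have h4 : ε < min ε3 δ := lt_of_lt_of_le hε.2 (min_le_left _ _)
  have h5 : ε < 1 / 100 := lt_of_lt_of_le hε.2 (min_le_right _ _)
  refine e3 ε ⟨hε.1, lt_of_lt_of_le h4 (min_le_left _ _)⟩ p
    ⟨K3_mono (lt_of_lt_of_le h4 (min_le_right _ _)).le (wall_sub ⟨hε.1, h5⟩ hp), ?_⟩
  linarith [hp.2.2.2, hε.1]

end Pool.Agent.Helper27.H
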