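import Pool.Agent.Helper27.BI.H.Harc
import Pool.Agent.Helper34.BI.M_RE
import Pool.Agent.Helper18.BI.M_A1

/-!
# Project BI, stage 3 (H): the class of the loop of fingers
-/

set_option autoImplicit false
set_option linter.unusedSectionVars false
set_option linter.unusedVariables false

open scoped Manifold ContDiff Topology ComplexConjugate
open Set Filter Pool.Agent.Helper65.Barb Pool.Agent.Helper18.BI
open Pool.Agent.Helper27.BI
open Pool.Agent.Helper34.BI (rade qe)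
open Pool.Agent.Helper70.BI (I4 LD NearEq ld_iff embOn_iff ld_congr ld_comp embOn_comp contDiff_dfam ld_dfam)

namespace Pool.Agent.Helper27.H

section
variable {δ : ℝ}

/-- the region of the compression -/
def KB : Set R4 := {p | p ∈ ball4 ∧ 1 / 25 ≤ rsq 0 p ∧ (1 / 100) ^ 2 ≤ rsq 1 p}

theorem isCompact_KB : IsCompact KB :=
  isCompact_ball4.inter_right ((isClosed_le continuous_const (continuous_rsq 0)).inter
    (isClosed_le continuous_const (continuous_rsq 1)))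

theorem rade_level (δ : ℝ) (p : R4) : (rade δ 1 p).1 = p.1 := rfl

theorem rade_low (hδ : δ ∈ Ioo (0 : ℝ) (1 / 100)) {p : R4} (hp : 0 < rsq 1 p) :
    1 / 25 - 3 * δ ≤ rsq 1 (rade δ 1 p) := by
  have hf := Helper34.BI.RE.qe_prf hδ.1 (by linarith [hδ.2] : δ < 1)
  have e1 : rsq 1 (rade δ 1 p) = qe δ (rsq 1 p) := Helper34.BI.RE.rsq_rad hf 1 p hp
  rw [e1]
  exact Helper34.BI.RE.qe_low hδ.1 hδ.2 hp.le

theorem rade_up (hδ : δ ∈ Ioo (0 : ℝ) (1 / 100)) {p : R4} (hp : 0 < rsq 1 p)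
    (hp' : rsq 1 p ≤ 1 / 9) : rsq 1 (rade δ 1 p) ≤ 1 / 9 := by
  have hf := Helper34.BI.RE.qe_prf hδ.1 (by linarith [hδ.2] : δ < 1)
  have e1 : rsq 1 (rade δ 1 p) = qe δ (rsq 1 p) := Helper34.BI.RE.rsq_rad hf 1 p hp
  rw [e1]
  have := hf.mono.monotone hp'
  rwa [Helper34.BI.RE.qe_eq hδ.1 (q := 1 / 9) (by linarith [hδ.1])] at this

theorem rade_self (hδ : δ ∈ Ioo (0 : ℝ) (1 / 100)) {p : R4} (hp : 1 / 25 - δ ≤ rsq 1 p) :
    rade δ 1 p = p := Helper34.BI.RE.rade_id hδ.1 hδ.2 1 hp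

theorem rade_emb (hδ : δ ∈ Ioo (0 : ℝ) (1 / 100)) : EmbOn I4 (rade δ 1) {p | 0 < rsq 1 p} := by
  have hf := Helper34.BI.RE.qe_prf hδ.1 (by linarith [hδ.2] : δ < 1)
  refine ⟨fun p hp => ?_, Helper34.BI.RE.rad_inj hf 1⟩
  rw [m_A0 R4 (rade δ 1) p]
  exact ⟨⟨_, R2.isOpen_pos 1, hp, Helper34.BI.RE.rad_contDiffOn hf 1⟩,
    fun v hv => Helper34.BI.RE.rad_fderiv hf 1 p v hp hv⟩

theorem rade_K3 (hδ : δ ∈ Ioo (0 : ℝ) (1 / 100)) {p : R4} (hp : p ∈ KB) : rade δ 1 p ∈ K3 δ := by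
  obtain ⟨h1, h2, h3⟩ := hp
  have hpos : 0 < rsq 1 p := by linarith
  rcases le_or_gt (1 / 25 - δ) (rsq 1 p) with h | h
  · rw [rade_self hδ h]
    exact ⟨h1, h2, by linarith [hδ.1]⟩
  · have h4 := near1 (rade_up hδ hpos (by linarith [hδ.1]))
    exact ⟨⟨h1.1, h1.2.1, h4.2⟩, h4.1, rade_low hδ hpos⟩

/-- the tube about the finger -/
def ftube : Set R4 := {p | nsq (p.2 - z0 p.1) < (1 / 100) ^ 2}

theorem continuous_nsq : Continuous nsq := by
  unfold nsq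
  exact ((continuous_fst.pow 2).add ((Complex.continuous_re.comp continuous_snd).pow 2)).add
    ((Complex.continuous_im.comp continuous_snd).pow 2)

theorem isOpen_ftube : IsOpen ftube :=
  isOpen_lt (continuous_nsq.comp (continuous_snd.sub (contDiff_z0.continuous.comp continuous_fst)))
    continuous_const

/-- the support of the push of the loop -/
def SL' : Set R4 := SL \ ftube

theorem isCompact_SL' : IsCompact SL' := isCompact_SL.diff isOpen_ftube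

theorem bsupp_KB : bsupp ⊆ KB := by
  intro p hp
  have h1 := (bsupp_subset hp).1
  exact ⟨h1, le_trans (by norm_num) hp.2.1, le_trans (by norm_num) hp.2.2⟩

section finger
variable {T T' : R4 → R4} (hT : FingOk T T')
include hT

theorem fing_inv_level (p : R4) : (T' p).1 = p.1 := by
  have := hT.level (T' p)
  rw [hT.right] at this
  exact this.symm

/-- the inverse fixes what `T` fixes -/
theorem fing_inv_fix {p : R4} (h : T p = p) : T' p = p := by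
  have := hT.left p
  rwa [h] at this

theorem fing_far' {p : R4} (hp : (3 / 10) ^ 2 ≤ rsq 1 (T' p)) : T' p = p := by
  have := hT.far _ hp
  rw [hT.right] at this
  exact this.symm

theorem fing_KB {p : R4} (hp : p ∈ SL') : T' p ∈ KB := by
  obtain ⟨hp1, hp2⟩ := hp
  by_cases h : (3 / 10) ^ 2 ≤ rsq 1 (T' p)
  · have e := fing_far' hT h
    rw [e] at h ⊢
    have h3 := (SL_sub (δ := 1 / 200) (by norm_num) hp1).1
    exact ⟨h3.1, h3.2.1, le_trans (by norm_num) h⟩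
  · push Not at h
    have h4 := near1 (p := T' p) (by linarith)
    have h5 := fing_inv_level hT p
    refine ⟨⟨?_, ?_, h4.2⟩, h4.1, ?_⟩
    · rw [h5]; linarith [hp1.1]
    · rw [h5]; linarith [hp1.2.1]
    · by_contra h6
      push Not at h6
      apply hp2
      rw [rsq1_eq] at h6
      have h7 := hT.tube (T' p).1 ((T' p).2 - e1) h6.le
      rw [add_sub_cancel] at h7
      have h8 : T (T' p) = p := hT.right p
      have h9 : p = ((T' p).1, z0 (T' p).1 + ((T' p).2 - e1)) := h8.symm.trans h7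
      show nsq (p.2 - z0 p.1) < _
      rw [h9]
      show nsq (z0 (T' p).1 + ((T' p).2 - e1) - z0 (T' p).1) < _
      rw [add_sub_cancel_left]
      exact h6

/-- the retraction is the identity far from the fixed cuff -/
theorem e0_far (hδ : δ ∈ Ioo (0 : ℝ) (1 / 100)) {p : R4} (hp : 1 / 9 ≤ rsq 1 p) :
    e0 δ T' p = p := by
  unfold e0
  rw [fing_inv_fix hT (hT.far p (by linarith)), rade_self hδ (by linarith [hδ.1])]

theorem e0_near (hδ : δ ∈ Ioo (0 : ℝ) (1 / 100)) {p : R4} (hp : p ∈ SL') (hp' : rsq 1 p ≤ 1 / 9) :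
    e0 δ T' p ∈ {p | p ∈ K3 δ ∧ rsq 1 p ≤ 1 / 9} := by
  have h1 := fing_KB hT hp
  have h2 : rsq 1 (T' p) ≤ 1 / 9 := by
    by_cases h : (3 / 10) ^ 2 ≤ rsq 1 (T' p)
    · rw [fing_far' hT h]; exact hp'
    · push Not at h; linarith
  exact ⟨rade_K3 hδ h1, rade_up hδ (by linarith [h1.2.2]) h2⟩

end finger

/-! ### the push of the loop -/

section lam
variable {F : DFam 𝓘(ℝ, R4) R4} (hF : LamOk F)
include hF

theorem lam_one_tube {p : R4} (hp : p ∈ ftube) : F.f (1, p) = p := by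
  have h := hF.tube 1 p.1 (p.2 - z0 p.1) (le_of_lt hp)
  rw [add_sub_cancel, BI.step_one, zq_one, add_sub_cancel] at h
  exact h

theorem lam_one_off {p : R4} (hp : p ∉ SL') : F.f (1, p) = p := by
  by_cases h : p ∈ SL
  · have : p ∈ ftube := by
      by_contra h'
      exact hp ⟨h, h'⟩
    exact lam_one_tube hF this
  · exact hF.supp 1 p h

theorem lam_one_maps {p : R4} (hp : p ∈ SL') : F.f (1, p) ∈ SL' := by
  by_contra h
  have h1 := lam_one_off hF h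
  have h2 : F.f (1, p) = p := by
    have := congrArg (fun z => F.g (1, z)) h1
    simp only [F.gf] at this
    exact this
  rw [h2] at h
  exact h hp

end lam

/-! ### the class of the loop -/

/-- the loop of thick arcs -/
noncomputable def Jq (G : R4 → R4) (q : ℝ) (p : R4) : R4 := G (p.1, zq q p.1 + p.2)

section hcls
variable {T T' G G' : R4 → R4} {D : ArcD} (hδ : δ ∈ Ioo (0 : ℝ) (1 / 100)) (hD : HatOk δ T' G D)
  (hG : EmbOn I4 G (K3 δ)) (hG' : EmbOn I4 G' (K3 δ))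
  (hn : NearEq G G' {p | p ∈ K3 δ ∧ rsq 1 p ≤ 1 / 9})
include hδ hD hG hG' hn

theorem hat_ge {s : ℝ} (hs : s ∈ Icc D.s₀ D.s₁) : 1 / 25 - δ ≤ bfin s ^ 2 := by
  obtain ⟨h1, h2⟩ := hs
  rcases h1.lt_or_eq with h1 | rfl
  · rcases h2.lt_or_eq with h2 | rfl
    · exact (hD.b s ⟨h1, h2⟩).le
    · exact hD.b₁.ge
  · exact hD.b₀.ge

theorem hat_01 {s : ℝ} (hs : s ∈ Icc D.s₀ D.s₁) : s ∈ Icc (0 : ℝ) 1 :=
  ⟨by linarith [hD.s₀.1, hs.1], by linarith [hD.s₁.2, hs.2]⟩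

theorem hat_zq (q : ℝ) {s : ℝ} (hs : s ∈ Icc D.s₀ D.s₁) : (s, zq q s) ∈ K3 δ :=
  zq_mem (hat_01 hδ hD hG hG' hn hs) (hat_ge hδ hD hG hG' hn hs) hδ

theorem hat_z0 {s : ℝ} (hs : s ∈ Icc D.s₀ D.s₁) :
    (s, z0 s) ∈ {p : R4 | p ∈ K3 δ ∧ rsq 1 p ≤ 1 / 9} := by
  refine ⟨?_, ?_⟩
  · rw [← zq_zero]
    exact hat_zq hδ hD hG hG' hn 0 hs
  · rw [rsq1_z0]
    have h1 := bfin_le s
    have h2 := bfin_nonneg s
    nlinarith

theorem hat_cores (q : ℝ) {s : ℝ} (hs : s ∈ Icc D.s₀ D.s₁) : Jq G' q (s, 0) = loopc D G' q s := by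
  show G' (s, zq q s + 0) = loopc D G' q s
  rw [add_zero]
  unfold loopc
  split_ifs with h
  · rfl
  · have h2 : s ≤ 9 / 20 ∨ 11 / 20 ≤ s := by
      by_contra h3
      push Not at h3
      exact h ⟨by linarith [h3.1], by linarith [h3.2]⟩
    rw [zq_out q h2, ← D.core s hs, hD.J]
    show G' (s, z0 s) = G (s, z0 s + 0)
    rw [add_zero]
    exact ((hn.eventuallyEq (hat_z0 hδ hD hG hG' hn hs)).self_of_nhds).symm

theorem hat_emb (q : ℝ) : EmbOn I4 (Jq G' q) D.L := by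
  have hz : ContDiff ℝ ∞ (fun s : ℝ => zq q s) :=
    contDiff_zq' (f := fun _ : ℝ => q) (g := fun s : ℝ => s) contDiff_const contDiff_id
  have h1 : EmbOn I4 (G' ∘ shr (fun s => zq q s)) D.L := by
    apply embOn_comp hG' (embOn_shr hz _)
    rintro ⟨s, y⟩ ⟨h1, h2, h3⟩
    have h3' : y = 0 := h3
    subst h3'
    show (s, zq q s + 0) ∈ K3 δ
    rw [add_zero]
    exact hat_zq hδ hD hG hG' hn q ⟨h1, h2⟩
  exact h1

/-- the frozen region -/
theorem hat_V : ∃ V : Set R4, IsOpen V ∧ ((D.s₀, 0) : R4) ∈ V ∧ ((D.s₁, 0) : R4) ∈ V ∧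
    ∀ p ∈ V, ∀ q, Jq G' q p = D.J p := by
  obtain ⟨N, hN, hN1, hN2⟩ := hn
  refine ⟨{p : R4 | (p.1 < 9 / 20 ∨ 11 / 20 < p.1) ∧ shr z0 p ∈ N}, ?_, ?_, ?_, ?_⟩
  · apply IsOpen.inter
    · exact (isOpen_lt continuous_fst continuous_const).union
        (isOpen_lt continuous_const continuous_fst)
    · exact hN.preimage (contDiff_shr contDiff_z0).continuous
  · refine ⟨Or.inl (by show D.s₀ < 9 / 20; linarith [hD.s₀.2]), hN1 ?_⟩
    show (D.s₀, z0 D.s₀ + 0) ∈ _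
    rw [add_zero]
    exact hat_z0 hδ hD hG hG' ⟨N, hN, hN1, hN2⟩ ⟨le_rfl, by linarith [hD.s₀.2, hD.s₁.1]⟩
  · refine ⟨Or.inr (by show 11 / 20 < D.s₁; linarith [hD.s₁.1]), hN1 ?_⟩
    show (D.s₁, z0 D.s₁ + 0) ∈ _
    rw [add_zero]
    exact hat_z0 hδ hD hG hG' ⟨N, hN, hN1, hN2⟩ ⟨by linarith [hD.s₀.2, hD.s₁.1], le_rfl⟩
  · rintro ⟨s, y⟩ ⟨h1, h2⟩ q
    have h3 : s ≤ 9 / 20 ∨ 11 / 20 ≤ s := by
      rcases h1 with h | h
      · exact Or.inl (le_of_lt h)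
      · exact Or.inr (le_of_lt h)
    rw [hD.J]
    show G' (s, zq q s + y) = G (s, z0 s + y)
    rw [zq_out q h3]
    exact (hN2 h2).symm

theorem hat_inU (q : ℝ) {s : ℝ} (hs : s ∈ Ioo D.s₀ D.s₁) : G' (s, zq q s) ∈ D.U := by
  rw [hD.U]
  rintro ⟨p, hp, hpe⟩
  have hs' : s ∈ Icc D.s₀ D.s₁ := ⟨hs.1.le, hs.2.le⟩
  have h1 : G p = G' p := (hn.eventuallyEq (wall_sub' hδ hp)).self_of_nhds
  rw [h1] at hpe
  have h2 := hG'.2 (wall_sub hδ hp) (hat_zq hδ hD hG hG' hn q hs') hpe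
  have h3 := rsq1_zq_ge q s
  rw [← h2] at h3
  linarith [hp.2.2.2, hD.b s hs]

theorem hat_fam {V : Set R4} (hV0 : ((D.s₀, 0) : R4) ∈ V) (hV1 : ((D.s₁, 0) : R4) ∈ V)
    (hV : ∀ p ∈ V, ∀ q, Jq G' q p = D.J p) : Fam2 Q2 D.L V D.U (fun a => Jq G' a.2) := by
  refine ⟨?_, fun a _ => hat_emb hδ hD hG hG' hn a.2, ?_, ?_⟩
  · rintro a ha ⟨s, y⟩ ⟨h1, h2, h3⟩
    have h3' : y = 0 := h3
    subst h3'
    have hm : ContDiff ℝ ∞ (fun z : (ℝ × ℝ) × R4 => ((z.2.1, zq z.1.2 z.2.1 + z.2.2) : R4)) := by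
      have e1 : ContDiff ℝ ∞ (fun z : (ℝ × ℝ) × R4 => z.2.1) := contDiff_fst.comp contDiff_snd
      have e2 : ContDiff ℝ ∞ (fun z : (ℝ × ℝ) × R4 => z.1.2) := contDiff_snd.comp contDiff_fst
      have e3 : ContDiff ℝ ∞ (fun z : (ℝ × ℝ) × R4 => zq z.1.2 z.2.1) := contDiff_zq' e2 e1
      exact e1.prodMk (e3.add (contDiff_snd.comp contDiff_snd))
    have h4 : ∀ᶠ x in 𝓝 ((s, zq a.2 s + 0) : R4), ContDiffAt ℝ ∞ G' x := by
      rw [add_zero]
      exact (ld_iff.1 (hG'.1 _ (hat_zq hδ hD hG hG' hn a.2 ⟨h1, h2⟩))).1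
    have h5 : ContinuousAt (fun z : (ℝ × ℝ) × R4 => ((z.2.1, zq z.1.2 z.2.1 + z.2.2) : R4))
        (a, ((s, 0) : R4)) := hm.continuous.continuousAt
    filter_upwards [h5.eventually h4] with z hz
    exact hz.comp z hm.contDiffAt
  · intro a _ b _ p hp
    show Jq G' a.2 p = Jq G' b.2 p
    rw [hV p hp, hV p hp]
  · rintro a _ ⟨s, y⟩ ⟨h1, h2, h3⟩ hp
    have h3' : y = 0 := h3
    subst h3'
    show G' (s, zq a.2 s + 0) ∈ D.U
    rw [add_zero]
    apply hat_inU hδ hD hG hG' hn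
    refine ⟨lt_of_le_of_ne h1 ?_, lt_of_le_of_ne h2 ?_⟩
    · intro h
      apply hp
      have h' : D.s₀ = s := h
      rw [← h']; exact hV0
    · intro h
      apply hp
      have h' : s = D.s₁ := h
      rw [h']; exact hV1

theorem hat_near {q : ℝ} (hq : ∀ s, zq q s = z0 s) : NearEq (Jq G' q) D.J D.L := by
  obtain ⟨N, hN, hN1, hN2⟩ := hn
  refine ⟨shr z0 ⁻¹' N, hN.preimage (contDiff_shr contDiff_z0).continuous, ?_, ?_⟩
  · rintro ⟨s, y⟩ ⟨h1, h2, h3⟩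
    have h3' : y = 0 := h3
    subst h3'
    apply hN1
    show (s, z0 s + 0) ∈ _
    rw [add_zero]
    exact hat_z0 hδ hD hG hG' ⟨N, hN, hN1, hN2⟩ ⟨h1, h2⟩
  · rintro ⟨s, y⟩ h
    rw [hD.J]
    show G' (s, zq q s + y) = G (s, z0 s + y)
    rw [hq]
    exact (hN2 h).symm

theorem hat_inj (q : ℝ) : InjOn (loopc D G' q) (Icc D.s₀ D.s₁) := by
  intro s hs t ht h
  rw [← hat_cores hδ hD hG hG' hn q hs, ← hat_cores hδ hD hG hG' hn q ht] at h
  have hs' : ((s, 0) : R4) ∈ D.L := ⟨hs.1, hs.2, rfl⟩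
  have ht' : ((t, 0) : R4) ∈ D.L := ⟨ht.1, ht.2, rfl⟩
  have := (hat_emb hδ hD hG hG' hn q).2 hs' ht' h
  exact congrArg Prod.fst this

theorem hat_diff (q : ℝ) {s : ℝ} (hs : s ∈ Icc D.s₀ D.s₁) :
    DifferentiableAt ℝ (loopc D G' q) s := by
  by_cases h : s ∈ Ioo (3 / 10 : ℝ) (7 / 10)
  · have h1 : loopc D G' q =ᶠ[𝓝 s] fun s => Jq G' q (s, 0) := by
      filter_upwards [Ioo_mem_nhds h.1 h.2] with t ht
      show loopc D G' q t = G' (t, zq q t + 0)
      rw [add_zero]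
      unfold loopc
      rw [if_pos ⟨ht.1.le, ht.2.le⟩]
    refine DifferentiableAt.congr_of_eventuallyEq ?_ h1
    have h2 : ((s, 0) : R4) ∈ D.L := ⟨hs.1, hs.2, rfl⟩
    have h3 := (ld_iff.1 ((hat_emb hδ hD hG hG' hn q).1 _ h2)).1.self_of_nhds.differentiableAt
      (by simp)
    have h4 : DifferentiableAt ℝ (fun s : ℝ => ((s, 0) : R4)) s :=
      differentiableAt_id.prodMk (differentiableAt_const _)
    have h5 : DifferentiableAt ℝ ((Jq G' q) ∘ fun s : ℝ => ((s, 0) : R4)) s := h3.comp s h4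
    exact h5
  · have h2 : s < 9 / 20 ∨ 11 / 20 < s := by
      by_contra h3
      push Not at h3
      exact h ⟨by linarith [h3.1], by linarith [h3.2]⟩
    have h4 : loopc D G' q =ᶠ[𝓝 s] D.c := by
      have h5 : ∀ᶠ t in 𝓝 s, (t < 9 / 20 ∨ 11 / 20 < t) := by
        rcases h2 with h | h
        · filter_upwards [Iio_mem_nhds h] with t ht using Or.inl ht
        · filter_upwards [Ioi_mem_nhds h] with t ht using Or.inr ht
      filter_upwards [h5] with t ht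
      unfold loopc
      split_ifs with h6
      · have h7 : t ∈ Icc D.s₀ D.s₁ := ⟨by linarith [h6.1, hD.s₀.2], by linarith [h6.2, hD.s₁.1]⟩
        have h8 := hat_cores hδ hD hG hG' hn q h7
        have h9 : t ≤ 9 / 20 ∨ 11 / 20 ≤ t := by
          rcases ht with h | h
          · exact Or.inl h.le
          · exact Or.inr h.le
        rw [zq_out q h9, ← D.core t h7, hD.J]
        show G' (t, z0 t) = G (t, z0 t + 0)
        rw [add_zero]
        exact ((hn.eventuallyEq (hat_z0 hδ hD hG hG' hn h7)).self_of_nhds).symm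
      · rfl
    exact DifferentiableAt.congr_of_eventuallyEq (D.smooth.differentiable (by simp) s) h4

theorem hat_deriv (q : ℝ) {s : ℝ} (hs : s ∈ Icc D.s₀ D.s₁) : deriv (loopc D G' q) s ≠ 0 := by
  intro h0
  have h2 : ((s, 0) : R4) ∈ D.L := ⟨hs.1, hs.2, rfl⟩
  have h3 := ld_iff.1 ((hat_emb hδ hD hG hG' hn q).1 _ h2)
  have h4 := (h3.1.self_of_nhds.differentiableAt (by simp)).hasFDerivAt
  have h5 : HasDerivAt (fun s : ℝ => ((s, 0) : R4)) ((1, 0) : R4) s :=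
    (hasDerivAt_id s).prodMk (hasDerivAt_const s _)
  have h6 : HasDerivAt ((Jq G' q) ∘ fun s : ℝ => ((s, 0) : R4))
      (fderiv ℝ (Jq G' q) (s, 0) (1, 0)) s := h4.comp_hasDerivAt s h5
  have h7 : HasDerivWithinAt (loopc D G' q) (fderiv ℝ (Jq G' q) (s, 0) (1, 0)) (Icc D.s₀ D.s₁) s :=
    h6.hasDerivWithinAt.congr (fun t ht => (hat_cores hδ hD hG hG' hn q ht).symm)
      (hat_cores hδ hD hG hG' hn q hs).symm
  have h8 := (hat_diff hδ hD hG hG' hn q hs).hasDerivAt.hasDerivWithinAt (s := Icc D.s₀ D.s₁)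
  rw [h0] at h8
  have hu : UniqueDiffWithinAt ℝ (Icc D.s₀ D.s₁) s :=
    uniqueDiffOn_Icc (by linarith [hD.s₀.2, hD.s₁.1]) s hs
  have h9 := hu.eq_deriv _ h7 h8
  have h10 : ((1, 0) : R4) = 0 := h3.2 (by rw [h9, map_zero])
  exact one_ne_zero (congrArg Prod.fst h10)

end hcls

/-- the point of the target of the retraction -/
theorem hat_e {T T' G G' : R4 → R4} {D : ArcD} (hδ : δ ∈ Ioo (0 : ℝ) (1 / 100))
    (hD : HatOk δ T' G D) (hT : FingOk T T') (hG : EmbOn I4 G (K3 δ)) (hG' : EmbOn I4 G' (K3 δ))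
    (hn : NearEq G G' {p | p ∈ K3 δ ∧ rsq 1 p ≤ 1 / 9}) {p : R4} (hp : p ∈ SL') :
    D.e (G' p) = G' (e0 δ T' p) := by
  have hK := SL_sub hδ hp.1
  have heq : ∀ x ∈ {p : R4 | p ∈ K3 δ ∧ rsq 1 p ≤ 1 / 9}, G x = G' x := fun x hx =>
    (hn.eventuallyEq hx).self_of_nhds
  rw [hD.e]
  rcases le_or_gt (rsq 1 p) (1 / 9) with h | h
  · have hpD : p ∈ Dreg δ :=
      ⟨by linarith [hp.1.1], by linarith [hp.1.2.1], by linarith [hδ.1, hK.2], h⟩
    rw [← heq p ⟨hK.1, h⟩, imp_image (hG.2.mono fun x hx => (Dreg_sub hδ hx).1) hpD,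
      heq _ (e0_near hT hδ hp h)]
  · rw [e0_far hT hδ h.le, imp_off]
    rintro ⟨x, hx, hxe⟩
    have hx' := Dreg_sub hδ hx
    rw [heq x hx'] at hxe
    have := hG'.2 hx'.1 hK.1 hxe
    rw [this] at hx'
    linarith [hx'.2]

/-- **HCLS.** -/
theorem m_HCLS : StHCLS := by
  intro T T' G G' φ F δ D hT hF hiso hδ hG hD hG' hn hφ
  refine ⟨?_, fun q _ => ⟨hat_inj hδ hD hG hG' hn q, fun s hs => hat_deriv hδ hD hG hG' hn q hs⟩⟩
  obtain ⟨V, hV, hV0, hV1, hVJ⟩ := hat_V hδ hD hG hG' hn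
  refine ⟨Jq G', fun q _ s hs => hat_cores hδ hD hG hG' hn q hs, V, hV, hV0, hV1,
    hat_fam hδ hD hG hG' hn hV0 hV1 hVJ, fun p hp => hVJ p hp 0,
    hat_near hδ hD hG hG' hn zq_zero, hat_near hδ hD hG hG' hn zq_one, ?_⟩
  -- the partial diffeomorphism
  obtain ⟨ε, hε1, hε2⟩ := m_A1 R4 R4 R4 I4 R4 G' (K3 δ) (isCompact_K3 δ) hG'.1 hG'.2
  have hSLs : SL ⊆ ε.source := fun p hp => hε1 (SL_sub hδ hp).1
  have him : ∀ K ⊆ ε.source, ε '' K = G' '' K := fun K hK => image_congr fun p hp => hε2 p (hK hp)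
  have hinj : InjOn G' ε.source := by
    intro p hp p' hp' h
    rw [← hε2 p hp, ← hε2 p' hp'] at h
    exact ε.toPartialEquiv.injOn hp hp' h
  have hcont : ContinuousOn G' ε.source := by
    have h1 : ContinuousOn ε ε.source := ε.contMDiffOn_toFun.continuousOn
    exact h1.congr fun p hp => (hε2 p hp).symm
  have heq : ∀ x ∈ {p : R4 | p ∈ K3 δ ∧ rsq 1 p ≤ 1 / 9}, G x = G' x := fun x hx =>
    (hn.eventuallyEq hx).self_of_nhds
  set Ψ : DFam 𝓘(ℝ, R4) R4 := F.push ε isCompact_SL hSLs (fun t x hx => hF.supp t x hx) with hΨ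
  have hΨ1 : ∀ t, ∀ p ∈ ε.source, Ψ.f (t, G' p) = ε (F.f (t, p)) := by
    intro t p hp
    show push ε (fun x => F.f (t, x)) (G' p) = _
    rw [← hε2 p hp, push_of_mem ε _ hp]
  have hmaps : ∀ t, ∀ p ∈ ε.source, F.f (t, p) ∈ ε.source := by
    intro t p hp
    by_cases h : p ∈ SL
    · exact hSLs (F.mapsTo (fun t x hx => hF.supp t x hx) t h)
    · rw [hF.supp t p h]; exact hp
  have hΨ1' : ∀ t, ∀ p ∈ ε.source, Ψ.f (t, G' p) = G' (F.f (t, p)) := fun t p hp => by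
    rw [hΨ1 t p hp, hε2 _ (hmaps t p hp)]
  have hΨ2 : ∀ t y, y ∉ G' '' SL → Ψ.f (t, y) = y := by
    intro t y hy
    show push ε (fun x => F.f (t, x)) y = y
    apply push_of_notMem ε _ hSLs (fun x hx => hF.supp t x hx)
    rwa [him SL hSLs]
  have hSLU : G' '' SL ⊆ D.U := by
    rintro _ ⟨p, hp, rfl⟩
    rw [hD.U]
    rintro ⟨x, hx, hxe⟩
    have hp' := SL_sub hδ hp
    rw [heq x (wall_sub' hδ hx)] at hxe
    have h1 := hG'.2 (wall_sub hδ hx) hp'.1 hxe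
    rw [← h1] at hp'
    have h2 := hx.2.2.2
    linarith [hδ.1, hp'.2]
  have hSLc : IsCompact (G' '' SL) := isCompact_SL.image_of_continuousOn (hcont.mono hSLs)
  refine ⟨fun y => Ψ.f (1, y), ⟨Ψ, ?_, fun _ => rfl, ⟨G' '' SL, hSLc, hSLU, hΨ2⟩, ?_⟩, ?_⟩
  · intro y
    by_cases hy : y ∈ G' '' SL
    · obtain ⟨p, hp, rfl⟩ := hy
      rw [hΨ1' 0 p (hSLs hp), hF.zero]
    · exact hΨ2 0 y hy
  · refine ⟨{p : R4 | nsq p.2 < (1 / 100) ^ 2 ∧ shr z0 p ∈ ε.source}, ?_, ?_, ?_⟩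
    · apply IsOpen.inter
      · exact isOpen_lt (continuous_nsq.comp continuous_snd) continuous_const
      · exact ε.open_source.preimage (contDiff_shr contDiff_z0).continuous
    · rintro ⟨s, y⟩ ⟨h1, h2, h3⟩
      have h3' : y = 0 := h3
      subst h3'
      refine ⟨?_, hε1 ?_⟩
      · show nsq 0 < _
        norm_num [nsq]
      · show (s, z0 s + 0) ∈ _
        rw [add_zero]
        exact (hat_z0 hδ hD hG hG' hn ⟨h1, h2⟩).1
    · rintro t _ ⟨s, y⟩ ⟨h1, h2⟩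
      show Ψ.f (t, G' (s, zq 0 s + y)) = G' (s, zq (step t) s + y)
      rw [zq_zero]
      have h2' : ((s, z0 s + y) : R4) ∈ ε.source := h2
      rw [hΨ1' t _ h2', hF.tube t s y (le_of_lt h1)]
  -- the class
  have hSL's : SL' ⊆ ε.source := fun p hp => hSLs hp.1
  have hKsub : G' '' SL' ⊆ D.U \ D.A := by
    rintro y hy
    refine ⟨hSLU ((image_mono sdiff_subset) hy), ?_⟩
    obtain ⟨p, hp, rfl⟩ := hy
    rintro ⟨⟨s, x⟩, ⟨h1, h2, h3⟩, h4⟩
    have h3' : x = 0 := h3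
    subst h3'
    rw [hD.J] at h4
    have h5 : G (s, z0 s + 0) = G' p := h4
    rw [add_zero] at h5
    have h6 := hat_z0 hδ hD hG hG' hn (s := s) ⟨h1, h2⟩
    rw [heq _ h6] at h5
    have h7 := hG'.2 h6.1 (SL_sub hδ hp.1).1 h5
    apply hp.2
    rw [← h7]
    show nsq (z0 s - z0 s) < _
    rw [sub_self]
    norm_num [nsq]
  refine ⟨G' '' SL', isCompact_SL'.image_of_continuousOn (hcont.mono hSL's), hKsub, ?_, ?_⟩
  · intro y hy
    by_cases hy' : y ∈ G' '' SL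
    · obtain ⟨p, hp, rfl⟩ := hy'
      have hp' : p ∉ SL' := fun h => hy ⟨p, h, rfl⟩
      show Ψ.f (1, G' p) = G' p
      rw [hΨ1' 1 p (hSLs hp), lam_one_off hF hp']
    · exact hΨ2 1 y hy'
  -- the chain of isotopies
  have hrK : ∀ p ∈ KB, rade δ 1 p ∈ K3 δ := fun p hp => rade_K3 hδ hp
  have hre : EmbOn I4 (rade δ 1) KB :=
    BI.EmbOn.mono (rade_emb hδ) (fun p hp => by
      have h : (1 / 100 : ℝ) ^ 2 ≤ rsq 1 p := hp.2.2
      show 0 < rsq 1 p
      linarith)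
  have hGr : EmbOn I4 (G' ∘ rade δ 1) KB := embOn_comp hG' hre hrK
  have s1 : imp G' bsupp barMap = imp (G' ∘ rade δ 1) KB barMap := by
    rw [imp_mono hGr.2 bsupp_KB (fun p hp => barMap_off hp)]
    apply imp_congr (hG'.2.mono fun p hp => ?_) (fun p hp => ?_) (barMap_mapsTo (subset_refl _))
    · have h1 := bsupp_KB hp
      exact ⟨h1.1, h1.2.1, by linarith [hδ.1, hp.2.2]⟩
    · show G' p = G' (rade δ 1 p)
      rw [rade_self hδ]
      have : (1 / 5 : ℝ) ^ 2 ≤ rsq 1 p := hp.2.2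
      linarith [hδ.1]
  have s2 : CIsot I4 (imp (G' ∘ rade δ 1) KB barMap)
      (imp (G' ∘ rade δ 1) KB (fun p => T' (F.f (1, T p)))) := by
    apply tiso_cisot hiso isCompact_KB _ hGr
    intro p hp
    by_contra h
    push Not at h
    obtain ⟨h1, h2, h3⟩ := h
    apply hp
    refine ⟨h1, ?_, ?_⟩
    · by_contra h4
      push Not at h4
      exact h2 h4.le
    · by_contra h4
      push Not at h4
      apply h3
      show nsq (p.2 - (1, 0)) < _
      rw [nsq_sub_one]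
      exact h4
  have hT'inj : Function.Injective T' := fun x y h => by
    rw [← hT.right x, ← hT.right y, h]
  have hinj2 : InjOn (fun p => G' (e0 δ T' p)) SL' := by
    intro p hp p' hp' h
    have h1 := fing_KB hT hp
    have h2 := fing_KB hT hp'
    exact hT'inj (hGr.2 h1 h2 h)
  have s3 : imp (G' ∘ rade δ 1) KB (fun p => T' (F.f (1, T p))) =
      imp (fun p => G' (e0 δ T' p)) SL' (fun p => F.f (1, p)) := by
    apply imp_eq_of hGr.2 hinj2
    · intro p hp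
      refine ⟨T' p, fing_KB hT hp, rfl, ?_⟩
      show G' (rade δ 1 (T' (F.f (1, T (T' p))))) = G' (rade δ 1 (T' (F.f (1, p))))
      rw [hT.right]
    · intro q hq
      by_cases h : T q ∈ SL'
      · left
        refine ⟨T q, h, ?_⟩
        show G' (rade δ 1 (T' (T q))) = G' (rade δ 1 q)
        rw [hT.left]
      · right
        show G' (rade δ 1 (T' (F.f (1, T q)))) = G' (rade δ 1 q)
        rw [lam_one_off hF h, hT.left]
  have s4 : imp (fun p => G' (e0 δ T' p)) SL' (fun p => F.f (1, p)) =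
      imp D.e (G' '' SL') (fun y => Ψ.f (1, y)) := by
    symm
    apply imp_eq_of (D.embe.2.mono hKsub) hinj2
    · intro p hp
      refine ⟨G' p, ⟨p, hp, rfl⟩, hat_e hδ hD hT hG hG' hn hp, ?_⟩
      show D.e (Ψ.f (1, G' p)) = G' (e0 δ T' (F.f (1, p)))
      rw [hΨ1' 1 p (hSL's hp), hat_e hδ hD hT hG hG' hn (lam_one_maps hF hp)]
    · rintro _ ⟨p, hp, rfl⟩
      left
      exact ⟨p, hp, (hat_e hδ hD hT hG hG' hn hp).symm⟩
  rw [← s4, ← s3]
  rw [s1] at hφ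
  exact BI.CIsot.trans' hφ s2

end

end Pool.Agent.Helper27.H
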