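import Pool.Agent.Helper89.BI7.M_GHA

/-!
# Project BI, stage 7 (H), module CYC: the third homology group of an infinite cyclic group vanishes
-/

set_option autoImplicit false

open CategoryTheory

namespace Pool.Agent.Helper70.HH

/-- MODULE CYC.  The third homology group of an infinite cyclic group is zero. -/
def StCYC : Prop :=
  ∀ (G : Type) [Group G], Nonempty (G ≃* Multiplicative ℤ) → Subsingleton (H3 G)

namespace CYC

open GHAaux

theorem exists_sum {V : Type} [AddCommGroup V] (a : ℤ → V) :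
    ∃ S : ℤ → V, S 0 = 0 ∧ ∀ n, S (n + 1) = S n + a n := by
  refine ⟨fun n => (∑ i ∈ Finset.range n.toNat, a i) -
    ∑ i ∈ Finset.range (-n).toNat, a (-((i : ℤ) + 1)), by simp, fun n => ?_⟩
  rcases le_or_gt 0 n with h | h
  · obtain ⟨k, rfl⟩ := Int.eq_ofNat_of_zero_le h
    have h1 : ((k : ℤ) + 1).toNat = k + 1 := by omega
    have h2 : (-((k : ℤ) + 1)).toNat = 0 := by omega
    have h3 : (-(k : ℤ)).toNat = 0 := by omega
    have h4 : ((k : ℤ)).toNat = k := by omega
    simp only [h1, h2, h3, h4, Finset.sum_range_succ, Finset.range_zero, Finset.sum_empty,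
      sub_zero]
  · obtain ⟨k, hk⟩ := Int.eq_ofNat_of_zero_le (show 0 ≤ -n - 1 by omega)
    obtain rfl : n = -((k : ℤ) + 1) := by omega
    have h1 : (-((k : ℤ) + 1) + 1).toNat = 0 := by omega
    have h2 : (-(-((k : ℤ) + 1) + 1)).toNat = k := by omega
    have h3 : (- -((k : ℤ) + 1)).toNat = k + 1 := by omega
    have h4 : (-((k : ℤ) + 1)).toNat = 0 := by omega
    simp only [h1, h2, h3, h4, Finset.sum_range_succ, Finset.range_zero, Finset.sum_empty,
      zero_sub]
    abel

theorem int_ind {V : Type} [AddCommGroup V] (f g : ℤ → V) (h0 : f 0 = g 0)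
    (h : ∀ n, f (n + 1) - f n = g (n + 1) - g n) : ∀ n, f n = g n := by
  intro n
  induction n using Int.induction_on with
  | zero => exact h0
  | succ i ih =>
    have := h i
    rw [ih] at this
    exact sub_left_injective this
  | pred i ih =>
    have := h (-(i : ℤ) - 1)
    rw [sub_add_cancel, ih] at this
    exact sub_right_injective this

/-- the sums -/
noncomputable def SS {V : Type} [AddCommGroup V] (a : ℤ → V) : ℤ → V := (exists_sum a).choose

theorem SS_zero {V : Type} [AddCommGroup V] (a : ℤ → V) : SS a 0 = 0 := (exists_sum a).choose_spec.1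

theorem SS_succ {V : Type} [AddCommGroup V] (a : ℤ → V) (n : ℤ) : SS a (n + 1) = SS a n + a n :=
  (exists_sum a).choose_spec.2 n

section

variable {G : Type} [Group G] (t : ℤ → G) (ν : G → ℤ)

/-- the contraction on the 2-chains -/
noncomputable def s2 : ((Fin 2 → G) →₀ ℤ) →ₗ[ℤ] ((Fin 3 → G) →₀ ℤ) :=
  Finsupp.linearCombination ℤ (fun x => Finsupp.single ![1, 1, x 1] (1 : ℤ) -
    SS (fun i => Finsupp.single ![t 1, t i, x 1] (1 : ℤ)) (ν (x 0)))

/-- the contraction on the 3-chains -/
noncomputable def s3 : ((Fin 3 → G) →₀ ℤ) →ₗ[ℤ] ((Fin 4 → G) →₀ ℤ) :=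
  Finsupp.linearCombination ℤ (fun x => Finsupp.single ![1, 1, x 1, x 2] (1 : ℤ) -
    SS (fun i => Finsupp.single ![t 1, t i, x 1, x 2] (1 : ℤ)) (ν (x 0)))

theorem s2_single (g h : G) : s2 t ν (Finsupp.single ![g, h] (1 : ℤ)) =
    Finsupp.single ![1, 1, h] (1 : ℤ) -
      SS (fun i => Finsupp.single ![t 1, t i, h] (1 : ℤ)) (ν g) := by
  simp [s2, Finsupp.linearCombination_single]

theorem s3_single (g h k : G) : s3 t ν (Finsupp.single ![g, h, k] (1 : ℤ)) =
    Finsupp.single ![1, 1, h, k] (1 : ℤ) -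
      SS (fun i => Finsupp.single ![t 1, t i, h, k] (1 : ℤ)) (ν g) := by
  simp [s3, Finsupp.linearCombination_single]

/-- the two differentials as linear maps -/
noncomputable def D2 (G : Type) [Group G] : ((Fin 3 → G) →₀ ℤ) →ₗ[ℤ] ((Fin 2 → G) →₀ ℤ) :=
  (groupHomology.inhomogeneousChains.d (Rep.trivial ℤ G ℤ) 2).hom

/-- the two differentials as linear maps -/
noncomputable def D3 (G : Type) [Group G] : ((Fin 4 → G) →₀ ℤ) →ₗ[ℤ] ((Fin 3 → G) →₀ ℤ) :=
  (groupHomology.inhomogeneousChains.d (Rep.trivial ℤ G ℤ) 3).hom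

theorem D2_single (g h k : G) : D2 G (Finsupp.single ![g, h, k] (1 : ℤ)) =
    Finsupp.single ![h, k] (1 : ℤ) - Finsupp.single ![g * h, k] 1
        + Finsupp.single ![g, h * k] 1 - Finsupp.single ![g, h] 1 := d2_single g h k

theorem D3_single (g h k l : G) : D3 G (Finsupp.single ![g, h, k, l] (1 : ℤ)) =
    Finsupp.single ![h, k, l] (1 : ℤ) - Finsupp.single ![g * h, k, l] 1
        + Finsupp.single ![g, h * k, l] 1 - Finsupp.single ![g, h, k * l] 1
        + Finsupp.single ![g, h, k] 1 := d3_single g h k l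

theorem key (ht : ∀ m n, t (m + n) = t m * t n) (ht0 : t 0 = 1) (hν : ∀ n, ν (t n) = n)
    (n p : ℤ) (k : G) :
    Finsupp.single ![t n, t p, k] (1 : ℤ) =
      D3 G (s3 t ν (Finsupp.single ![t n, t p, k] (1 : ℤ))) +
        s2 t ν (D2 G (Finsupp.single ![t n, t p, k] (1 : ℤ))) := by
  revert n
  have hν1 : ν 1 = 0 := by rw [← ht0, hν]
  refine int_ind _ _ ?_ ?_
  · simp only [s3_single, D2_single, D3_single, map_add, map_sub, s2_single, hν, ht0, SS_zero,
      one_mul, map_zero, hν1]
    abel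
  · intro n
    have e0 : t (n + 1) = t n * t 1 := ht _ _
    have ec : t 1 * t n = t n * t 1 := by rw [← ht, ← ht, add_comm]
    have e1 : ν (t n * t 1) = n + 1 := by rw [← ht, hν]
    have e2 : ν (t n * t 1 * t p) = n + p + 1 := by rw [← ht, ← ht, hν]; ring
    have e3 : ν (t n * t p) = n + p := by rw [← ht, hν]
    have e5 : t (n + p) = t n * t p := ht _ _
    simp only [s3_single, D2_single, map_add, map_sub, s2_single, e0, e1, e2, e3, hν, SS_succ,
      D3_single, ec, e5]
    abel

end

end CYC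

open CYC GHAaux in
theorem m_CYC : StCYC := by
  rintro G _ ⟨e⟩
  set t : ℤ → G := fun n => e.symm (Multiplicative.ofAdd n) with ht_def
  set ν : G → ℤ := fun g => Multiplicative.toAdd (e g) with hν_def
  have ht : ∀ m n, t (m + n) = t m * t n := fun m n => by simp [ht_def, ofAdd_add]
  have ht0 : t 0 = 1 := by simp [ht_def]
  have hν : ∀ n, ν (t n) = n := fun n => by simp [ht_def, hν_def]
  have htν : ∀ g, t (ν g) = g := fun g => by simp [ht_def, hν_def]
  have hid : ∀ f : (Fin 3 → G) →₀ ℤ, f = D3 G (s3 t ν f) + s2 t ν (D2 G f) := by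
    have : (LinearMap.id : ((Fin 3 → G) →₀ ℤ) →ₗ[ℤ] _) =
        (D3 G).comp (s3 t ν) + (s2 t ν).comp (D2 G) := by
      refine Finsupp.lhom_ext' fun x => LinearMap.ext_ring ?_
      obtain ⟨g, h, k, rfl⟩ : ∃ g h k : G, x = ![g, h, k] :=
        ⟨x 0, x 1, x 2, by ext i; fin_cases i <;> rfl⟩
      have := key t ν ht ht0 hν (ν g) (ν h) k
      rw [htν, htν] at this
      exact this
    intro f
    exact DFunLike.congr_fun this f
  refine ⟨fun x y => ?_⟩
  suffices h : ∀ z : H3 G, z = 0 by rw [h x, h y]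
  intro z
  induction z using groupHomology_induction_on with
  | h c =>
    have h1 : D2 G (groupHomology.iCycles (Rep.trivial ℤ G ℤ) 3 c) = 0 := by
      have h2 := ConcreteCategory.congr_hom
        ((groupHomology.inhomogeneousChains (Rep.trivial ℤ G ℤ)).iCycles_d 3 2) c
      rw [groupHomology.inhomogeneousChains.d_def] at h2
      exact h2
    have h3 := hid (groupHomology.iCycles (Rep.trivial ℤ G ℤ) 3 c)
    rw [h1, map_zero, add_zero] at h3
    set w := s3 t ν (groupHomology.iCycles (Rep.trivial ℤ G ℤ) 3 c) with hw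
    have h4 : c = groupHomology.toCycles (Rep.trivial ℤ G ℤ) 4 3 w := by
      have hmono : Function.Injective (groupHomology.iCycles (Rep.trivial ℤ G ℤ) 3) :=
        (ModuleCat.mono_iff_injective _).1 inferInstance
      apply hmono
      have h5 := ConcreteCategory.congr_hom
        ((groupHomology.inhomogeneousChains (Rep.trivial ℤ G ℤ)).toCycles_i 4 3) w
      rw [groupHomology.inhomogeneousChains.d_def] at h5
      exact h3.trans h5.symm
    rw [h4]
    have h6 := ConcreteCategory.congr_hom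
      ((groupHomology.inhomogeneousChains (Rep.trivial ℤ G ℤ)).toCycles_comp_homologyπ 4 3) w
    exact h6

end Pool.Agent.Helper70.HH
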