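import Pool.Agent.Helper27.BI.H.StH1

/-!
# Project BI, stage 3 (H), part 6: the cusp family (modules CUM, CUT)
-/

set_option autoImplicit false

open scoped Manifold ContDiff Topology ComplexConjugate
open Set Filter Pool.Agent.Helper65.Barb Pool.Agent.Helper18.BI
open Pool.Agent.Helper70.BI (I4)

namespace Pool.Agent.Helper27.H

/-- MODULE CUM (the cusp family in the model): a two-parameter family of curves in four-space, parametrized by a line, equal to the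
straight line `σ ↦ (σ, 0)` near infinity and for parameters off the unit square, immersed, with exactly one double point,
which is transverse.

Construction.  All with `step` (`0` for `≤ 0`, `1` for `≥ 1`, values in `[0,1]`, nondecreasing).  With
`r = (u - 1/2)^2 + (q - 1/2)^2` put `κ = step (1 - 25 r)`, `κ₂ = step (3 - 50 r)`, `λ = step (5 - 50 r)`.  So `κ > 0` only if `r < 1/25`, `κ₂ = 1` for
`r ≤ 1/25`, `κ₂ > 0` only if `r < 3/50`, `λ = 1` for `r ≤ 4/50`, `λ = 0` for `r ≥ 1/10` (in particular if `u ≤ 0`, `u ≥ 1`, `q ≤ 0` or `q ≥ 1`).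
`T σ = step ((16 σ^2 - 1)/15)` (`0` for `|σ| ≤ 1/4`, `1` for `|σ| ≥ 1`), `χ σ = step (2 - 16 σ^2)` (`1` for `|σ| ≤ 1/4`, `0` for `|σ| ≥ 1/2`),
`p σ = σ^3 + T σ (σ - σ^3)`.  Then `p σ = σ^3` for `|σ| ≤ 1/4`, `p σ = σ` for `|σ| ≥ 1`, and
`p' = 3 σ^2 (1 - T) + T + T' (σ - σ^3) ≥ min (3 σ^2) 1` (as `T' (σ - σ^3) ≥ 0`: `T' = step' · 32 σ / 15`, `step' ≥ 0`, `σ (σ - σ^3) = σ^2 (1 - σ^2) ≥ 0` for
`|σ| ≤ 1`, and `T' = 0` for `|σ| > 1`); so `p' ≥ 3/16` for `|σ| ≥ 1/4`.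
Let `C ≥ 1` be a bound for `|(χ σ · σ)'|` (compact support, continuity) and `a₀ = σ₀^2 / 3` with `σ₀ > 0`, `σ₀ ≤ 1/20`, `σ₀^2 C ≤ 1/16`.
Put `a = a₀ (2 κ - 1) ∈ [-a₀, a₀]`, `b = κ₂ (u - 1/2)`, `d = κ₂ (q - 1/2)`, and
`x (u, q, σ) = ((1 - λ) σ + λ (p σ - 3 a χ σ · σ), (λ χ σ · σ^2, ⟨b χ σ · σ, d χ σ · σ⟩))` (`⟨b.., d..⟩ = b.. + d.. * I` is a complex number).

(i) `|σ| ≥ 1` or `r ≥ 1/10`: `x = (σ, 0)` (`κ₂ = 0` there).  (ii) the bound `‖x‖ ≤ 3` for `|σ| ≤ 1` (sup norm of the product; `|p σ| ≤ 1`, `3 a₀ ≤ 1`).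
(iii) Immersed.  If `λ < 1` then `r > 4/50`, so `κ = κ₂ = 0`, `a = -a₀`, `b = d = 0` and the first coordinate has derivative
`(1 - λ) + λ (p' + 3 a₀ (χ σ · σ)') > 0`: for `|σ| ≤ 1/4` it is `(1-λ) + λ (3 σ^2 + 3 a₀)`, for `|σ| ≥ 1/4`: `p' + 3 a₀ (..)' ≥ 3/16 - σ₀^2 C > 0`.
If `λ = 1`: for `|σ| ≥ 1/4` the first coordinate has derivative `p' - 3 a (χ σ · σ)' ≥ 3/16 - σ₀^2 C > 0`.  For `|σ| < 1/4` the derivative is
`(3 σ^2 - 3 a, (2 σ, ⟨b, d⟩))`; if it vanishes, `σ = 0`, `a = 0`, so `κ = 1/2`, `r < 1/25`, `κ₂ = 1`, and `b = d = 0` gives `r = 0`, `κ = step 1 = 1`, contradiction.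
(iv) Double points, `x (u,q,σ) = x (u,q,τ)`, `σ < τ`.  If `λ < 1` the first coordinate is strictly increasing.  So `λ = 1`, the first coordinate
is `f σ = p σ - 3 a χ σ · σ`, odd, strictly increasing on `[1/4, ∞)`, and for `|σ| ≤ 1/4` it is `σ^3 - 3 a σ`, with `|σ^3 - 3 a σ| < f (1/4)` for
`|σ| < 1/4`: `f (1/4) ∓ (σ^3 - 3 a σ) = (1/4 ∓ σ)((1/4)^2 ± σ/4 + σ^2 - 3 a) > 0` since `(1/4)^2 ± σ/4 + σ^2 ≥ 3/64 > 3 a₀` (`σ₀^2 ≤ 1/400`).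
Hence `f σ = f τ`, `σ < τ` forces `|σ|, |τ| < 1/4` (or `= 1/4`, similar).  Then `σ^2 = τ^2` gives `τ = -σ ≠ 0`, the last coordinates give `b = d = 0`,
and `σ^3 - 3 a σ = 0` gives `σ^2 = 3 a`, so `a > 0`, `κ > 1/2`, `κ₂ = 1`, `u = q = 1/2`, `κ = 1`, `a = a₀`, `σ^2 = σ₀^2`.
(v) `σ₀^3 - 3 a₀ σ₀ = 0`.
(vi) At `u = q = 1/2` the derivatives of `κ`, `κ₂`, `λ` with respect to `u`, `q` vanish (functions of `r`, whose derivative is `0` there; `κ₂` and `λ` are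
constant near this point).  So the derivative of `x` at `(1/2, 1/2, ±σ₀)` in the direction `(ζ, η, σ)` is
`((3 σ₀^2 - 3 a₀) σ, (± 2 σ₀ σ, ⟨± σ₀ ζ, ± σ₀ η⟩))`.  Equality for `-σ₀`, `σ` and `σ₀`, `τ`: `-σ₀ ζ = σ₀ ζ`, `-σ₀ η = σ₀ η`, `2 σ₀^2 (σ - τ) = 0`,
`-2 σ₀ (σ + τ) = 0`. -/
def StCUM : Prop :=
  ∃ (x : ℝ × ℝ × ℝ → R4) (σ₀ : ℝ), 0 < σ₀ ∧ σ₀ < 1 ∧ ContDiff ℝ ∞ x ∧
    (∀ u q σ, (1 ≤ |σ| ∨ u ∉ Ioo (0 : ℝ) 1 ∨ q ∉ Ioo (0 : ℝ) 1) → x (u, q, σ) = (σ, 0)) ∧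
    (∀ u q σ, |σ| ≤ 1 → ‖x (u, q, σ)‖ ≤ 3) ∧
    (∀ u q σ, deriv (fun σ => x (u, q, σ)) σ ≠ 0) ∧
    (∀ u q σ τ, σ < τ → x (u, q, σ) = x (u, q, τ) → u = 1 / 2 ∧ q = 1 / 2 ∧ σ = -σ₀ ∧ τ = σ₀) ∧
    x (1 / 2, 1 / 2, -σ₀) = x (1 / 2, 1 / 2, σ₀) ∧
    ∀ ζ η σ τ : ℝ, fderiv ℝ x (1 / 2, 1 / 2, -σ₀) (ζ, η, σ) = fderiv ℝ x (1 / 2, 1 / 2, σ₀) (ζ, η, τ) →
      ζ = 0 ∧ η = 0 ∧ σ = 0 ∧ τ = 0

/-- MODULE CUT (transplantation of the cusp family).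

Proof.  `m = (D.m₀ + D.m₁)/2`.  By `D.emb` and `StA1` (`m_A1`; `D.L` is compact) there is an open `N ⊇ D.L` on which `D.J` is injective and
a local diffeomorphism, in particular smooth (`embOn_iff` in `Helper70/BI/Base.lean`); `D.J (m, 0) = D.c m ∈ D.U` (`core`, `mem`), so there is a small
`η > 0` with `2 η ≤ (m₁ - m₀)/2` such that the ball (sup norm) of radius `4 η` about `(m, 0)` is contained in `N ∩ D.J ⁻¹' D.U`.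
`P (u, q, s) = ((m, 0) : R4) + η • x (u, q, (s - m)/η)`.
Define `c (u, q, s) = if |s - m| < 2 η then D.J (P (u, q, s)) else D.c s`.
For `|s - m| ≤ 2 η` the point `P` is in the ball of radius `4 η` (for `|s - m| ≤ η` by `‖x‖ ≤ 3`, otherwise `P = (s, 0)`), and for
`|s - m| ≥ η` (`|σ| ≥ 1`) it is `(s, 0)`, so `D.J P = D.c s` if `|s - m| ≥ η` and `s ∈ [s₀, s₁]`.  So `c` is smooth (open cover
`|s - m| < 2 η`, `|s - m| > η`), and `c (u,q,s) = D.J (P (u,q,s))` for all `s ∈ [s₀, s₁]`; `c (u,q,s) = D.c s` for `s ≤ m₀` or `m₁ ≤ s`, and for `u ∉ (0,1)` or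
`q ∉ (0,1)` (there `P = (s, 0)`).  In `D.U`: for `|s - m| < 2 η` by the choice of `η`, otherwise by `mem`.
Injectivity: all `P (u,q,s)`, `s ∈ [s₀,s₁]`, are in `N`, so `c (u,q,s) = c (u,q,s')` iff `P (u,q,s) = P (u,q,s')` iff
`x (u,q,σ) = x (u,q,σ')`, `σ = (s - m)/η`.  So there is exactly one double point, `u₀ = q₀ = 1/2`, `a = m - η σ₀`, `b = m + η σ₀`.
Immersed: for `|s - m| < 2 η`: the derivative of `s ↦ c (u,q,s)` is `D(D.J)(P) (x'(σ)) ≠ 0`; for `|s - m| > η`: it is `deriv D.c s`, nonzero on `[s₀, s₁]`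
since `D.c = D.J (·, 0)` on `[s₀, s₁]` (one-sided derivatives at the ends: `HasDerivWithinAt` on `Icc`, unique) and `D(D.J)` is injective.
Transverse: `fderiv c (u₀,q₀,s) (ζ,η',σ) = D(D.J)(P) (η • fderiv x (u₀,q₀,(s-m)/η) (ζ, η', σ/η))`, at `s = a, b`, the same point `P`; cancel the injective
`D(D.J)(P)` and `η`; use the last property of `x` with `σ/η`, `τ/η`. -/
def StCUT : Prop := StCUM → StCUSP

end Pool.Agent.Helper27.H
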